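import Pool.Agent.Lib.MP_5ca50a_lc.Classes

/-!
The spine graph of a context-free grammar.
-/

set_option autoImplicit false

namespace Pool.Agent.MP5ca50a

universe u

open ContextFreeGrammar

variable {T : Type u}

section gen

variable (g : ContextFreeGrammar T)

/-- Big-step derivations. -/
inductive Gen : List (Symbol T g.NT) → List T → Prop
  | nil : Gen [] []
  | term (a : T) {s : List (Symbol T g.NT)} {w : List T} (h : Gen s w) :
      Gen (Symbol.terminal a :: s) (a :: w)
  | rule (ρ : ContextFreeRule T g.NT) (hρ : ρ ∈ g.rules) {u w : List T}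
      {s : List (Symbol T g.NT)} (hu : Gen ρ.output u) (h : Gen s w) :
      Gen (Symbol.nonterminal ρ.input :: s) (u ++ w)

variable {g}

lemma Gen.append {s s' : List (Symbol T g.NT)} {w w' : List T} (h : Gen g s w)
    (h' : Gen g s' w') : Gen g (s ++ s') (w ++ w') := by
  induction h with
  | nil => simpa using h'
  | term a h ih => exact Gen.term a ih
  | rule ρ hρ hu h _ ih =>
    rw [List.append_assoc]
    exact Gen.rule ρ hρ hu ih

lemma Gen.split {s s' : List (Symbol T g.NT)} {w : List T} (h : Gen g (s ++ s') w) :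
    ∃ w₁ w₂, w = w₁ ++ w₂ ∧ Gen g s w₁ ∧ Gen g s' w₂ := by
  induction s generalizing w with
  | nil => exact ⟨[], w, rfl, Gen.nil, h⟩
  | cons x s ih =>
    generalize hx : x :: s ++ s' = z at h
    cases h with
    | nil => simp at hx
    | term a h =>
      simp only [List.cons_append, List.cons.injEq] at hx
      obtain ⟨rfl, rfl⟩ := hx
      obtain ⟨w₁, w₂, rfl, h1, h2⟩ := ih h
      exact ⟨a :: w₁, w₂, rfl, Gen.term a h1, h2⟩
    | @rule ρ hρ u w s'' hu h =>
      simp only [List.cons_append, List.cons.injEq] at hx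
      obtain ⟨rfl, rfl⟩ := hx
      obtain ⟨w₁, w₂, rfl, h1, h2⟩ := ih h
      exact ⟨u ++ w₁, w₂, by simp, Gen.rule ρ hρ hu h1, h2⟩

lemma Gen.single {ρ : ContextFreeRule T g.NT} (hρ : ρ ∈ g.rules) {u : List T}
    (hu : Gen g ρ.output u) : Gen g [Symbol.nonterminal ρ.input] u := by
  simpa using Gen.rule ρ hρ hu Gen.nil

lemma Gen.terminals (w : List T) : Gen g (w.map Symbol.terminal) w := by
  induction w with
  | nil => exact Gen.nil
  | cons a w ih => exact Gen.term a ih

lemma Gen.derives {s : List (Symbol T g.NT)} {w : List T} (h : Gen g s w) :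
    g.Derives s (w.map Symbol.terminal) := by
  induction h with
  | nil => exact Derives.refl _
  | term a h ih => simpa using ih.append_left [Symbol.terminal a]
  | @rule ρ hρ u w s hu h ih₁ ih₂ =>
    have h1 : g.Derives (Symbol.nonterminal ρ.input :: s) (ρ.output ++ s) :=
      Relation.ReflTransGen.single ⟨ρ, hρ, ContextFreeRule.Rewrites.head s⟩
    have h2 := ih₁.append_right s
    have h3 := ih₂.append_left (u.map Symbol.terminal)
    rw [List.map_append]
    exact (h1.trans h2).trans h3

lemma Gen.of_derives {s : List (Symbol T g.NT)} {w : List T}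
    (h : g.Derives s (w.map Symbol.terminal)) : Gen g s w := by
  generalize ht : w.map Symbol.terminal = t at h
  induction h using Relation.ReflTransGen.head_induction_on with
  | refl => subst ht; exact Gen.terminals w
  | head h _ ih =>
    obtain ⟨ρ, hρ, hr⟩ := h
    obtain ⟨p, q, rfl, rfl⟩ := hr.exists_parts
    obtain ⟨w₁, w₂, rfl, h1, h2⟩ := Gen.split ih
    obtain ⟨w₃, w₄, rfl, h3, h4⟩ := Gen.split h1
    exact (h3.append (Gen.single hρ h4)).append h2

lemma gen_iff {s : List (Symbol T g.NT)} {w : List T} :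
    Gen g s w ↔ g.Derives s (w.map Symbol.terminal) := ⟨Gen.derives, Gen.of_derives⟩

lemma mem_language_iff_gen {w : List T} :
    w ∈ g.language ↔ Gen g [Symbol.nonterminal g.initial] w := by
  rw [gen_iff, mem_language_iff]

variable (g)

/-- Middle part of a spine edge. -/
def midOf : Option g.NT → List (Symbol T g.NT)
  | none => []
  | some B => [Symbol.nonterminal B]

/-- Spine edges of a grammar (possibly unproductive ones are excluded). -/
def SpineE : Type u :=
  {x : ContextFreeRule T g.NT × List (Symbol T g.NT) × Option g.NT × List (Symbol T g.NT) //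
    (x.1 ∈ g.rules ∧ x.1.output = x.2.1 ++ midOf g x.2.2.1 ++ x.2.2.2) ∧
      (∃ w, Gen g x.2.1 w) ∧ (∃ w, Gen g x.2.2.2 w)}

instance : Finite (SpineE g) := by
  classical
  let S : Set (ContextFreeRule T g.NT × List (Symbol T g.NT) × Option g.NT ×
      List (Symbol T g.NT)) :=
    ⋃ ρ ∈ (g.rules : Set (ContextFreeRule T g.NT)),
      ({ρ} : Set (ContextFreeRule T g.NT)) ×ˢ ({p | p ∈ ρ.output.inits} ×ˢ
        ({b | b = none ∨ b ∈ ρ.output.map (fun x => match x with
          | Symbol.terminal _ => none
          | Symbol.nonterminal B => some B)} ×ˢ {s | s ∈ ρ.output.tails}))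
  have hS : S.Finite := by
    refine Set.Finite.biUnion (Finset.finite_toSet _) (fun ρ _ => ?_)
    refine (Set.finite_singleton ρ).prod (Set.Finite.prod (List.finite_toSet _)
      (Set.Finite.prod ?_ (List.finite_toSet _)))
    exact (Set.finite_singleton none).union (List.finite_toSet _)
  refine Set.Finite.subset hS ?_
  rintro ⟨ρ, p, b, s⟩ ⟨⟨hρ, ho⟩, -, -⟩
  simp only at hρ ho
  refine Set.mem_biUnion (x := ρ) (Finset.mem_coe.mpr hρ) ⟨rfl, ?_, ?_, ?_⟩
  · simp only [List.mem_inits, Set.mem_ofPred_eq]
    exact ⟨midOf g b ++ s, by rw [ho]; simp⟩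
  · cases b with
    | none => left; rfl
    | some B =>
      right
      simp only [List.mem_map]
      exact ⟨Symbol.nonterminal B, by rw [ho]; simp [midOf], rfl⟩
  · simp only [List.mem_tails, Set.mem_ofPred_eq]
    exact ⟨p ++ midOf g b, by rw [ho]⟩

/-- The spine graph of a grammar. -/
def spine : Spine T (Option g.NT) (SpineE g) where
  src e := some e.1.1.input
  tgt e := e.1.2.2.1
  l e := {w | Gen g e.1.2.1 w}
  r e := {w | Gen g e.1.2.2.2 w}
  l_ne e := e.2.2.1
  r_ne e := e.2.2.2

variable {g}

lemma spine_sound {v : Option g.NT} {π : List (SpineE g)} (hπ : (spine g).IsPath v π none)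
    {w β : List T} (hw : w ∈ (spine g).L π) (hβ : β ∈ (spine g).R π) :
    Gen g (midOf g v) (w ++ β) := by
  induction π generalizing v w β with
  | nil =>
    cases hπ
    rw [Spine.L_nil] at hw
    rw [Spine.R_nil] at hβ
    cases hw
    cases hβ
    exact Gen.nil
  | cons e π ih =>
    obtain ⟨rfl, hπ⟩ := hπ
    rw [Spine.L_cons] at hw
    rw [Spine.R_cons] at hβ
    obtain ⟨w₁, hw₁, w₂, hw₂, rfl⟩ := hw
    obtain ⟨β₂, hβ₂, β₁, hβ₁, rfl⟩ := hβ
    have h1 := ih hπ hw₂ hβ₂
    have h2 : Gen g e.1.1.output (w₁ ++ (w₂ ++ β₂) ++ β₁) := by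
      rw [e.2.1.2]
      exact (Gen.append hw₁ h1).append hβ₁
    have h3 := Gen.single e.2.1.1 h2
    simpa [List.append_assoc, spine, midOf] using h3

lemma spine_complete {s : List (Symbol T g.NT)} {W : List T} (h : Gen g s W) :
    ∀ w β : List T, W = w ++ β →
      (∃ p q, s = p ++ q ∧ Gen g p w ∧ Gen g q β) ∨
      (∃ p B q w₁ w' β' β₁, s = p ++ Symbol.nonterminal B :: q ∧ w = w₁ ++ w' ∧ β = β' ++ β₁ ∧
        Gen g p w₁ ∧ Gen g q β₁ ∧
          ∃ π, (spine g).IsPath (some B) π none ∧ w' ∈ (spine g).L π ∧ β' ∈ (spine g).R π) := by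
  induction h with
  | nil =>
    intro w β h
    obtain ⟨rfl, rfl⟩ := List.append_eq_nil_iff.mp h.symm
    exact Or.inl ⟨[], [], rfl, Gen.nil, Gen.nil⟩
  | @term a s W h ih =>
    intro w β hw
    cases w with
    | nil =>
      left
      simp only [List.nil_append] at hw
      subst hw
      exact ⟨[], _, rfl, Gen.nil, Gen.term a h⟩
    | cons a' w =>
      simp only [List.cons_append, List.cons.injEq] at hw
      obtain ⟨rfl, rfl⟩ := hw
      rcases ih w β rfl with ⟨p, q, rfl, h1, h2⟩ | ⟨p, B, q, w₁, w', β', β₁, rfl, rfl, rfl, h1, h2, h3⟩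
      · exact Or.inl ⟨_ :: p, q, rfl, Gen.term _ h1, h2⟩
      · exact Or.inr ⟨_ :: p, B, q, _ :: w₁, w', β', β₁, rfl, rfl, rfl, Gen.term _ h1, h2, h3⟩
  | @rule ρ hρ u W s hu h ih₁ ih₂ =>
    intro w β hw
    rcases List.append_eq_append_iff.mp hw with ⟨x, rfl, rfl⟩ | ⟨x, rfl, rfl⟩
    · -- w = u ++ x
      rcases ih₂ x β rfl with ⟨p, q, rfl, h1, h2⟩ | ⟨p, B, q, w₁, w', β', β₁, rfl, rfl, rfl, h1, h2, h3⟩
      · exact Or.inl ⟨_ :: p, q, rfl, Gen.rule ρ hρ hu h1, h2⟩
      · exact Or.inr ⟨_ :: p, B, q, u ++ w₁, w', β', β₁, rfl, by simp, rfl,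
          Gen.rule ρ hρ hu h1, h2, h3⟩
    · -- u = w ++ x, β = x ++ W
      right
      refine ⟨[], ρ.input, s, [], w, x, W, rfl, rfl, rfl, Gen.nil, h, ?_⟩
      rcases ih₁ w x rfl with ⟨p, q, ho, h1, h2⟩ | ⟨p, B, q, w₁, w', β', β₁, ho, rfl, rfl, h1, h2, h3⟩
      · let e : SpineE g := ⟨(ρ, p, none, q), ⟨hρ, by simpa [midOf] using ho⟩, ⟨_, h1⟩, ⟨_, h2⟩⟩
        refine ⟨[e], ⟨rfl, rfl⟩, ?_, ?_⟩
        · rw [Spine.L_cons, Spine.L_nil, mul_one]
          exact h1
        · rw [Spine.R_cons, Spine.R_nil, one_mul]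
          exact h2
      · obtain ⟨π, h4, h5, h6⟩ := h3
        let e : SpineE g := ⟨(ρ, p, some B, q), ⟨hρ, by simpa [midOf] using ho⟩, ⟨_, h1⟩, ⟨_, h2⟩⟩
        refine ⟨e :: π, ⟨rfl, h4⟩, ?_, ?_⟩
        · rw [Spine.L_cons]
          exact Language.append_mem_mul h1 h5
        · rw [Spine.R_cons]
          exact Language.append_mem_mul h6 h2

theorem spine_presents (g : ContextFreeGrammar T) :
    (spine g).Presents g.language (some g.initial) none := by
  intro w β
  rw [mem_language_iff_gen]
  constructor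
  · intro h
    rcases spine_complete h w β rfl with ⟨p, q, ho, h1, h2⟩ | ⟨p, B, q, w₁, w', β', β₁, ho, rfl, rfl, h1, h2, h3⟩
    · rcases List.append_eq_singleton_iff.mp ho.symm with ⟨rfl, rfl⟩ | ⟨rfl, rfl⟩
      · -- p = [], q = [S]
        generalize hz : ([] : List (Symbol T g.NT)) = z at h1
        cases h1 with
        | nil =>
          generalize hz' : [Symbol.nonterminal g.initial] = z' at h2
          cases h2 with
          | nil => simp at hz'
          | term a h => simp at hz'
          | @rule ρ hρ u w s hu h =>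
            simp only [List.cons.injEq, Symbol.nonterminal.injEq] at hz'
            obtain ⟨hi, rfl⟩ := hz'
            cases h
            let e : SpineE g := ⟨(ρ, [], none, ρ.output), ⟨hρ, by simp [midOf]⟩,
              ⟨_, Gen.nil⟩, ⟨_, hu⟩⟩
            refine ⟨[e], ⟨?_, rfl⟩, ?_, ?_⟩
            · simp [spine, e, hi]
            · simp only [Spine.L_cons, Spine.L_nil, mul_one]
              exact Gen.nil
            · simp only [Spine.R_cons, Spine.R_nil, one_mul, List.append_nil]
              exact hu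
        | term a h => simp at hz
        | rule ρ hρ hu h => simp at hz
      · generalize hz : ([] : List (Symbol T g.NT)) = z at h2
        cases h2 with
        | nil =>
          generalize hz' : [Symbol.nonterminal g.initial] = z' at h1
          cases h1 with
          | nil => simp at hz'
          | term a h => simp at hz'
          | @rule ρ hρ u w s hu h =>
            simp only [List.cons.injEq, Symbol.nonterminal.injEq] at hz'
            obtain ⟨hi, rfl⟩ := hz'
            cases h
            let e : SpineE g := ⟨(ρ, ρ.output, none, []), ⟨hρ, by simp [midOf]⟩,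
              ⟨_, hu⟩, ⟨_, Gen.nil⟩⟩
            refine ⟨[e], ⟨?_, rfl⟩, ?_, ?_⟩
            · simp [spine, e, hi]
            · simp only [Spine.L_cons, Spine.L_nil, mul_one, List.append_nil]
              exact hu
            · simp only [Spine.R_cons, Spine.R_nil, one_mul]
              exact Gen.nil
        | term a h => simp at hz
        | rule ρ hρ hu h => simp at hz
    · have hp : p = [] := by
        cases p with
        | nil => rfl
        | cons a p => simp at ho
      subst hp
      simp only [List.nil_append, List.cons.injEq, Symbol.nonterminal.injEq] at ho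
      obtain ⟨rfl, rfl⟩ := ho
      obtain ⟨π, h4, h5, h6⟩ := h3
      cases h1
      cases h2
      exact ⟨π, h4, by simpa using h5, by simpa using h6⟩
  · rintro ⟨π, h1, h2, h3⟩
    exact spine_sound h1 h2 h3

end gen

/-- Theorem B: context-free plus `P_k` implies regular when groups of exponent `k` are locally
finite. -/
theorem regular_of_burnside {k : ℕ} (hk : 1 ≤ k) (hB : BurnsideFinite.{u} k) {K : Language T}
    (hK : K.IsContextFree) (hP : CondP k K) : K.IsRegular := by
  obtain ⟨g, rfl⟩ := hK
  obtain ⟨k, rfl⟩ : ∃ k', k = k' + 1 := ⟨k - 1, by omega⟩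
  exact Language.IsRegular.of_finite_range_leftQuotient
    (Spine.finite_quotients_of_burnside hB hP (spine_presents g))

end Pool.Agent.MP5ca50a
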