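import Pool.Agent.Lib.MP_5ca50a_lc.Grp
import Pool.Agent.Lib.MP_5ca50a_lc.Grammar

/-!
Binary grammars, derivation contexts and the associated family of languages.
-/

set_option autoImplicit false

namespace Pool.Agent.MP5ca50a

/-- A binary grammar (rules to the empty word, to a letter, to two labels). -/
structure BG (T N : Type) where
  e : N → Prop
  t : N → T → Prop
  b : N → N → N → Prop

namespace BG

variable {T N : Type} (g : BG T N)

/-- Derivable words. -/
inductive Der : N → List T → Prop
  | eps {A : N} (h : g.e A) : Der A []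
  | ter {A : N} {a : T} (h : g.t A a) : Der A [a]
  | bin {A B C : N} {w w' : List T} (h : g.b A B C) (hB : Der B w) (hC : Der C w') :
      Der A (w ++ w')

/-- Derivation contexts. -/
inductive DC : N → List T → List T → N → Prop
  | refl (A : N) : DC A [] [] A
  | left {A B C D : N} {s t w : List T} (h : g.b A B C) (hC : g.Der C w) (hD : DC B s t D) :
      DC A s (t ++ w) D
  | right {A B C D : N} {s t w : List T} (h : g.b A B C) (hB : g.Der B w) (hD : DC C s t D) :
      DC A (w ++ s) t D

variable {g}

lemma DC.trans {A B C : N} {s t s' t' : List T} (h : g.DC A s t B) (h' : g.DC B s' t' C) :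
    g.DC A (s ++ s') (t' ++ t) C := by
  induction h with
  | refl => simpa using h'
  | left hr hC _ ih =>
    rw [← List.append_assoc]
    exact DC.left hr hC (ih h')
  | right hr hB _ ih =>
    rw [List.append_assoc]
    exact DC.right hr hB (ih h')

lemma DC.der {A B : N} {s t m : List T} (h : g.DC A s t B) (hm : g.Der B m) :
    g.Der A (s ++ m ++ t) := by
  induction h with
  | refl => simpa using hm
  | left hr hC _ ih =>
    rw [← List.append_assoc]
    exact Der.bin hr (ih hm) hC
  | right hr hB _ ih =>
    have := Der.bin hr hB (ih hm)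
    simpa [List.append_assoc] using this

lemma DC.left1 {A B C : N} {w : List T} (h : g.b A B C) (hC : g.Der C w) :
    g.DC A [] w B := by
  simpa using DC.left h hC (DC.refl B)

lemma DC.right1 {A B C : N} {w : List T} (h : g.b A B C) (hB : g.Der B w) :
    g.DC A w [] C := by
  simpa using DC.right h hB (DC.refl C)

variable (g)

/-- The language of a label. -/
def Lg (S : N) : Language T := {w | g.Der S w}

lemma mem_Lg {S : N} {w : List T} : w ∈ g.Lg S ↔ g.Der S w := Iff.rfl

/-- The languages `M_B` of words accepted in all derivation contexts. -/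
def M (S B : N) : Language T := {m | ∀ s t, g.DC S s t B → g.Der S (s ++ m ++ t)}

variable {g}

lemma mem_M {S B : N} {m : List T} :
    m ∈ g.M S B ↔ ∀ s t, g.DC S s t B → g.Der S (s ++ m ++ t) := Iff.rfl

lemma mem_M_self {S : N} {w : List T} : w ∈ g.M S S ↔ g.Der S w := by
  constructor
  · intro h
    simpa using h [] [] (DC.refl S)
  · intro h s t hst
    exact hst.der h

lemma der_mem_M {S B : N} {m : List T} (h : g.Der B m) : m ∈ g.M S B :=
  fun _ _ hst => hst.der h

lemma DC.tt {S A B : N} {s t : List T} (h : g.DC A s t B) : TT (g.M S A) (g.M S B) s t := by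
  intro m hm s' t' hst
  have := hm _ _ (hst.trans h)
  simpa [List.append_assoc] using this

lemma condP_M {k : ℕ} {S : N} (hP : CondP k (g.Lg S)) (B : N) :
    CondP k (g.M S B) := by
  intro x u y v z huv h m m' s t hst
  have := hP (s ++ x) u y v (z ++ t) huv (fun n hn => by
    have h1 := h n hn s t hst
    show g.Der S _
    simpa [List.append_assoc] using h1) m m'
  have h2 : g.Der S (s ++ x ++ wpow u (k * m) ++ y ++ wpow v (k * m') ++ (z ++ t)) := this
  simpa [List.append_assoc] using h2

end BG

section fromCFG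

variable {T : Type} (G : ContextFreeGrammar T)

/-- The label set: suffixes of right hand sides, the start, single letters. -/
def labSet : Set (List (Symbol T G.NT)) :=
  {s | (∃ ρ ∈ G.rules, s <:+ ρ.output) ∨ s = [Symbol.nonterminal G.initial] ∨ s = [] ∨
    ∃ a, s = [Symbol.terminal a]}

lemma labSet_finite [Finite T] : (labSet G).Finite := by
  have h1 : {s : List (Symbol T G.NT) | ∃ ρ ∈ G.rules, s <:+ ρ.output}.Finite := by
    have : {s : List (Symbol T G.NT) | ∃ ρ ∈ G.rules, s <:+ ρ.output} =
        ⋃ ρ ∈ (G.rules : Set (ContextFreeRule T G.NT)), {s | s ∈ ρ.output.tails} := by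
      ext s
      simp [List.mem_tails]
    rw [this]
    exact Set.Finite.biUnion (Finset.finite_toSet _) (fun ρ _ => List.finite_toSet _)
  have h2 : {s : List (Symbol T G.NT) | ∃ a, s = [Symbol.terminal a]}.Finite := by
    have : {s : List (Symbol T G.NT) | ∃ a, s = [Symbol.terminal a]} =
        Set.range (fun a : T => ([Symbol.terminal a] : List (Symbol T G.NT))) := by
      ext s
      simp [eq_comm]
    rw [this]
    exact Set.finite_range _
  refine (((h1.union (Set.finite_singleton [Symbol.nonterminal G.initial])).union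
    (Set.finite_singleton [])).union h2).subset ?_
  rintro s (h | h | h | h)
  · exact Or.inl (Or.inl (Or.inl h))
  · exact Or.inl (Or.inl (Or.inr h))
  · exact Or.inl (Or.inr h)
  · exact Or.inr h

/-- The labels. -/
def CLab : Type := {s : List (Symbol T G.NT) // s ∈ labSet G}

lemma finite_CLab [Finite T] : Finite (CLab G) := (labSet_finite G).to_subtype

/-- The binary grammar of a context-free grammar. -/
def toBG : BG T (CLab G) where
  e s := s.1 = []
  t s a := s.1 = [Symbol.terminal a]
  b s s' s'' := (∃ a, s.1 = Symbol.terminal a :: s''.1 ∧ s'.1 = [Symbol.terminal a]) ∨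
    ∃ ρ ∈ G.rules, s.1 = Symbol.nonterminal ρ.input :: s''.1 ∧ s'.1 = ρ.output

variable {G}

lemma gen_of_der {s : CLab G} {w : List T} (h : (toBG G).Der s w) : Gen G s.1 w := by
  induction h with
  | eps h =>
    rw [show _ = [] from h]
    exact Gen.nil
  | ter h =>
    rw [show _ = _ from h]
    exact Gen.term _ Gen.nil
  | @bin s s' s'' w w' h _ _ ih1 ih2 =>
    rcases h with ⟨a, h1, h2⟩ | ⟨ρ, hρ, h1, h2⟩
    · rw [h1, show Symbol.terminal a :: s''.1 = [Symbol.terminal a] ++ s''.1 from rfl, ← h2]
      exact ih1.append ih2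
    · rw [h1]
      exact Gen.rule ρ hρ (h2 ▸ ih1) ih2

lemma der_of_gen {s : List (Symbol T G.NT)} {w : List T} (h : Gen G s w) :
    ∀ hs : s ∈ labSet G, (toBG G).Der ⟨s, hs⟩ w := by
  have htail : ∀ (x : Symbol T G.NT) (s : List (Symbol T G.NT)), x :: s ∈ labSet G →
      s ∈ labSet G := by
    rintro x s (⟨ρ, hρ, h⟩ | h | h | ⟨a, h⟩)
    · exact Or.inl ⟨ρ, hρ, (List.suffix_cons x s).trans h⟩
    · simp only [List.cons.injEq] at h
      exact Or.inr (Or.inr (Or.inl h.2))
    · simp at h
    · simp only [List.cons.injEq] at h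
      exact Or.inr (Or.inr (Or.inl h.2))
  induction h with
  | nil => intro hs; exact BG.Der.eps rfl
  | @term a s w h ih =>
    intro hs
    have hs' := htail _ _ hs
    have ha : [Symbol.terminal a] ∈ labSet G := Or.inr (Or.inr (Or.inr ⟨a, rfl⟩))
    have h1 : (toBG G).Der ⟨[Symbol.terminal a], ha⟩ [a] := BG.Der.ter rfl
    exact BG.Der.bin (w := [a]) (w' := w) (B := ⟨[Symbol.terminal a], ha⟩) (C := ⟨s, hs'⟩)
      (Or.inl ⟨a, rfl, rfl⟩) h1 (ih hs')
  | @rule ρ hρ u w s hu h ih₁ ih₂ =>
    intro hs
    have hs' := htail _ _ hs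
    have ho : ρ.output ∈ labSet G := Or.inl ⟨ρ, hρ, List.suffix_refl _⟩
    exact BG.Der.bin (B := ⟨ρ.output, ho⟩) (C := ⟨s, hs'⟩)
      (Or.inr ⟨ρ, hρ, rfl, rfl⟩) (ih₁ ho) (ih₂ hs')

/-- Every context-free language is the language of a finite binary grammar. -/
theorem exists_bg [Finite T] {L : Language T} (hL : L.IsContextFree) :
    ∃ (N : Type) (_ : Finite N) (g : BG T N) (S : N), ∀ w, w ∈ L ↔ g.Der S w := by
  obtain ⟨G, rfl⟩ := hL
  refine ⟨CLab G, finite_CLab G, toBG G, ⟨[Symbol.nonterminal G.initial], Or.inr (Or.inl rfl)⟩,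
    fun w => ?_⟩
  rw [mem_language_iff_gen]
  exact ⟨fun h => der_of_gen h _, fun h => gen_of_der h⟩

end fromCFG

end Pool.Agent.MP5ca50a
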