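import Mathlib

/-!
Alphabets, letter maps and refinements (definitions used by the group lemmas).
-/

set_option autoImplicit false

namespace Pool.Agent.MP5ca50a

universe u v w

/-- Value of a word under a letter map. -/
def ev {ι : Type u} {G : Type v} [Monoid G] (f : ι → G) (W : List ι) : G := (W.map f).prod

/-- The letter map takes infinitely many values on words. -/
def InfImg {ι : Type u} {G : Type v} [Monoid G] (f : ι → G) : Prop :=
  (Set.range (ev f)).Infinite

section

variable {ι : Type u} {κ : Type w} {G : Type v} [Monoid G] (f : ι → G)

@[simp] lemma ev_nil : ev f [] = 1 := rfl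

@[simp] lemma ev_cons (a : ι) (W : List ι) : ev f (a :: W) = f a * ev f W := by simp [ev]

@[simp] lemma ev_append (V W : List ι) : ev f (V ++ W) = ev f V * ev f W := by simp [ev]

lemma ev_singleton (a : ι) : ev f [a] = f a := by simp

/-- Substitution: evaluating a substituted word. -/
lemma ev_flatMap (φ : κ → List ι) (W : List κ) :
    ev f (W.flatMap φ) = ev (fun a => ev f (φ a)) W := by
  induction W with
  | nil => simp
  | cons a W ih => simp [ih]

lemma ev_flatten (W : List (List ι)) : ev f W.flatten = (W.map (ev f)).prod := by
  induction W with
  | nil => simp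
  | cons a W ih => simp [ih]

lemma ev_replicate (n : ℕ) (a : ι) : ev f (List.replicate n a) = f a ^ n := by
  simp [ev]

lemma ev_replicate_flatten (n : ℕ) (W : List ι) :
    ev f (List.replicate n W).flatten = ev f W ^ n := by
  simp [ev_flatten]

end

/-- Reversal against inversion. -/
lemma ev_inv_reverse {ι : Type u} {G : Type v} [Group G] (f : ι → G) (W : List ι) :
    (ev f W)⁻¹ = ev (fun a => (f a)⁻¹) W.reverse := by
  induction W with
  | nil => simp
  | cons a W ih => simp [ih]

end Pool.Agent.MP5ca50a
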