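import Pool.Agent.Lib.MP_5ca50a_lc.Classes

/-!
Finitely generated groups of exponent dividing 3 or 4 are finite.
-/

set_option autoImplicit false

namespace Pool.Agent.MP5ca50a

universe w

section generic

/-- If every finite subgroup can be enlarged by one element, f.g. groups are finite. -/
lemma finite_of_extend {Q : Type w} [Group Q] (hfg : Group.FG Q)
    (hext : ∀ (H : Subgroup Q), Finite H → ∀ x : Q, ∃ K : Subgroup Q, Finite K ∧ H ≤ K ∧ x ∈ K) :
    Finite Q := by
  classical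
  obtain ⟨S, hS⟩ := hfg.out
  have key : ∀ S : Finset Q, ∃ K : Subgroup Q, Finite K ∧ (S : Set Q) ⊆ K := by
    intro S
    induction S using Finset.induction_on with
    | empty => exact ⟨⊥, inferInstance, by simp⟩
    | insert x S _ ih =>
      obtain ⟨K, hK, hSK⟩ := ih
      obtain ⟨K', hK', hKK', hx⟩ := hext K hK x
      refine ⟨K', hK', ?_⟩
      rw [Finset.coe_insert]
      exact Set.insert_subset hx (hSK.trans hKK')
  obtain ⟨K, hK, hSK⟩ := key S
  have : K = ⊤ := by
    rw [eq_top_iff, ← hS]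
    exact (Subgroup.closure_le K).mpr hSK
  subst this
  exact Finite.of_equiv _ (Subgroup.topEquiv (G := Q)).toEquiv

end generic

section three

variable {Q : Type w} [Group Q]

lemma three_id (hQ : ∀ g : Q, g ^ 3 = 1) (x h : Q) : x * h * x = h⁻¹ * x⁻¹ * h⁻¹ := by
  have h1 : (x * h) * (x * h) * (x * h) = 1 := by
    have := hQ (x * h)
    rwa [pow_succ, pow_two] at this
  have h2 : (x * h * x) * (h * x * h) = 1 := by
    simpa [mul_assoc] using h1
  rw [eq_inv_of_mul_eq_one_left h2]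
  simp [mul_assoc]

lemma three_inv (hQ : ∀ g : Q, g ^ 3 = 1) (x : Q) : x⁻¹ = x * x := by
  have h1 := hQ x
  rw [pow_succ, pow_two] at h1
  exact (eq_inv_of_mul_eq_one_left h1).symm

/-- The normal forms for exponent 3. -/
def NF3 (H : Subgroup Q) (x : Q) : Set Q :=
  {g | ∃ a ∈ H, ∃ b ∈ H, ∃ c ∈ H, g = a ∨ g = a * x * b ∨ g = a * x⁻¹ * b ∨
    g = a * x * b * x⁻¹ * c ∨ g = a * x⁻¹ * b * x * c}

lemma NF3_finite (H : Subgroup Q) [Finite H] (x : Q) : (NF3 H x).Finite := by
  have h1 : ∀ f : H × H × H → Q, (Set.range f).Finite := fun f => Set.finite_range f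
  refine ((h1 (fun p => (p.1 : Q))).union ((h1 (fun p => (p.1 : Q) * x * p.2.1)).union
    ((h1 (fun p => (p.1 : Q) * x⁻¹ * p.2.1)).union
    ((h1 (fun p => (p.1 : Q) * x * p.2.1 * x⁻¹ * p.2.2)).union
      (h1 (fun p => (p.1 : Q) * x⁻¹ * p.2.1 * x * p.2.2)))))).subset ?_
  rintro g ⟨a, ha, b, hb, c, hc, h | h | h | h | h⟩
  · exact Or.inl ⟨(⟨a, ha⟩, ⟨b, hb⟩, ⟨c, hc⟩), h.symm⟩
  · exact Or.inr (Or.inl ⟨(⟨a, ha⟩, ⟨b, hb⟩, ⟨c, hc⟩), h.symm⟩)
  · exact Or.inr (Or.inr (Or.inl ⟨(⟨a, ha⟩, ⟨b, hb⟩, ⟨c, hc⟩), h.symm⟩))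
  · exact Or.inr (Or.inr (Or.inr (Or.inl ⟨(⟨a, ha⟩, ⟨b, hb⟩, ⟨c, hc⟩), h.symm⟩)))
  · exact Or.inr (Or.inr (Or.inr (Or.inr ⟨(⟨a, ha⟩, ⟨b, hb⟩, ⟨c, hc⟩), h.symm⟩)))

lemma NF3_mul_mem {H : Subgroup Q} {x g h : Q} (hg : g ∈ NF3 H x) (hh : h ∈ H) :
    g * h ∈ NF3 H x := by
  obtain ⟨a, ha, b, hb, c, hc, e | e | e | e | e⟩ := hg
  · exact ⟨a * h, mul_mem ha hh, b, hb, c, hc, Or.inl (by rw [e])⟩
  · exact ⟨a, ha, b * h, mul_mem hb hh, c, hc, Or.inr (Or.inl (by rw [e]; group))⟩
  · exact ⟨a, ha, b * h, mul_mem hb hh, c, hc, Or.inr (Or.inr (Or.inl (by rw [e]; group)))⟩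
  · exact ⟨a, ha, b, hb, c * h, mul_mem hc hh, Or.inr (Or.inr (Or.inr (Or.inl (by rw [e]; group))))⟩
  · exact ⟨a, ha, b, hb, c * h, mul_mem hc hh,
      Or.inr (Or.inr (Or.inr (Or.inr (by rw [e]; group))))⟩

lemma NF3_mul_x (hQ : ∀ g : Q, g ^ 3 = 1) {H : Subgroup Q} {x g : Q} (hg : g ∈ NF3 H x) :
    g * x ∈ NF3 H x := by
  have id1 := fun h => three_id hQ x h
  have id2 := fun h => three_id hQ x⁻¹ h
  have hinv := three_inv hQ x
  obtain ⟨a, ha, b, hb, c, hc, e | e | e | e | e⟩ := hg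
  · exact ⟨a, ha, 1, one_mem H, 1, one_mem H, Or.inr (Or.inl (by rw [e]; simp))⟩
  · refine ⟨a * b⁻¹, mul_mem ha (inv_mem hb), b⁻¹, inv_mem hb, 1, one_mem H,
      Or.inr (Or.inr (Or.inl ?_))⟩
    calc g * x = a * (x * b * x) := by rw [e]; group
      _ = a * b⁻¹ * x⁻¹ * b⁻¹ := by rw [id1]; group
  · exact ⟨a, ha, b, hb, 1, one_mem H, Or.inr (Or.inr (Or.inr (Or.inr (by rw [e]; simp))))⟩
  · -- a x b x⁻¹ c x
    refine ⟨a * b⁻¹ * (c * b), ?_, c * b * c⁻¹, ?_, 1, one_mem H, Or.inr (Or.inl ?_)⟩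
    · exact mul_mem (mul_mem ha (inv_mem hb)) (mul_mem hc hb)
    · exact mul_mem (mul_mem hc hb) (inv_mem hc)
    · calc g * x = a * (x * b * x) * (x * c * x) := by rw [e, hinv]; group
        _ = a * b⁻¹ * (x⁻¹ * (b⁻¹ * c⁻¹) * x⁻¹) * c⁻¹ := by rw [id1, id1]; group
        _ = a * b⁻¹ * (c * b) * x * (c * b * c⁻¹) := by rw [id2]; group
  · -- a x⁻¹ b x c x
    refine ⟨a * (c * b⁻¹), ?_, c * b⁻¹ * c⁻¹, ?_, 1, one_mem H, Or.inr (Or.inl ?_)⟩
    · exact mul_mem ha (mul_mem hc (inv_mem hb))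
    · exact mul_mem (mul_mem hc (inv_mem hb)) (inv_mem hc)
    · calc g * x = a * x⁻¹ * b * (x * c * x) := by rw [e]; group
        _ = a * (x⁻¹ * (b * c⁻¹) * x⁻¹) * c⁻¹ := by rw [id1]; group
        _ = a * (c * b⁻¹) * x * (c * b⁻¹ * c⁻¹) := by rw [id2]; group

theorem burnside_three : BurnsideFinite.{w} 3 := by
  intro Q _ hfg hQ
  refine finite_of_extend hfg (fun H hH x => ?_)
  have hxi : ∀ g ∈ NF3 H x, g * x⁻¹ ∈ NF3 H x := fun g hg => by
    rw [three_inv hQ x, ← mul_assoc]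
    exact NF3_mul_x hQ (NF3_mul_x hQ hg)
  have hmul : ∀ g ∈ NF3 H x, ∀ g' ∈ NF3 H x, g * g' ∈ NF3 H x := by
    rintro g hg g' ⟨a, ha, b, hb, c, hc, e | e | e | e | e⟩
    · rw [e]; exact NF3_mul_mem hg ha
    · rw [e, ← mul_assoc, ← mul_assoc]
      exact NF3_mul_mem (NF3_mul_x hQ (NF3_mul_mem hg ha)) hb
    · rw [e, ← mul_assoc, ← mul_assoc]
      exact NF3_mul_mem (hxi _ (NF3_mul_mem hg ha)) hb
    · rw [e, ← mul_assoc, ← mul_assoc, ← mul_assoc, ← mul_assoc]
      exact NF3_mul_mem (hxi _ (NF3_mul_mem (NF3_mul_x hQ (NF3_mul_mem hg ha)) hb)) hc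
    · rw [e, ← mul_assoc, ← mul_assoc, ← mul_assoc, ← mul_assoc]
      exact NF3_mul_mem (NF3_mul_x hQ (NF3_mul_mem (hxi _ (NF3_mul_mem hg ha)) hb)) hc
  have hone : ∀ a ∈ H, a ∈ NF3 H x := fun a ha => ⟨a, ha, 1, one_mem H, 1, one_mem H, Or.inl rfl⟩
  let K : Subgroup Q :=
    { carrier := NF3 H x
      mul_mem' := fun {g g'} hg hg' => hmul g hg g' hg'
      one_mem' := hone 1 (one_mem H)
      inv_mem' := fun {g} hg => by
        rw [three_inv hQ g]
        exact hmul g hg g hg }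
  refine ⟨K, (NF3_finite H x).to_subtype, hone, ?_⟩
  exact ⟨1, one_mem H, 1, one_mem H, 1, one_mem H, Or.inr (Or.inl (by simp))⟩

end three

section four

variable {Q : Type w} [Group Q]

lemma four_id (hQ : ∀ g : Q, g ^ 4 = 1) (x h : Q) :
    x * h * x = h⁻¹ * x * ((x * x)⁻¹ * h⁻¹) * x * ((x * x)⁻¹ * h⁻¹) := by
  have h1 : (x * h) * (x * h) * (x * h) * (x * h) = 1 := by
    have := hQ (x * h)
    rwa [pow_succ, pow_succ, pow_two] at this
  have h2 : (x * h * x) * (h * x * h * x * h) = 1 := by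
    simpa [mul_assoc] using h1
  rw [eq_inv_of_mul_eq_one_left h2]
  group

/-- Evaluate a list `h₁ x h₂ x … hₙ x`. -/
def ev (x : Q) (l : List Q) : Q := (l.map (fun h => h * x)).prod

@[simp] lemma ev_nil (x : Q) : ev x [] = 1 := by simp [ev]
@[simp] lemma ev_cons (x h : Q) (l : List Q) : ev x (h :: l) = h * x * ev x l := by simp [ev]
lemma ev_append (x : Q) (l l' : List Q) : ev x (l ++ l') = ev x l * ev x l' := by simp [ev]

/-- Absorb an element of `H` from the left. -/
lemma ev_absorb {H : Subgroup Q} (x : Q) {u : Q} (hu : u ∈ H) {l : List Q} (hl : ∀ h ∈ l, h ∈ H) :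
    ∃ l' u', l'.length = l.length ∧ (∀ h ∈ l', h ∈ H) ∧ u' ∈ H ∧
      u * ev x l = ev x l' * u' := by
  cases l with
  | nil => exact ⟨[], u, rfl, by simp, hu, by simp⟩
  | cons h l =>
    refine ⟨(u * h) :: l, 1, rfl, ?_, one_mem H, by simp [mul_assoc]⟩
    intro h' hh'
    rcases List.mem_cons.mp hh' with rfl | hh'
    · exact mul_mem hu (hl h (by simp))
    · exact hl h' (by simp [hh'])

/-- The twisted product. -/
def tw : List Q → Q
  | [] => 1
  | h :: t => h * (tw t)⁻¹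

lemma tw_mem {H : Subgroup Q} {l : List Q} (hl : ∀ h ∈ l, h ∈ H) : tw l ∈ H := by
  induction l with
  | nil => exact one_mem H
  | cons h l ih =>
    exact mul_mem (hl h (by simp)) (inv_mem (ih (fun h' hh' => hl h' (by simp [hh']))))

/-- Propagation of the twisted product to the left. -/
lemma ev_tw (hQ : ∀ g : Q, g ^ 4 = 1) {H : Subgroup Q} {x : Q} (hx : x * x ∈ H)
    (h : Q) (t : List Q) (hl : ∀ h' ∈ h :: t, h' ∈ H) :
    ∃ l' c, l'.length = t.length ∧ (∀ h ∈ l', h ∈ H) ∧ c ∈ H ∧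
      ev x (h :: t) = tw (h :: t) * x * ev x l' * c := by
  induction t generalizing h with
  | nil => exact ⟨[], 1, rfl, by simp, one_mem H, by simp [tw]⟩
  | cons h' t ih =>
    obtain ⟨l', c, h1, h2, h3, h4⟩ := ih h' (fun y hy => hl y (List.mem_cons_of_mem _ hy))
    have htw : tw (h' :: t) ∈ H := tw_mem (fun y hy => hl y (List.mem_cons_of_mem _ hy))
    have hu : (x * x)⁻¹ * (tw (h' :: t))⁻¹ ∈ H := mul_mem (inv_mem hx) (inv_mem htw)
    obtain ⟨l'', u', h5, h6, h7, h8⟩ := ev_absorb x hu h2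
    refine ⟨((x * x)⁻¹ * (tw (h' :: t))⁻¹) :: l'', u' * c, by simp [h5, h1], ?_,
      mul_mem h7 h3, ?_⟩
    · intro y hy
      rcases List.mem_cons.mp hy with rfl | hy
      · exact hu
      · exact h6 y hy
    · rw [ev_cons, h4]
      calc h * x * (tw (h' :: t) * x * ev x l' * c)
          = h * (x * tw (h' :: t) * x) * ev x l' * c := by group
        _ = h * (tw (h' :: t))⁻¹ * x * ((x * x)⁻¹ * (tw (h' :: t))⁻¹) * x *
            (((x * x)⁻¹ * (tw (h' :: t))⁻¹) * ev x l') * c := by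
              rw [four_id hQ x (tw (h' :: t))]; group
        _ = h * (tw (h' :: t))⁻¹ * x * ((x * x)⁻¹ * (tw (h' :: t))⁻¹) * x *
            (ev x l'' * u') * c := by rw [h8]
        _ = tw (h :: h' :: t) * x * ev x (((x * x)⁻¹ * (tw (h' :: t))⁻¹) :: l'') * (u' * c) := by
              rw [ev_cons]
              change _ = h * (tw (h' :: t))⁻¹ * x * _ * _
              group

/-- Twisted action. -/
lemma tw_append_inj (a : List Q) {b b' : List Q} (h : tw (a ++ b) = tw (a ++ b')) :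
    tw b = tw b' := by
  induction a with
  | nil => simpa using h
  | cons x a ih =>
    simp only [List.cons_append, tw, mul_right_inj, inv_inj] at h
    exact ih h

/-- Pigeonhole: a long list in a finite subgroup has a factor with trivial twisted product. -/
lemma exists_tw_eq_one {H : Subgroup Q} [Finite H] {l : List Q} (hl : ∀ h ∈ l, h ∈ H)
    (hlen : Nat.card H ≤ l.length) :
    ∃ a h b c, l = a ++ (h :: b) ++ c ∧ tw (h :: b) = 1 := by
  classical
  have : Fintype H := Fintype.ofFinite H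
  let f : Fin (l.length + 1) → H := fun i =>
    ⟨tw (l.take i), tw_mem (fun h hh => hl h (List.mem_of_mem_take hh))⟩
  have hcard : Fintype.card H < Fintype.card (Fin (l.length + 1)) := by
    rw [Fintype.card_fin, ← Nat.card_eq_fintype_card]
    omega
  obtain ⟨i, j, hij, hf⟩ := Fintype.exists_ne_map_eq_of_card_lt f hcard
  have key : ∀ i j : Fin (l.length + 1), i < j → f i = f j →
      ∃ a h b c, l = a ++ (h :: b) ++ c ∧ tw (h :: b) = 1 := by
    intro i j hij hf
    have hij' : (i : ℕ) < j := hij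
    have h1 : l.take j = l.take i ++ (l.take j).drop i := by
      conv_lhs => rw [← List.take_append_drop i (l.take j)]
      rw [List.take_take, min_eq_left hij'.le]
    have h2 : tw ((l.take j).drop i) = 1 := by
      have h3 : tw (l.take i ++ (l.take j).drop i) = tw (l.take i ++ []) := by
        rw [← h1, List.append_nil]
        exact (congrArg Subtype.val hf).symm
      simpa [tw] using tw_append_inj _ h3
    have h4 : ((l.take j).drop i).length ≠ 0 := by
      rw [List.length_drop, List.length_take]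
      have := j.2
      omega
    cases hc : (l.take j).drop i with
    | nil => simp [hc] at h4
    | cons h b =>
      refine ⟨l.take i, h, b, l.drop j, ?_, by rw [← hc]; exact h2⟩
      rw [← hc, ← h1, List.take_append_drop]
  rcases lt_or_gt_of_ne hij with h | h
  · exact key i j h hf
  · exact key j i h hf.symm

lemma ev_shorten (hQ : ∀ g : Q, g ^ 4 = 1) {H : Subgroup Q} [Finite H] {x : Q} (hx : x * x ∈ H)
    (N : ℕ) (l : List Q) (hN : l.length ≤ N) (hl : ∀ h ∈ l, h ∈ H) {c : Q} (hc : c ∈ H) :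
    ∃ l' c', l'.length ≤ Nat.card H ∧ (∀ h ∈ l', h ∈ H) ∧ c' ∈ H ∧
      ev x l * c = ev x l' * c' := by
  induction N generalizing l c with
  | zero => exact ⟨l, c, by omega, hl, hc, rfl⟩
  | succ N ih =>
    by_cases hlen : l.length ≤ Nat.card H
    · exact ⟨l, c, hlen, hl, hc, rfl⟩
    cases l with
    | nil => simp at hlen
    | cons h₀ l₁ =>
      have hlen' : Nat.card H ≤ l₁.length := by
        simp only [List.length_cons] at hlen; omega
      obtain ⟨a, h, b, d, rfl, h1⟩ := exists_tw_eq_one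
        (fun y hy => hl y (List.mem_cons_of_mem _ hy)) hlen'
      obtain ⟨l', c', h2, h3, h4, h5⟩ := ev_tw hQ hx h b (fun y hy => hl y (by
        rcases List.mem_cons.mp hy with rfl | hy <;> simp_all))
      rw [h1, one_mul] at h5
      -- last element of h₀ :: a
      obtain ⟨a', h', ha'⟩ : ∃ a' h', h₀ :: a = a' ++ [h'] :=
        ⟨(h₀ :: a).dropLast, (h₀ :: a).getLast (by simp), (List.dropLast_append_getLast _).symm⟩
      have hh' : h' ∈ H := hl h' (by
        have : h' ∈ h₀ :: a := by rw [ha']; simp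
        rcases List.mem_cons.mp this with rfl | this <;> simp_all)
      have hu1 : h' * (x * x) ∈ H := mul_mem hh' hx
      obtain ⟨l₂, u₂, h6, h7, h8, h9⟩ := ev_absorb x hu1 h3
      have hu2 : u₂ * c' ∈ H := mul_mem h8 h4
      obtain ⟨l₃, u₃, h10, h11, h12, h13⟩ := ev_absorb x hu2 (l := d)
        (fun y hy => hl y (by simp [hy]))
      have hlen2 : (a' ++ l₂ ++ l₃).length ≤ N := by
        have e1 := congrArg List.length ha'
        simp only [List.length_cons, List.length_append, List.length_nil] at e1 hN ⊢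
        omega
      obtain ⟨l₄, c₄, h14, h15, h16, h17⟩ := ih (a' ++ l₂ ++ l₃) hlen2 (by
        intro y hy
        simp only [List.mem_append] at hy
        rcases hy with (hy | hy) | hy
        · have : y ∈ h₀ :: a := by rw [ha']; simp [hy]
          exact hl y (by rcases List.mem_cons.mp this with rfl | this <;> simp_all)
        · exact h7 y hy
        · exact h11 y hy) (c := u₃ * c) (mul_mem h12 hc)
      refine ⟨l₄, c₄, h14, h15, h16, ?_⟩
      rw [← h17]
      have e2 : ev x (h₀ :: (a ++ h :: b ++ d)) = ev x (h₀ :: a) * ev x (h :: b) * ev x d := by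
        rw [← ev_append, ← ev_append]
        congr 1
      rw [e2, h5, ha', ev_append, ev_append, ev_append]
      calc ev x a' * ev x [h'] * (x * ev x l' * c') * ev x d * c
          = ev x a' * ((h' * (x * x)) * ev x l') * c' * ev x d * c := by
            simp only [ev_cons, ev_nil]; group
        _ = ev x a' * ev x l₂ * ((u₂ * c') * ev x d) * c := by rw [h9]; group
        _ = ev x a' * ev x l₂ * ev x l₃ * (u₃ * c) := by rw [h13]; group

lemma four_inv (hQ : ∀ g : Q, g ^ 4 = 1) (x : Q) : x⁻¹ = x * x * x := by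
  have h1 := hQ x
  rw [pow_succ, pow_succ, pow_two] at h1
  exact (eq_inv_of_mul_eq_one_left h1).symm

lemma four_extend (hQ : ∀ g : Q, g ^ 4 = 1) (H : Subgroup Q) [Finite H] {x : Q}
    (hx : x * x ∈ H) : ∃ K : Subgroup Q, Finite K ∧ H ≤ K ∧ x ∈ K := by
  classical
  let Λ : Set Q := {g | ∃ l : List Q, ∃ c ∈ H, (∀ h ∈ l, h ∈ H) ∧ g = ev x l * c}
  have hmul : ∀ g ∈ Λ, ∀ g' ∈ Λ, g * g' ∈ Λ := by
    rintro _ ⟨l, c, hc, hl, rfl⟩ _ ⟨l', c', hc', hl', rfl⟩
    obtain ⟨l'', u, h1, h2, h3, h4⟩ := ev_absorb x hc hl'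
    refine ⟨l ++ l'', u * c', mul_mem h3 hc', ?_, ?_⟩
    · intro h hh
      rcases List.mem_append.mp hh with hh | hh
      · exact hl h hh
      · exact h2 h hh
    · calc ev x l * c * (ev x l' * c') = ev x l * (c * ev x l') * c' := by group
        _ = ev x (l ++ l'') * (u * c') := by rw [h4, ev_append]; group
  have hH : ∀ h ∈ H, h ∈ Λ := fun h hh => ⟨[], h, hh, by simp, by simp⟩
  have hfin : Λ.Finite := by
    have h1 : Set.Finite {l : List H | l.length ≤ Nat.card H} := List.finite_length_le _ _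
    have h2 : (Set.image2 (fun (l : List H) (c : H) => ev x (l.map Subtype.val) * (c : Q))
      {l : List H | l.length ≤ Nat.card H} Set.univ).Finite := Set.Finite.image2 _ h1 Set.finite_univ
    refine h2.subset ?_
    rintro _ ⟨l, c, hc, hl, rfl⟩
    obtain ⟨l', c', h3, h4, h5, h6⟩ := ev_shorten hQ hx l.length l le_rfl hl hc
    refine ⟨l'.attach.map (fun y => ⟨y.1, h4 y.1 y.2⟩), ?_, ⟨c', h5⟩, Set.mem_univ _, ?_⟩
    · simpa using h3
    · simp only [List.map_map, h6]
      congr 2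
      have : (Subtype.val ∘ fun y : {y // y ∈ l'} => (⟨y.1, h4 y.1 y.2⟩ : H)) = Subtype.val := rfl
      rw [this, List.attach_map_subtype_val]
  let K : Subgroup Q :=
    { carrier := Λ
      mul_mem' := fun {g g'} hg hg' => hmul g hg g' hg'
      one_mem' := hH 1 (one_mem H)
      inv_mem' := fun {g} hg => by
        rw [four_inv hQ g]
        exact hmul _ (hmul g hg g hg) g hg }
  exact ⟨K, hfin.to_subtype, hH, ⟨[1], 1, one_mem H, by simp, by simp⟩⟩

theorem burnside_four : BurnsideFinite.{w} 4 := by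
  intro Q _ hfg hQ
  refine finite_of_extend hfg (fun H hH x => ?_)
  obtain ⟨K, hK, hHK, hx⟩ := four_extend hQ H (x := x * x) (by
    have : x * x * (x * x) = 1 := by
      have := hQ x
      rw [pow_succ, pow_succ, pow_two] at this
      rw [← this]; group
    rw [this]; exact one_mem H)
  obtain ⟨K', hK', hKK', hx'⟩ := four_extend hQ K hx
  exact ⟨K', hK', hHK.trans hKK', hx'⟩

end four

lemma BurnsideFinite.of_dvd {k k' : ℕ} (h : k ∣ k') (hB : BurnsideFinite.{w} k') :
    BurnsideFinite.{w} k := by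
  intro Q _ hfg hQ
  obtain ⟨m, rfl⟩ := h
  exact hB Q hfg (fun g => by rw [pow_mul, hQ, one_pow])

theorem burnside_le_four {k : ℕ} (hk : 1 ≤ k) (hk4 : k ≤ 4) : BurnsideFinite.{w} k := by
  obtain rfl | rfl | rfl | rfl : k = 1 ∨ k = 2 ∨ k = 3 ∨ k = 4 := by omega
  · exact burnside_four.of_dvd (by norm_num)
  · exact burnside_four.of_dvd (by norm_num)
  · exact burnside_three
  · exact burnside_four

end Pool.Agent.MP5ca50a
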