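import Pool.Agent.Lib.MP_5ca50a_lc.Track

/-!
Locking: along zones of a refined alphabet, the outputs of a path are described by one letter map.
-/

set_option autoImplicit false

namespace Pool.Agent.MP5ca50a

open Pointwise

namespace TrackSys

variable {T : Type} {Lab Q : Type} [Group Q] (S : TrackSys T Lab Q)

instance finite_st (T Lab : Type) (H : ℕ) [Finite T] [Finite Lab] : Finite (St T Lab H) := by
  have h1 : Finite {v : List T // v.length ≤ H} := (List.finite_length_le T H).to_subtype
  exact inferInstanceAs (Finite ({v : List T // v.length ≤ H} × Lab))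

/-- Outputs over short words. -/
def Outs (H L : ℕ) : Set Q :=
  {g | ∃ x y : St T Lab H, ∃ v : List T, v.length ≤ L ∧ S.SR (pr x) v (pr y) g}

lemma outs_finite [Finite T] [Finite Lab] (H L : ℕ) : (S.Outs H L).Finite := by
  have h1 : Finite {v : List T // v.length ≤ H} := (List.finite_length_le T H).to_subtype
  have h2 : Finite {v : List T // v.length ≤ L} := (List.finite_length_le T L).to_subtype
  have h3 : S.Outs H L ⊆ ⋃ z : (St T Lab H × St T Lab H) × {v : List T // v.length ≤ L},
      {g | S.SR (pr z.1.1) z.2.1 (pr z.1.2) g} := by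
    rintro g ⟨x, y, v, hv, hg⟩
    exact Set.mem_iUnion.mpr ⟨((x, y), ⟨v, hv⟩), hg⟩
  refine Set.Finite.subset (Set.finite_iUnion (fun z => ?_)) h3
  apply Set.Subsingleton.finite
  intro g hg g' hg'
  exact SR.func hg hg'

variable {S}

lemma mem_outs {H L : ℕ} {x y : St T Lab H} {v : List T} {g : Q} (hv : v.length ≤ L)
    (h : S.SR (pr x) v (pr y) g) : g ∈ S.Outs H L := ⟨x, y, v, hv, h⟩

lemma tr_mem_outs {H L : ℕ} {a b : Lab} {v : List T} {g : Q} (hv : v.length ≤ L)
    (h : S.Tr a v b g) : g ∈ S.Outs H L :=
  ⟨(⟨[], by simp⟩, a), (⟨[], by simp⟩, b), v, hv, SR.of_tr h⟩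

variable (S)

open Classical in
/-- Output of a letter on a recurrent state. -/
noncomputable def lam {H : ℕ} {κ : Type} (w : κ → List T) (t : St T Lab H) (b : κ) : Q :=
  if h : ∃ g, S.SR (pr t) (w b) (pr t) g then h.choose else 1

variable {S}

lemma lam_spec {H : ℕ} {κ : Type} {w : κ → List T} {t : St T Lab H} {b : κ}
    (h : ∃ g, S.SR (pr t) (w b) (pr t) g) : S.SR (pr t) (w b) (pr t) (S.lam w t b) := by
  unfold lam
  rw [dif_pos h]
  exact h.choose_spec

lemma lam_ev {H : ℕ} {κ : Type} {w : κ → List T} {t : St T Lab H}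
    (h : ∀ b, ∃ g, S.SR (pr t) (w b) (pr t) g) (W : List κ) :
    S.SR (pr t) (W.flatMap w) (pr t) (ev (S.lam w t) W) := by
  induction W with
  | nil => simpa using SR.refl _
  | cons a W ih =>
    rw [List.flatMap_cons, ev_cons]
    exact (lam_spec (h a)).comp ih

/-- The relation given by an operator. -/
def erel {H : ℕ} (E : Function.End (Set (St T Lab H))) (x y : St T Lab H) : Prop := x ∈ E {y}

/-- The data of a passed alphabet. -/
structure Passed (S : TrackSys T Lab Q) (H : ℕ) {ι κ : Type} (w : ι → List T) (φ : κ → List ι)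
    (E : Function.End (Set (St T Lab H))) : Prop where
  nz : ∀ a, w a ≠ []
  nz' : ∀ b, φ b ≠ []
  idem : E * E = E
  ev : ∀ b, ev (S.PM H w) (φ b) = E

section passed

variable {H : ℕ} {ι κ : Type} {w : ι → List T} {φ : κ → List ι}
  {E : Function.End (Set (St T Lab H))}

lemma Passed.trans (hp : S.Passed H w φ E) [Nonempty κ] {x y z : St T Lab H}
    (h1 : erel E x y) (h2 : erel E y z) : erel E x z := by
  obtain ⟨b⟩ := ‹Nonempty κ›
  unfold erel at *
  have h3 : E {y} ⊆ E (E {z}) := by
    rw [← hp.ev b]
    exact ev_mono (by rw [hp.ev b]; simpa using h2)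
  have h4 : E (E {z}) = E {z} := by
    exact congrFun hp.idem {z}
  rw [← h4]
  exact h3 h1

lemma Passed.dense (hp : S.Passed H w φ E) [Nonempty κ] {x z : St T Lab H}
    (h1 : erel E x z) : ∃ y, erel E x y ∧ erel E y z := by
  obtain ⟨b⟩ := ‹Nonempty κ›
  unfold erel at *
  have h4 : E (E {z}) = E {z} := by
    exact congrFun hp.idem {z}
  rw [← h4, ← hp.ev b] at h1
  obtain ⟨y, hy, hy'⟩ := mem_ev h1
  rw [hp.ev b] at hy hy'
  exact ⟨y, hy', hy⟩

lemma Passed.sr (hp : S.Passed H w φ E) {x y : St T Lab H} (h : erel E x y) (b : κ) :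
    ∃ g, S.SR (pr x) ((φ b).flatMap w) (pr y) g := by
  unfold erel at h
  rw [← hp.ev b] at h
  exact sr_of_mem_ev h

lemma Passed.nz1 (hp : S.Passed H w φ E) (b : κ) : (φ b).flatMap w ≠ [] := by
  intro h
  obtain ⟨a, W, hW⟩ := List.exists_cons_of_ne_nil (hp.nz' b)
  rw [hW, List.flatMap_cons] at h
  exact hp.nz a (List.append_eq_nil_iff.mp h).1

end passed

end TrackSys

open TrackSys

section locked

variable {T : Type} {Lab Q : Type} [Group Q] {S : TrackSys T Lab Q} {H : ℕ} {ι κ : Type}
  {w : ι → List T} {φ : κ → List ι} {E : Function.End (Set (St T Lab H))}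

/-- Block lengths. -/
lemma take_flatMap_length_succ (w1 : κ → List T) (U : List κ) {i : ℕ} (hi : i < U.length) :
    ((U.take (i + 1)).flatMap w1).length = ((U.take i).flatMap w1).length +
      (w1 (U[i]'hi)).length := by
  rw [List.take_succ_eq_append_getElem hi, List.flatMap_append, List.length_append]
  simp

lemma take_flatMap_length_ge (w1 : κ → List T) (hw1 : ∀ b, w1 b ≠ []) (U : List κ) {i j : ℕ}
    (hij : i ≤ j) (hj : j ≤ U.length) :
    ((U.take i).flatMap w1).length + (j - i) ≤ ((U.take j).flatMap w1).length := by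
  induction j with
  | zero => obtain rfl : i = 0 := by omega
            simp
  | succ j ih =>
    rcases Nat.lt_or_ge j i with h | h
    · obtain rfl : i = j + 1 := by omega
      simp
    · have h1 := ih h (by omega)
      rw [take_flatMap_length_succ w1 U (by omega : j < U.length)]
      have h2 : 0 < (w1 (U[j]'(by omega))).length := List.length_pos_iff.mpr (hw1 _)
      omega

/-- Positions of letter boundaries in a path word. -/
lemma path_block {n : ℕ} {lab : ℕ → Lab} {u : ℕ → List T} {q : ℕ → Q}
    (h : TPath S H n lab u q) (hp : S.Passed H w φ E) [Nonempty κ] {η θ : List T} {U : List κ}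
    (hu : u n = η ++ U.flatMap (fun b => (φ b).flatMap w) ++ θ) {i j : ℕ} (hij : i < j)
    (hj : j ≤ U.length) :
    erel E (TPath.st H n lab u (η.length + ((U.take i).flatMap (fun b => (φ b).flatMap w)).length))
      (TPath.st H n lab u (η.length + ((U.take j).flatMap (fun b => (φ b).flatMap w)).length)) := by
  set w1 : κ → List T := fun b => (φ b).flatMap w with hw1
  induction j with
  | zero => omega
  | succ j ih =>
    have hjl : j < U.length := by omega
    have hstep : erel E (TPath.st H n lab u (η.length + ((U.take j).flatMap w1).length))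
        (TPath.st H n lab u (η.length + ((U.take (j + 1)).flatMap w1).length)) := by
      unfold erel
      rw [take_flatMap_length_succ w1 U hjl, ← Nat.add_assoc, ← hp.ev (U[j]'hjl)]
      have hsplit : u n = (η ++ (U.take j).flatMap w1) ++ w1 (U[j]'hjl) ++
          ((U.drop (j + 1)).flatMap w1 ++ θ) := by
        rw [hu]
        conv_lhs => rw [← List.take_append_drop j U, List.drop_eq_getElem_cons hjl]
        rw [List.flatMap_append, List.flatMap_cons]
        simp [List.append_assoc]
      have hl : (η ++ (U.take j).flatMap w1).length = η.length + ((U.take j).flatMap w1).length :=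
        List.length_append
      apply h.mem_ev_st (w := w) (φ (U[j]'hjl))
      · rw [hsplit]
        simp only [List.length_append]
        have : (w1 (U[j]'hjl)).length = ((φ (U[j]'hjl)).flatMap w).length := rfl
        omega
      · rw [hsplit, ← hl, List.append_assoc, List.drop_left]
        exact List.take_left
    rcases Nat.lt_or_ge i j with h1 | h1
    · exact hp.trans (ih h1 (by omega)) hstep
    · obtain rfl : i = j := by omega
      exact hstep

/-- Main locking statement. -/
theorem locked [Finite T] [Finite Lab] [Nonempty κ] (hp : S.Passed H w φ E) {l : ℕ}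
    (hl : ∀ b, ((φ b).flatMap w).length ≤ l) :
    ∃ F : Set Q, F.Finite ∧ ∀ (n : ℕ) (lab : ℕ → Lab) (u : ℕ → List T) (q : ℕ → Q),
      TPath S H n lab u q → ∀ (η θ : List T) (a : κ) (V : List κ),
      u n = η ++ (a :: V).flatMap (fun b => (φ b).flatMap w) ++ θ → η.length ≤ l →
      θ.length ≤ l → V ≠ [] →
      ∃ t : St T Lab H, erel E t t ∧
        (∃ (A : Q) (x : ℕ → ℕ), x 0 = 0 ∧ x n = (a :: V).length ∧
          (∀ i j, i ≤ j → j ≤ n → x i ≤ x j ∧ x j + (u i).length ≤ x i + (u j).length ∧
            (u j).length ≤ (u i).length + (x j - x i + 2) * l) ∧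
          ∀ j ≤ n, ∃ f ∈ F, q j = A * ev (S.lam (fun b => (φ b).flatMap w) t)
            ((a :: V).take (x j)) * f) ∧
        ∀ Z : List κ, ev (S.lam (fun b => (φ b).flatMap w) t) Z = 1 →
          S.Tr (lab 0) (η ++ (φ a).flatMap w ++ Z.flatMap (fun b => (φ b).flatMap w) ++
            V.flatMap (fun b => (φ b).flatMap w) ++ θ) (lab n) (q n) := by
  classical
  set w1 : κ → List T := fun b => (φ b).flatMap w with hw1
  set L : ℕ := 2 * l + H with hL
  set Φ : Set Q := S.Outs H L with hΦ
  have hΦfin : Φ.Finite := S.outs_finite H L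
  set Ψ : Set Q := (Φ ∪ Φ⁻¹) ∪ {1} with hΨ
  have hΨfin : Ψ.Finite := (hΦfin.union hΦfin.inv).union (Set.finite_singleton 1)
  have h1Ψ : (1 : Q) ∈ Ψ := Or.inr rfl
  have hmΨ : ∀ g ∈ Φ, g ∈ Ψ := fun g hg => Or.inl (Or.inl hg)
  have hiΨ : ∀ g ∈ Φ, g⁻¹ ∈ Ψ := fun g hg => Or.inl (Or.inr (by simpa using hg))
  refine ⟨Ψ * Ψ * Ψ * Ψ, ((hΨfin.mul hΨfin).mul hΨfin).mul hΨfin, ?_⟩
  intro n lab u q h η θ a V hu hη hθ hV
  set U : List κ := a :: V with hU
  have hnz : ∀ b, w1 b ≠ [] := hp.nz1
  -- boundary positions
  set bd : ℕ → ℕ := fun i => η.length + ((U.take i).flatMap w1).length with hbd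
  have hUlen : U.length = V.length + 1 := by simp [hU]
  have hVpos : 0 < V.length := List.length_pos_iff.mpr hV
  have hbd0 : bd 0 = η.length := by simp [hbd]
  have hulen : (u n).length = bd U.length + θ.length := by
    rw [hu]; simp only [hbd, List.take_length, List.length_append]
  have hbdsucc : ∀ i (hi : i < U.length), bd (i + 1) = bd i + (w1 (U[i]'hi)).length := by
    intro i hi
    simp only [hbd]
    rw [take_flatMap_length_succ w1 U hi]
    omega
  have hbdge : ∀ i j, i ≤ j → j ≤ U.length → bd i + (j - i) ≤ bd j := by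
    intro i j hij hj
    have := take_flatMap_length_ge w1 hnz U hij hj
    simp only [hbd]
    omega
  have hbdle : ∀ i, i ≤ U.length → bd i ≤ (u n).length := by
    intro i hi
    have := hbdge i U.length hi le_rfl
    omega
  have hbdlt : ∀ i (hi : i < U.length), bd (i + 1) ≤ bd i + l := by
    intro i hi
    rw [hbdsucc i hi]
    have := hl (U[i]'hi)
    have h2 : (w1 (U[i]'hi)).length = ((φ (U[i]'hi)).flatMap w).length := rfl
    omega
  set s : ℕ → St T Lab H := fun i => TPath.st H n lab u (bd i) with hs
  have hblock : ∀ i j, i < j → j ≤ U.length → erel E (s i) (s j) := fun i j hij hj =>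
    path_block h hp hu hij hj
  -- the recurrent state
  obtain ⟨t, ht1, ht2, ht3⟩ := exists_recurrent (erel E) (fun h1 h2 => hp.trans h1 h2)
    (fun h1 => hp.dense h1) (hblock 0 1 (by omega) (by omega))
  have htlast : ∀ i, 1 ≤ i → i ≤ U.length → erel E t (s i) := by
    intro i hi hi'
    rcases Nat.lt_or_ge 1 i with h1 | h1
    · exact hp.trans ht3 (hblock 1 i h1 hi')
    · obtain rfl : i = 1 := by omega
      exact ht3
  have htlam : ∀ b, ∃ g, S.SR (pr t) (w1 b) (pr t) g := fun b => hp.sr ht2 b
  set lm := S.lam w1 t with hlm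
  have hrun : ∀ W : List κ, S.SR (pr t) (W.flatMap w1) (pr t) (ev lm W) := lam_ev htlam
  -- the values at boundaries
  set c : ℕ → Q := fun i => q (TPath.jt n u (bd i)) with hc
  have hword : ∀ i j, i ≤ j → j ≤ U.length →
      ((u n).take (bd j)).drop (bd i) = ((U.take j).drop i).flatMap w1 := by
    intro i j hij hj
    have e1 : (u n).take (bd j) = η ++ (U.take j).flatMap w1 := by
      rw [hu]
      conv_lhs => rw [← List.take_append_drop j U]
      rw [List.flatMap_append, ← List.append_assoc, List.append_assoc (η ++ _)]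
      have : bd j = (η ++ (U.take j).flatMap w1).length := by simp [hbd]
      rw [this]
      exact List.take_left
    rw [e1]
    conv_lhs => rw [← List.take_append_drop i (U.take j)]
    rw [List.take_take, min_eq_left hij, List.flatMap_append, ← List.append_assoc]
    have : bd i = (η ++ (U.take i).flatMap w1).length := by simp [hbd]
    rw [this]
    exact List.drop_left
  have hsr : ∀ i j, i ≤ j → j ≤ U.length →
      S.SR (pr (s i)) (((U.take j).drop i).flatMap w1) (pr (s j)) ((c i)⁻¹ * c j) := by
    intro i j hij hj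
    have h1 : bd i ≤ bd j := by
      have := hbdge i j hij hj
      omega
    have h2 := h.sr_st h1 (hbdle j hj)
    rwa [hword i j hij hj] at h2
  -- the first letter
  have hU0 : (U.take 1).drop 0 = [a] := by simp [hU]
  obtain ⟨gA, hgA⟩ := hp.sr ht1 a
  have hgAΦ : gA ∈ Φ := mem_outs (by
    have := hl a
    omega) hgA
  have hlmΦ : ∀ b, lm b ∈ Φ := fun b => mem_outs (by
    have := hl b
    have h7 : (w1 b).length = ((φ b).flatMap w).length := rfl
    omega) (lam_spec (htlam b))
  have hc0Φ : c 0 ∈ Φ := by
    have h1 := TPath.jt_spec (n := n) (u := u) (hbdle 0 (by omega))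
    have h2 := h.len_le_add (hbdle 0 (by omega))
    have h3 := h.tr0 h1.1
    refine tr_mem_outs ?_ h3
    omega
  -- the letter counter
  set xf : ℕ → ℕ := fun j => Nat.findGreatest (fun i => bd i ≤ (u j).length) U.length with hxf
  have hx_le : ∀ j, xf j ≤ U.length := fun j => Nat.findGreatest_le _
  have hx_pos : ∀ j, xf j ≠ 0 → bd (xf j) ≤ (u j).length := fun j hj =>
    Nat.findGreatest_of_ne_zero (P := fun i => bd i ≤ (u j).length) rfl hj
  have hx_gt : ∀ j i, xf j < i → i ≤ U.length → (u j).length < bd i := by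
    intro j i h1 h2
    have h3 : ¬ bd i ≤ (u j).length :=
      Nat.findGreatest_is_greatest (P := fun i => bd i ≤ (u j).length) h1 h2
    omega
  have hx_ge : ∀ j i, i ≤ U.length → bd i ≤ (u j).length → i ≤ xf j := by
    intro j i h1 h2
    exact Nat.le_findGreatest h1 h2
  have hbdmul : ∀ i j, i ≤ j → j ≤ U.length → bd j ≤ bd i + (j - i) * l := by
    intro i j hij hj
    induction j with
    | zero =>
      obtain rfl : i = 0 := by omega
      simp
    | succ j ih =>
      rcases Nat.lt_or_ge j i with h1 | h1
      · obtain rfl : i = j + 1 := by omega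
        simp
      · have h2 := ih h1 (by omega)
        have h3 := hbdlt j (by omega)
        have h4 : (j + 1 - i) * l = (j - i) * l + l := by
          rw [show j + 1 - i = (j - i) + 1 by omega, Nat.succ_mul]
        omega
  have hnear' : ∀ j ≤ n, (u j).length ≤ bd (xf j) + l := by
    intro j hj
    rcases Nat.lt_or_ge (xf j) U.length with h5 | h5
    · have h3 := hx_gt j (xf j + 1) (by omega) (by omega)
      have h4 := hbdlt (xf j) h5
      omega
    · have h6 : xf j = U.length := by
        have := hx_le j
        omega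
      have h7 := h.len_mono hj le_rfl
      rw [h6]
      omega
  have hnear'' : ∀ j, bd (xf j) ≤ (u j).length + l := by
    intro j
    by_cases h0 : xf j = 0
    · rw [h0, hbd0]; omega
    · have := hx_pos j h0
      omega
  refine ⟨t, ht2, ⟨c 0 * gA * (lm a)⁻¹, xf, ?_, ?_, ?_, ?_⟩, ?_⟩
  · -- x 0 = 0
    by_contra hcon
    have h1 := hx_pos 0 hcon
    have h2 := hbdge 0 (xf 0) (by omega) (hx_le 0)
    rw [h.u0] at h1
    simp only [List.length_nil] at h1
    omega
  · -- x n
    apply le_antisymm (hx_le n)
    exact hx_ge n U.length le_rfl (hbdle _ le_rfl)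
  · -- counting
    intro i j hij hj
    have hlen : (u i).length ≤ (u j).length := h.len_mono hij hj
    have hmono : xf i ≤ xf j := by
      by_cases h0 : xf i = 0
      · omega
      · exact hx_ge j _ (hx_le i) ((hx_pos i h0).trans hlen)
    refine ⟨hmono, ?_, ?_⟩
    · rcases Nat.lt_or_ge (xf i) (xf j) with h1 | h1
      · have h2 := hx_gt i (xf i + 1) (by omega) (by have := hx_le j; omega)
        have h3 := hx_pos j (by omega)
        have h4 := hbdge (xf i + 1) (xf j) (by omega) (hx_le j)
        omega
      · omega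
    · have h1 := hnear' j hj
      have h2 := hnear'' i
      have h3 := hbdmul (xf i) (xf j) hmono (hx_le j)
      have h4 : (xf j - xf i + 2) * l = (xf j - xf i) * l + 2 * l := by ring
      omega
  · -- the formula
    intro j hj
    set x0 := xf j with hx0
    have hx0le : x0 ≤ U.length := hx_le j
    rcases Nat.eq_zero_or_pos x0 with h0 | h0
    · -- short words
      have h3 := hx_gt j 1 (by omega) (by omega)
      have h4 : bd 1 ≤ bd 0 + l := hbdlt 0 (by omega)
      have hqΦ : q j ∈ Φ := tr_mem_outs (by omega) (h.tr0 hj)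
      refine ⟨lm a * gA⁻¹ * (c 0)⁻¹ * q j, ?_, ?_⟩
      · exact Set.mul_mem_mul (Set.mul_mem_mul (Set.mul_mem_mul (hmΨ _ (hlmΦ a))
          (hiΨ _ hgAΦ)) (hiΨ _ hc0Φ)) (hmΨ _ hqΦ)
      · rw [h0, List.take_zero, ev_nil, mul_one]
        group
    · have h2 : bd x0 ≤ (u j).length := hx_pos j (by omega)
      have hnear : (u j).length ≤ bd x0 + l := hnear' j hj
      have hjt := TPath.jt_spec (n := n) (u := u) (hbdle x0 hx0le)
      have hjle : TPath.jt n u (bd x0) ≤ j := TPath.jt_le hj h2
      obtain ⟨w', hw', hw''⟩ := h.seg hjle hj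
      have hh : (c x0)⁻¹ * q j ∈ Φ := by
        refine tr_mem_outs ?_ hw''
        have := congrArg List.length hw'
        rw [List.length_append] at this
        omega
      rcases Nat.lt_or_ge 1 x0 with h5 | h5
      · -- at least two letters
        have hprev : (U.take x0).drop 0 = [a] ++ ((U.take (x0 - 1)).drop 1) ++
            [U[x0 - 1]'(by omega)] := by
          have e1 : U.take x0 = U.take (x0 - 1) ++ [U[x0 - 1]'(by omega)] := by
            have := List.take_succ_eq_append_getElem (l := U) (i := x0 - 1) (by omega)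
            rwa [Nat.sub_add_cancel h0] at this
          rw [List.drop_zero, e1]
          congr 1
          have e2 : U.take (x0 - 1) = a :: V.take (x0 - 2) := by
            rw [hU]
            obtain ⟨m, hm⟩ : ∃ m, x0 = m + 2 := ⟨x0 - 2, by omega⟩
            rw [hm]
            rfl
          rw [e2]
          simp
        obtain ⟨g', hg'⟩ := hp.sr (htlast x0 h0 hx0le) (U[x0 - 1]'(by omega))
        have hg'Φ : g' ∈ Φ := mem_outs (by
          have := hl (U[x0 - 1]'(by omega))
          omega) hg'
        have hroute := (SR.comp (SR.comp hgA (hrun ((U.take (x0 - 1)).drop 1))) hg')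
        have hact := hsr 0 x0 (by omega) hx0le
        rw [hprev, List.flatMap_append, List.flatMap_append] at hact
        simp only [List.flatMap_cons, List.flatMap_nil, List.append_nil] at hact
        have heq := hact.func hroute
        have hev : ev lm (U.take x0) = lm a * ev lm ((U.take (x0 - 1)).drop 1) *
            lm (U[x0 - 1]'(by omega)) := by
          have := congrArg (ev lm) hprev
          rw [List.drop_zero] at this
          rw [this]
          simp [mul_assoc]
        refine ⟨1 * (lm (U[x0 - 1]'(by omega)))⁻¹ * g' * ((c x0)⁻¹ * q j), ?_, ?_⟩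
        · exact Set.mul_mem_mul (Set.mul_mem_mul (Set.mul_mem_mul h1Ψ
            (hiΨ _ (hlmΦ _))) (hmΨ _ hg'Φ)) (hmΨ _ hh)
        · rw [hev]
          have hcx : c x0 = c 0 * (gA * ev lm ((U.take (x0 - 1)).drop 1) * g') := by
            rw [← heq]; group
          rw [hcx]
          group
      · -- exactly one letter
        have h6 : x0 = 1 := by omega
        have hact := hsr 0 1 (by omega) (by omega)
        rw [hU0] at hact
        simp only [List.flatMap_cons, List.flatMap_nil, List.append_nil] at hact
        have hgΦ : (c 0)⁻¹ * c 1 ∈ Φ := mem_outs (by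
          have := hl a
          have h7 : (w1 a).length = ((φ a).flatMap w).length := rfl
          omega) hact
        have hev : ev lm (U.take x0) = lm a := by rw [h6, hU]; simp
        rw [h6] at hh
        refine ⟨1 * gA⁻¹ * ((c 0)⁻¹ * c 1) * ((c 1)⁻¹ * q j), ?_, ?_⟩
        · exact Set.mul_mem_mul (Set.mul_mem_mul (Set.mul_mem_mul h1Ψ
            (hiΨ _ hgAΦ)) (hmΨ _ hgΦ)) (hmΨ _ hh)
        · rw [hev]
          group
  · -- insertion
    intro Z hZ
    obtain ⟨V', b, hVb⟩ : ∃ V' b, V = V' ++ [b] := ⟨V.dropLast, V.getLast hV,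
      (List.dropLast_append_getLast hV).symm⟩
    have hUb : U = [a] ++ V' ++ [b] := by rw [hU, hVb]; simp
    -- initial part
    have hη0 := h.sr_st (p := 0) (p' := bd 0) (Nat.zero_le _) (hbdle 0 (by omega))
    have hjt0 : TPath.jt n u 0 = 0 := Nat.le_zero.mp (TPath.jt_le (Nat.zero_le _) (Nat.zero_le _))
    have hpr0 : pr (TPath.st H n lab u 0) = ([], lab 0) := by
      rw [h.pr_st (Nat.zero_le _), hjt0, h.u0]
      simp
    have hwη : ((u n).take (bd 0)).drop 0 = η := by
      rw [List.drop_zero, hbd0, hu, List.append_assoc]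
      exact List.take_left
    rw [hpr0, hwη, hjt0, h.q0] at hη0
    -- final part
    have hθ0 := h.sr_st (p := bd U.length) (p' := (u n).length) (hbdle _ le_rfl) le_rfl
    have hwθ : ((u n).take (u n).length).drop (bd U.length) = θ := by
      rw [List.take_length, hu]
      have : bd U.length = (η ++ U.flatMap w1).length := by
        simp only [hbd, List.take_length, List.length_append]
      rw [this]
      exact List.drop_left
    rw [hwθ] at hθ0
    have hend : S.SR (pr (TPath.st H n lab u (u n).length)) [] ([], lab n)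
        ((q (TPath.jt n u (u n).length))⁻¹ * q n) := by
      have hjn := TPath.jt_spec (n := n) (u := u) (p := (u n).length) le_rfl
      obtain ⟨w', hw', hw''⟩ := h.seg hjn.1 le_rfl
      rw [h.pr_st le_rfl]
      have hl1 := congrArg List.length hw'
      rw [List.length_append] at hl1
      have hw'nil : w' = [] := List.length_eq_zero_iff.mp (by omega)
      subst hw'nil
      refine ⟨[], ?_, hw''⟩
      simp only [List.append_nil, List.nil_append]
      symm
      apply List.drop_of_length_le
      omega
    obtain ⟨g', hg'⟩ := hp.sr (htlast U.length (by omega) le_rfl) b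
    -- the route without insertion
    have hroute0 := ((((hη0.comp hgA).comp (hrun V')).comp hg').comp hθ0).comp hend
    have hroute1 := (((((hη0.comp hgA).comp (hrun Z)).comp (hrun V')).comp hg').comp hθ0).comp hend
    have hact : S.SR ([], lab 0) (u n) ([], lab n) (q n) := SR.of_tr (h.tr0 le_rfl)
    have hword0 : η ++ (φ a).flatMap w ++ V'.flatMap w1 ++ (φ b).flatMap w ++ θ ++ [] = u n := by
      rw [hu, hUb]
      simp [List.flatMap_append, hw1]
    rw [hword0] at hroute0
    have heq := hact.func hroute0
    apply SR.tr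
    have hword1 : η ++ (φ a).flatMap w ++ Z.flatMap w1 ++ V.flatMap w1 ++ θ =
        η ++ (φ a).flatMap w ++ Z.flatMap w1 ++ V'.flatMap w1 ++ (φ b).flatMap w ++ θ ++ [] := by
      rw [hVb]
      simp [List.flatMap_append, hw1]
    rw [hword1, heq]
    have hval : (1 : Q)⁻¹ * q (TPath.jt n u (bd 0)) * gA * ev lm Z * ev lm V' * g' =
      (1 : Q)⁻¹ * q (TPath.jt n u (bd 0)) * gA * ev lm V' * g' := by
      rw [hZ]; group
    rw [hval] at hroute1
    exact hroute1

end locked

end Pool.Agent.MP5ca50a
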