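import Pool.Agent.Lib.MP_5ca50a_lc.Passing

/-!
# The lemma `fat`: zone words that are quasi-geodesic at all bounded scales
-/

set_option autoImplicit false

namespace Pool.Agent.MP5ca50a

namespace Fat

/-! ### Signed letters and balls -/

section balls

variable {ι G : Type} [Group G] (α : ι → G)

/-- signed letters -/
def sg (s : ι × Bool) : G := if s.2 then α s.1 else (α s.1)⁻¹

/-- flip the sign -/
def fl (s : ι × Bool) : ι × Bool := (s.1, !s.2)

/-- formal inverse of a signed word -/
def inv (u : List (ι × Bool)) : List (ι × Bool) := (u.map fl).reverse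

lemma fl_fl (s : ι × Bool) : fl (fl s) = s := by simp [fl]

lemma sg_fl (s : ι × Bool) : sg α (fl s) = (sg α s)⁻¹ := by
  rcases s with ⟨a, b⟩
  cases b <;> simp [sg, fl]

lemma inv_length (u : List (ι × Bool)) : (inv u).length = u.length := by simp [inv]

lemma ev_inv (u : List (ι × Bool)) : ev (sg α) (inv u) = (ev (sg α) u)⁻¹ := by
  induction u with
  | nil => simp [inv]
  | cons a u ih =>
    have : inv (a :: u) = inv u ++ [fl a] := by simp [inv]
    rw [this, ev_append, ih, ev_singleton, sg_fl, ev_cons, mul_inv_rev]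

lemma inv_inv (u : List (ι × Bool)) : inv (inv u) = u := by
  unfold inv
  rw [← List.map_reverse, List.reverse_reverse, List.map_map]
  convert List.map_id u
  funext s
  exact fl_fl s

lemma inv_append (u v : List (ι × Bool)) : inv (u ++ v) = inv v ++ inv u := by
  simp [inv]

/-- values of signed words of length at most `r` -/
def ball (r : ℕ) : Set G := {g | ∃ w : List (ι × Bool), w.length ≤ r ∧ ev (sg α) w = g}

lemma ball_mono {r s : ℕ} (h : r ≤ s) {g : G} (hg : g ∈ ball α r) : g ∈ ball α s := by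
  obtain ⟨w, hw, e⟩ := hg
  exact ⟨w, hw.trans h, e⟩

lemma ball_mul {r s : ℕ} {g h : G} (hg : g ∈ ball α r) (hh : h ∈ ball α s) :
    g * h ∈ ball α (r + s) := by
  obtain ⟨w, hw, rfl⟩ := hg
  obtain ⟨v, hv, rfl⟩ := hh
  exact ⟨w ++ v, by rw [List.length_append]; omega, by rw [ev_append]⟩

lemma ball_inv {r : ℕ} {g : G} (hg : g ∈ ball α r) : g⁻¹ ∈ ball α r := by
  obtain ⟨w, hw, rfl⟩ := hg
  exact ⟨inv w, by rw [inv_length]; exact hw, ev_inv α w⟩

lemma sg_mem (w : List (ι × Bool)) : ev (sg α) w ∈ ball α w.length := ⟨w, le_rfl, rfl⟩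

lemma ev_mem (ω : List ι) : ev α ω ∈ ball α ω.length := by
  refine ⟨ω.map (fun a => (a, true)), by simp, ?_⟩
  induction ω with
  | nil => simp
  | cons a ω ih => rw [List.map_cons, ev_cons, ih, ev_cons]; simp [sg]

lemma ball_finite [Finite ι] (r : ℕ) : (ball α r).Finite := by
  have h := List.finite_length_le (ι × Bool) r
  refine (h.image (ev (sg α))).subset ?_
  rintro g ⟨w, hw, rfl⟩
  exact ⟨w, hw, rfl⟩

/-- every factor is geodesic -/
def Geo (u : List (ι × Bool)) : Prop :=
  ∀ z, z <:+: u → ∀ r, ev (sg α) z ∈ ball α r → z.length ≤ r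

lemma Geo.infx {u v : List (ι × Bool)} (hu : Geo α u) (h : v <:+: u) : Geo α v :=
  fun z hz r hr => hu z (hz.trans h) r hr

lemma Geo.inv {u : List (ι × Bool)} (hu : Geo α u) : Geo α (inv u) := by
  intro z hz r hr
  obtain ⟨s, t, hst⟩ := hz
  have h1 : Fat.inv z <:+: u := by
    refine ⟨Fat.inv t, Fat.inv s, ?_⟩
    rw [← inv_append, ← inv_append, ← List.append_assoc, hst, inv_inv]
  have h2 := hu _ h1 r (by rw [ev_inv]; exact ball_inv α hr)
  rwa [inv_length] at h2

lemma exists_geo [Finite ι] (hα : InfImg α) (L : ℕ) :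
    ∃ w : List (ι × Bool), w.length = L ∧ Geo α w := by
  classical
  obtain ⟨g, ⟨ω, hω⟩, hg⟩ := hα.exists_notMem_finite (ball_finite α L)
  have hex : ∃ n, ∃ w : List (ι × Bool), w.length = n ∧ ev (sg α) w = g := by
    obtain ⟨w, -, hw⟩ := ev_mem α ω
    exact ⟨w.length, w, rfl, by rw [hw, hω]⟩
  obtain ⟨w, hw1, hw2⟩ := Nat.find_spec hex
  have hmin : ∀ v : List (ι × Bool), ev (sg α) v = g → w.length ≤ v.length := by
    intro v hv
    rw [hw1]
    exact Nat.find_min' hex ⟨v, rfl, hv⟩
  have hgeo : Geo α w := by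
    intro z hz r hr
    obtain ⟨s, t, hst⟩ := hz
    obtain ⟨z', hz', e⟩ := hr
    have h := hmin (s ++ z' ++ t) (by
      rw [← hw2, ← hst]
      simp only [ev_append, e])
    rw [← hst] at h
    simp only [List.length_append] at h
    omega
  have hlen : L ≤ w.length := by
    by_contra hcon
    push Not at hcon
    exact hg ⟨w, hcon.le, hw2⟩
  refine ⟨w.take L, by rw [List.length_take]; omega, hgeo.infx α ?_⟩
  exact (List.take_prefix L w).isInfix

end balls

/-! ### Lifting signed words -/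

section lift

variable {κ ι : Type}

lemma prefix_flatMap {f : κ → List ι} {k : ℕ} (hf : ∀ s, (f s).length ≤ k) :
    ∀ (u : List κ) (b : List ι), b <+: u.flatMap f →
      ∃ (y : List κ) (η : List ι), b = y.flatMap f ++ η ∧ y <+: u ∧ η.length ≤ k := by
  intro u
  induction u with
  | nil =>
    intro b hb
    rw [List.flatMap_nil, List.prefix_nil] at hb
    exact ⟨[], [], by simp [hb], List.prefix_rfl, Nat.zero_le _⟩
  | cons s u ih =>
    intro b hb
    rw [List.flatMap_cons] at hb
    rcases List.prefix_or_prefix_of_prefix hb (List.prefix_append (f s) (u.flatMap f)) with h | h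
    · exact ⟨[], b, by simp, List.nil_prefix, h.length_le.trans (hf s)⟩
    · obtain ⟨b₁, rfl⟩ := h
      rw [List.prefix_append_right_inj] at hb
      obtain ⟨y, η, rfl, hy, hη⟩ := ih b₁ hb
      refine ⟨s :: y, η, by simp, ?_, hη⟩
      exact (List.prefix_cons_inj s).mpr hy

lemma suffix_flatMap {f : κ → List ι} {k : ℕ} (hf : ∀ s, (f s).length ≤ k) :
    ∀ (u : List κ) (b : List ι), b <:+ u.flatMap f →
      ∃ (θ : List ι) (x : List κ), b = θ ++ x.flatMap f ∧ x <:+ u ∧ θ.length ≤ k := by
  intro u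
  induction u using List.reverseRecOn with
  | nil =>
    intro b hb
    rw [List.flatMap_nil, List.suffix_nil] at hb
    exact ⟨[], [], by simp [hb], List.suffix_rfl, Nat.zero_le _⟩
  | append_singleton u s ih =>
    intro b hb
    rw [List.flatMap_append, List.flatMap_singleton] at hb
    rcases List.suffix_or_suffix_of_suffix hb (List.suffix_append (u.flatMap f) (f s)) with h | h
    · exact ⟨b, [], by simp, List.nil_suffix, h.length_le.trans (hf s)⟩
    · obtain ⟨b₁, rfl⟩ := h
      rw [List.suffix_append_self_iff] at hb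
      obtain ⟨θ, x, rfl, hx, hθ⟩ := ih b₁ hb
      refine ⟨θ, x ++ [s], by simp, ?_, hθ⟩
      obtain ⟨t, rfl⟩ := hx
      exact ⟨t, by simp⟩

lemma infix_flatMap {f : κ → List ι} {k : ℕ} (hf : ∀ s, (f s).length ≤ k)
    (u : List κ) (z : List ι) (hz : z <:+: u.flatMap f) :
      ∃ (θ : List ι) (x : List κ) (η : List ι), z = θ ++ x.flatMap f ++ η ∧ x <:+: u ∧
        θ.length ≤ k ∧ η.length ≤ k := by
  obtain ⟨s, t, hst⟩ := hz
  obtain ⟨y, η, hy, hyu, hη⟩ := prefix_flatMap hf u (s ++ z) ⟨t, hst⟩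
  have h1 : z <:+ y.flatMap f ++ η := ⟨s, hy⟩
  rcases List.suffix_or_suffix_of_suffix h1 (List.suffix_append (y.flatMap f) η) with h | h
  · exact ⟨z, [], [], by simp, List.nil_infix, h.length_le.trans hη, Nat.zero_le _⟩
  · obtain ⟨b₁, rfl⟩ := h
    rw [List.suffix_append_self_iff] at h1
    obtain ⟨θ, x, rfl, hx, hθ⟩ := suffix_flatMap hf y b₁ h1
    exact ⟨θ, x, η, rfl, hx.isInfix.trans hyu.isInfix, hθ, hη⟩

lemma length_flatMap_le {f : κ → List ι} {k : ℕ} (hf : ∀ s, (f s).length ≤ k) (u : List κ) :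
    (u.flatMap f).length ≤ k * u.length := by
  induction u with
  | nil => simp
  | cons s u ih =>
    rw [List.flatMap_cons, List.length_append, List.length_cons, Nat.mul_succ]
    have := hf s
    omega

lemma le_length_flatMap {f : κ → List ι} (hf : ∀ s, f s ≠ []) (u : List κ) :
    u.length ≤ (u.flatMap f).length := by
  induction u with
  | nil => simp
  | cons s u ih =>
    rw [List.flatMap_cons, List.length_append, List.length_cons]
    have := List.length_pos_iff.mpr (hf s)
    omega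

/-- positive word of a signed letter -/
def lift (k : ℕ) (s : ι × Bool) : List ι := if s.2 then [s.1] else List.replicate (k - 1) s.1

lemma lift_length_le {k : ℕ} (hk : 2 ≤ k) (s : ι × Bool) : (lift k s).length ≤ k := by
  unfold lift
  split_ifs
  · simp; omega
  · simp

lemma lift_ne_nil {k : ℕ} (hk : 2 ≤ k) (s : ι × Bool) : lift k s ≠ [] := by
  unfold lift
  split_ifs
  · simp
  · intro h
    have := congrArg List.length h
    simp at this
    omega

lemma ev_lift {G : Type} [Group G] {k : ℕ} (hk : 0 < k) (hG : ∀ g : G, g ^ k = 1) (α : ι → G)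
    (s : ι × Bool) : ev α (lift k s) = sg α s := by
  unfold lift sg
  split_ifs
  · simp
  · rw [ev_replicate]
    refine eq_inv_of_mul_eq_one_left ?_
    rw [← pow_succ, Nat.sub_add_cancel hk, hG]

lemma ev_liftw {G : Type} [Group G] {k : ℕ} (hk : 0 < k) (hG : ∀ g : G, g ^ k = 1) (α : ι → G)
    (u : List (ι × Bool)) : ev α (u.flatMap (lift k)) = ev (sg α) u := by
  rw [ev_flatMap]
  congr 1
  funext s
  exact ev_lift hk hG α s

end lift

/-! ### Good junctions -/

section good

variable {ι G : Type} [Group G] (α : ι → G)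

/-- `b` is good after `a` via the connector `c` -/
def Good (r₀ R₀ : ℕ) (a c b : List ι) : Prop :=
  ∀ a' b', a' <:+ a → b' <+: b → ev α (a' ++ c ++ b') ∈ ball α r₀ → b'.length ≤ R₀

/-- quasi-geodesic words -/
def QG (k : ℕ) (a : List ι) : Prop :=
  ∀ z, z <:+: a → ∀ r, ev α z ∈ ball α r → z.length ≤ k * (r + 2 * k) + 2 * k

lemma qg_lift {k : ℕ} (hk : 2 ≤ k) (hG : ∀ g : G, g ^ k = 1) {u : List (ι × Bool)}
    (hu : Geo α u) : QG α k (u.flatMap (lift k)) := by
  intro z hz r hr
  obtain ⟨θ, x, η, rfl, hx, hθ, hη⟩ := infix_flatMap (lift_length_le hk) u z hz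
  rw [ev_append, ev_append, ev_liftw (by omega) hG] at hr
  have h1 : ev (sg α) x ∈ ball α (k + r + k) := by
    have h2 := ball_mul α (ball_mul α (ball_inv α (ball_mono α hθ (ev_mem α θ))) hr)
      (ball_inv α (ball_mono α hη (ev_mem α η)))
    convert h2 using 1
    group
  have h3 := hu x hx _ h1
  have h4 := length_flatMap_le (lift_length_le (ι := ι) hk) x
  rw [List.length_append, List.length_append]
  have h5 : k * x.length ≤ k * (r + 2 * k) := Nat.mul_le_mul_left k (by omega)
  omega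

lemma suffix_diff {u x y : List (ι × Bool)} (hx : x <:+ u) (hy : y <:+ u) :
    ev (sg α) y * (ev (sg α) x)⁻¹ ∈ ball α ((x.length - y.length) + (y.length - x.length)) := by
  rcases List.suffix_or_suffix_of_suffix hx hy with h | h
  · obtain ⟨z, rfl⟩ := h
    rw [ev_append, mul_inv_cancel_right]
    refine ball_mono α ?_ (sg_mem α z)
    rw [List.length_append]; omega
  · obtain ⟨z, rfl⟩ := h
    rw [ev_append, mul_inv_rev, mul_inv_cancel_left]
    refine ball_mono α ?_ (ball_inv α (sg_mem α z))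
    rw [List.length_append]; omega

lemma good_or {k : ℕ} (hk : 2 ≤ k) (hG : ∀ g : G, g ^ k = 1) {w : List (ι × Bool)}
    (hw : Geo α w) (N r₀ : ℕ) {u : List (ι × Bool)} (hu : Geo α u) {c : List ι}
    (hc : c.length ≤ 2) {R₀ : ℕ} (hR : k * (2 * (r₀ + 2 * k) + 2) + k ≤ R₀) :
    Good α r₀ R₀ (u.flatMap (lift k)) c ((w.drop N).flatMap (lift k)) ∨
      Good α r₀ R₀ (u.flatMap (lift k)) c ((inv (w.take N)).flatMap (lift k)) := by
  by_contra hcon
  rw [not_or] at hcon
  obtain ⟨h1, h2⟩ := hcon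
  unfold Good at h1 h2
  push Not at h1 h2
  obtain ⟨a₁, b₁, ha₁, hb₁, hm₁, hl₁⟩ := h1
  obtain ⟨a₂, b₂, ha₂, hb₂, hm₂, hl₂⟩ := h2
  obtain ⟨θ₁, x₁, rfl, hx₁, hθ₁⟩ := suffix_flatMap (lift_length_le hk) u a₁ ha₁
  obtain ⟨θ₂, x₂, rfl, hx₂, hθ₂⟩ := suffix_flatMap (lift_length_le hk) u a₂ ha₂
  obtain ⟨y₁, η₁, rfl, hy₁, hη₁⟩ := prefix_flatMap (lift_length_le hk) _ b₁ hb₁
  obtain ⟨y₂, η₂, rfl, hy₂, hη₂⟩ := prefix_flatMap (lift_length_le hk) _ b₂ hb₂
  -- the long heads
  have hj : ∀ (y : List (ι × Bool)) (η : List ι), η.length ≤ k →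
      R₀ < (y.flatMap (lift k) ++ η).length → 2 * (r₀ + 2 * k) + 2 < y.length := by
    intro y η hη hl
    by_contra hcon
    push Not at hcon
    have h4 := length_flatMap_le (lift_length_le (ι := ι) hk) y
    have h5 : k * y.length ≤ k * (2 * (r₀ + 2 * k) + 2) := Nat.mul_le_mul_left k hcon
    rw [List.length_append] at hl
    omega
  have hj₁ := hj y₁ η₁ hη₁ hl₁
  have hj₂ := hj y₂ η₂ hη₂ hl₂
  have hαc : ev α c ∈ ball α 2 := ball_mono α hc (ev_mem α c)
  -- the junction relation
  have hrel : ∀ (θ : List ι) (x y : List (ι × Bool)) (η : List ι), θ.length ≤ k → η.length ≤ k →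
      ev α (θ ++ x.flatMap (lift k) ++ c ++ (y.flatMap (lift k) ++ η)) ∈ ball α r₀ →
      ev (sg α) x * ev α c * ev (sg α) y ∈ ball α (r₀ + 2 * k) := by
    intro θ x y η hθ hη hm
    simp only [ev_append] at hm
    rw [ev_liftw (by omega) hG, ev_liftw (by omega) hG] at hm
    have h2 := ball_mul α (ball_mul α (ball_inv α (ball_mono α hθ (ev_mem α θ))) hm)
      (ball_inv α (ball_mono α hη (ev_mem α η)))
    refine ball_mono α (r := k + r₀ + k) (by omega) ?_
    convert h2 using 1
    group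
  have hβ₁ := hrel θ₁ x₁ y₁ η₁ hθ₁ hη₁ hm₁
  have hβ₂ := hrel θ₂ x₂ y₂ η₂ hθ₂ hη₂ hm₂
  have hgp : Geo α (w.drop N) := hw.infx α (List.drop_suffix N w).isInfix
  have hgq : Geo α (inv (w.take N)) := (hw.infx α (List.take_prefix N w).isInfix).inv α
  -- comparison of the two sides of a junction
  have hcomp : ∀ (x y v : List (ι × Bool)), x <:+ u → y <+: v → Geo α v →
      ev (sg α) x * ev α c * ev (sg α) y ∈ ball α (r₀ + 2 * k) →
      x.length ≤ (r₀ + 2 * k) + y.length + 2 ∧ y.length ≤ 2 + x.length + (r₀ + 2 * k) := by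
    intro x y v hx hy hv hβ
    constructor
    · refine hu x hx.isInfix _ ?_
      have h2 := ball_mul α (ball_mul α hβ (ball_inv α (sg_mem α y))) (ball_inv α hαc)
      convert h2 using 1
      group
    · refine hv y hy.isInfix _ ?_
      have h2 := ball_mul α (ball_mul α (ball_inv α hαc) (ball_inv α (sg_mem α x))) hβ
      convert h2 using 1
      group
  obtain ⟨hc1, hc2⟩ := hcomp x₁ y₁ _ hx₁ hy₁ hgp hβ₁
  obtain ⟨hc3, hc4⟩ := hcomp x₂ y₂ _ hx₂ hy₂ hgq hβ₂
  -- the two heads lie on opposite sides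
  have hopp : (inv y₂ ++ y₁).length ≤ (r₀ + 2 * k) +
      ((x₁.length - x₂.length) + (x₂.length - x₁.length)) + (r₀ + 2 * k) := by
    refine hw (inv y₂ ++ y₁) ?_ _ ?_
    · obtain ⟨t₁, ht₁⟩ := hy₁
      obtain ⟨t₂, ht₂⟩ := hy₂
      refine ⟨inv t₂, t₁, ?_⟩
      have e2 : inv t₂ ++ inv y₂ = w.take N := by
        rw [← inv_append, ht₂, inv_inv]
      rw [← List.append_assoc, e2, List.append_assoc, ht₁, List.take_append_drop]
    · rw [ev_append, ev_inv]
      have h2 := ball_mul α (ball_mul α (ball_inv α hβ₂) (suffix_diff α hx₁ hx₂)) hβ₁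
      convert h2 using 1
      group
  rw [List.length_append, inv_length] at hopp
  omega

/-- bounded-scale fatness of a word -/
def Pn (n r₀ R : ℕ) (Z : List ι) : Prop :=
  ∀ ω, ω <:+: Z → ω.length ≤ n → ev α ω ∈ ball α r₀ → ω.length ≤ R

lemma Pn.infx {n r₀ R : ℕ} {Z Z' : List ι} (h : Pn α n r₀ R Z) (hz : Z' <:+: Z) :
    Pn α n r₀ R Z' := fun ω hω => h ω (hω.trans hz)

lemma Pn.nil (n r₀ R : ℕ) : Pn α n r₀ R [] := by
  intro ω hω _ _
  rw [List.infix_nil] at hω
  rw [hω]
  exact Nat.zero_le _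

lemma Pn.glue {n r₀ R : ℕ} {Z a d : List ι} (hZ : Pn α n r₀ R Z) (ha : a <:+ Z)
    (hn : n ≤ a.length) (hl : Pn α n r₀ R (a ++ d)) : Pn α n r₀ R (Z ++ d) := by
  intro ω hω hωn hωb
  obtain ⟨Z₀, rfl⟩ := ha
  obtain ⟨s, t, hst⟩ := hω
  rcases le_total Z₀.length s.length with h | h
  · -- `ω` is a factor of `a ++ d`
    refine hl ω ?_ hωn hωb
    have hp : Z₀ <+: s := by
      refine List.prefix_of_prefix_length_le (l₃ := Z₀ ++ a ++ d) ?_ ?_ h
      · exact ⟨a ++ d, by simp⟩
      · exact ⟨ω ++ t, by rw [← hst]; simp⟩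
    obtain ⟨s', rfl⟩ := hp
    refine ⟨s', t, ?_⟩
    simpa [List.append_assoc] using hst
  · refine hZ ω ?_ hωn hωb
    have hp : s ++ ω <+: Z₀ ++ a := by
      refine List.prefix_of_prefix_length_le (l₃ := Z₀ ++ a ++ d) ?_ ?_ ?_
      · exact ⟨t, hst⟩
      · exact ⟨d, rfl⟩
      · rw [List.length_append, List.length_append]; omega
    obtain ⟨t', ht'⟩ := hp
    exact ⟨s, t', ht'⟩

/-- a factor of `a ++ d` -/
lemma infix_append_cases {a d ω : List ι} (h : ω <:+: a ++ d) :
    ω <:+: a ∨ ω <:+: d ∨ ∃ x y, ω = x ++ y ∧ x <:+ a ∧ y <+: d := by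
  rw [List.infix_append_iff] at h
  exact h

lemma Pn.local {k : ℕ} {n r₀ R₀ R : ℕ} {a c b : List ι} (ha : QG α k a) (hb : QG α k b)
    (hc : c.length ≤ 2) (hg : Good α r₀ R₀ a c b)
    (hR : k * (r₀ + 2 + R₀ + 2 * k) + 2 * k + 2 + R₀ ≤ R) :
    Pn α n r₀ R (a ++ (c ++ b)) := by
  intro ω hω _ hωb
  have hκ : ∀ r, r ≤ r₀ + 2 + R₀ → k * (r + 2 * k) + 2 * k ≤ k * (r₀ + 2 + R₀ + 2 * k) + 2 * k := by
    intro r hr
    have : k * (r + 2 * k) ≤ k * (r₀ + 2 + R₀ + 2 * k) := Nat.mul_le_mul_left k (by omega)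
    omega
  rcases infix_append_cases hω with h | h | ⟨x, y, rfl, hx, hy⟩
  · have := ha ω h r₀ hωb
    have := hκ r₀ (by omega)
    omega
  · rcases infix_append_cases h with h | h | ⟨x, y, rfl, hx, hy⟩
    · have := h.length_le
      omega
    · have := hb ω h r₀ hωb
      have := hκ r₀ (by omega)
      omega
    · have hxl := hx.length_le
      have h1 : ev α y ∈ ball α (2 + r₀) := by
        rw [ev_append] at hωb
        have h2 := ball_mul α (ball_inv α (ball_mono α (hxl.trans hc) (ev_mem α x))) hωb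
        convert h2 using 1
        group
      have := hb y hy.isInfix _ h1
      have := hκ (2 + r₀) (by omega)
      rw [List.length_append]
      omega
  · -- `x` suffix of `a`, `y` prefix of `c ++ b`
    rcases List.prefix_or_prefix_of_prefix hy (List.prefix_append c b) with h | h
    · have hyl := h.length_le
      have h1 : ev α x ∈ ball α (r₀ + 2) := by
        rw [ev_append] at hωb
        have h2 := ball_mul α hωb (ball_inv α (ball_mono α (hyl.trans hc) (ev_mem α y)))
        convert h2 using 1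
        group
      have := ha x hx.isInfix _ h1
      have := hκ (r₀ + 2) (by omega)
      rw [List.length_append]
      omega
    · obtain ⟨b', rfl⟩ := h
      rw [List.prefix_append_right_inj] at hy
      have hb' : b'.length ≤ R₀ := hg x b' hx hy (by rw [List.append_assoc]; exact hωb)
      have h1 : ev α x ∈ ball α (r₀ + (2 + R₀)) := by
        rw [ev_append] at hωb
        have h3 : ev α (c ++ b') ∈ ball α (2 + R₀) :=
          ball_mono α (by rw [List.length_append]; omega) (ev_mem α _)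
        have h2 := ball_mul α hωb (ball_inv α h3)
        convert h2 using 1
        group
      have := ha x hx.isInfix _ h1
      have := hκ (r₀ + (2 + R₀)) (by omega)
      rw [List.length_append, List.length_append]
      omega

end good

/-! ### The transducer -/

section transducer

variable {ι : Type}

/-- output word of the two-state transducer -/
def outp (out : Bool → ι → List ι) (δ : ι → Bool → Bool) : Bool → List ι → List ι
  | _, [] => []
  | s, f :: W => out s f ++ outp out δ (δ f s) W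

/-- final state of the two-state transducer -/
def stat (δ : ι → Bool → Bool) : Bool → List ι → Bool
  | s, [] => s
  | s, f :: W => stat δ (δ f s) W

lemma outp_append (out : Bool → ι → List ι) (δ : ι → Bool → Bool) (V W : List ι) :
    ∀ s, outp out δ s (V ++ W) = outp out δ s V ++ outp out δ (stat δ s V) W := by
  induction V with
  | nil => intro s; simp [outp, stat]
  | cons f V ih => intro s; simp [outp, stat, ih, List.append_assoc]

/-- transformations of the two states, composed from left to right -/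
structure Tr where
  /-- the underlying map -/
  toFun : Bool → Bool

instance : Monoid Tr where
  mul a b := ⟨fun s => b.toFun (a.toFun s)⟩
  one := ⟨fun s => s⟩
  mul_assoc _ _ _ := rfl
  one_mul _ := rfl
  mul_one _ := rfl

lemma Tr.mul_toFun (a b : Tr) (s : Bool) : (a * b).toFun s = b.toFun (a.toFun s) := rfl

instance : Finite Tr := Finite.of_injective Tr.toFun (by
  rintro ⟨a⟩ ⟨b⟩ h
  exact congrArg Tr.mk h)

lemma stat_end (δ : ι → Bool → Bool) (W : List ι) : ∀ s,
    (ev (fun f => Tr.mk (δ f)) W).toFun s = stat δ s W := by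
  induction W with
  | nil => intro s; rfl
  | cons f W ih =>
    intro s
    rw [ev_cons, Tr.mul_toFun]
    exact ih (δ f s)

lemma outp_flatMap {m : ℕ} (out : Bool → ι → List ι) (δ : ι → Bool → Bool)
    (φ : Fin m → List ι) (s : Bool) (hs : ∀ a, stat δ s (φ a) = s) (W : List (Fin m)) :
    W.flatMap (fun a => outp out δ s (φ a)) = outp out δ s (W.flatMap φ) := by
  induction W with
  | nil => rfl
  | cons a W ih =>
    rw [List.flatMap_cons, List.flatMap_cons, outp_append, hs, ih]

lemma ev_outp {G' : Type} [Group G'] (Λ : ι → G') (out : Bool → ι → List ι)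
    (δ : ι → Bool → Bool) (h : ∀ s f, ev Λ (out s f) = Λ f) (W : List ι) :
    ∀ s, ev Λ (outp out δ s W) = ev Λ W := by
  induction W with
  | nil => intro s; rfl
  | cons f W ih => intro s; rw [outp, ev_append, h, ih, ev_cons]

variable {G G' : Type} [Group G] [Group G'] (α : ι → G)

lemma fat_of_arcs [Finite ι] {k : ℕ} (hk : 0 < k) (hG' : ∀ g : G', g ^ k = 1)
    (Λ : ι → G') (hΛ : InfImg Λ) {n r₀ R₀ R : ℕ} (arc con : Bool → List ι)
    (hQ : ∀ s, QG α k (arc s)) (hn : ∀ s, n ≤ (arc s).length) (hcon : ∀ s, (con s).length ≤ 1)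
    (hg1 : ∀ s, Good α r₀ R₀ (arc s) (con s) (arc (!s)))
    (hg2 : ∀ s f, ∃ t, Good α r₀ R₀ (arc s) (con s ++ [f]) (arc t))
    (hR₀ : k * (r₀ + 2 + 2 * k) + 2 * k ≤ R₀)
    (hR : k * (r₀ + 2 + R₀ + 2 * k) + 2 * k + 2 + R₀ ≤ R) :
    ∃ (m : ℕ) (φ : Fin m → List ι), (∀ a, φ a ≠ []) ∧ InfImg (fun a => ev Λ (φ a)) ∧
      ∀ W : List (Fin m), Pn α n r₀ R (W.flatMap φ) := by
  choose nx hnx using hg2
  set X : Bool → List ι := fun t => arc t ++ (con t ++ (arc (!t) ++ con (!t))) with hX
  set out : Bool → ι → List ι := fun s f => f :: (List.replicate k (X (nx s f))).flatten with hout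
  set δ : ι → Bool → Bool := fun f s => !(nx s f) with hδ
  set OK : Bool → List ι → Prop := fun s Z => ∃ Z', Z = Z' ++ con s ∧ arc s <:+ Z' ∧
    Pn α n r₀ R Z' with hOK
  -- placing an arc after an arc
  have place : ∀ (s t : Bool) (c Z : List ι), c.length ≤ 2 → Good α r₀ R₀ (arc s) c (arc t) →
      arc s <:+ Z → Pn α n r₀ R Z → Pn α n r₀ R (Z ++ (c ++ arc t)) := by
    intro s t c Z hc hg hZ hP
    exact hP.glue α hZ (hn s) (Pn.local α (hQ s) (hQ t) hc hg hR)
  have step0 : ∀ (t : Bool) (Z : List ι), arc t <:+ Z → Pn α n r₀ R Z →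
      OK (!t) (Z ++ (con t ++ (arc (!t) ++ con (!t)))) := by
    intro t Z hZ hP
    refine ⟨Z ++ (con t ++ arc (!t)), by simp, ⟨Z ++ con t, by simp⟩, ?_⟩
    exact place t (!t) (con t) Z ((hcon t).trans (by omega)) (hg1 t) hZ hP
  have step1 : ∀ (t : Bool) (Z : List ι), OK (!t) Z → Pn α n r₀ R (Z ++ arc t) := by
    intro t Z hZ
    obtain ⟨Z', rfl, hs, hP⟩ := hZ
    have := place (!t) (!(!t)) (con (!t)) Z' ((hcon _).trans (by omega)) (hg1 _) hs hP
    rw [Bool.not_not] at this
    rwa [List.append_assoc]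
  have step2 : ∀ (t : Bool) (Z : List ι), OK (!t) Z → OK (!t) (Z ++ X t) := by
    intro t Z hZ
    have := step0 t (Z ++ arc t) ⟨Z, rfl⟩ (step1 t Z hZ)
    rw [List.append_assoc] at this
    exact this
  have loop : ∀ (t : Bool) (j : ℕ) (Z : List ι), OK (!t) Z →
      OK (!t) (Z ++ (List.replicate j (X t)).flatten) := by
    intro t j
    induction j with
    | zero => intro Z hZ; simpa using hZ
    | succ j ih =>
      intro Z hZ
      have := ih (Z ++ X t) (step2 t Z hZ)
      rw [List.replicate_succ, List.flatten_cons, ← List.append_assoc]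
      exact this
  have hstart : ∀ (s : Bool) (f : ι) (Z : List ι), (Z = [] ∨ OK s Z) →
      Pn α n r₀ R (Z ++ ([f] ++ arc (nx s f))) := by
    intro s f Z hZ
    rcases hZ with rfl | ⟨Z', rfl, hs, hP⟩
    · have hq0 : QG α k ([] : List ι) := by
        intro z hz r _
        rw [List.infix_nil] at hz
        rw [hz]
        exact Nat.zero_le _
      have hg0 : Good α r₀ R₀ [] [f] (arc (nx s f)) := by
        intro a' b' ha' hb' hm
        rw [List.suffix_nil] at ha'
        subst ha'
        rw [List.nil_append, ev_append] at hm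
        have h1 : ev α b' ∈ ball α (1 + r₀) := by
          have h2 := ball_mul α (ball_inv α (ev_mem α [f])) hm
          rw [inv_mul_cancel_left] at h2
          simpa using h2
        have h3 := hQ _ b' hb'.isInfix _ h1
        have h4 : k * (1 + r₀ + 2 * k) ≤ k * (r₀ + 2 + 2 * k) := Nat.mul_le_mul_left k (by omega)
        omega
      have := Pn.local (n := n) α hq0 (hQ (nx s f)) (c := [f]) (by simp) hg0 hR
      simpa using this
    · have := place s (nx s f) (con s ++ [f]) Z' (by
        have := hcon s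
        rw [List.length_append, List.length_singleton]; omega) (hnx s f) hs hP
      simpa [List.append_assoc] using this
  have hstep : ∀ (s : Bool) (f : ι) (Z : List ι), (Z = [] ∨ OK s Z) →
      OK (δ f s) (Z ++ out s f) := by
    intro s f Z hZ
    obtain ⟨j, rfl⟩ : ∃ j, k = j + 1 := ⟨k - 1, by omega⟩
    have h1 := step0 (nx s f) (Z ++ ([f] ++ arc (nx s f))) ⟨Z ++ [f], by simp⟩ (hstart s f Z hZ)
    have h2 := loop (nx s f) j _ h1
    have e : Z ++ out s f = Z ++ ([f] ++ arc (nx s f)) ++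
        (con (nx s f) ++ (arc (!nx s f) ++ con (!nx s f))) ++
        (List.replicate j (X (nx s f))).flatten := by
      simp only [hout, hX, List.replicate_succ, List.flatten_cons]
      simp
    rw [e]
    exact h2
  have hrun : ∀ (W : List ι) (s : Bool) (Z : List ι), (Z = [] ∨ OK s Z) →
      (Z ++ outp out δ s W = [] ∨ OK (stat δ s W) (Z ++ outp out δ s W)) := by
    intro W
    induction W with
    | nil => intro s Z hZ; simpa [outp, stat] using hZ
    | cons f W ih =>
      intro s Z hZ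
      have := ih (δ f s) (Z ++ out s f) (Or.inr (hstep s f Z hZ))
      rw [List.append_assoc] at this
      exact this
  have hOKP : ∀ (s : Bool) (Z : List ι), (Z = [] ∨ OK s Z) → Pn α n r₀ R Z := by
    intro s Z hZ
    rcases hZ with rfl | ⟨Z', rfl, hs, hP⟩
    · exact Pn.nil α n r₀ R
    · have := place s (!s) (con s) Z' ((hcon s).trans (by omega)) (hg1 s) hs hP
      refine this.infx α ⟨[], arc (!s), by simp⟩
  have hrunP : ∀ (s : Bool) (W : List ι), Pn α n r₀ R (outp out δ s W) := by
    intro s W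
    have := hrun W s [] (Or.inl rfl)
    rw [List.nil_append] at this
    exact hOKP _ _ this
  have hΛout : ∀ s f, ev Λ (out s f) = Λ f := by
    intro s f
    simp only [hout, ev_cons, ev_replicate_flatten, hG', mul_one]
  -- passing
  obtain ⟨m, φ, e, hne, hee, he, hinf⟩ := passing hk hG' Λ hΛ (fun f => Tr.mk (δ f))
  set s₀ : Bool := e.toFun true with hs₀
  have hs : e.toFun s₀ = s₀ := by
    have : (e * e).toFun true = e.toFun true := by rw [hee]
    exact this
  have hst : ∀ a, stat δ s₀ (φ a) = s₀ := by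
    intro a
    rw [← stat_end, he, hs]
  refine ⟨m, fun a => outp out δ s₀ (φ a), ?_, ?_, ?_⟩
  · intro a
    obtain ⟨f, W, hfW⟩ := List.exists_cons_of_ne_nil (hne a)
    show outp out δ s₀ (φ a) ≠ []
    rw [hfW, outp, hout]
    simp
  · have : (fun a => ev Λ (outp out δ s₀ (φ a))) = fun a => ev Λ (φ a) := by
      funext a
      exact ev_outp Λ out δ hΛout (φ a) s₀
    rw [this]
    exact hinf
  · intro W
    rw [outp_flatMap out δ φ s₀ hst W]
    exact hrunP s₀ _

end transducer

end Fat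

/-- FAT -/
theorem fat {ι : Type} [Finite ι] {G G' : Type} [Group G] [Group G'] {k : ℕ} (hk : 0 < k)
    (hG : ∀ g : G, g ^ k = 1) (hG' : ∀ g : G', g ^ k = 1)
    (Λ : ι → G') (hΛ : InfImg Λ) (α : ι → G) (hα : InfImg α) {F : Set G} (hF : F.Finite) :
    ∃ R : ℕ, ∀ n : ℕ, ∃ (m : ℕ) (φ : Fin m → List ι), (∀ a, φ a ≠ []) ∧
      InfImg (fun a => ev Λ (φ a)) ∧
      ∀ (W : List (Fin m)) (ω : List ι), ω <:+: W.flatMap φ → ω.length ≤ n → ev α ω ∈ F →
        ω.length ≤ R := by
  classical
  have hk2 : 2 ≤ k := by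
    by_contra hcon
    have hk1 : k = 1 := by omega
    subst hk1
    refine hα ((Set.finite_singleton (1 : G)).subset ?_)
    rintro g -
    have := hG g
    rw [pow_one] at this
    exact this
  -- the radius of `F`
  obtain ⟨r₀, hr₀⟩ : ∃ r₀ : ℕ, ∀ g ∈ F, (∃ r, g ∈ Fat.ball α r) → g ∈ Fat.ball α r₀ := by
    set rad : G → ℕ := fun g => if h : ∃ r, g ∈ Fat.ball α r then Nat.find h else 0 with hrad
    refine ⟨hF.toFinset.sup rad, fun g hg h => ?_⟩
    have h1 : rad g = Nat.find h := by rw [hrad]; exact dif_pos h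
    have h2 : rad g ≤ hF.toFinset.sup rad := Finset.le_sup (hF.mem_toFinset.mpr hg)
    exact Fat.ball_mono α (h1 ▸ h2) (Nat.find_spec h)
  set R₀ : ℕ := k * (2 * (r₀ + 2 * k) + 2) + k + (k * (r₀ + 2 + 2 * k) + 2 * k) with hR₀
  refine ⟨k * (r₀ + 2 + R₀ + 2 * k) + 2 * k + 2 + R₀, fun n => ?_⟩
  obtain ⟨w, hwl, hw⟩ := Fat.exists_geo α hα (2 * n)
  set arcP : Bool → List ι := fun s => if s then (w.drop n).flatMap (Fat.lift k)
    else (Fat.inv (w.take n)).flatMap (Fat.lift k) with harcP
  set arcS : Bool → List (ι × Bool) := fun s => if s then w.drop n else Fat.inv (w.take n)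
    with harcS
  have harc : ∀ s, arcP s = (arcS s).flatMap (Fat.lift k) := by
    intro s; cases s <;> rfl
  have hgeo : ∀ s, Fat.Geo α (arcS s) := by
    intro s
    cases s
    · exact (hw.infx α (List.take_prefix n w).isInfix).inv α
    · exact hw.infx α (List.drop_suffix n w).isInfix
  have hlen : ∀ s, n ≤ (arcP s).length := by
    intro s
    rw [harc]
    refine le_trans ?_ (Fat.le_length_flatMap (Fat.lift_ne_nil hk2) _)
    cases s
    · show n ≤ (Fat.inv (w.take n)).length
      rw [Fat.inv_length, List.length_take]; omega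
    · show n ≤ (w.drop n).length
      rw [List.length_drop]; omega
  have hQ : ∀ s, Fat.QG α k (arcP s) := by
    intro s
    rw [harc]
    exact Fat.qg_lift α hk2 hG (hgeo s)
  have hclaim : ∀ (s : Bool) (c : List ι), c.length ≤ 2 →
      ∃ t, Fat.Good α r₀ R₀ (arcP s) c (arcP t) := by
    intro s c hc
    rw [harc s]
    rcases Fat.good_or α hk2 hG hw n r₀ (hgeo s) hc (R₀ := R₀) (by omega) with h | h
    · exact ⟨true, h⟩
    · exact ⟨false, h⟩
  have key : ∃ (m : ℕ) (φ : Fin m → List ι), (∀ a, φ a ≠ []) ∧ InfImg (fun a => ev Λ (φ a)) ∧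
      ∀ W : List (Fin m), Fat.Pn α n r₀ (k * (r₀ + 2 + R₀ + 2 * k) + 2 * k + 2 + R₀)
        (W.flatMap φ) := by
    by_cases hA : ∃ a₀, ∀ c : List ι, c.length ≤ 1 → Fat.Good α r₀ R₀ (arcP a₀) c (arcP a₀)
    · obtain ⟨a₀, ha₀⟩ := hA
      refine Fat.fat_of_arcs α hk hG' Λ hΛ (fun _ => arcP a₀) (fun _ => []) (fun _ => hQ a₀)
        (fun _ => hlen a₀) (by simp) (fun _ => ha₀ [] (by simp))
        (fun _ f => ⟨true, ha₀ _ (by simp)⟩) (by omega) le_rfl
    · push Not at hA
      choose con hcl hcg using hA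
      refine Fat.fat_of_arcs α hk hG' Λ hΛ arcP con hQ hlen hcl ?_ ?_ (by omega) le_rfl
      · intro s
        obtain ⟨t, ht⟩ := hclaim s (con s) ((hcl s).trans (by omega))
        have hts : t ≠ s := by
          rintro rfl
          exact hcg _ ht
        have : t = !s := by
          cases s <;> cases t <;> simp_all
        rw [← this]
        exact ht
      · intro s f
        refine hclaim s _ ?_
        have := hcl s
        rw [List.length_append, List.length_singleton]; omega
  obtain ⟨m, φ, h1, h2, h3⟩ := key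
  refine ⟨m, φ, h1, h2, fun W ω hω hn hF' => ?_⟩
  exact h3 W ω hω hn (hr₀ _ hF' ⟨_, Fat.ev_mem α ω⟩)

end Pool.Agent.MP5ca50a
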