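import Pool.Agent.Lib.MP_5ca50a_lc.StatusAux
import Pool.Agent.Lib.MP_5ca50a_lc.Fat

/-!
The lemma `status`.
-/

set_option autoImplicit false

namespace Pool.Agent.MP5ca50a

theorem status {ι : Type} [Finite ι] {G G' : Type} [Group G] [Group G'] {k : ℕ} (hk : 0 < k)
    (hG : ∀ g : G, g ^ k = 1) (hG' : ∀ g : G', g ^ k = 1)
    (Λ : ι → G') (hΛ : InfImg Λ) {J : Type} [Finite J] (lam : J → ι → G)
    {F : Set G} (hF : F.Finite) (g : ℕ → ℕ) :
    ∃ (m : ℕ) (φ : Fin m → List ι), (∀ a, φ a ≠ []) ∧ InfImg (fun a => ev Λ (φ a)) ∧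
      ∀ j, (∀ a, ev (lam j) (φ a) = 1) ∨
        ∃ R : ℕ, ∀ (W : List (Fin m)) (ω : List ι), ω <:+: W.flatMap φ → ω.length ≤ g R →
          ev (lam j) ω ∈ F → ω.length ≤ R :=
  status_of passing fat hk hG hG' Λ hΛ lam hF g

end Pool.Agent.MP5ca50a
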