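import Pool.Agent.Lib.MP_5ca50a_lc.BGram
import Pool.Agent.Lib.MP_5ca50a_lc.Alph

/-!
Zones: words over an alphabet of words, cuts and insertions.
-/

set_option autoImplicit false

namespace Pool.Agent.MP5ca50a

variable {T : Type}

/-- Next letter boundary after a cut. -/
lemma split_next {κ : Type} (w : κ → List T) (l : ℕ) (hl : ∀ b, (w b).length ≤ l) (V : List κ)
    (x y : List T) (h : V.flatMap w = x ++ y) :
    ∃ (V₁ V₂ : List κ) (η : List T), V = V₁ ++ V₂ ∧ x ++ η = V₁.flatMap w ∧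
      y = η ++ V₂.flatMap w ∧ η.length ≤ l := by
  induction V generalizing x with
  | nil =>
    obtain ⟨rfl, rfl⟩ := List.append_eq_nil_iff.mp h.symm
    exact ⟨[], [], [], rfl, rfl, rfl, by simp⟩
  | cons a V ih =>
    rw [List.flatMap_cons] at h
    rcases List.append_eq_append_iff.1 h with ⟨x', hx, hy⟩ | ⟨a', ha, hy⟩
    · obtain ⟨V₁, V₂, η, rfl, h1, h2, h3⟩ := ih x' hy
      refine ⟨a :: V₁, V₂, η, rfl, ?_, h2, h3⟩
      rw [hx, List.flatMap_cons, List.append_assoc, h1]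
    · refine ⟨[a], V, a', rfl, ?_, hy, ?_⟩
      · simp [ha]
      · have := hl a
        rw [ha, List.length_append] at this
        omega

/-- Previous letter boundary before a cut. -/
lemma split_prev {κ : Type} (w : κ → List T) (l : ℕ) (hl : ∀ b, (w b).length ≤ l) (V : List κ)
    (x y : List T) (h : V.flatMap w = x ++ y) :
    ∃ (V₁ V₂ : List κ) (θ : List T), V = V₁ ++ V₂ ∧ x = V₁.flatMap w ++ θ ∧
      θ ++ y = V₂.flatMap w ∧ θ.length ≤ l := by
  induction V generalizing x with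
  | nil =>
    obtain ⟨rfl, rfl⟩ := List.append_eq_nil_iff.mp h.symm
    exact ⟨[], [], [], rfl, rfl, rfl, by simp⟩
  | cons a V ih =>
    rw [List.flatMap_cons] at h
    rcases List.append_eq_append_iff.1 h with ⟨x', hx, hy⟩ | ⟨a', ha, hy⟩
    · obtain ⟨V₁, V₂, θ, rfl, h1, h2, h3⟩ := ih x' hy
      refine ⟨a :: V₁, V₂, θ, rfl, ?_, h2, h3⟩
      rw [hx, h1, List.flatMap_cons, List.append_assoc]
    · refine ⟨[], a :: V, x, rfl, by simp, ?_, ?_⟩
      · rw [List.flatMap_cons, ha, List.append_assoc, hy]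
      · have := hl a
        rw [ha, List.length_append] at this
        omega

/-- Block decomposition of a factor of a zone. -/
lemma zone_split {κ : Type} (w : κ → List T) (l : ℕ) (hl : ∀ b, (w b).length ≤ l) (V : List κ)
    (p m s : List T) (h : V.flatMap w = p ++ m ++ s) :
    m.length ≤ l ∨ ∃ (V₁ U V₂ : List κ) (η θ : List T), V = V₁ ++ U ++ V₂ ∧
      m = η ++ U.flatMap w ++ θ ∧ p ++ η = V₁.flatMap w ∧ θ ++ s = V₂.flatMap w ∧
      η.length ≤ l ∧ θ.length ≤ l := by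
  rw [List.append_assoc] at h
  obtain ⟨V₁, V', η, rfl, h1, h2, h3⟩ := split_next w l hl V p (m ++ s) h
  rcases List.append_eq_append_iff.1 h2 with ⟨m', hm, hs⟩ | ⟨m', hm, hs⟩
  · -- η = m ++ m'
    left
    rw [hm, List.length_append] at h3
    omega
  · -- m = η ++ m'
    obtain ⟨U, V₂, θ, rfl, h4, h5, h6⟩ := split_prev w l hl V' m' s hs
    right
    exact ⟨V₁, U, V₂, η, θ, by simp, by rw [hm, h4]; simp, h1, h5, h3, h6⟩

/-- Locating a letter in a substituted word. -/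
lemma pos_letter {ι κ : Type} (φ : κ → List ι) (W : List κ) (V₁ V₂ : List ι) (a : ι)
    (h : W.flatMap φ = V₁ ++ a :: V₂) :
    ∃ (W₁ : List κ) (b : κ) (W₂ : List κ) (b₁ b₂ : List ι), W = W₁ ++ b :: W₂ ∧
      φ b = b₁ ++ a :: b₂ ∧ V₁ = W₁.flatMap φ ++ b₁ ∧ V₂ = b₂ ++ W₂.flatMap φ := by
  induction W generalizing V₁ with
  | nil => simp at h
  | cons b W ih =>
    rw [List.flatMap_cons] at h
    rcases List.append_eq_append_iff.1 h with ⟨x', hx, hy⟩ | ⟨a', ha, hy⟩
    · obtain ⟨W₁, b', W₂, b₁, b₂, rfl, h1, h2, h3⟩ := ih x' hy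
      refine ⟨b :: W₁, b', W₂, b₁, b₂, rfl, h1, ?_, h3⟩
      rw [hx, h2, List.flatMap_cons, List.append_assoc]
    · cases a' with
      | nil =>
        simp only [List.append_nil, List.nil_append] at ha hy
        obtain ⟨W₁, b', W₂, b₁, b₂, rfl, h1, h2, h3⟩ := ih [] (by simpa using hy.symm)
        refine ⟨b :: W₁, b', W₂, b₁, b₂, rfl, h1, ?_, h3⟩
        rw [List.flatMap_cons, ha, List.append_assoc, ← h2, List.append_nil]
      | cons a'' a' =>
        simp only [List.cons_append, List.cons.injEq] at hy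
        obtain ⟨rfl, rfl⟩ := hy
        exact ⟨[], b, W, V₁, a', rfl, ha, by simp, rfl⟩

/-- Locating a cut in a substituted word. -/
lemma pos_cut {ι κ : Type} (φ : κ → List ι) (W : List κ) (hW : W ≠ []) (X₁ X₂ : List ι)
    (h : W.flatMap φ = X₁ ++ X₂) :
    ∃ (W₁ : List κ) (b : κ) (W₂ : List κ) (b₁ b₂ : List ι), W = W₁ ++ b :: W₂ ∧
      φ b = b₁ ++ b₂ ∧ X₁ = W₁.flatMap φ ++ b₁ ∧ X₂ = b₂ ++ W₂.flatMap φ := by
  cases X₂ with
  | nil =>
    refine ⟨W.dropLast, W.getLast hW, [], φ (W.getLast hW), [],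
      (List.dropLast_append_getLast hW).symm, by simp, ?_, by simp⟩
    rw [List.append_nil] at h
    rw [← h]
    conv_lhs => rw [← List.dropLast_append_getLast hW]
    rw [List.flatMap_append]
    simp
  | cons a X₂ =>
    obtain ⟨W₁, b, W₂, b₁, b₂, h1, h2, h3, h4⟩ := pos_letter φ W X₁ X₂ a h
    exact ⟨W₁, b, W₂, b₁, a :: b₂, h1, h2, h3, by rw [h4]; rfl⟩

/-- Insertion property at some cut of the middle part of a zone. -/
def Ins {ι : Type} (w : ι → List T) (W : List ι) (p m s : List T) (X : List T → Prop) : Prop :=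
  ∃ (W₁ : List ι) (a : ι) (W₂ : List ι) (c c' m₁ m₂ : List T), W = W₁ ++ a :: W₂ ∧
    w a = c ++ c' ∧ m = m₁ ++ m₂ ∧ p ++ m₁ = W₁.flatMap w ++ c ∧ m₂ ++ s = c' ++ W₂.flatMap w ∧
    ∀ f : List ι, X (m₁ ++ c' ++ f.flatMap w ++ c ++ m₂)

lemma Ins.up {ι : Type} {w : ι → List T} {W : List ι} {p l m r s : List T}
    {X X' : List T → Prop} (h : Ins w W (p ++ l) m (r ++ s) X)
    (hX : ∀ m', X m' → X' (l ++ m' ++ r)) : Ins w W p (l ++ m ++ r) s X' := by
  obtain ⟨W₁, a, W₂, c, c', m₁, m₂, h1, h2, rfl, h4, h5, h6⟩ := h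
  refine ⟨W₁, a, W₂, c, c', l ++ m₁, m₂ ++ r, h1, h2, by simp, ?_, ?_, ?_⟩
  · rw [← List.append_assoc]; exact h4
  · rw [List.append_assoc]; exact h5
  · intro f
    have := hX _ (h6 f)
    simpa [List.append_assoc] using this

lemma Ins.mono {ι : Type} {w : ι → List T} {W : List ι} {p m s : List T}
    {X X' : List T → Prop} (h : Ins w W p m s X) (hX : ∀ m', X m' → X' m') :
    Ins w W p m s X' := by
  obtain ⟨W₁, a, W₂, c, c', m₁, m₂, h1, h2, h3, h4, h5, h6⟩ := h
  exact ⟨W₁, a, W₂, c, c', m₁, m₂, h1, h2, h3, h4, h5, fun f => hX _ (h6 f)⟩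

/-- Composite alphabet. -/
def cmp {ι κ : Type} (w : ι → List T) (φ : κ → List ι) : κ → List T := fun b => (φ b).flatMap w

lemma flatMap_cmp {ι κ : Type} (w : ι → List T) (φ : κ → List ι) (W : List κ) :
    W.flatMap (cmp w φ) = (W.flatMap φ).flatMap w := by
  rw [List.flatMap_assoc]; rfl

lemma Ins.refine {ι κ : Type} {w : ι → List T} {φ : κ → List ι} {W : List κ} {p m s : List T}
    {X : List T → Prop} (h : Ins w (W.flatMap φ) p m s X) : Ins (cmp w φ) W p m s X := by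
  obtain ⟨V₁, a, V₂, c, c', m₁, m₂, h1, h2, h3, h4, h5, h6⟩ := h
  obtain ⟨W₁, b, W₂, b₁, b₂, rfl, h7, rfl, rfl⟩ := pos_letter φ W V₁ V₂ a h1
  refine ⟨W₁, b, W₂, b₁.flatMap w ++ c, c' ++ b₂.flatMap w, m₁, m₂, rfl, ?_, h3, ?_, ?_, ?_⟩
  · simp only [cmp]
    rw [h7, List.flatMap_append, List.flatMap_cons, h2]
    simp [List.append_assoc]
  · rw [h4, flatMap_cmp, List.flatMap_append, List.append_assoc]
  · rw [h5, flatMap_cmp, List.flatMap_append, List.append_assoc]
  · intro f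
    have := h6 (b₂ ++ f.flatMap φ ++ b₁)
    rw [flatMap_cmp]
    simpa [List.flatMap_append, List.append_assoc] using this

/-- Insertion from a letter map which is trivial on the refined letters. -/
lemma ins_of_trivial {ι κ : Type} {Q : Type} [Group Q] {w : ι → List T} {φ : κ → List ι}
    {lam : ι → Q} (hlam : ∀ b, ev lam (φ b) = 1) {W : List κ} (hW : W ≠ [])
    {X₁ X₂ : List ι} (hX : W.flatMap φ = X₁ ++ X₂) {p m₁ m₂ s : List T}
    (h1 : p ++ m₁ = X₁.flatMap w) (h2 : m₂ ++ s = X₂.flatMap w) {X : List T → Prop}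
    (h : ∀ Z : List ι, ev lam Z = 1 → X (m₁ ++ Z.flatMap w ++ m₂)) :
    Ins (cmp w φ) W p (m₁ ++ m₂) s X := by
  obtain ⟨W₁, b, W₂, b₁, b₂, rfl, h3, rfl, rfl⟩ := pos_cut φ W hW X₁ X₂ hX
  refine ⟨W₁, b, W₂, b₁.flatMap w, b₂.flatMap w, m₁, m₂, rfl, ?_, rfl, ?_, ?_, ?_⟩
  · simp only [cmp]
    rw [h3, List.flatMap_append]
  · rw [h1, flatMap_cmp, List.flatMap_append]
  · rw [h2, flatMap_cmp, List.flatMap_append]
  · intro f
    have h4 : ev lam (b₂ ++ f.flatMap φ ++ b₁) = 1 := by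
      have h5 : ev lam (f.flatMap φ) = 1 := by
        rw [ev_flatMap]
        have : (fun a => ev lam (φ a)) = fun _ => (1 : Q) := funext hlam
        rw [this]
        simp [ev]
      have h6 : ev lam b₁ * ev lam b₂ = 1 := by
        rw [← ev_append, ← h3]
        exact hlam b
      rw [ev_append, ev_append, h5, mul_one]
      exact (mul_eq_one_comm.mp h6)
    have := h _ h4
    rw [flatMap_cmp]
    simpa [List.flatMap_append, List.append_assoc] using this

/-- Stage property: long derived words inside a zone admit insertions. -/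
def SProp {N : Type} (g : BG T N) (S : N) {ι : Type} (w : ι → List T) (C : N → Prop) (R : ℕ) :
    Prop :=
  ∀ B, C B → ∀ (W : List ι) (p m s : List T), W.flatMap w = p ++ m ++ s → g.Der B m →
    R < m.length → Ins w W p m s (fun x => x ∈ g.M S B)

lemma SProp.refine {N : Type} {g : BG T N} {S : N} {ι κ : Type} {w : ι → List T}
    {φ : κ → List ι} {C : N → Prop} {R : ℕ} (h : SProp g S w C R) :
    SProp g S (cmp w φ) C R := by
  intro B hB W p m s hW hm hR
  rw [flatMap_cmp] at hW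
  exact (h B hB (W.flatMap φ) p m s hW hm hR).refine

lemma SProp.mono {N : Type} {g : BG T N} {S : N} {ι : Type} {w : ι → List T}
    {C : N → Prop} {R R' : ℕ} (h : SProp g S w C R) (hR : R ≤ R') : SProp g S w C R' :=
  fun B hB W p m s hW hm hl => h B hB W p m s hW hm (by omega)

end Pool.Agent.MP5ca50a
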