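import Pool.Agent.Lib.MP_5ca50a_lc.Desync
import Pool.Agent.Lib.MP_5ca50a_lc.Status
import Pool.Agent.Lib.MP_5ca50a_lc.Zone
import Pool.Agent.Lib.MP_5ca50a_lc.Locked

/-!
Sequential refinement, and the desync lemma for a finite family of pairs of letter maps.
-/

set_option autoImplicit false

namespace Pool.Agent.MP5ca50a

open Pointwise

/-- Sequential refinement for a finite family of hereditary properties. -/
theorem seq_refine {ι G' : Type} [Finite ι] [Monoid G'] (Λ : ι → G') (hΛ : InfImg Λ)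
    {J : Type} [Finite J] (P : J → ∀ m : ℕ, (Fin m → List ι) → Prop)
    (hinh : ∀ (j : J) (m : ℕ) (φ : Fin m → List ι) (n : ℕ) (ψ : Fin n → List (Fin m)),
      P j m φ → P j n (fun b => (ψ b).flatMap φ))
    (hstep : ∀ (j : J) (m : ℕ) (φ : Fin m → List ι), (∀ a, φ a ≠ []) →
      InfImg (fun a => ev Λ (φ a)) → ∃ (n : ℕ) (ψ : Fin n → List (Fin m)), (∀ a, ψ a ≠ []) ∧
        InfImg (fun a => ev Λ ((ψ a).flatMap φ)) ∧ P j n (fun b => (ψ b).flatMap φ)) :
    ∃ (m : ℕ) (φ : Fin m → List ι), (∀ a, φ a ≠ []) ∧ InfImg (fun a => ev Λ (φ a)) ∧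
      ∀ j, P j m φ := by
  classical
  have := Fintype.ofFinite J
  have key : ∀ s : Finset J, ∃ (m : ℕ) (φ : Fin m → List ι), (∀ a, φ a ≠ []) ∧
      InfImg (fun a => ev Λ (φ a)) ∧ ∀ j ∈ s, P j m φ := by
    intro s
    induction s using Finset.induction_on with
    | empty =>
      obtain ⟨m, ⟨e⟩⟩ := Finite.exists_equiv_fin ι
      refine ⟨m, fun a => [e.symm a], fun a => by simp, ?_, fun j hj => by simp at hj⟩
      refine Set.Infinite.mono ?_ hΛ
      rintro _ ⟨W, rfl⟩
      refine ⟨W.map e, ?_⟩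
      simp [ev, Function.comp_def]
    | insert j s hj ih =>
      obtain ⟨m', φ, h1, h2, h3⟩ := ih
      obtain ⟨m, ψ, h4, h5, h6⟩ := hstep j m' φ h1 h2
      refine ⟨m, fun a => (ψ a).flatMap φ, fun a => flatMap_ne_nil h1 (h4 a), h5, ?_⟩
      intro i hi
      rcases Finset.mem_insert.1 hi with rfl | hi
      · exact h6
      · exact hinh i m' φ m ψ (h3 i hi)
  obtain ⟨m, φ, h1, h2, h3⟩ := key Finset.univ
  exact ⟨m, φ, h1, h2, fun j => h3 j (Finset.mem_univ j)⟩

/-- Counting completed letters. -/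
lemma exists_cnt {ι κ : Type} (φ : κ → List ι) (hφ : ∀ b, φ b ≠ []) (l : ℕ)
    (hl : ∀ b, (φ b).length ≤ l) (U : List κ) (η θ : List ι) (hη : η.length ≤ l)
    (hθ : θ.length ≤ l) :
    ∃ cnt : ℕ → ℕ, cnt 0 = 0 ∧ cnt (η ++ U.flatMap φ ++ θ).length = U.length ∧
      (∀ p p', p ≤ p' → cnt p ≤ cnt p' ∧ cnt p' ≤ cnt p + (p' - p)) ∧
      ∀ p, p ≤ (η ++ U.flatMap φ ++ θ).length → ∃ r r' : List ι, r.length ≤ l ∧ r'.length ≤ l ∧
        (η ++ U.flatMap φ ++ θ).take p ++ r = η ++ (U.take (cnt p)).flatMap φ ++ r' := by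
  classical
  set bd : ℕ → ℕ := fun i => η.length + ((U.take i).flatMap φ).length with hbd
  have hbdge : ∀ i j, i ≤ j → j ≤ U.length → bd i + (j - i) ≤ bd j := by
    intro i j hij hj
    have := take_flatMap_length_ge φ hφ U hij hj
    simp only [hbd]
    omega
  have hbdlt : ∀ i (_ : i < U.length), bd (i + 1) ≤ bd i + l := by
    intro i hi
    simp only [hbd]
    rw [take_flatMap_length_succ φ U hi]
    have := hl (U[i]'hi)
    omega
  have htot : (η ++ U.flatMap φ ++ θ).length = bd U.length + θ.length := by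
    simp only [hbd, List.take_length, List.length_append]
  set xf : ℕ → ℕ := fun p => Nat.findGreatest (fun i => bd i ≤ p) U.length with hxf
  have hx_le : ∀ j, xf j ≤ U.length := fun j => Nat.findGreatest_le _
  have hx_pos : ∀ j, xf j ≠ 0 → bd (xf j) ≤ j := fun j hj =>
    Nat.findGreatest_of_ne_zero (P := fun i => bd i ≤ j) rfl hj
  have hx_gt : ∀ j i, xf j < i → i ≤ U.length → j < bd i := by
    intro j i h1 h2
    have h3 : ¬ bd i ≤ j := Nat.findGreatest_is_greatest (P := fun i => bd i ≤ j) h1 h2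
    omega
  have hx_ge : ∀ j i, i ≤ U.length → bd i ≤ j → i ≤ xf j := by
    intro j i h1 h2
    exact Nat.le_findGreatest h1 h2
  refine ⟨xf, ?_, ?_, ?_, ?_⟩
  · by_contra hcon
    have h1 := hx_pos 0 hcon
    have h2 := hbdge 0 (xf 0) (by omega) (hx_le 0)
    omega
  · apply le_antisymm (hx_le _)
    exact hx_ge _ U.length le_rfl (by omega)
  · intro i j hij
    have hmono : xf i ≤ xf j := by
      by_cases h0 : xf i = 0
      · omega
      · exact hx_ge j _ (hx_le i) ((hx_pos i h0).trans hij)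
    refine ⟨hmono, ?_⟩
    rcases Nat.lt_or_ge (xf i) (xf j) with h1 | h1
    · have h2 := hx_gt i (xf i + 1) (by omega) (by have := hx_le j; omega)
      have h3 := hx_pos j (by omega)
      have h4 := hbdge (xf i + 1) (xf j) (by omega) (hx_le j)
      omega
    · omega
  · intro p hp
    by_cases hsm : p < η.length
    · have h0 : xf p = 0 := by
        by_contra hcon
        have h1 := hx_pos p hcon
        have h2 : bd (xf p) = η.length + ((U.take (xf p)).flatMap φ).length := rfl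
        omega
      refine ⟨η.drop p, [], by rw [List.length_drop]; omega, by simp, ?_⟩
      rw [h0, List.append_assoc, List.take_append_of_le_length (by omega)]
      simp
    · push Not at hsm
      have h1 : bd (xf p) ≤ p := by
        by_cases h0 : xf p = 0
        · rw [h0]; simp only [hbd, List.take_zero, List.flatMap_nil, List.length_nil]; omega
        · exact hx_pos p h0
      have h2 : p ≤ bd (xf p) + l := by
        rcases Nat.lt_or_ge (xf p) U.length with h5 | h5
        · have h3 := hx_gt p (xf p + 1) (by omega) (by omega)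
          have h4 := hbdlt (xf p) h5
          omega
        · have h6 : xf p = U.length := by
            have := hx_le p
            omega
          rw [h6]
          omega
      have h3 : η ++ U.flatMap φ ++ θ = (η ++ (U.take (xf p)).flatMap φ) ++
          ((U.drop (xf p)).flatMap φ ++ θ) := by
        conv_lhs => rw [← List.take_append_drop (xf p) U]
        rw [List.flatMap_append]
        simp only [List.append_assoc]
      have h4 : (η ++ (U.take (xf p)).flatMap φ).length = bd (xf p) := by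
        simp only [hbd, List.length_append]
      obtain ⟨i, hi⟩ : ∃ i, xf p = i := ⟨_, rfl⟩
      rw [hi] at h1 h2 h3 h4 ⊢
      obtain ⟨d, hd⟩ : ∃ d, p = bd i + d := ⟨p - bd i, by omega⟩
      refine ⟨[], ((U.drop i).flatMap φ ++ θ).take d, by simp, ?_, ?_⟩
      · rw [List.length_take]; omega
      · rw [List.append_nil]
        conv_lhs => rw [h3, hd, ← h4]
        rw [List.take_length_add_append]

section

variable {ι κ G : Type} [Group G]

/-- Values of short words. -/
def shortVals (α : ι → G) (l : ℕ) : Set G := {g | ∃ r : List ι, r.length ≤ l ∧ ev α r = g}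

lemma shortVals_finite [Finite ι] (α : ι → G) (l : ℕ) : (shortVals α l).Finite := by
  refine ((List.finite_length_le ι l).image (ev α)).subset ?_
  rintro _ ⟨r, hr, rfl⟩
  exact ⟨r, hr, rfl⟩

/-- Conversion of a description by letters into one by substituted letters. -/
lemma conv_left (φ : κ → List ι) (hφ : ∀ b, φ b ≠ []) (l : ℕ) (hl : ∀ b, (φ b).length ≤ l)
    (α : ι → G) (U' : List κ) (η θ : List ι) (hη : η.length ≤ l) (hθ : θ.length ≤ l)
    (F : Set G) (c n : ℕ) (q : ℕ → G) (x : ℕ → ℕ) (A : G) (hx0 : x 0 = 0)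
    (hxn : x n = (η ++ U'.flatMap φ ++ θ).length)
    (hx : ∀ t < n, x t ≤ x (t + 1) ∧ x (t + 1) ≤ x t + c)
    (hle : ∀ t ≤ n, x t ≤ (η ++ U'.flatMap φ ++ θ).length)
    (hq : ∀ t ≤ n, ∃ f ∈ F, q t = A * ev α ((η ++ U'.flatMap φ ++ θ).take (x t)) * f) :
    ∃ (x' : ℕ → ℕ) (A' : G), x' 0 = 0 ∧ x' n = U'.length ∧
      (∀ t < n, x' t ≤ x' (t + 1) ∧ x' (t + 1) ≤ x' t + c) ∧
      ∀ t ≤ n, ∃ f ∈ shortVals α l * (shortVals α l)⁻¹ * F,
        q t = A' * ev (fun b => ev α (φ b)) (U'.take (x' t)) * f := by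
  obtain ⟨cnt, h0, h1, h2, h3⟩ := exists_cnt φ hφ l hl U' η θ hη hθ
  refine ⟨fun t => cnt (x t), A * ev α η, by simp [hx0, h0], by simp only [hxn, h1], ?_, ?_⟩
  · intro t ht
    obtain ⟨h4, h5⟩ := hx t ht
    obtain ⟨h6, h7⟩ := h2 _ _ h4
    refine ⟨h6, ?_⟩
    dsimp only
    omega
  · intro t ht
    obtain ⟨f, hf, hqt⟩ := hq t ht
    obtain ⟨r, r', hr, hr', he⟩ := h3 (x t) (hle t ht)
    refine ⟨ev α r' * (ev α r)⁻¹ * f, Set.mul_mem_mul (Set.mul_mem_mul ⟨r', hr', rfl⟩
      (Set.inv_mem_inv.mpr ⟨r, hr, rfl⟩)) hf, ?_⟩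
    have h8 := congrArg (ev α) he
    rw [ev_append, ev_append, ev_append, ev_flatMap] at h8
    have h9 : ev α ((η ++ U'.flatMap φ ++ θ).take (x t)) = ev α η *
        ev (fun b => ev α (φ b)) (U'.take (cnt (x t))) * ev α r' * (ev α r)⁻¹ := by
      rw [← h8]; group
    rw [hqt, h9]
    group

end

/-- The bound of the desync lemma. -/
def DBound {ι G : Type} [Group G] (α β : ι → G) (F : Set G) (c : ℕ) (m : ℕ)
    (φ : Fin m → List ι) (B : ℕ) : Prop :=
  ∀ (W W' : List (Fin m)) (U V : List ι),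
    U <:+: W.flatMap φ → V <:+: W'.flatMap φ →
    ∀ (n : ℕ) (q : ℕ → G) (x y : ℕ → ℕ) (A A' : G),
      x 0 = 0 → y 0 = 0 → x n = U.length → y n = V.length →
      (∀ t < n, x t ≤ x (t + 1) ∧ x (t + 1) ≤ x t + c ∧
        y t ≤ y (t + 1) ∧ y (t + 1) ≤ y t + c) →
      (∀ t ≤ n, ∃ f ∈ F, q t = A * ev α (U.take (x t)) * f) →
      (∀ t ≤ n, ∃ f ∈ F, q t = A' * (ev β (V.drop (V.length - y t)))⁻¹ * f) →
      U.length + V.length ≤ B

lemma mono_le_of_step {n : ℕ} {x : ℕ → ℕ} (h : ∀ t < n, x t ≤ x (t + 1)) {t : ℕ} (ht : t ≤ n) :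
    x t ≤ x n := by
  induction n with
  | zero =>
    obtain rfl : t = 0 := by omega
    exact le_rfl
  | succ n ih =>
    rcases Nat.lt_or_ge t (n + 1) with h1 | h1
    · exact (ih (fun t ht => h t (by omega)) (by omega)).trans (h n (by omega))
    · obtain rfl : t = n + 1 := by omega
      exact le_rfl

/-- Block decomposition of a factor of a substituted word, including the short case. -/
lemma infix_split {ι κ : Type} (φ : κ → List ι) (l : ℕ) (hl : ∀ b, (φ b).length ≤ l)
    (V : List κ) (U : List ι) (h : U <:+: V.flatMap φ) :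
    ∃ (U' : List κ) (η θ : List ι), U' <:+: V ∧ U = η ++ U'.flatMap φ ++ θ ∧
      η.length ≤ l ∧ θ.length ≤ l := by
  obtain ⟨p, s, hps⟩ := h
  rcases zone_split φ l hl V p U s hps.symm with h1 | ⟨V₁, U', V₂, η, θ, h1, h2, -, -, h3, h4⟩
  · exact ⟨[], U, [], List.nil_infix, by simp, h1, by simp⟩
  · exact ⟨U', η, θ, ⟨V₁, V₂, h1.symm⟩, h2, h3, h4⟩

lemma reverse_take_drop {ι : Type} (V : List ι) (y : ℕ) (_hy : y ≤ V.length) :
    (V.drop (V.length - y)).reverse = V.reverse.take y := by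
  rw [List.reverse_drop]
  congr 1
  omega

/-- One step for a pair, after an arbitrary refinement. -/
lemma desync_step {ι : Type} [Finite ι] {G G' : Type} [Group G] [Group G'] {k : ℕ} (hk : 0 < k)
    (hG : ∀ g : G, g ^ k = 1) (hG' : ∀ g : G', g ^ k = 1)
    (Λ : ι → G') (α β : ι → G) {F : Set G} (hF : F.Finite) (c : ℕ) (m : ℕ)
    (φ : Fin m → List ι) (hφ : ∀ a, φ a ≠ []) (hΛ : InfImg (fun a => ev Λ (φ a))) :
    ∃ (n : ℕ) (ψ : Fin n → List (Fin m)), (∀ a, ψ a ≠ []) ∧
      InfImg (fun a => ev Λ ((ψ a).flatMap φ)) ∧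
      ((∀ b, ev α ((ψ b).flatMap φ) = 1) ∨ (∀ b, ev β ((ψ b).flatMap φ) = 1) ∨
        ∃ B, DBound α β F c n (fun b => (ψ b).flatMap φ) B) := by
  classical
  obtain ⟨l, hl⟩ : ∃ l : ℕ, ∀ b, (φ b).length ≤ l :=
    ⟨Finset.univ.sup fun b => (φ b).length, fun b => Finset.le_sup (f := fun b => (φ b).length)
      (Finset.mem_univ b)⟩
  set βr : ι → G := fun a => (β a)⁻¹ with hβr
  set F' : Set G := (shortVals α l * (shortVals α l)⁻¹ * F) ∪
    (shortVals βr l * (shortVals βr l)⁻¹ * F) with hF'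
  have hF'fin : F'.Finite := by
    have h1 := shortVals_finite α l
    have h2 := shortVals_finite βr l
    exact ((h1.mul h1.inv).mul hF).union ((h2.mul h2.inv).mul hF)
  obtain ⟨n, ψ, h1, h2, h3⟩ := desync hk hG hG' (fun a => ev Λ (φ a)) hΛ
    (fun a => ev α (φ a)) (fun a => ev β (φ a)) hF'fin c
  refine ⟨n, ψ, h1, ?_, ?_⟩
  · simpa only [ev_flatMap] using h2
  rcases h3 with h3 | h3 | ⟨B, h3⟩
  · left; intro b; rw [ev_flatMap]; exact h3 b
  · right; left; intro b; rw [ev_flatMap]; exact h3 b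
  right; right
  refine ⟨B * l + 4 * l, ?_⟩
  intro W W' U V hU hV t q x y A A' hx0 hy0 hxn hyn hstep hqx hqy
  rw [flatMap_flatMap'] at hU hV
  obtain ⟨U', η, θ, hU', rfl, hη, hθ⟩ := infix_split φ l hl _ _ hU
  obtain ⟨V', η', θ', hV', rfl, hη', hθ'⟩ := infix_split φ l hl _ _ hV
  have hxle : ∀ s ≤ t, x s ≤ (η ++ U'.flatMap φ ++ θ).length := fun s hs => by
    rw [← hxn]
    exact mono_le_of_step (fun r hr => (hstep r hr).1) hs
  have hyle : ∀ s ≤ t, y s ≤ (η' ++ V'.flatMap φ ++ θ').length := fun s hs => by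
    rw [← hyn]
    exact mono_le_of_step (fun r hr => (hstep r hr).2.2.1) hs
  obtain ⟨x', A1, a1, a2, a3, a4⟩ := conv_left φ hφ l hl α U' η θ hη hθ F c t q x A hx0 hxn
    (fun r hr => ⟨(hstep r hr).1, (hstep r hr).2.1⟩) hxle hqx
  -- reversed side
  have hrev : (η' ++ V'.flatMap φ ++ θ').reverse =
      θ'.reverse ++ V'.reverse.flatMap (fun b => (φ b).reverse) ++ η'.reverse := by
    rw [List.reverse_append, List.reverse_append, List.reverse_flatMap]
    simp [Function.comp_def]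
  have hlenrev : (θ'.reverse ++ V'.reverse.flatMap (fun b => (φ b).reverse) ++
      η'.reverse).length = (η' ++ V'.flatMap φ ++ θ').length := by
    rw [← hrev, List.length_reverse]
  obtain ⟨y', A2, b1, b2, b3, b4⟩ := conv_left (fun b => (φ b).reverse)
    (fun b => by simpa using hφ b) l (fun b => by simpa using hl b) βr V'.reverse
    θ'.reverse η'.reverse (by simpa using hθ') (by simpa using hη') F c t q y A' hy0
    (by rw [hlenrev]; exact hyn)
    (fun r hr => ⟨(hstep r hr).2.2.1, (hstep r hr).2.2.2⟩)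
    (fun s hs => by rw [hlenrev]; exact hyle s hs)
    (fun s hs => by
      obtain ⟨f, hf, h⟩ := hqy s hs
      refine ⟨f, hf, ?_⟩
      rw [h, ev_inv_reverse, reverse_take_drop _ _ (hyle s hs), hrev])
  have hfin := h3 W W' U' V' hU' hV' t q x' y' A1 A2 a1 b1 a2 (by simpa using b2)
    (fun r hr => ⟨(a3 r hr).1, (a3 r hr).2, (b3 r hr).1, (b3 r hr).2⟩)
    (fun s hs => by
      obtain ⟨f, hf, h⟩ := a4 s hs
      exact ⟨f, Or.inl hf, h⟩)
    (fun s hs => by
      obtain ⟨f, hf, h⟩ := b4 s hs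
      refine ⟨f, Or.inr hf, ?_⟩
      have hys : y' s ≤ V'.length := by
        have := mono_le_of_step (fun r hr => (b3 r hr).1) hs
        rw [b2] at this
        simpa using this
      rw [h, ev_inv_reverse, reverse_take_drop _ _ hys]
      congr 3
      funext b
      rw [ev_inv_reverse])
  have h5 : (U'.flatMap φ).length ≤ U'.length * l := flatMap_length_le φ l hl U'
  have h6 : (V'.flatMap φ).length ≤ V'.length * l := flatMap_length_le φ l hl V'
  have h7 : (U'.length + V'.length) * l ≤ B * l := Nat.mul_le_mul_right l hfin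
  rw [Nat.add_mul] at h7
  simp only [List.length_append]
  omega

/-- STATUS and DESYNC for finite families. -/
theorem stat_desync {ι : Type} [Finite ι] {G G' : Type} [Group G] [Group G'] {k : ℕ} (hk : 0 < k)
    (hG : ∀ g : G, g ^ k = 1) (hG' : ∀ g : G', g ^ k = 1)
    (Λ : ι → G') (hΛ : InfImg Λ) {J₁ J₂ : Type} [Finite J₁] [Finite J₂] (lam : J₁ → ι → G)
    {F' : Set G} (hF' : F'.Finite) (gw : ℕ → ℕ) (α β : J₂ → ι → G) {F : Set G}
    (hF : F.Finite) (c : ℕ) :
    ∃ (m : ℕ) (φ : Fin m → List ι), (∀ a, φ a ≠ []) ∧ InfImg (fun a => ev Λ (φ a)) ∧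
      (∀ j, Stat φ (lam j) F' gw) ∧
      ∀ j, (∀ a, ev (α j) (φ a) = 1) ∨ (∀ a, ev (β j) (φ a) = 1) ∨
        ∃ B, DBound (α j) (β j) F c m φ B := by
  have htr : ∀ (f : ι → G) (m : ℕ) (φ : Fin m → List ι) (n : ℕ) (ψ : Fin n → List (Fin m)),
      (∀ a, ev f (φ a) = 1) → ∀ b, ev f ((ψ b).flatMap φ) = 1 := by
    intro f m φ n ψ h b
    rw [ev_flatMap]
    have h1 : (fun b => ev f (φ b)) = fun _ => (1 : G) := funext h
    rw [h1]
    simp [ev]
  obtain ⟨m, φ, h1, h2, h3⟩ := seq_refine Λ hΛ (J := J₁ ⊕ J₂) (fun j m φ => Sum.elim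
    (fun j => Stat φ (lam j) F' gw)
    (fun j => (∀ a, ev (α j) (φ a) = 1) ∨ (∀ a, ev (β j) (φ a) = 1) ∨
        ∃ B, DBound (α j) (β j) F c m φ B) j) (by
    intro j m φ n ψ h
    rcases j with j | j
    · have h' : Stat φ (lam j) F' gw := h
      exact h'.refine ψ
    · rcases h with h | h | ⟨B, h⟩
      · exact Or.inl (htr _ m φ n ψ h)
      · exact Or.inr (Or.inl (htr _ m φ n ψ h))
      · refine Or.inr (Or.inr ⟨B, ?_⟩)
        intro W W' U V hU hV
        rw [flatMap_flatMap'] at hU hV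
        exact h _ _ U V hU hV) (by
    intro j m φ h1 h2
    rcases j with j | j
    · exact status_step passing fat hk hG hG' Λ m φ h1 h2 (lam j) hF' gw
    · exact desync_step hk hG hG' Λ (α j) (β j) hF c m φ h1 h2)
  exact ⟨m, φ, h1, h2, fun j => h3 (Sum.inl j), fun j => h3 (Sum.inr j)⟩

end Pool.Agent.MP5ca50a
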