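import Pool.Agent.Lib.MP_5ca50a_lc.Alph

/-!
The mismatch lemma: over a finite alphabet, if `α` takes infinitely many values, then some word `h`
has `α(h)` outside a given finite set `F` and outside `F * β(h)⁻¹ * F`.
-/

set_option autoImplicit false

namespace Pool.Agent.MP5ca50a

open Pointwise

universe u v

section

variable {ι : Type u} {G : Type v} [Group G]

/-- In a group of exponent `k` the values of words form the generated subgroup. -/
theorem Mismatch.range_ev_eq_closure {k : ℕ} (hk : 0 < k) (hG : ∀ g : G, g ^ k = 1) (f : ι → G) :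
    Set.range (ev f) = (Subgroup.closure (Set.range f) : Set G) := by
  apply Set.Subset.antisymm
  · rintro _ ⟨W, rfl⟩
    induction W with
    | nil => simp
    | cons a W ih =>
      rw [ev_cons]
      exact Subgroup.mul_mem _ (Subgroup.subset_closure ⟨a, rfl⟩) ih
  · intro x hx
    induction hx using Subgroup.closure_induction with
    | mem x hx =>
      obtain ⟨a, rfl⟩ := hx
      exact ⟨[a], by simp⟩
    | one => exact ⟨[], by simp⟩
    | mul x y _ _ hx hy =>
      obtain ⟨V, rfl⟩ := hx
      obtain ⟨W, rfl⟩ := hy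
      exact ⟨V ++ W, by simp⟩
    | inv x _ hx =>
      obtain ⟨V, rfl⟩ := hx
      refine ⟨(List.replicate (k - 1) V).flatten, ?_⟩
      rw [ev_replicate_flatten]
      apply eq_inv_of_mul_eq_one_left
      rw [← pow_succ, Nat.sub_add_cancel hk, hG]

/-- The elements of `G` whose centraliser meets the subgroup `A` in a subgroup of finite index. -/
def almostCentral (A : Subgroup G) : Subgroup G where
  carrier := {z | ((Subgroup.centralizer {z}).subgroupOf A).FiniteIndex}
  one_mem' := by
    have h : (Subgroup.centralizer ({1} : Set G)).subgroupOf A = ⊤ := by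
      rw [Subgroup.subgroupOf_eq_top]
      intro x _
      rw [Subgroup.mem_centralizer_singleton_iff]
      simp
    show ((Subgroup.centralizer ({1} : Set G)).subgroupOf A).FiniteIndex
    rw [h]
    infer_instance
  mul_mem' := by
    intro a b ha hb
    show ((Subgroup.centralizer ({a * b} : Set G)).subgroupOf A).FiniteIndex
    have ha' : ((Subgroup.centralizer ({a} : Set G)).subgroupOf A).FiniteIndex := ha
    have hb' : ((Subgroup.centralizer ({b} : Set G)).subgroupOf A).FiniteIndex := hb
    have hle : (Subgroup.centralizer ({a} : Set G)).subgroupOf A ⊓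
        (Subgroup.centralizer ({b} : Set G)).subgroupOf A ≤
        (Subgroup.centralizer ({a * b} : Set G)).subgroupOf A := by
      intro x hx
      obtain ⟨h1, h2⟩ := hx
      have h1' : (x : G) * a = a * x := by
        have := Subgroup.mem_subgroupOf.mp h1
        rwa [Subgroup.mem_centralizer_singleton_iff] at this
      have h2' : (x : G) * b = b * x := by
        have := Subgroup.mem_subgroupOf.mp h2
        rwa [Subgroup.mem_centralizer_singleton_iff] at this
      rw [Subgroup.mem_subgroupOf, Subgroup.mem_centralizer_singleton_iff]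
      rw [← mul_assoc, h1', mul_assoc, h2', mul_assoc]
    have : ((Subgroup.centralizer ({a} : Set G)).subgroupOf A ⊓
        (Subgroup.centralizer ({b} : Set G)).subgroupOf A).FiniteIndex := inferInstance
    exact Subgroup.finiteIndex_of_le hle
  inv_mem' := by
    intro a ha
    show ((Subgroup.centralizer ({a⁻¹} : Set G)).subgroupOf A).FiniteIndex
    have ha' : ((Subgroup.centralizer ({a} : Set G)).subgroupOf A).FiniteIndex := ha
    have hle : (Subgroup.centralizer ({a} : Set G)).subgroupOf A ≤
        (Subgroup.centralizer ({a⁻¹} : Set G)).subgroupOf A := by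
      intro x hx
      simp only [Subgroup.mem_subgroupOf, Subgroup.mem_centralizer_singleton_iff] at hx ⊢
      rw [eq_inv_mul_iff_mul_eq, ← mul_assoc, ← hx, mul_inv_cancel_right]
    exact Subgroup.finiteIndex_of_le hle

theorem mem_almostCentral {A : Subgroup G} {z : G} :
    z ∈ almostCentral A ↔ ((Subgroup.centralizer {z}).subgroupOf A).FiniteIndex := Iff.rfl

/-- A finitely generated group of finite exponent covered by finitely many cosets of its
almost central elements is finite. -/
theorem finite_of_almostCentral {k : ℕ} (hk : 0 < k) (hG : ∀ g : G, g ^ k = 1)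
    (A : Subgroup G) [Group.FG A] (h : ((almostCentral A).subgroupOf A).FiniteIndex) :
    Finite A := by
  classical
  set B : Subgroup A := (almostCentral A).subgroupOf A with hB
  have : B.FiniteIndex := h
  have : Group.FG B := inferInstance
  obtain ⟨S, hS⟩ := (Group.fg_iff_subgroup_fg B).mp inferInstance
  -- the common centraliser
  let C : Subgroup A := ⨅ s ∈ S, (Subgroup.centralizer {((s : A) : G)}).subgroupOf A
  have hC : C.FiniteIndex := by
    apply Subgroup.finiteIndex_iInf'
    intro s hs
    have hs' : s ∈ B := by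
      rw [← hS]
      exact Subgroup.subset_closure hs
    exact hs'
  have hCB : ∀ x ∈ C, ∀ b ∈ B, x * b = b * x := by
    intro x hx b hb
    rw [← hS] at hb
    induction hb using Subgroup.closure_induction with
    | mem s hs =>
      have h1 : x ∈ (Subgroup.centralizer {((s : A) : G)}).subgroupOf A := by
        have := Subgroup.mem_iInf.mp hx s
        exact Subgroup.mem_iInf.mp this hs
      rw [Subgroup.mem_subgroupOf, Subgroup.mem_centralizer_singleton_iff] at h1
      exact Subtype.ext h1
    | one => simp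
    | mul a b _ _ ha hb => rw [← mul_assoc, ha, mul_assoc, hb, mul_assoc]
    | inv a _ ha => rw [eq_inv_mul_iff_mul_eq, ← mul_assoc, ← ha, mul_inv_cancel_right]
  let D : Subgroup A := C ⊓ B
  have hD : D.FiniteIndex := inferInstance
  have : Group.FG D := inferInstance
  have hcomm : ∀ x y : D, x * y = y * x := by
    intro x y
    apply Subtype.ext
    exact hCB x x.2.1 y y.2.2
  let _ : CommGroup D := { (inferInstance : Group D) with mul_comm := hcomm }
  have hfinD : Finite D := by
    apply CommGroup.finite_of_fg_isMulTorsion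
    · intro x
      rw [isOfFinOrder_iff_pow_eq_one]
      refine ⟨k, hk, ?_⟩
      apply Subtype.ext
      apply Subtype.ext
      simpa using hG ((x : A) : G)
  exact (Subgroup.finite_iff_finite_and_finiteIndex (H := D)).mpr ⟨hfinD, hD⟩

/-- B. H. Neumann's lemma, with a finite set of exceptions. -/
theorem exists_finiteIndex_of_cover {A : Type u} [Group A] [Infinite A] {κ : Type v}
    {P : Set A} (hP : P.Finite) {Q : Set κ} (hQ : Q.Finite) (H : κ → Subgroup A) (r : κ → A)
    (hc : ∀ z, z ∉ P → ∃ i ∈ Q, (r i)⁻¹ * z ∈ H i) : ∃ i ∈ Q, (H i).FiniteIndex := by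
  classical
  let s : Finset (A ⊕ κ) := hP.toFinset.image Sum.inl ∪ hQ.toFinset.image Sum.inr
  let H' : A ⊕ κ → Subgroup A := Sum.elim (fun _ => ⊥) H
  let r' : A ⊕ κ → A := Sum.elim (fun a => a) r
  have hcov : ⋃ i ∈ s, r' i • (H' i : Set A) = Set.univ := by
    rw [Set.eq_univ_iff_forall]
    intro z
    by_cases hz : z ∈ P
    · refine Set.mem_iUnion₂.mpr ⟨Sum.inl z, ?_, ?_⟩
      · simp [s, hz]
      · rw [mem_leftCoset_iff]
        simp [r', H']
    · obtain ⟨i, hi, h⟩ := hc z hz
      refine Set.mem_iUnion₂.mpr ⟨Sum.inr i, ?_, ?_⟩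
      · simp [s, hi]
      · rw [mem_leftCoset_iff]
        exact h
  obtain ⟨i, hi, hfi⟩ := Subgroup.exists_finiteIndex_of_leftCoset_cover hcov
  rcases i with a | i
  · exfalso
    have h1 : (⊥ : Subgroup A).FiniteIndex := hfi
    have h2 : Finite A := (Subgroup.finite_iff_finite_and_finiteIndex (H := (⊥ : Subgroup A))).mpr
      ⟨inferInstance, h1⟩
    exact not_finite A
  · refine ⟨i, ?_, hfi⟩
    simpa [s] using hi

end

/-- MISMATCH -/
theorem mismatch {ι : Type} [Finite ι] {G : Type} [Group G] {k : ℕ} (hk : 0 < k)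
    (hG : ∀ g : G, g ^ k = 1) (α β : ι → G) (hα : InfImg α) {F : Set G} (hF : F.Finite) :
    ∃ h : List ι, ev α h ∉ F ∧ ∀ a ∈ F, ∀ b ∈ F, ev α h ≠ a * (ev β h)⁻¹ * b := by
  classical
  by_contra hcon
  push Not at hcon
  set A : Subgroup G := Subgroup.closure (Set.range α) with hA
  have hfgA : Group.FG A := by
    rw [Group.fg_iff_subgroup_fg]
    exact ⟨(Set.finite_range α).toFinset, by rw [Set.Finite.coe_toFinset]⟩
  have hrange : Set.range (ev α) = (A : Set G) := Mismatch.range_ev_eq_closure hk hG α
  have hinf : Infinite A := by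
    have h1 : (Set.range (ev α)).Infinite := hα
    rw [hrange] at h1
    exact h1.to_subtype
  have key : ∀ g ∈ A, g ∉ F → ∀ y ∈ A, y ∉ F → g * y ∈ F ∨
      ∃ e ∈ F * F⁻¹, ∃ e' ∈ F⁻¹ * F⁻¹, ∃ e'' ∈ F⁻¹ * F, g * y = e * y * e' * g * e'' := by
    intro g hg hgF y hy hyF
    have hg' : g ∈ Set.range (ev α) := by rw [hrange]; exact hg
    have hy' : y ∈ Set.range (ev α) := by rw [hrange]; exact hy
    obtain ⟨h, rfl⟩ := hg'
    obtain ⟨x, rfl⟩ := hy'
    by_cases hgy : ev α h * ev α x ∈ F
    · exact Or.inl hgy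
    right
    obtain ⟨a, ha, b, hb, h1⟩ := hcon h hgF
    obtain ⟨a', ha', b', hb', h2⟩ := hcon x hyF
    obtain ⟨c, hc, d, hd, h3⟩ := hcon (h ++ x) (by simpa using hgy)
    refine ⟨c * a'⁻¹, ⟨c, hc, a'⁻¹, Set.inv_mem_inv.mpr ha', rfl⟩, b'⁻¹ * a⁻¹,
      ⟨b'⁻¹, Set.inv_mem_inv.mpr hb', a⁻¹, Set.inv_mem_inv.mpr ha, rfl⟩, b⁻¹ * d,
      ⟨b⁻¹, Set.inv_mem_inv.mpr hb, d, hd, rfl⟩, ?_⟩
    rw [ev_append, ev_append, mul_inv_rev] at h3
    have h4 : (ev β h)⁻¹ = a⁻¹ * ev α h * b⁻¹ := by rw [h1]; group
    have h5 : (ev β x)⁻¹ = a'⁻¹ * ev α x * b'⁻¹ := by rw [h2]; group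
    rw [h3, h4, h5]
    group
  -- every element outside `F` is almost central up to the finite set `F * F⁻¹`
  have key2 : ∀ g ∈ A, g ∉ F → ∃ e ∈ F * F⁻¹, e⁻¹ * g ∈ almostCentral A := by
    intro g hg hgF
    let T : Set G := (F⁻¹ * F⁻¹) * {g} * (F⁻¹ * F)
    have hT : T.Finite := ((hF.inv.mul hF.inv).mul (Set.finite_singleton g)).mul (hF.inv.mul hF)
    let P : Set A := {z : A | ((z : G))⁻¹ ∈ F ∨ g * (z : G)⁻¹ ∈ F}
    have hP : P.Finite := by
      have h1 : P ⊆ (fun z : A => (z : G)) ⁻¹' (F⁻¹ ∪ F⁻¹ * {g}) := by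
        rintro z (hz | hz)
        · left
          exact hz
        · right
          exact ⟨(z : G) * g⁻¹, by simpa using hz, g, rfl, by simp⟩
      refine Set.Finite.subset (Set.Finite.preimage ?_ ?_) h1
      · exact Set.injOn_of_injective Subtype.val_injective
      · exact hF.inv.union (hF.inv.mul (Set.finite_singleton g))
    let Q : Set (G × G) := (F * F⁻¹) ×ˢ T
    have hQ : Q.Finite := (hF.mul hF.inv).prod hT
    let r : G × G → A := fun i =>
      if h : ∃ z : A, (z : G) * (i.1⁻¹ * g) * (z : G)⁻¹ = i.2 then h.choose else 1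
    obtain ⟨i, hi, hfi⟩ := exists_finiteIndex_of_cover hP hQ
      (fun i => (Subgroup.centralizer {i.1⁻¹ * g}).subgroupOf A) r (by
        intro z hz
        have hz1 : ((z : G))⁻¹ ∉ F := fun h => hz (Or.inl h)
        have hz2 : g * ((z : G))⁻¹ ∉ F := fun h => hz (Or.inr h)
        obtain ⟨e, he, e', he', e'', he'', h⟩ := (key g hg hgF (z : G)⁻¹
          (A.inv_mem z.2) hz1).resolve_left hz2
        have hzt : (z : G) * (e⁻¹ * g) * (z : G)⁻¹ = e' * g * e'' := by
          have : (z : G) * (e⁻¹ * g) * (z : G)⁻¹ = (z : G) * e⁻¹ * (g * (z : G)⁻¹) := by group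
          rw [this, h]
          group
        refine ⟨(e, e' * g * e''), ⟨he, ?_⟩, ?_⟩
        · exact ⟨e' * g, ⟨e', he', g, rfl, rfl⟩, e'', he'', rfl⟩
        · have hex : ∃ z : A, (z : G) * (e⁻¹ * g) * (z : G)⁻¹ = e' * g * e'' := ⟨z, hzt⟩
          have hr : (r (e, e' * g * e'') : G) * (e⁻¹ * g) * (r (e, e' * g * e'') : G)⁻¹ =
              e' * g * e'' := by
            have h1 : r (e, e' * g * e'') = hex.choose := dif_pos hex
            rw [h1]
            exact hex.choose_spec
          set z0 : A := r (e, e' * g * e'') with hz0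
          show z0⁻¹ * z ∈ (Subgroup.centralizer {e⁻¹ * g}).subgroupOf A
          rw [Subgroup.mem_subgroupOf, Subgroup.mem_centralizer_singleton_iff]
          have h2 : (z : G) * (e⁻¹ * g) * (z : G)⁻¹ = (z0 : G) * (e⁻¹ * g) * (z0 : G)⁻¹ := by
            rw [hzt, hr]
          push_cast
          have h3 : (z : G) * (e⁻¹ * g) = (z0 : G) * (e⁻¹ * g) * (z0 : G)⁻¹ * z := by
            rw [← h2]; group
          calc ((z0 : G))⁻¹ * (z : G) * (e⁻¹ * g) = ((z0 : G))⁻¹ * ((z : G) * (e⁻¹ * g)) := by
                group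
            _ = _ := by rw [h3]; group)
    exact ⟨i.1, hi.1, hfi⟩
  -- hence the almost central elements form a subgroup of finite index
  have key3 : ((almostCentral A).subgroupOf A).FiniteIndex := by
    let P : Set A := {z : A | (z : G) ∈ F}
    have hP : P.Finite := hF.preimage (Set.injOn_of_injective Subtype.val_injective)
    let r : G → A := fun e => if h : ∃ a : A, e⁻¹ * (a : G) ∈ almostCentral A then h.choose else 1
    obtain ⟨i, -, hfi⟩ := exists_finiteIndex_of_cover hP (hF.mul hF.inv)
      (fun _ => (almostCentral A).subgroupOf A) r (by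
        intro z hz
        obtain ⟨e, he, h⟩ := key2 z z.2 hz
        refine ⟨e, he, ?_⟩
        have hex : ∃ a : A, e⁻¹ * (a : G) ∈ almostCentral A := ⟨z, h⟩
        have hr : e⁻¹ * (r e : G) ∈ almostCentral A := by
          have h1 : r e = hex.choose := dif_pos hex
          rw [h1]
          exact hex.choose_spec
        rw [Subgroup.mem_subgroupOf]
        have h2 : ((r e)⁻¹ * z : A).val = (e⁻¹ * (r e : G))⁻¹ * (e⁻¹ * (z : G)) := by
          push_cast
          group
        rw [h2]
        exact Subgroup.mul_mem _ (Subgroup.inv_mem _ hr) h)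
    exact hfi
  have hfin : Finite A := finite_of_almostCentral hk hG A key3
  exact not_finite A

end Pool.Agent.MP5ca50a
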