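import Pool.Agent.Lib.MP_5ca50a_lc.Alph

/-!
PASSING: after a refinement of the alphabet a map into a finite monoid becomes constant idempotent.
-/

set_option autoImplicit false

namespace Pool.Agent.MP5ca50a

theorem exists_idem_pow {M : Type*} [Monoid M] [Finite M] (x : M) :
    ∃ n, 0 < n ∧ x ^ n * x ^ n = x ^ n := by
  obtain ⟨i, j, hij, h⟩ := Finite.exists_ne_map_eq_of_infinite (fun n : ℕ => x ^ n)
  wlog hlt : i < j generalizing i j
  · exact this j i hij.symm h.symm (by omega)
  obtain ⟨d, rfl⟩ := Nat.exists_eq_add_of_lt hlt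
  have h' : x ^ i = x ^ (i + (d + 1)) := h
  have step : ∀ m, i ≤ m → x ^ m = x ^ (m + (d + 1)) := by
    intro m hm
    obtain ⟨c, rfl⟩ := Nat.exists_eq_add_of_le hm
    rw [pow_add, h', ← pow_add]
    congr 1
    ring
  have step2 : ∀ m, i ≤ m → ∀ j, x ^ m = x ^ (m + j * (d + 1)) := by
    intro m hm j
    induction j with
    | zero => simp
    | succ j ih =>
      rw [ih, step _ (by omega)]
      congr 1
      ring
  refine ⟨(i + 1) * (d + 1), by positivity, ?_⟩
  rw [← pow_add]
  exact (step2 _ (by nlinarith) (i + 1)).symm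

/-- In a group of finite exponent the values of the words form the generated subgroup. -/
theorem range_ev_eq_closure {ι G : Type*} [Group G] {k : ℕ} (hk : 0 < k)
    (hG : ∀ g : G, g ^ k = 1) (f : ι → G) :
    Set.range (ev f) = (Subgroup.closure (Set.range f) : Set G) := by
  apply Set.Subset.antisymm
  · rintro _ ⟨W, rfl⟩
    induction W with
    | nil => exact one_mem _
    | cons a W ih =>
      rw [ev_cons]
      exact mul_mem (Subgroup.subset_closure ⟨a, rfl⟩) ih
  · intro x hx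
    induction hx using Subgroup.closure_induction with
    | mem x hx =>
      obtain ⟨a, rfl⟩ := hx
      exact ⟨[a], ev_singleton f a⟩
    | one => exact ⟨[], rfl⟩
    | mul x y _ _ hx hy =>
      obtain ⟨V, rfl⟩ := hx
      obtain ⟨W, rfl⟩ := hy
      exact ⟨V ++ W, ev_append f V W⟩
    | inv x _ hx =>
      obtain ⟨V, rfl⟩ := hx
      refine ⟨(List.replicate (k - 1) V).flatten, ?_⟩
      rw [ev_replicate_flatten]
      apply eq_inv_of_mul_eq_one_left
      rw [← pow_succ, Nat.sub_add_cancel hk, hG]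

/-- Every element of the image of a free group in a group of finite exponent is the value of a positive
word. -/
theorem exists_pos_word {ι P : Type*} [Group P] {k : ℕ} (hk : 0 < k) (hP : ∀ g : P, g ^ k = 1)
    (Φ : FreeGroup ι →* P) (g : FreeGroup ι) :
    ∃ W : List ι, ev (fun a => Φ (FreeGroup.of a)) W = Φ g := by
  have h : Φ g ∈ Set.range (ev (fun a => Φ (FreeGroup.of a))) := by
    rw [range_ev_eq_closure hk hP]
    induction g using FreeGroup.induction_on with
    | C1 => rw [map_one]; exact one_mem _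
    | of a => exact Subgroup.subset_closure ⟨a, rfl⟩
    | inv_of a h => rw [map_inv]; exact inv_mem h
    | mul x y hx hy => rw [map_mul]; exact mul_mem hx hy
  exact h

/-- PASSING -/
theorem passing {ι : Type} [Finite ι] {G : Type} [Group G] {k : ℕ} (hk : 0 < k)
    (hG : ∀ g : G, g ^ k = 1) (Λ : ι → G) (hΛ : InfImg Λ)
    {Mo : Type} [Monoid Mo] [Finite Mo] (μ : ι → Mo) :
    ∃ (n : ℕ) (φ : Fin n → List ι) (e : Mo), (∀ a, φ a ≠ []) ∧ e * e = e ∧
      (∀ a, ev μ (φ a) = e) ∧ InfImg (fun a => ev Λ (φ a)) := by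
  classical
  -- a nonempty word minimising `μ z S μ z`
  obtain ⟨a₀⟩ : Nonempty ι := by
    by_contra hne
    rw [not_nonempty_iff] at hne
    apply hΛ
    apply Set.Finite.subset (Set.finite_singleton (1 : G))
    rintro _ ⟨W, rfl⟩
    cases W with
    | nil => simp
    | cons a W => exact (hne.false a).elim
  set S : Set Mo := Set.range (ev μ) with hS
  set Q : Mo → Set Mo := fun x => {y | ∃ s ∈ S, y = x * s * x} with hQ
  obtain ⟨z, hz, hzmin⟩ : ∃ z : List ι, z ≠ [] ∧ ∀ z', z' ≠ [] →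
      (Q (ev μ z)).ncard ≤ (Q (ev μ z')).ncard := by
    have hex : ∃ n, ∃ z : List ι, z ≠ [] ∧ (Q (ev μ z)).ncard = n := ⟨_, [a₀], by simp, rfl⟩
    obtain ⟨z, hz, hn⟩ := Nat.find_spec hex
    refine ⟨z, hz, fun z' hz' => ?_⟩
    rw [hn]
    exact Nat.find_min' hex ⟨z', hz', rfl⟩
  obtain ⟨n₀, hn₀, hid⟩ := exists_idem_pow (ev μ z)
  set E : List ι := (List.replicate (n₀ * k) z).flatten with hE
  set e : Mo := ev μ E with he
  have hΛE : ev Λ E = 1 := by
    rw [hE, ev_replicate_flatten, mul_comm, pow_mul, hG, one_pow]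
  have he1 : e = ev μ z ^ n₀ := by
    rw [he, hE, ev_replicate_flatten, pow_mul]
    obtain ⟨k', rfl⟩ : ∃ k', k = k' + 1 := ⟨k - 1, by omega⟩
    clear_value E
    clear hE he hΛE hG hk
    induction k' with
    | zero => simp
    | succ m ih => rw [pow_succ, ih, hid]
  have hee : e * e = e := by rw [he1, hid]
  have hEne : E ≠ [] := by
    rw [hE]
    obtain ⟨m, hm⟩ : ∃ m, n₀ * k = m + 1 := ⟨n₀ * k - 1, by have := Nat.mul_pos hn₀ hk; omega⟩
    rw [hm, List.replicate_succ, List.flatten_cons]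
    intro h
    exact hz (List.append_eq_nil_iff.1 h).1
  -- the finite group `T = e S e`
  have hTsub : Q e ⊆ Q (ev μ z) := by
    rintro y ⟨s, ⟨w, rfl⟩, rfl⟩
    obtain ⟨m, rfl⟩ : ∃ m, n₀ = m + 1 := ⟨n₀ - 1, by omega⟩
    refine ⟨ev μ z ^ m * ev μ w * ev μ z ^ m, ⟨(List.replicate m z).flatten ++ w ++
      (List.replicate m z).flatten, by rw [ev_append, ev_append, ev_replicate_flatten]⟩, ?_⟩
    rw [he1]
    conv_lhs => rw [pow_succ', mul_assoc (ev μ z)]
    rw [← pow_succ', pow_succ (ev μ z) m]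
    simp only [mul_assoc]
  have hinv : ∀ x ∈ Q e, ∃ s : Mo, x * s * x = e := by
    rintro x ⟨s, ⟨w, rfl⟩, rfl⟩
    have h1 : ev μ (E ++ w ++ E) = e * ev μ w * e := by rw [ev_append, ev_append]
    have h2 := hzmin (E ++ w ++ E) (by simp [hEne])
    rw [h1] at h2
    have h3 : Q (e * ev μ w * e) ⊆ Q e := by
      rintro y ⟨s, ⟨v, rfl⟩, rfl⟩
      refine ⟨ev μ (w ++ E ++ v ++ E ++ w), ⟨_, rfl⟩, ?_⟩
      simp only [ev_append, ← he, mul_assoc]
    have h4 : (Q e).ncard ≤ (Q (e * ev μ w * e)).ncard :=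
      (Set.ncard_le_ncard hTsub (Set.toFinite _)).trans h2
    have h5 : Q (e * ev μ w * e) = Q e := Set.eq_of_subset_of_ncard_le h3 h4 (Set.toFinite _)
    have h6 : e ∈ Q e := ⟨1, ⟨[], rfl⟩, by rw [mul_one, hee]⟩
    rw [← h5] at h6
    obtain ⟨s, -, hs⟩ := h6
    exact ⟨s, hs.symm⟩
  have heT : ∀ t ∈ Q e, e * t = t := by
    rintro t ⟨s, -, rfl⟩
    rw [← mul_assoc, ← mul_assoc, hee]
  have hmem : ∀ a : ι, e * μ a * e ∈ Q e := fun a => ⟨μ a, ⟨[a], ev_singleton μ a⟩, rfl⟩
  have hmul : ∀ x ∈ Q e, ∀ t ∈ Q e, x * t ∈ Q e := by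
    rintro _ ⟨s, ⟨v, rfl⟩, rfl⟩ _ ⟨t, ⟨w, rfl⟩, rfl⟩
    refine ⟨ev μ (v ++ E ++ w), ⟨_, rfl⟩, ?_⟩
    simp only [ev_append, ← he]
    calc e * ev μ v * e * (e * ev μ w * e) = e * ev μ v * (e * e) * ev μ w * e := by
          simp only [mul_assoc]
      _ = _ := by rw [hee]; simp only [mul_assoc]
  -- left multiplication as permutations
  have hperm : ∀ x ∈ Q e, ∃ σ : Equiv.Perm (Q e), ∀ t : Q e, (σ t : Mo) = x * t := by
    intro x hx
    set F : Q e → Q e := fun t => ⟨x * t, hmul x hx t t.2⟩ with hF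
    have hinj : Function.Injective F := by
      intro t t' h
      obtain ⟨s, hs⟩ := hinv x hx
      have h1 : x * (t : Mo) = x * t' := congrArg Subtype.val h
      have h2 : x * s * (x * (t : Mo)) = x * s * (x * t') := by rw [h1]
      rw [← mul_assoc, ← mul_assoc, hs, heT _ t.2, heT _ t'.2] at h2
      exact Subtype.ext h2
    exact ⟨Equiv.ofBijective F (Finite.injective_iff_bijective.1 hinj), fun t => rfl⟩
  choose! σ hσ using hperm
  set π : ι → Equiv.Perm (Q e) := fun a => σ (e * μ a * e) with hπ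
  have hπev : ∀ (W : List ι) (t : Q e),
      ((ev π W) t : Mo) = e * ev (fun a => μ a * e) W * t := by
    intro W
    induction W with
    | nil => intro t; rw [ev_nil, ev_nil, mul_one]; exact (heT t t.2).symm
    | cons a W ih =>
      intro t
      rw [ev_cons, ev_cons, Equiv.Perm.mul_apply]
      have h1 : (π a ((ev π W) t) : Mo) = (e * μ a * e) * ((ev π W) t : Mo) :=
        hσ _ (hmem a) _
      rw [h1, ih t]
      calc e * μ a * e * (e * ev (fun a => μ a * e) W * t)
          = e * μ a * (e * e) * ev (fun a => μ a * e) W * t := by simp only [mul_assoc]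
        _ = _ := by rw [hee]; simp only [mul_assoc]
  -- the free group
  set Φ : FreeGroup ι →* Equiv.Perm (Q e) × G :=
    (FreeGroup.lift π).prod (FreeGroup.lift Λ) with hΦ
  set K : Subgroup (FreeGroup ι) := (FreeGroup.lift π).ker with hK
  set L : FreeGroup ι →* G := FreeGroup.lift Λ with hL
  have _ : Finite (Equiv.Perm (Q e)) := inferInstance
  have hfi : K.FiniteIndex := Subgroup.finiteIndex_ker _
  have hLrange : (Set.range L).Infinite := by
    refine hΛ.mono ?_
    rintro _ ⟨W, rfl⟩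
    induction W with
    | nil => exact ⟨1, map_one L⟩
    | cons a W ih =>
      obtain ⟨g, hg⟩ := ih
      exact ⟨FreeGroup.of a * g, by rw [map_mul, hg, ev_cons, hL, FreeGroup.lift_apply_of]⟩
  have hKinf : ((K.map L : Subgroup G) : Set G).Infinite := by
    intro hfin
    apply hLrange
    have hfin2 : (Set.range (fun q : FreeGroup ι ⧸ K => L q.out)).Finite := Set.finite_range _
    refine (Set.Finite.image2 (fun x y => x * y) hfin2 hfin).subset ?_
    rintro _ ⟨g, rfl⟩
    refine ⟨L (g : FreeGroup ι ⧸ K).out, ⟨_, rfl⟩, L ((g : FreeGroup ι ⧸ K).out⁻¹ * g),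
      ⟨_, ?_, rfl⟩, ?_⟩
    · exact QuotientGroup.eq.1 (Quotient.out_eq' _)
    · show L (g : FreeGroup ι ⧸ K).out * L ((g : FreeGroup ι ⧸ K).out⁻¹ * g) = L g
      rw [map_mul, map_inv, mul_inv_cancel_left]
  have hKfg : K.FG := by
    rw [← Group.fg_iff_subgroup_fg]
    exact Subgroup.fg_of_index_ne_zero K
  obtain ⟨Sg, hSg⟩ := hKfg
  have hexp : ∀ p : Equiv.Perm (Q e) × G, p ^ (k * Nat.card (Equiv.Perm (Q e))) = 1 := by
    rintro ⟨p, g⟩
    ext1
    · rw [Prod.pow_fst, mul_comm, pow_mul, pow_card_eq_one', one_pow, Prod.fst_one]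
    · rw [Prod.pow_snd, pow_mul, hG, one_pow, Prod.snd_one]
  have hexp0 : 0 < k * Nat.card (Equiv.Perm (Q e)) := Nat.mul_pos hk Nat.card_pos
  choose w hw using fun g => exists_pos_word hexp0 hexp Φ g
  have hev : ∀ W : List ι, ev (fun a => Φ (FreeGroup.of a)) W = (ev π W, ev Λ W) := by
    intro W
    induction W with
    | nil => rfl
    | cons a W ih =>
      rw [ev_cons, ih, ev_cons, ev_cons]
      ext1
      · show (FreeGroup.lift π) (FreeGroup.of a) * ev π W = π a * ev π W
        rw [FreeGroup.lift_apply_of]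
      · show (FreeGroup.lift Λ) (FreeGroup.of a) * ev Λ W = Λ a * ev Λ W
        rw [FreeGroup.lift_apply_of]
  have hw1 : ∀ g ∈ K, ev π (w g) = 1 := by
    intro g hg
    have h1 := hw g
    rw [hev] at h1
    have h2 := congrArg Prod.fst h1
    rw [show ev π (w g) = (ev π (w g), ev Λ (w g)).1 from rfl, h1]
    exact hg
  have hw2 : ∀ g, ev Λ (w g) = L g := by
    intro g
    have h1 := hw g
    rw [hev] at h1
    exact congrArg Prod.snd h1
  set gs : Fin Sg.card → FreeGroup ι := fun i => (Sg.equivFin.symm i : FreeGroup ι) with hgs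
  have hgsK : ∀ i, gs i ∈ K := by
    intro i
    rw [← hSg]
    exact Subgroup.subset_closure (Sg.equivFin.symm i).2
  refine ⟨Sg.card, fun i => E ++ (w (gs i)).flatMap (fun a => a :: E) ++ E, e, ?_, hee, ?_, ?_⟩
  · intro i
    simp [hEne]
  · intro i
    rw [ev_append, ev_append, ev_flatMap]
    have h1 := hπev (w (gs i)) ⟨e, 1, ⟨[], rfl⟩, by rw [mul_one, hee]⟩
    rw [hw1 _ (hgsK i)] at h1
    simp only [ev_cons, ← he]
    exact h1.symm
  · have h1 : (fun i => ev Λ (E ++ (w (gs i)).flatMap (fun a => a :: E) ++ E)) =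
        fun i => L (gs i) := by
      funext i
      rw [ev_append, ev_append, ev_flatMap, hΛE, one_mul, mul_one, ← hw2]
      congr 1
      funext a
      rw [ev_cons, hΛE, mul_one]
    rw [h1]
    unfold InfImg
    rw [range_ev_eq_closure hk hG]
    have h2 : Set.range (fun i => L (gs i)) = L '' (Sg : Set (FreeGroup ι)) := by
      ext x
      constructor
      · rintro ⟨i, rfl⟩
        exact ⟨gs i, (Sg.equivFin.symm i).2, rfl⟩
      · rintro ⟨g, hg, rfl⟩
        exact ⟨Sg.equivFin ⟨g, hg⟩, by simp [hgs]⟩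
    rw [h2, ← MonoidHom.map_closure, hSg]
    exact hKinf

end Pool.Agent.MP5ca50a
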