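import Pool.Agent.Lib.MP_5ca50a_lc.DesyncC
import Pool.Agent.Lib.MP_5ca50a_lc.Passing
import Pool.Agent.Lib.MP_5ca50a_lc.Mismatch
import Pool.Agent.Lib.MP_5ca50a_lc.Status

/-!
The lemma `desync`.
-/

set_option autoImplicit false

open scoped Pointwise

namespace Pool.Agent.MP5ca50a

/-- A letter map with finitely many values becomes trivial after a refinement. -/
lemma trivial_of_finite {ι : Type} [Finite ι] {G G' : Type} [Group G] [Group G'] {k : ℕ}
    (hk : 0 < k) (hG' : ∀ g : G', g ^ k = 1) (Λ : ι → G') (hΛ : InfImg Λ) (α : ι → G)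
    (hα : ¬ InfImg α) :
    ∃ (m : ℕ) (φ : Fin m → List ι), (∀ a, φ a ≠ []) ∧ InfImg (fun a => ev Λ (φ a)) ∧
      ∀ a, ev α (φ a) = 1 := by
  let S : Submonoid G :=
    { carrier := Set.range (ev α)
      one_mem' := ⟨[], rfl⟩
      mul_mem' := by
        rintro _ _ ⟨a, rfl⟩ ⟨b, rfl⟩
        exact ⟨a ++ b, by simp⟩ }
  have hfin : (Set.range (ev α)).Finite := Set.not_infinite.1 hα
  have : Finite S := hfin
  obtain ⟨n, φ, e, h1, h2, h3, h4⟩ := passing hk hG' Λ hΛ (Mo := S)
    (fun i => (⟨α i, [i], by simp⟩ : S))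
  refine ⟨n, φ, h1, h4, fun a => ?_⟩
  have he : (e : G) = 1 := by
    have := congrArg (Subtype.val) h2
    simpa using this
  have h5 := ev_comp S.subtype (fun i => (⟨α i, [i], by simp⟩ : S)) (φ a)
  rw [h3 a] at h5
  change ev α (φ a) = (e : G) at h5
  rw [h5, he]

lemma flatMap_replicate' {ι κ : Type} (φ : κ → List ι) (b : κ) (n : ℕ) :
    (List.replicate n b).flatMap φ = (List.replicate n (φ b)).flatten := by
  induction n with
  | zero => simp
  | succ n ih => simp [List.replicate_succ, ih]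

/-- Composition of refinements when a letter map is trivial on the composed letters. -/
lemma trivial_comp {ι : Type} {G G' : Type} [Group G] [Group G'] (Λ : ι → G') (α : ι → G)
    {m1 : ℕ} (φ1 : Fin m1 → List ι) (hne : ∀ a, φ1 a ≠ [])
    (h : ∃ (m : ℕ) (φ : Fin m → List (Fin m1)), (∀ a, φ a ≠ []) ∧
      InfImg (fun a => ev (fun b => ev Λ (φ1 b)) (φ a)) ∧
      ∀ a, ev (fun b => ev α (φ1 b)) (φ a) = 1) :
    ∃ (m : ℕ) (φ : Fin m → List ι), (∀ a, φ a ≠ []) ∧ InfImg (fun a => ev Λ (φ a)) ∧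
      ∀ a, ev α (φ a) = 1 := by
  obtain ⟨m, φ, h1, h2, h3⟩ := h
  refine ⟨m, fun a => (φ a).flatMap φ1, ?_, ?_, ?_⟩
  · intro a
    obtain ⟨b, l, hb⟩ := List.exists_cons_of_ne_nil (h1 a)
    change (φ a).flatMap φ1 ≠ []
    rw [hb, List.flatMap_cons]
    intro h
    exact hne b (List.append_eq_nil_iff.1 h).1
  · simpa only [ev_flatMap] using h2
  · intro a
    simpa only [ev_flatMap] using h3 a

theorem desync {ι : Type} [Finite ι] {G G' : Type} [Group G] [Group G'] {k : ℕ} (hk : 0 < k)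
    (hG : ∀ g : G, g ^ k = 1) (hG' : ∀ g : G', g ^ k = 1)
    (Λ : ι → G') (hΛ : InfImg Λ) (α β : ι → G) {F : Set G} (hF : F.Finite) (c : ℕ) :
    ∃ (m : ℕ) (φ : Fin m → List ι), (∀ a, φ a ≠ []) ∧ InfImg (fun a => ev Λ (φ a)) ∧
      ((∀ a, ev α (φ a) = 1) ∨ (∀ a, ev β (φ a) = 1) ∨
        ∃ B : ℕ, ∀ (W W' : List (Fin m)) (U V : List ι),
          U <:+: W.flatMap φ → V <:+: W'.flatMap φ →
          ∀ (n : ℕ) (q : ℕ → G) (x y : ℕ → ℕ) (A A' : G),
            x 0 = 0 → y 0 = 0 → x n = U.length → y n = V.length →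
            (∀ t < n, x t ≤ x (t + 1) ∧ x (t + 1) ≤ x t + c ∧
              y t ≤ y (t + 1) ∧ y (t + 1) ≤ y t + c) →
            (∀ t ≤ n, ∃ f ∈ F, q t = A * ev α (U.take (x t)) * f) →
            (∀ t ≤ n, ∃ f ∈ F, q t = A' * (ev β (V.drop (V.length - y t)))⁻¹ * f) →
            U.length + V.length ≤ B) := by
  classical
  -- the set for fatness
  set F' : Set G := F * F⁻¹ * (F * F⁻¹) with hF'
  have hF'fin : F'.Finite := (hF.mul hF.inv).mul (hF.mul hF.inv)
  obtain ⟨m1, φ1, hne1, hΛ1, hst⟩ := status hk hG hG' Λ hΛ (J := Bool)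
    (fun j => bif j then α else β) hF'fin (fun R => R + c)
  rcases hst true with hα | ⟨Rα, hRα⟩
  · exact ⟨m1, φ1, hne1, hΛ1, Or.inl hα⟩
  rcases hst false with hβ | ⟨Rβ, hRβ⟩
  · exact ⟨m1, φ1, hne1, hΛ1, Or.inr (Or.inl hβ)⟩
  simp only [cond_true] at hRα
  simp only [cond_false] at hRβ
  by_cases hinf : InfImg (fun a => ev α (φ1 a))
  swap
  · obtain ⟨m, φ, h1, h2, h3⟩ := trivial_comp Λ α φ1 hne1
      (trivial_of_finite hk hG' (fun a => ev Λ (φ1 a)) hΛ1 (fun a => ev α (φ1 a)) hinf)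
    exact ⟨m, φ, h1, h2, Or.inl h3⟩
  -- a letter
  have hb : Nonempty (Fin m1) := by
    by_contra hempty
    rw [not_nonempty_iff] at hempty
    apply hΛ1
    refine (Set.finite_singleton (1 : G')).subset ?_
    rintro _ ⟨W, rfl⟩
    cases W with
    | nil => simp
    | cons a _ => exact (hempty.false a).elim
  obtain ⟨b⟩ := hb
  set P : List ι := (List.replicate k (φ1 b)).flatten with hP
  have hPα : ev α P = 1 := by rw [hP, ev_replicate_flatten, hG]
  have hPβ : ev β P = 1 := by rw [hP, ev_replicate_flatten, hG]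
  have hPpos : 0 < P.length := by
    have : 0 < (φ1 b).length := List.length_pos_iff.2 (hne1 b)
    obtain ⟨k', rfl⟩ : ∃ k', k = k' + 1 := ⟨k - 1, by omega⟩
    rw [hP, List.replicate_succ, List.flatten_cons, List.length_append]
    omega
  -- finite sets
  set D : Set G := smallVals α (2 * P.length) ∪ smallVals β (2 * P.length) with hD
  have hDfin : D.Finite := (smallVals_finite _ _).union (smallVals_finite _ _)
  set E : Set G := F ∪ D ∪ Set.range (fun a => ev α (φ1 a)) ∪ Set.range (fun a => ev β (φ1 a))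
    with hE
  have hEfin : E.Finite := ((hF.union hDfin).union (Set.finite_range _)).union
    (Set.finite_range _)
  set K : Set G := insert 1 (E ∪ E⁻¹) with hK
  have hKfin : K.Finite := (hEfin.union hEfin.inv).insert 1
  have h1K : (1 : G) ∈ K := Set.mem_insert _ _
  have hEK : ∀ g ∈ E, g ∈ K := fun g hg => Set.mem_insert_of_mem _ (Or.inl hg)
  have hEK' : ∀ g ∈ E, g⁻¹ ∈ K := fun g hg => Set.mem_insert_of_mem _ (Or.inr (by simpa using hg))
  have hFE : ∀ g ∈ F, g ∈ E := fun g hg => Or.inl (Or.inl (Or.inl hg))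
  have hDE : ∀ g ∈ D, g ∈ E := fun g hg => Or.inl (Or.inl (Or.inr hg))
  obtain ⟨h, hh1, hh2⟩ := mismatch hk hG (fun a => ev α (φ1 a)) (fun a => ev β (φ1 a)) hinf
    (pow_finite hKfin 8)
  have hmem8 : ∀ l : List G, l.length ≤ 8 → (∀ g ∈ l, g ∈ K) → l.prod ∈ K ^ 8 :=
    list_prod_mem_pow h1K 8
  set H : List ι := h.flatMap φ1 with hH
  have hHα : ev α H = ev (fun a => ev α (φ1 a)) h := by rw [hH, ev_flatMap]
  have hHβ : ev β H = ev (fun a => ev β (φ1 a)) h := by rw [hH, ev_flatMap]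
  rw [← hHα] at hh1
  simp only [← hHα, ← hHβ] at hh2
  have hHne : H ≠ [] := by
    intro hnil
    rw [hnil, ev_nil] at hh1
    exact hh1 (by simpa using hmem8 [] (by simp) (by simp))
  -- constants
  set L0 : ℕ := (∑ a, (φ1 a).length) + H.length with hL0
  have hlen1 : ∀ a, (φ1 a).length ≤ ∑ a, (φ1 a).length := fun a =>
    Finset.single_le_sum (f := fun a => (φ1 a).length) (fun _ _ => Nat.zero_le _)
      (Finset.mem_univ a)
  set δ : ℕ := c + (Rα + c) * (L0 + c + 1) + 1 with hδ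
  set mm : ℕ := δ + 2 * c + (Rβ + c) * (2 * δ + 2 * c + L0 + 1) + 1 with hmm
  set T : List ι := (List.replicate mm P).flatten with hT
  have hTlen : δ + 2 * c + (Rβ + c) * (2 * δ + 2 * c + L0 + 1) < T.length := by
    have : T.length = mm * P.length := by rw [hT]; simp
    rw [this]
    have := Nat.mul_le_mul_left mm hPpos
    omega
  have hDα : ∀ z, z <:+: T → ev α z ∈ D := fun z hz => Or.inl (factor_pow_val hPα mm z hz)
  have hDβ : ∀ z, z <:+: T → ev β z ∈ D := fun z hz => Or.inr (factor_pow_val hPβ mm z hz)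
  -- the refinement
  set φ2 : Fin m1 → List (Fin m1) := fun f => f :: (List.replicate k
    (h ++ (List.replicate mm (List.replicate k b)).flatten)).flatten with hφ2
  have hφ : ∀ f, (φ2 f).flatMap φ1 = φ1 f ++ (List.replicate k (H ++ T)).flatten := by
    intro f
    rw [hφ2]
    simp only [List.flatMap_cons, flatMap_replicate_flatten, List.flatMap_append]
    rw [hT, hP, hH, flatMap_replicate']
  refine ⟨m1, fun f => (φ2 f).flatMap φ1, ?_, ?_, ?_⟩
  · intro f
    change (φ2 f).flatMap φ1 ≠ []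
    rw [hφ]
    intro h0
    exact hne1 f (List.append_eq_nil_iff.1 h0).1
  · have : (fun a => ev Λ ((φ2 a).flatMap φ1)) = fun a => ev Λ (φ1 a) := by
      funext a
      rw [hφ, ev_append, ev_replicate_flatten, hG', mul_one]
    rw [this]
    exact hΛ1
  right; right
  refine ⟨(3 * T.length + 3 * L0) + (Rβ + c) * (3 * T.length + 3 * L0 + 1), ?_⟩
  intro W W' U V hU hV n q x y A A' hx0 hy0 hxn hyn hsteps hqa hqb
  -- zone words are item words
  have hzone : ∀ W : List (Fin m1), W.flatMap (fun f => (φ2 f).flatMap φ1) =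
      itemWord T (itemsOf φ1 H k W) := by
    intro W
    rw [← zone_eq_itemWord φ1 H T hk W]
    congr 1
    funext f
    exact hφ f
  have hzone1 : ∀ W : List (Fin m1), W.flatMap (fun f => (φ2 f).flatMap φ1) =
      (W.flatMap φ2).flatMap φ1 := by
    intro W
    rw [List.flatMap_assoc]
  have hfatα : ∀ ω, ω <:+: U → ω.length ≤ Rα + c → ev α ω ∈ F' → ω.length ≤ Rα := by
    intro ω h1 h2 h3
    refine hRα (W.flatMap φ2) ω ?_ h2 h3
    rw [← hzone1]
    exact h1.trans hU
  have hfatβ : ∀ ω, ω <:+: V → ω.length ≤ Rβ + c → ev β ω ∈ F' → ω.length ≤ Rβ := by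
    intro ω h1 h2 h3
    refine hRβ (W'.flatMap φ2) ω ?_ h2 h3
    rw [← hzone1]
    exact h1.trans hV
  have hCx : Ctr n c x := fun t ht => ⟨(hsteps t ht).1, (hsteps t ht).2.1⟩
  have hCy : Ctr n c y := fun t ht => ⟨(hsteps t ht).2.2.1, (hsteps t ht).2.2.2⟩
  have hxU : ∀ t ≤ n, x t ≤ U.length := fun t ht => hxn ▸ hCx.mono ht le_rfl
  have hyV : ∀ t ≤ n, y t ≤ V.length := fun t ht => hyn ▸ hCy.mono ht le_rfl
  -- Lipschitz bounds
  have lipx : ∀ t t', t ≤ t' → t' ≤ n → x t' ≤ x t + (Rα + c) * (y t' - y t + 1) := by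
    refine hCx.lip hCy (growth_of_fat hCx hCy ?_)
    intro t t' h1 h2 h3 h4
    have h5 := hCx.mono h1 h2
    have h6 := hxU t' h2
    obtain ⟨f1, hf1, e1⟩ := hqa t (h1.trans h2)
    obtain ⟨f2, hf2, e2⟩ := hqa t' h2
    obtain ⟨f3, hf3, e3⟩ := hqb t (h1.trans h2)
    obtain ⟨f4, hf4, e4⟩ := hqb t' h2
    set ω : List ι := (U.take (x t')).drop (x t) with hω
    have h7 : U.take (x t') = U.take (x t) ++ ω := by
      have : U.take (x t) = (U.take (x t')).take (x t) := by
        rw [List.take_take, min_eq_left h5]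
      rw [this, hω, List.take_append_drop]
    have h8 : ω.length = x t' - x t := by
      rw [hω, List.length_drop, List.length_take, min_eq_left h6]
    have h9 : ω <:+: U := ((List.drop_suffix _ _).isInfix).trans (List.take_prefix _ _).isInfix
    have h10 : ev α ω ∈ F' := by
      have h11 : ev α ω = f1 * f3⁻¹ * (f4 * f2⁻¹) := by
        have e5 : (q t)⁻¹ * q t' = f1⁻¹ * ev α ω * f2 := by
          rw [e1, e2, h7, ev_append]; group
        have e6 : (q t)⁻¹ * q t' = f3⁻¹ * f4 := by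
          rw [e3, e4, h3]; group
        have e7 : ev α ω = f1 * (f1⁻¹ * ev α ω * f2) * f2⁻¹ := by group
        rw [e7, ← e5, e6]; group
      rw [h11]
      exact Set.mul_mem_mul (Set.mul_mem_mul hf1 (Set.inv_mem_inv.2 hf3))
        (Set.mul_mem_mul hf4 (Set.inv_mem_inv.2 hf2))
    have := hfatα ω h9 (by omega) h10
    omega
  have lipy : ∀ t t', t ≤ t' → t' ≤ n → y t' ≤ y t + (Rβ + c) * (x t' - x t + 1) := by
    refine hCy.lip hCx (growth_of_fat hCy hCx ?_)
    intro t t' h1 h2 h3 h4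
    have h5 := hCy.mono h1 h2
    have h6 := hyV t' h2
    obtain ⟨f1, hf1, e1⟩ := hqa t (h1.trans h2)
    obtain ⟨f2, hf2, e2⟩ := hqa t' h2
    obtain ⟨f3, hf3, e3⟩ := hqb t (h1.trans h2)
    obtain ⟨f4, hf4, e4⟩ := hqb t' h2
    set ω : List ι := (V.drop (V.length - y t')).take (y t' - y t) with hω
    have h7 : V.drop (V.length - y t') = ω ++ V.drop (V.length - y t) := by
      have : V.drop (V.length - y t) = (V.drop (V.length - y t')).drop (y t' - y t) := by
        rw [List.drop_drop]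
        congr 1
        omega
      rw [this, hω, List.take_append_drop]
    have h8 : ω.length = y t' - y t := by
      rw [hω, List.length_take, List.length_drop]
      omega
    have h9 : ω <:+: V := ((List.take_prefix _ _).isInfix).trans (List.drop_suffix _ _).isInfix
    have h10 : ev β ω ∈ F' := by
      have h11 : ev β ω = f4 * f2⁻¹ * (f1 * f3⁻¹) := by
        have e5 : (q t)⁻¹ * q t' = f1⁻¹ * f2 := by
          rw [e1, e2, h3]; group
        have e6 : (q t)⁻¹ * q t' = f3⁻¹ * (ev β ω)⁻¹ * f4 := by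
          rw [e3, e4, h7, ev_append]; group
        have e7 : ev β ω = f4 * (f3⁻¹ * (ev β ω)⁻¹ * f4)⁻¹ * f3⁻¹ := by group
        rw [e7, ← e6, e5]; group
      rw [h11]
      exact Set.mul_mem_mul (Set.mul_mem_mul hf4 (Set.inv_mem_inv.2 hf2))
        (Set.mul_mem_mul hf1 (Set.inv_mem_inv.2 hf3))
    have := hfatβ ω h9 (by omega) h10
    omega
  -- the zone words
  rw [hzone] at hU hV
  obtain ⟨AU, BU, hUdec⟩ := hU
  obtain ⟨AV, BV, hVdec⟩ := hV
  have hitem : ∀ W : List (Fin m1), ∀ C ∈ itemsOf φ1 H k W, C.length ≤ L0 := by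
    intro W C hC
    rcases mem_itemsOf hC with rfl | ⟨f, rfl⟩
    · omega
    · rw [List.length_append]
      have := hlen1 f
      omega
  have hitemne : ∀ W : List (Fin m1), ∀ C ∈ itemsOf φ1 H k W, C ≠ [] := by
    intro W C hC
    rcases mem_itemsOf hC with rfl | ⟨f, rfl⟩
    · exact hHne
    · intro h0
      exact hHne (List.append_eq_nil_iff.1 h0).2
  have hevα : ∀ W : List (Fin m1), ∀ C ∈ itemsOf φ1 H k W, ∃ a1, a1⁻¹ ∈ K ∧
      ev α C = a1 * ev α H := by
    intro W C hC
    rcases mem_itemsOf hC with rfl | ⟨f, rfl⟩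
    · exact ⟨1, by simpa using h1K, by simp⟩
    · exact ⟨ev α (φ1 f), hEK' _ (Or.inl (Or.inr ⟨f, rfl⟩)), by simp⟩
  have hevβ : ∀ W : List (Fin m1), ∀ C ∈ itemsOf φ1 H k W, ∃ a1, a1⁻¹ ∈ K ∧
      ev β C = a1 * ev β H := by
    intro W C hC
    rcases mem_itemsOf hC with rfl | ⟨f, rfl⟩
    · exact ⟨1, by simpa using h1K, by simp⟩
    · exact ⟨ev β (φ1 f), hEK' _ (Or.inr ⟨f, rfl⟩), by simp⟩
  have hmain : x n ≤ 3 * T.length + 3 * L0 := by
    refine core_bound (α := α) (β := β) (D := D) (F := F) (g1 := Rα + c) (g2 := Rβ + c)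
      (Cs := itemsOf φ1 H k W) (Cs' := itemsOf φ1 H k W') hDα hDβ
      (hitem W) (hitemne W) (hitem W') ?_ ?_ hδ hTlen hCx hCy hx0 lipx lipy
      (u0 := AU.length) (v1 := AV.length + V.length) ?_ ?_ ?_ (q := q)
      (A := A * (ev α AU)⁻¹) (A' := A' * (ev β (AV ++ V))⁻¹) ?_ ?_
    · -- mismatch 1
      intro C hC d1 hd1 d2 hd2 d3 hd3 f1 hf1 f2 hf2 f3 hf3 f4 hf4 heq
      obtain ⟨a1, ha1, hC1⟩ := hevα W C hC
      apply hh1
      have e1 : ev α H = [a1⁻¹, d1⁻¹, f1, f3⁻¹, d3⁻¹, f4, f2⁻¹, d2⁻¹].prod := by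
        have : ev α H = a1⁻¹ * d1⁻¹ * f1 * (f1⁻¹ * (d1 * ev α C * d2) * f2) * f2⁻¹ * d2⁻¹ := by
          rw [hC1]; group
        rw [this, heq]
        simp only [List.prod_cons, List.prod_nil]
        group
      rw [e1]
      refine hmem8 _ (by simp) ?_
      intro g hg
      simp only [List.mem_cons, List.not_mem_nil, or_false] at hg
      rcases hg with rfl | rfl | rfl | rfl | rfl | rfl | rfl | rfl
      · exact ha1
      · exact hEK' _ (hDE _ hd1)
      · exact hEK _ (hFE _ hf1)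
      · exact hEK' _ (hFE _ hf3)
      · exact hEK' _ (hDE _ hd3)
      · exact hEK _ (hFE _ hf4)
      · exact hEK' _ (hFE _ hf2)
      · exact hEK' _ (hDE _ hd2)
    · -- mismatch 2
      intro C hC C' hC' d1 hd1 d2 hd2 d3 hd3 d4 hd4 f1 hf1 f2 hf2 f3 hf3 f4 hf4 heq
      obtain ⟨a1, ha1, hC1⟩ := hevα W C hC
      obtain ⟨b1, hb1, hC2⟩ := hevβ W' C' hC'
      have e1 : ev α H = [a1⁻¹, d1⁻¹, f1, f3⁻¹, d4⁻¹].prod * (ev β H)⁻¹ *
          [b1⁻¹, d3⁻¹, f4, f2⁻¹, d2⁻¹].prod := by
        have : ev α H = a1⁻¹ * d1⁻¹ * f1 * (f1⁻¹ * (d1 * ev α C * d2) * f2) * f2⁻¹ * d2⁻¹ := by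
          rw [hC1]; group
        rw [this, heq, hC2]
        simp only [List.prod_cons, List.prod_nil]
        group
      refine hh2 _ ?_ _ ?_ e1
      · refine hmem8 _ (by simp) ?_
        intro g hg
        simp only [List.mem_cons, List.not_mem_nil, or_false] at hg
        rcases hg with rfl | rfl | rfl | rfl | rfl
        · exact ha1
        · exact hEK' _ (hDE _ hd1)
        · exact hEK _ (hFE _ hf1)
        · exact hEK' _ (hFE _ hf3)
        · exact hEK' _ (hDE _ hd4)
      · refine hmem8 _ (by simp) ?_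
        intro g hg
        simp only [List.mem_cons, List.not_mem_nil, or_false] at hg
        rcases hg with rfl | rfl | rfl | rfl | rfl
        · exact hb1
        · exact hEK' _ (hDE _ hd3)
        · exact hEK _ (hFE _ hf4)
        · exact hEK' _ (hFE _ hf2)
        · exact hEK' _ (hDE _ hd2)
    · rw [← hUdec, hxn]
      simp only [List.length_append]
      omega
    · omega
    · rw [← hVdec]
      simp only [List.length_append]
      omega
    · intro t ht
      obtain ⟨f, hf, e⟩ := hqa t ht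
      refine ⟨f, hf, ?_⟩
      have h1 : (itemWord T (itemsOf φ1 H k W)).take (AU.length + x t) = AU ++ U.take (x t) := by
        rw [← hUdec, List.append_assoc, List.take_length_add_append,
          List.take_append_of_le_length (hxU t ht)]
      rw [h1, e, ev_append]
      group
    · intro t ht
      obtain ⟨f, hf, e⟩ := hqb t ht
      refine ⟨f, hf, ?_⟩
      have h2 := hyV t ht
      have h1 : (itemWord T (itemsOf φ1 H k W')).take (AV.length + V.length - y t) =
          AV ++ V.take (V.length - y t) := by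
        rw [← hVdec, List.append_assoc,
          show AV.length + V.length - y t = AV.length + (V.length - y t) by omega,
          List.take_length_add_append, List.take_append_of_le_length (by omega)]
      have h3 : ev β V = ev β (V.take (V.length - y t)) * ev β (V.drop (V.length - y t)) := by
        rw [← ev_append, List.take_append_drop]
      rw [h1, e, ev_append, ev_append, h3]
      group
  have hfin := lipy 0 n (Nat.zero_le _) le_rfl
  rw [hx0, hy0] at hfin
  have h1 : x n - 0 + 1 ≤ 3 * T.length + 3 * L0 + 1 := by omega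
  have h2 := Nat.mul_le_mul_left (Rβ + c) h1
  omega

end Pool.Agent.MP5ca50a
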