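import Pool.Agent.Lib.MP_5ca50a_lc.Pth
import Pool.Agent.Lib.MP_5ca50a_lc.Zone
import Pool.Agent.Lib.MP_5ca50a_lc.Desync

/-!
Bound for fine derivations of an expansive component.
-/

set_option autoImplicit false

namespace Pool.Agent.MP5ca50a

open Pointwise TrackSys

lemma exists_nat_bound {J : Type} [Finite J] (f : J → ℕ) : ∃ R, ∀ j, f j ≤ R := by
  obtain ⟨R, hR⟩ := (Set.finite_range f).bddAbove
  exact ⟨R, fun j => hR ⟨j, rfl⟩⟩

lemma nonempty_of_infImg {ι G : Type} [Monoid G] {f : ι → G} (h : InfImg f) : Nonempty ι := by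
  by_contra hne
  rw [not_nonempty_iff] at hne
  apply h
  refine (Set.finite_singleton (1 : G)).subset ?_
  rintro _ ⟨W, rfl⟩
  cases W with
  | nil => simp
  | cons a W => exact (hne.false a).elim

lemma cmp_cmp {T ι κ σ : Type} (w : ι → List T) (φ : κ → List ι) (ψ : σ → List κ) :
    cmp (cmp w φ) ψ = cmp w (fun b => (ψ b).flatMap φ) := by
  funext b
  simp only [cmp]
  rw [List.flatMap_assoc]
  rfl

instance finite_end (X : Type) [Finite X] : Finite (Function.End X) :=
  inferInstanceAs (Finite (X → X))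

variable {T N : Type} [Finite T] [Finite N] {g : BG T N} {S : N} {k : ℕ}

theorem exp_bound (c : Cpt (g.M S) k) (hE : Expans c) {ι : Type} [Finite ι] (w : ι → List T)
    (hw : ∀ a, w a ≠ []) {G' : Type} [Group G'] (hG' : ∀ g : G', g ^ (k + 1) = 1) (Λ : ι → G')
    (hΛ : InfImg Λ) (H : ℕ) :
    ∃ (m : ℕ) (φ : Fin m → List ι), (∀ a, φ a ≠ []) ∧ InfImg (fun a => ev Λ (φ a)) ∧
      ∃ R : ℕ, ∀ (A : N) (mw : List T) (W : List (Fin m)) (p s : List T),
        W.flatMap (cmp w φ) = p ++ mw ++ s → Fine g c.D H A mw → R < mw.length →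
        Ins (cmp w φ) W p mw s (fun x => x ∈ g.M S A) := by
  classical
  obtain ⟨n1, φ1, E, hφ1, hE1, hE2, hΛ1⟩ := passing (Nat.succ_pos k) hG' Λ hΛ
    ((mixS hE).PM (2 * H + 1) w)
  have hp : (mixS hE).Passed (2 * H + 1) w φ1 E := ⟨hw, hφ1, hE1, hE2⟩
  have hne : Nonempty (Fin n1) := nonempty_of_infImg hΛ1
  obtain ⟨l, hl⟩ := exists_nat_bound (fun b : Fin n1 => ((φ1 b).flatMap w).length)
  obtain ⟨F, hF, hlock⟩ := locked hp hl
  have hF' : (F * F⁻¹).Finite := hF.mul hF.inv
  obtain ⟨n2, φ2, hφ2, hΛ2, hst⟩ := status (J := {t : St T (Bool × c.Lab) (2 * H + 1) // erel E t t})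
    (Nat.succ_pos k) (G := c.Q) (fun q => LQ.pow_eq_one q) hG' _ hΛ1
    (fun t => (mixS hE).lam (cmp w φ1) t.1) hF' (fun R => 2 * ((R + 3) * l + (2 * H + 1)))
  -- choose the constants
  have hst' : ∀ j : {t : St T (Bool × c.Lab) (2 * H + 1) // erel E t t}, ∃ R : ℕ,
      (∀ a, ev ((mixS hE).lam (cmp w φ1) j.1) (φ2 a) = 1) ∨
        ∀ (W : List (Fin n2)) (ω : List (Fin n1)), ω <:+: W.flatMap φ2 →
          ω.length ≤ 2 * ((R + 3) * l + (2 * H + 1)) →
          ev ((mixS hE).lam (cmp w φ1) j.1) ω ∈ F * F⁻¹ → ω.length ≤ R := by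
    intro j
    rcases hst j with h | ⟨R, h⟩
    · exact ⟨0, Or.inl h⟩
    · exact ⟨R, Or.inr h⟩
  choose Rt hRt using hst'
  obtain ⟨R0, hR0⟩ := exists_nat_bound Rt
  refine ⟨n2, fun b => (φ2 b).flatMap φ1, fun a => flatMap_ne_nil hφ1 (hφ2 a), ?_,
    (R0 + 3) * l + (2 * H + 1) + 3 * l, ?_⟩
  · simpa only [ev_flatMap] using hΛ2
  intro A mw W p s hW hfine hR
  rw [← cmp_cmp] at hW ⊢
  rw [flatMap_cmp] at hW
  rcases zone_split (cmp w φ1) l hl (W.flatMap φ2) p mw s hW with h1 |
    ⟨V₁, U, V₂, η, θ, hV, hm, hη, hθ, hηl, hθl⟩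
  · have : l ≤ 3 * l := by omega
    omega
  -- the block has at least two letters
  have hUl : (U.flatMap (cmp w φ1)).length ≤ U.length * l := flatMap_length_le _ l hl U
  have hml : mw.length = η.length + (U.flatMap (cmp w φ1)).length + θ.length := by
    rw [hm]; simp only [List.length_append]
  obtain ⟨a, V, rfl, hVne⟩ : ∃ a V, U = a :: V ∧ V ≠ [] := by
    cases U with
    | nil =>
      simp only [List.flatMap_nil, List.length_nil] at hml
      omega
    | cons a V =>
      refine ⟨a, V, rfl, ?_⟩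
      rintro rfl
      simp only [List.length_cons, List.length_nil, Nat.zero_add, Nat.one_mul] at hUl
      omega
  obtain ⟨n, lab, u, q, hpath, hlab0, hlabn, hun, hqn, hscale⟩ := hfine.contour hE
  obtain ⟨t, ht, ⟨A', x, hx0, hxn, hxc, hxq⟩, hins⟩ := hlock n lab u q hpath η θ a V
    (by rw [hun, hm]; rfl) hηl hθl hVne
  rcases hRt ⟨t, ht⟩ with htriv | hfat
  · -- trivial: insertion
    have hmw : mw = (η ++ cmp w φ1 a) ++ (V.flatMap (cmp w φ1) ++ θ) := by
      rw [hm]; simp
    rw [hmw]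
    refine ins_of_trivial (lam := (mixS hE).lam (cmp w φ1) t) htriv (X₁ := V₁ ++ [a])
      (X₂ := V ++ V₂) ?_ ?_ ?_ ?_ ?_
    · rintro rfl
      simp at hV
    · rw [hV]; simp
    · rw [List.flatMap_append, ← hη]; simp
    · rw [List.flatMap_append, ← hθ]; simp
    · intro Z hZ
      have h2 := hins Z hZ
      rw [hlab0, hlabn, hqn] at h2
      have h3 := mix_final hE h2
      have e : η ++ cmp w φ1 a ++ Z.flatMap (cmp w φ1) ++ (V.flatMap (cmp w φ1) ++ θ) =
        η ++ (φ1 a).flatMap w ++ Z.flatMap (fun b => (φ1 b).flatMap w) ++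
            V.flatMap (fun b => (φ1 b).flatMap w) ++ θ := by
        rw [← List.append_assoc]; rfl
      rw [e]
      exact h3
  · -- fat: contradiction
    exfalso
    set Rc := Rt ⟨t, ht⟩ with hRc
    have hRle : (Rc + 3) * l ≤ (R0 + 3) * l := Nat.mul_le_mul_right l (by
      have := hR0 ⟨t, ht⟩
      omega)
    obtain ⟨i, j, hij, hjn, hqij, hlow, hhigh⟩ := hscale ((Rc + 3) * l + (2 * H + 1)) (by omega)
      (by omega)
    obtain ⟨h1, h2, h3⟩ := hxc i j hij hjn
    have hxjn : x j ≤ (a :: V).length := by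
      rw [← hxn]
      exact (hxc j n hjn le_rfl).1
    set ω := ((a :: V).take (x j)).drop (x i) with hω
    have hωl : ω.length = x j - x i := by
      rw [hω, List.length_drop, List.length_take, min_eq_left hxjn]
    have hωin : ω <:+: W.flatMap φ2 := by
      rw [hV]
      refine ((List.drop_suffix _ _).isInfix.trans (List.take_prefix _ _).isInfix).trans ?_
      exact ⟨V₁, V₂, rfl⟩
    have hev : ev ((mixS hE).lam (cmp w φ1) t) ω ∈ F * F⁻¹ := by
      obtain ⟨f, hf, hqi⟩ := hxq i (hij.trans hjn)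
      obtain ⟨f', hf', hqj⟩ := hxq j hjn
      have hsplit : (a :: V).take (x j) = (a :: V).take (x i) ++ ω := by
        rw [hω]
        conv_lhs => rw [← List.take_append_drop (x i) ((a :: V).take (x j))]
        rw [List.take_take, min_eq_left h1]
      rw [hqi, hqj, hsplit, ev_append] at hqij
      have : ev ((mixS hE).lam (cmp w φ1) t) ω = f * f'⁻¹ := by
        have h5 : ∀ (x y z a b : c.Q), x * y * a = x * (y * z) * b → z = a * b⁻¹ := by
          intro x y z a b h
          have : a = z * b := by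
            have h6 : x * y * a = x * y * (z * b) := by rw [h]; group
            exact mul_left_cancel h6
          rw [this]; group
        exact h5 _ _ _ _ _ hqij
      rw [this]
      exact Set.mul_mem_mul hf (Set.inv_mem_inv.mpr hf')
    have h4 := hfat W ω hωin (by rw [hωl]; omega) hev
    rw [hωl] at h4
    have h5 : (x j - x i + 2) * l ≤ (Rc + 2) * l := Nat.mul_le_mul_right l (by omega)
    have h6 : (Rc + 3) * l = (Rc + 2) * l + l := by ring
    omega

end Pool.Agent.MP5ca50a
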