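import Pool.Agent.Lib.MP_5ca50a_lc.Chn
import Pool.Agent.Lib.MP_5ca50a_lc.DesyncFam
import Pool.Agent.Lib.MP_5ca50a_lc.ExpBound

/-!
Bound for chains whose two sides lie in zones.
-/

set_option autoImplicit false

namespace Pool.Agent.MP5ca50a

open Pointwise TrackSys

instance finite_mop (X : Type) [Finite X] : Finite Xᵐᵒᵖ := Finite.of_equiv X MulOpposite.opEquiv

lemma ev_prod' {ι M M' : Type} [Monoid M] [Monoid M'] (f : ι → M) (f' : ι → M') (W : List ι) :
    ev (fun a => (f a, f' a)) W = (ev f W, ev f' W) := by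
  induction W with
  | nil => rfl
  | cons a W ih => rw [ev_cons, ih, ev_cons, ev_cons]; rfl

lemma ev_op' {ι M : Type} [Monoid M] (f : ι → M) (W : List ι) :
    ev (fun a => MulOpposite.op (f a)) W = MulOpposite.op (ev f W.reverse) := by
  induction W with
  | nil => rfl
  | cons a W ih =>
    rw [ev_cons, ih, List.reverse_cons, ev_append, ev_singleton, MulOpposite.op_mul]

lemma reverse_flatMap' {ι σ : Type} (f : ι → List σ) (W : List ι) :
    (W.flatMap f).reverse = W.reverse.flatMap (fun a => (f a).reverse) := by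
  rw [List.reverse_flatMap]; rfl

/-- One-sided descriptions with values in a finite set are short. -/
lemma one_side {κ G : Type} [Group G] {α : κ → G} {F Φ : Set G} {R H n : ℕ} {U : List κ}
    {q : ℕ → G} {x : ℕ → ℕ} {A : G}
    (hfat : ∀ ω : List κ, ω <:+: U → ω.length ≤ R + H → ev α ω ∈ F * Φ * F⁻¹ → ω.length ≤ R)
    (hx0 : x 0 = 0) (hxn : x n = U.length)
    (hstep : ∀ j < n, x j ≤ x (j + 1) ∧ x (j + 1) ≤ x j + H)
    (hq : ∀ j ≤ n, ∃ f ∈ F, q j = A * ev α (U.take (x j)) * f) (hq0 : q 0 = 1)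
    (hΦ : ∀ j ≤ n, q j ∈ Φ) : U.length ≤ R := by
  by_contra hcon
  push Not at hcon
  obtain ⟨j, hj, h1, h2⟩ := exists_cross hx0 (fun j hj => (hstep j hj).2) (by rw [hxn]; exact hcon)
  have hxj : x j ≤ U.length := by
    rw [← hxn]
    exact mono_le_of_step (fun r hr => (hstep r hr).1) hj
  have hl : (U.take (x j)).length = x j := by rw [List.length_take, min_eq_left hxj]
  obtain ⟨f0, hf0, h3⟩ := hq 0 (Nat.zero_le _)
  obtain ⟨f, hf, h4⟩ := hq j hj
  rw [hq0, hx0, List.take_zero, ev_nil, mul_one] at h3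
  have h5 : A = f0⁻¹ := eq_inv_of_mul_eq_one_left h3.symm
  have h6 : ev α (U.take (x j)) = f0 * q j * f⁻¹ := by
    rw [h4, h5]; group
  have h7 := hfat (U.take (x j)) (List.take_prefix _ _).isInfix (by omega) (by
    rw [h6]
    exact Set.mul_mem_mul (Set.mul_mem_mul hf0 (hΦ j hj)) (Set.inv_mem_inv.mpr hf))
  omega

variable {T N : Type} [Finite T] [Finite N] {g : BG T N} {S : N} {k : ℕ}

theorem chain_bound (c : Cpt (g.M S) k) {ι : Type} [Finite ι] (w : ι → List T)
    (hw : ∀ a, w a ≠ []) {G' : Type} [Group G'] (hG' : ∀ g : G', g ^ (k + 1) = 1) (Λ : ι → G')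
    (hΛ : InfImg Λ) (H : ℕ) :
    ∃ (m : ℕ) (φ : Fin m → List ι), (∀ a, φ a ≠ []) ∧ InfImg (fun a => ev Λ (φ a)) ∧
      ∃ B : ℕ, ∀ (A P : N) (a b : List T), Ch g c.D H A a b P →
        ∀ (W W' : List (Fin m)) (p s p' s' : List T),
        W.flatMap (cmp w φ) = p ++ a ++ s → W'.flatMap (cmp w φ) = p' ++ b ++ s' →
        a.length + b.length ≤ B ∨
          Ins (cmp w φ) W p a s (fun x => TT (g.M S A) (g.M S P) x b) ∨
          Ins (cmp w φ) W' p' b s' (fun x => TT (g.M S A) (g.M S P) a x) := by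
  classical
  set wr : ι → List T := fun a => (w a).reverse with hwr
  obtain ⟨n1, φ1, E, hφ1, hE1, hE2, hΛ1⟩ := passing (Nat.succ_pos k) hG' Λ hΛ
    (fun a => (c.trL.PM H w a, MulOpposite.op (c.trR.PM H wr a)))
  have hne : Nonempty (Fin n1) := nonempty_of_infImg hΛ1
  obtain ⟨l, hl⟩ := exists_nat_bound (fun b : Fin n1 => (cmp w φ1 b).length)
  set φr : Fin n1 → List ι := fun b => (φ1 b).reverse with hφr
  have hcmpr : ∀ b, cmp wr φr b = (cmp w φ1 b).reverse := by
    intro b
    simp only [cmp, hφr, hwr]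
    rw [reverse_flatMap']
  have hlr : ∀ b, (cmp wr φr b).length ≤ l := by
    intro b
    rw [hcmpr, List.length_reverse]
    exact hl b
  have hpL : c.trL.Passed H w φ1 E.1 := by
    refine ⟨hw, hφ1, congrArg Prod.fst hE1, fun b => ?_⟩
    have := hE2 b
    rw [ev_prod'] at this
    exact congrArg Prod.fst this
  have hpR : c.trR.Passed H wr φr E.2.unop := by
    refine ⟨fun a => by simpa [hwr] using hw a, fun b => by simpa [hφr] using hφ1 b, ?_,
      fun b => ?_⟩
    · have := congrArg Prod.snd hE1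
      have h2 : E.2 * E.2 = E.2 := this
      rw [← MulOpposite.unop_mul, h2]
    · have := hE2 b
      rw [ev_prod'] at this
      have h2 := congrArg Prod.snd this
      have h3 : ev (fun a => MulOpposite.op (c.trR.PM H wr a)) (φ1 b) = E.2 := h2
      rw [ev_op'] at h3
      rw [← h3]
      rfl
  obtain ⟨FL, hFL, hlockL⟩ := lock_zone hpL hl
  obtain ⟨FR, hFR, hlockR⟩ := lock_zone hpR hlr
  set F : Set c.Q := FL ∪ FR with hF
  have hFfin : F.Finite := hFL.union hFR
  set Φ0 : Set c.Q := c.trL.Outs H (3 * l) ∪ c.trR.Outs H (3 * l) with hΦ0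
  have hΦ0fin : Φ0.Finite := (c.trL.outs_finite H _).union (c.trR.outs_finite H _)
  have hF'fin : (F * Φ0 * F⁻¹).Finite := (hFfin.mul hΦ0fin).mul hFfin.inv
  set lamL : {t : St T c.Lab H // erel E.1 t t} → Fin n1 → c.Q :=
    fun t => c.trL.lam (cmp w φ1) t.1 with hlamL
  set lamR : {t : St T c.Lab H // erel E.2.unop t t} → Fin n1 → c.Q :=
    fun t b => (c.trR.lam (cmp wr φr) t.1 b)⁻¹ with hlamR
  set F'' : Set c.Q := F * Φ0 * F⁻¹ ∪ (F * Φ0 * F⁻¹)⁻¹ with hF''
  have hF''fin : F''.Finite := hF'fin.union hF'fin.inv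
  obtain ⟨n2, φ2, hφ2, hΛ2, hst, hds⟩ := stat_desync
    (J₁ := {t : St T c.Lab H // erel E.1 t t} ⊕ {t : St T c.Lab H // erel E.2.unop t t})
    (J₂ := {t : St T c.Lab H // erel E.1 t t} × {t : St T c.Lab H // erel E.2.unop t t})
    (Nat.succ_pos k) (G := c.Q) (fun q => LQ.pow_eq_one q) hG' _ hΛ1
    (Sum.elim lamL lamR) hF''fin (fun R => R + H) (fun j => lamL j.1) (fun j => lamR j.2)
    hFfin H
  -- the constants
  have hst' : ∀ j, ∃ R : ℕ, (∀ a, ev (Sum.elim lamL lamR j) (φ2 a) = 1) ∨
        ∀ (W : List (Fin n2)) (ω : List (Fin n1)), ω <:+: W.flatMap φ2 →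
          ω.length ≤ R + H → ev (Sum.elim lamL lamR j) ω ∈ F'' → ω.length ≤ R := by
    intro j
    rcases hst j with h | ⟨R, h⟩
    · exact ⟨0, Or.inl h⟩
    · exact ⟨R, Or.inr h⟩
  choose Rt hRt using hst'
  obtain ⟨R0, hR0⟩ := exists_nat_bound Rt
  have hds' : ∀ j : {t : St T c.Lab H // erel E.1 t t} × {t : St T c.Lab H // erel E.2.unop t t},
      ∃ B : ℕ, (∀ a, ev (lamL j.1) (φ2 a) = 1) ∨ (∀ a, ev (lamR j.2) (φ2 a) = 1) ∨
        DBound (lamL j.1) (lamR j.2) F H n2 φ2 B := by
    intro j
    rcases hds j with h | h | ⟨B, h⟩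
    · exact ⟨0, Or.inl h⟩
    · exact ⟨0, Or.inr (Or.inl h)⟩
    · exact ⟨B, Or.inr (Or.inr h)⟩
  choose Bd hBd using hds'
  obtain ⟨B0, hB0⟩ := exists_nat_bound Bd
  refine ⟨n2, fun b => (φ2 b).flatMap φ1, fun a => flatMap_ne_nil hφ1 (hφ2 a), ?_,
    (R0 + 2) * l + (B0 + 4) * l + 6 * l, ?_⟩
  · simpa only [ev_flatMap] using hΛ2
  intro A P a b hch W W' p s p' s' hW hW'
  rw [← cmp_cmp] at hW hW' ⊢
  rw [flatMap_cmp] at hW hW'
  obtain ⟨n, lab, u, v, q, hL, hR, hlab0, hlabn, hun, hvn, hqn⟩ := hch.path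
  have e1 : (R0 + 2) * l = R0 * l + 2 * l := by ring
  have e2 : (B0 + 4) * l = B0 * l + 4 * l := by ring
  -- the left side
  have hleft : a.length ≤ 3 * l ∨
      Ins (cmp (cmp w φ1) φ2) W p a s (fun x => TT (g.M S A) (g.M S P) x b) ∨
      ∃ (t : {t : St T c.Lab H // erel E.1 t t}) (U : List (Fin n1)) (A' : c.Q) (x : ℕ → ℕ),
        ¬ (∀ a, ev (lamL t) (φ2 a) = 1) ∧ U <:+: W.flatMap φ2 ∧ a.length ≤ (U.length + 2) * l ∧
        x 0 = 0 ∧ x n = U.length ∧ (∀ j < n, x j ≤ x (j + 1) ∧ x (j + 1) ≤ x j + H) ∧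
        ∀ j ≤ n, ∃ f ∈ F, q j = A' * ev (lamL t) (U.take (x j)) * f := by
    by_cases hal : a.length ≤ 3 * l
    · exact Or.inl hal
    right
    rcases zone_split (cmp w φ1) l hl (W.flatMap φ2) p a s hW with h1 |
      ⟨V₁, U, V₂, η, θ, hV, hm, hη, hθ, hηl, hθl⟩
    · omega
    obtain ⟨t, ⟨A', x, hx0, hxn, hxs, hxq⟩, a0, V, rfl, hins⟩ := hlockL n lab u q hL η θ U
      (by rw [hun, hm]) hηl hθl (by rw [hun]; omega)
    by_cases htriv : ∀ a, ev (lamL t) (φ2 a) = 1
    · left
      have hmw : a = (η ++ cmp w φ1 a0) ++ (V.flatMap (cmp w φ1) ++ θ) := by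
        rw [hm]; simp
      rw [hmw]
      refine ins_of_trivial (lam := lamL t) htriv (X₁ := V₁ ++ [a0])
        (X₂ := V ++ V₂) ?_ ?_ ?_ ?_ ?_
      · rintro rfl
        simp at hV
      · rw [hV]; simp
      · rw [List.flatMap_append, ← hη]; simp
      · rw [List.flatMap_append, ← hθ]; simp
      · intro Z hZ
        have h2 := hins Z hZ
        rw [hlab0, hlabn, hqn] at h2
        have h3 := c.tt_of_trL _ h2
        simpa [List.append_assoc] using h3
    · right
      have hUl : ((a0 :: V).flatMap (cmp w φ1)).length ≤ (a0 :: V).length * l :=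
        flatMap_length_le _ l hl _
      have hml : a.length = η.length + ((a0 :: V).flatMap (cmp w φ1)).length + θ.length := by
        rw [hm]; simp only [List.length_append]
      refine ⟨t, a0 :: V, A', x, htriv, ⟨V₁, V₂, hV.symm⟩, ?_, hx0, hxn, hxs, ?_⟩
      · rw [Nat.add_mul]; omega
      · intro j hj
        obtain ⟨f, hf, h⟩ := hxq j hj
        exact ⟨f, Or.inl hf, h⟩
  -- the right side
  have hright : b.length ≤ 3 * l ∨
      Ins (cmp (cmp w φ1) φ2) W' p' b s' (fun x => TT (g.M S A) (g.M S P) a x) ∨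
      ∃ (t : {t : St T c.Lab H // erel E.2.unop t t}) (U : List (Fin n1)) (A' : c.Q) (x : ℕ → ℕ),
        ¬ (∀ a, ev (lamR t) (φ2 a) = 1) ∧ U <:+: W'.flatMap φ2 ∧ b.length ≤ (U.length + 2) * l ∧
        x 0 = 0 ∧ x n = U.length ∧ (∀ j < n, x j ≤ x (j + 1) ∧ x (j + 1) ≤ x j + H) ∧
        ∀ j ≤ n, ∃ f ∈ F, q j = A' * ev (fun b => (lamR t b)⁻¹) (U.reverse.take (x j)) * f := by
    by_cases hbl : b.length ≤ 3 * l
    · exact Or.inl hbl
    right
    rcases zone_split (cmp w φ1) l hl (W'.flatMap φ2) p' b s' hW' with h1 |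
      ⟨V₁, U, V₂, η, θ, hV, hm, hη, hθ, hηl, hθl⟩
    · omega
    have hrev : b.reverse = θ.reverse ++ U.reverse.flatMap (cmp wr φr) ++ η.reverse := by
      rw [hm, List.reverse_append, List.reverse_append, reverse_flatMap']
      have : cmp wr φr = fun a => (cmp w φ1 a).reverse := funext hcmpr
      rw [this, List.append_assoc]
    obtain ⟨t, ⟨A', x, hx0, hxn, hxs, hxq⟩, a0, V, hUV, hins⟩ := hlockR n lab v q hR θ.reverse
      η.reverse U.reverse (by rw [hvn, hrev]) (by simpa using hθl) (by simpa using hηl)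
      (by rw [hvn, List.length_reverse]; omega)
    have hU : U = V.reverse ++ [a0] := by
      rw [← List.reverse_reverse U, hUV]; simp
    have hinv : (fun b => (lamR t b)⁻¹) = c.trR.lam (cmp wr φr) t.1 := by
      funext b
      simp only [hlamR, inv_inv]
    by_cases htriv : ∀ a, ev (lamR t) (φ2 a) = 1
    · left
      have hmw : b = (η ++ V.reverse.flatMap (cmp w φ1)) ++ (cmp w φ1 a0 ++ θ) := by
        rw [hm, hU]; simp
      rw [hmw]
      refine ins_of_trivial (lam := lamR t) htriv (X₁ := V₁ ++ V.reverse)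
        (X₂ := [a0] ++ V₂) ?_ ?_ ?_ ?_ ?_
      · rintro rfl
        rw [hU] at hV
        simp at hV
      · rw [hV, hU]; simp
      · rw [List.flatMap_append, ← hη]; simp
      · rw [List.flatMap_append, ← hθ]; simp
      · intro Z hZ
        have hZ' : ev (c.trR.lam (cmp wr φr) t.1) Z.reverse = 1 := by
          rw [← hinv, ← ev_inv_reverse, hZ, inv_one]
        have h2 := hins Z.reverse hZ'
        rw [hlab0, hlabn, hqn] at h2
        have h4 : θ.reverse ++ cmp wr φr a0 ++ Z.reverse.flatMap (cmp wr φr) ++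
            V.flatMap (cmp wr φr) ++ η.reverse =
            (η ++ V.reverse.flatMap (cmp w φ1) ++ Z.flatMap (cmp w φ1) ++
              (cmp w φ1 a0 ++ θ)).reverse := by
          have h5 : cmp wr φr = fun a => (cmp w φ1 a).reverse := funext hcmpr
          simp only [List.reverse_append, reverse_flatMap', List.reverse_reverse, h5,
            List.append_assoc]
        rw [h4] at h2
        have h3 := c.tt_of_trR _ h2
        exact h3
    · right
      have hUl : (U.flatMap (cmp w φ1)).length ≤ U.length * l :=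
        flatMap_length_le _ l hl _
      have hml : b.length = η.length + (U.flatMap (cmp w φ1)).length + θ.length := by
        rw [hm]; simp only [List.length_append]
      refine ⟨t, U, A', x, htriv, ⟨V₁, V₂, hV.symm⟩, ?_, hx0, ?_, hxs, ?_⟩
      · rw [Nat.add_mul]; omega
      · rw [hxn, List.length_reverse]
      · intro j hj
        obtain ⟨f, hf, h⟩ := hxq j hj
        refine ⟨f, Or.inr hf, ?_⟩
        rw [hinv]
        exact h
  -- combining
  rcases hleft with hal | hins | ⟨t, U, A1, x, ht, hU, hUl, hx0, hxn, hxs, hxq⟩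
  · rcases hright with hbl | hins' | ⟨t', V, A2, y, ht', hV, hVl, hy0, hyn, hys, hyq⟩
    · left; omega
    · exact Or.inr (Or.inr hins')
    · -- left short, right long
      left
      have hVR : V.length ≤ Rt (Sum.inr t') := by
        have h1 : V.reverse.length ≤ Rt (Sum.inr t') := by
          refine one_side (α := fun b => (lamR t' b)⁻¹) (Φ := Φ0) (F := F) (H := H) (n := n)
            (q := q) (x := y) (A := A2) ?_ hy0 (by rw [hyn, List.length_reverse]) hys hyq hL.q0 ?_
          · intro ω hω hωl hωe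
            rcases hRt (Sum.inr t') with h2 | h2
            · exact absurd h2 ht'
            · have h3 := h2 W' ω.reverse ?_ (by rw [List.length_reverse]; exact hωl) ?_
              · rwa [List.length_reverse] at h3
              · have : ω.reverse <:+: V := by
                  have := List.reverse_infix.mpr hω
                  rwa [List.reverse_reverse] at this
                exact this.trans hV
              · have h4 : ev (Sum.elim lamL lamR (Sum.inr t')) ω.reverse =
                    (ev (fun b => (lamR t' b)⁻¹) ω)⁻¹ := by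
                  rw [ev_inv_reverse]
                  simp only [inv_inv, Sum.elim_inr]
                rw [h4]
                exact Or.inr (Set.inv_mem_inv.mpr hωe)
          · intro j hj
            refine Or.inl (tr_mem_outs ?_ (hL.tr0 hj))
            have := hL.len_mono hj le_rfl
            rw [hun] at this
            omega
        rwa [List.length_reverse] at h1
      have h2 := hR0 (Sum.inr t')
      have h3 : (V.length + 2) * l ≤ (R0 + 2) * l := Nat.mul_le_mul_right l (by omega)
      omega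
  · exact Or.inr (Or.inl hins)
  · rcases hright with hbl | hins' | ⟨t', V, A2, y, ht', hV, hVl, hy0, hyn, hys, hyq⟩
    · -- left long, right short
      left
      have hUR : U.length ≤ Rt (Sum.inl t) := by
        refine one_side (α := lamL t) (Φ := Φ0) (F := F) (H := H) (n := n)
          (q := q) (x := x) (A := A1) ?_ hx0 hxn hxs hxq hL.q0 ?_
        · intro ω hω hωl hωe
          rcases hRt (Sum.inl t) with h2 | h2
          · exact absurd h2 ht
          · exact h2 W ω (hω.trans hU) hωl (Or.inl hωe)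
        · intro j hj
          refine Or.inr (tr_mem_outs ?_ (hR.tr0 hj))
          have := hR.len_mono hj le_rfl
          rw [hvn, List.length_reverse] at this
          omega
      have h2 := hR0 (Sum.inl t)
      have h3 : (U.length + 2) * l ≤ (R0 + 2) * l := Nat.mul_le_mul_right l (by omega)
      omega
    · exact Or.inr (Or.inr hins')
    · -- both long
      left
      rcases hBd (t, t') with h1 | h1 | h1
      · exact absurd h1 ht
      · exact absurd h1 ht'
      · have h2 := h1 W W' U V hU hV n q x y A1 A2 hx0 hy0 hxn hyn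
          (fun j hj => ⟨(hxs j hj).1, (hxs j hj).2, (hys j hj).1, (hys j hj).2⟩) hxq
          (fun j hj => by
            obtain ⟨f, hf, h⟩ := hyq j hj
            refine ⟨f, hf, ?_⟩
            have hyj : y j ≤ V.length := by
              rw [← hyn]
              exact mono_le_of_step (fun r hr => (hys r hr).1) hj
            rw [h, ev_inv_reverse, reverse_take_drop _ _ hyj])
        have h3 := hB0 (t, t')
        have h4 : (U.length + V.length) * l ≤ B0 * l := Nat.mul_le_mul_right l (by omega)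
        rw [Nat.add_mul] at h4
        rw [Nat.add_mul] at hUl hVl
        omega

end Pool.Agent.MP5ca50a
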