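import Pool.Agent.Lib.MP_5ca50a_lc.Alph

/-!
The `status` lemma from `passing` and `fat` (taken as hypotheses here).
-/

set_option autoImplicit false

namespace Pool.Agent.MP5ca50a

/-- the statement of the `passing` lemma -/
def PassingStmt : Prop :=
  ∀ {ι : Type} [Finite ι] {G : Type} [Group G] {k : ℕ} (_ : 0 < k)
    (_ : ∀ g : G, g ^ k = 1) (Λ : ι → G) (_ : InfImg Λ)
    {Mo : Type} [Monoid Mo] [Finite Mo] (μ : ι → Mo),
    ∃ (n : ℕ) (φ : Fin n → List ι) (e : Mo), (∀ a, φ a ≠ []) ∧ e * e = e ∧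
      (∀ a, ev μ (φ a) = e) ∧ InfImg (fun a => ev Λ (φ a))

/-- the statement of the `fat` lemma -/
def FatStmt : Prop :=
  ∀ {ι : Type} [Finite ι] {G G' : Type} [Group G] [Group G'] {k : ℕ} (_ : 0 < k)
    (_ : ∀ g : G, g ^ k = 1) (_ : ∀ g : G', g ^ k = 1)
    (Λ : ι → G') (_ : InfImg Λ) (α : ι → G) (_ : InfImg α) {F : Set G} (_ : F.Finite),
    ∃ R : ℕ, ∀ n : ℕ, ∃ (m : ℕ) (φ : Fin m → List ι), (∀ a, φ a ≠ []) ∧
      InfImg (fun a => ev Λ (φ a)) ∧
      ∀ (W : List (Fin m)) (ω : List ι), ω <:+: W.flatMap φ → ω.length ≤ n → ev α ω ∈ F →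
        ω.length ≤ R

/-- A prefix of an append. -/
lemma prefix_append_cases {ι : Type*} {ω A B : List ι} (h : ω <+: A ++ B) :
    ω <+: A ∨ ∃ ω₁, ω = A ++ ω₁ ∧ ω₁ <+: B := by
  obtain ⟨t, ht⟩ := h
  rcases List.append_eq_append_iff.1 ht with ⟨a', ha, hb⟩ | ⟨c', hc, hd⟩
  · left; exact ⟨a', ha.symm⟩
  · right; exact ⟨c', hc, ⟨t, hd.symm⟩⟩

/-- A prefix of a substituted word. -/
lemma prefix_flatMap {ι κ : Type*} (ψ : κ → List ι) (V : List κ) (ω : List ι)
    (h : ω <+: V.flatMap ψ) :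
    ∃ (ω' : List κ) (θ : List ι), ω' <+: V ∧ (θ = [] ∨ ∃ b, θ <:+: ψ b) ∧
      ω = ω'.flatMap ψ ++ θ := by
  induction V generalizing ω with
  | nil =>
    simp only [List.flatMap_nil, List.prefix_nil] at h
    exact ⟨[], [], List.prefix_rfl, Or.inl rfl, by simp [h]⟩
  | cons a V ih =>
    rw [List.flatMap_cons] at h
    rcases prefix_append_cases h with h1 | ⟨ω₁, rfl, h1⟩
    · exact ⟨[], ω, List.nil_prefix, Or.inr ⟨a, h1.isInfix⟩, by simp⟩
    · obtain ⟨ω', θ, h2, h3, rfl⟩ := ih ω₁ h1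
      refine ⟨a :: ω', θ, ?_, h3, by simp⟩
      exact (List.prefix_cons_inj a).2 h2

/-- A factor of a substituted word. -/
lemma factor_flatMap {ι κ : Type*} (ψ : κ → List ι) (V : List κ) (ω : List ι)
    (h : ω <:+: V.flatMap ψ) :
    (∃ b, ω <:+: ψ b) ∨ ∃ (η θ : List ι) (ω' : List κ),
      (η = [] ∨ ∃ b, η <:+: ψ b) ∧ (θ = [] ∨ ∃ b, θ <:+: ψ b) ∧ ω' <:+: V ∧
      ω = η ++ (ω'.flatMap ψ ++ θ) := by
  induction V generalizing ω with
  | nil =>
    simp only [List.flatMap_nil, List.infix_nil] at h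
    exact Or.inr ⟨[], [], [], Or.inl rfl, Or.inl rfl, List.infix_rfl, by simp [h]⟩
  | cons a V ih =>
    obtain ⟨s, t, hst⟩ := h
    rw [List.flatMap_cons, List.append_assoc] at hst
    rcases List.append_eq_append_iff.1 hst with ⟨a', ha, hb⟩ | ⟨c', hc, hd⟩
    · -- ψ a = s ++ a', ω ++ t = a' ++ rest
      have h1 : ω <+: a' ++ V.flatMap ψ := ⟨t, hb⟩
      rcases prefix_append_cases h1 with h2 | ⟨ω₁, rfl, h2⟩
      · left
        refine ⟨a, ?_⟩
        rw [ha]
        exact h2.isInfix.trans (List.suffix_append s a').isInfix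
      · right
        obtain ⟨ω', θ, h3, h4, rfl⟩ := prefix_flatMap ψ V ω₁ h2
        refine ⟨a', θ, ω', Or.inr ⟨a, ?_⟩, h4, ?_, rfl⟩
        · rw [ha]; exact (List.suffix_append s a').isInfix
        · exact h3.isInfix.trans (List.suffix_cons a V).isInfix
    · -- s = ψ a ++ c', rest = c' ++ (ω ++ t)
      have h1 : ω <:+: V.flatMap ψ := ⟨c', t, by rw [hd, List.append_assoc]⟩
      rcases ih ω h1 with h2 | ⟨η, θ, ω', h2, h3, h4, h5⟩
      · exact Or.inl h2
      · exact Or.inr ⟨η, θ, ω', h2, h3, h4.trans (List.suffix_cons a V).isInfix, h5⟩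

lemma length_le_flatMap {ι κ : Type*} (ψ : κ → List ι) (hψ : ∀ b, ψ b ≠ []) (V : List κ) :
    V.length ≤ (V.flatMap ψ).length := by
  induction V with
  | nil => simp
  | cons a V ih =>
    have : 0 < (ψ a).length := List.length_pos_iff.2 (hψ a)
    simp only [List.length_cons, List.flatMap_cons, List.length_append]
    omega

lemma flatMap_length_le {ι κ : Type*} (ψ : κ → List ι) (l : ℕ) (hl : ∀ b, (ψ b).length ≤ l)
    (V : List κ) : (V.flatMap ψ).length ≤ V.length * l := by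
  induction V with
  | nil => simp
  | cons a V ih =>
    have := hl a
    simp only [List.length_cons, List.flatMap_cons, List.length_append]
    rw [Nat.succ_mul]
    omega

lemma flatMap_ne_nil {ι κ : Type*} {ψ : κ → List ι} (hψ : ∀ b, ψ b ≠ []) {V : List κ}
    (hV : V ≠ []) : V.flatMap ψ ≠ [] := by
  intro h
  have h1 := length_le_flatMap ψ hψ V
  rw [h] at h1
  apply hV
  exact List.length_eq_zero_iff.1 (Nat.le_zero.1 h1)

lemma flatMap_flatMap' {ι κ σ : Type*} (ψ : κ → List ι) (χ : σ → List κ) (W : List σ) :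
    W.flatMap (fun a => (χ a).flatMap ψ) = (W.flatMap χ).flatMap ψ := by
  rw [List.flatMap_assoc]

/-- One coordinate: trivial or fat. -/
def Stat {ι : Type} {G : Type} [Group G] {m : ℕ} (φ : Fin m → List ι) (α : ι → G) (F : Set G)
    (g : ℕ → ℕ) : Prop :=
  (∀ a, ev α (φ a) = 1) ∨
    ∃ R : ℕ, ∀ (W : List (Fin m)) (ω : List ι), ω <:+: W.flatMap φ → ω.length ≤ g R →
      ev α ω ∈ F → ω.length ≤ R

lemma Stat.refine {ι : Type} {G : Type} [Group G] {m m' : ℕ} {ψ : Fin m' → List ι} {α : ι → G}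
    {F : Set G} {g : ℕ → ℕ} (h : Stat ψ α F g) (χ : Fin m → List (Fin m')) :
    Stat (fun a => (χ a).flatMap ψ) α F g := by
  rcases h with h | ⟨R, h⟩
  · left
    intro a
    rw [ev_flatMap]
    have h1 : (fun b => ev α (ψ b)) = fun _ => (1 : G) := funext h
    rw [h1]
    simp [ev]
  · right
    refine ⟨R, fun W ω hω h1 h2 => ?_⟩
    rw [flatMap_flatMap'] at hω
    exact h (W.flatMap χ) ω hω h1 h2

/-- Passing with a finite image makes the letter map trivial. -/
lemma trivial_of_not_infImg (hp : PassingStmt) {ι : Type} [Finite ι] {G G' : Type} [Group G]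
    [Group G'] {k : ℕ} (hk : 0 < k) (hG' : ∀ g : G', g ^ k = 1)
    (Λ : ι → G') (hΛ : InfImg Λ) (α : ι → G) (hα : ¬ InfImg α) :
    ∃ (m : ℕ) (φ : Fin m → List ι), (∀ a, φ a ≠ []) ∧ InfImg (fun a => ev Λ (φ a)) ∧
      ∀ a, ev α (φ a) = 1 := by
  classical
  let Mo : Submonoid G :=
    { carrier := Set.range (ev α)
      mul_mem' := by
        rintro _ _ ⟨V, rfl⟩ ⟨W, rfl⟩
        exact ⟨V ++ W, by simp⟩
      one_mem' := ⟨[], by simp⟩ }
  have hfin : Finite Mo := Set.not_infinite.1 hα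
  let μ : ι → Mo := fun a => ⟨α a, ⟨[a], by simp⟩⟩
  obtain ⟨m, φ, e, h1, h2, h3, h4⟩ := hp hk hG' Λ hΛ (Mo := Mo) μ
  refine ⟨m, φ, h1, h4, fun a => ?_⟩
  have h5 : ∀ W : List ι, ((ev μ W : Mo) : G) = ev α W := by
    intro W
    induction W with
    | nil => simp
    | cons a W ih => rw [ev_cons, ev_cons, Submonoid.coe_mul, ih]
  rw [← h5, h3 a]
  have h6 : (e : G) * e = e := by
    rw [← Submonoid.coe_mul, h2]
  simpa using h6

/-- The step. -/
lemma status_step (hp : PassingStmt) (hf : FatStmt) {ι : Type} [Finite ι] {G G' : Type} [Group G]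
    [Group G'] {k : ℕ} (hk : 0 < k) (hG : ∀ g : G, g ^ k = 1) (hG' : ∀ g : G', g ^ k = 1)
    (Λ : ι → G') (m' : ℕ) (ψ : Fin m' → List ι) (hψ : ∀ b, ψ b ≠ [])
    (hΛ : InfImg (fun b => ev Λ (ψ b))) (α : ι → G) {F : Set G} (hF : F.Finite) (g : ℕ → ℕ) :
    ∃ (m : ℕ) (χ : Fin m → List (Fin m')), (∀ a, χ a ≠ []) ∧
      InfImg (fun a => ev Λ ((χ a).flatMap ψ)) ∧ Stat (fun a => (χ a).flatMap ψ) α F g := by
  classical
  by_cases hα : InfImg (fun b => ev α (ψ b))
  · obtain ⟨l, hl⟩ : ∃ l : ℕ, ∀ b, (ψ b).length ≤ l :=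
      ⟨Finset.univ.sup fun b => (ψ b).length, fun b => Finset.le_sup (f := fun b => (ψ b).length)
        (Finset.mem_univ b)⟩
    let E : Set (List ι) := {η | η.length ≤ l}
    have hE : E.Finite := List.finite_length_le ι l
    let F' : Set G := (fun p : List ι × G × List ι => (ev α p.1)⁻¹ * p.2.1 * (ev α p.2.2)⁻¹) ''
      (E ×ˢ F ×ˢ E)
    have hF' : F'.Finite := (hE.prod (hF.prod hE)).image _
    obtain ⟨R', hR'⟩ := hf hk hG hG' (fun b => ev Λ (ψ b)) hΛ (fun b => ev α (ψ b)) hα hF'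
    obtain ⟨m, χ, h1, h2, h3⟩ := hR' (g ((R' + 2) * l))
    refine ⟨m, χ, h1, ?_, Or.inr ⟨(R' + 2) * l, fun W ω hω hn hωF => ?_⟩⟩
    · simpa only [ev_flatMap] using h2
    · rw [flatMap_flatMap'] at hω
      rcases factor_flatMap ψ _ ω hω with ⟨b, hb⟩ | ⟨η, θ, ω', hη, hθ, hω', rfl⟩
      · have := hb.length_le
        have := hl b
        nlinarith
      · have hηl : η.length ≤ l := by
          rcases hη with rfl | ⟨b, hb⟩
          · simp
          · exact hb.length_le.trans (hl b)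
        have hθl : θ.length ≤ l := by
          rcases hθ with rfl | ⟨b, hb⟩
          · simp
          · exact hb.length_le.trans (hl b)
        have h4 : ω'.length ≤ R' := by
          refine h3 W ω' hω' ?_ ?_
          · have := length_le_flatMap ψ hψ ω'
            simp only [List.length_append] at hn
            omega
          · refine ⟨(η, ev α (η ++ (ω'.flatMap ψ ++ θ)), θ), ⟨hηl, hωF, hθl⟩, ?_⟩
            simp only [ev_append, ev_flatMap]
            group
        have h5 := flatMap_length_le ψ l hl ω'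
        have h6 : ω'.length * l ≤ R' * l := Nat.mul_le_mul_right l h4
        simp only [List.length_append]
        rw [Nat.add_mul]
        omega
  · obtain ⟨m, χ, h1, h2, h3⟩ := trivial_of_not_infImg hp hk hG' _ hΛ _ hα
    refine ⟨m, χ, h1, ?_, Or.inl fun a => ?_⟩
    · simpa only [ev_flatMap] using h2
    · rw [ev_flatMap]; exact h3 a

/-- STATUS, from `passing` and `fat`. -/
theorem status_of (hp : PassingStmt) (hf : FatStmt) {ι : Type} [Finite ι] {G G' : Type} [Group G]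
    [Group G'] {k : ℕ} (hk : 0 < k)
    (hG : ∀ g : G, g ^ k = 1) (hG' : ∀ g : G', g ^ k = 1)
    (Λ : ι → G') (hΛ : InfImg Λ) {J : Type} [Finite J] (lam : J → ι → G)
    {F : Set G} (hF : F.Finite) (g : ℕ → ℕ) :
    ∃ (m : ℕ) (φ : Fin m → List ι), (∀ a, φ a ≠ []) ∧ InfImg (fun a => ev Λ (φ a)) ∧
      ∀ j, (∀ a, ev (lam j) (φ a) = 1) ∨
        ∃ R : ℕ, ∀ (W : List (Fin m)) (ω : List ι), ω <:+: W.flatMap φ → ω.length ≤ g R →
          ev (lam j) ω ∈ F → ω.length ≤ R := by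
  classical
  have := Fintype.ofFinite J
  have key : ∀ s : Finset J, ∃ (m : ℕ) (φ : Fin m → List ι), (∀ a, φ a ≠ []) ∧
      InfImg (fun a => ev Λ (φ a)) ∧ ∀ j ∈ s, Stat φ (lam j) F g := by
    intro s
    induction s using Finset.induction_on with
    | empty =>
      obtain ⟨m, ⟨e⟩⟩ := Finite.exists_equiv_fin ι
      refine ⟨m, fun a => [e.symm a], fun a => by simp, ?_, fun j hj => by simp at hj⟩
      refine Set.Infinite.mono ?_ hΛ
      rintro _ ⟨W, rfl⟩
      refine ⟨W.map e, ?_⟩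
      simp [ev, Function.comp_def]
    | insert j s hj ih =>
      obtain ⟨m', ψ, h1, h2, h3⟩ := ih
      obtain ⟨m, χ, h4, h5, h6⟩ := status_step hp hf hk hG hG' Λ m' ψ h1 h2 (lam j) hF g
      refine ⟨m, fun a => (χ a).flatMap ψ, fun a => flatMap_ne_nil h1 (h4 a), h5, ?_⟩
      intro i hi
      rcases Finset.mem_insert.1 hi with rfl | hi
      · exact h6
      · exact (h3 i hi).refine χ
  obtain ⟨m, φ, h1, h2, h3⟩ := key Finset.univ
  exact ⟨m, φ, h1, h2, fun j => h3 j (Finset.mem_univ j)⟩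

end Pool.Agent.MP5ca50a
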