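import Pool.Agent.Lib.MP_5ca50a_lc.Pth
import Pool.Agent.Lib.MP_5ca50a_lc.Zone
import Pool.Agent.Lib.MP_5ca50a_lc.StatusAux

/-!
Chains of derivation steps inside a component, and the two paths of a chain.
-/

set_option autoImplicit false

namespace Pool.Agent.MP5ca50a

open TrackSys

/-- Chains inside a class of labels with short siblings. -/
inductive Ch {T N : Type} (g : BG T N) (D : N → Prop) (H : ℕ) :
    N → List T → List T → N → Prop
  | nil {A : N} (hA : D A) : Ch g D H A [] [] A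
  | left {A B C P : N} {w a b : List T} (hA : D A) (hb : g.b A B C) (hw : g.Der C w)
      (hl : w.length ≤ H) (h : Ch g D H B a b P) : Ch g D H A a (b ++ w) P
  | right {A B C P : N} {w a b : List T} (hA : D A) (hb : g.b A C B) (hw : g.Der C w)
      (hl : w.length ≤ H) (h : Ch g D H B a b P) : Ch g D H A (w ++ a) b P

section

variable {T N : Type} {g : BG T N} {D : N → Prop} {H : ℕ}

lemma Ch.mem_left {A P : N} {a b : List T} (h : Ch g D H A a b P) : D A := by
  cases h <;> assumption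

lemma Ch.mem_right {A P : N} {a b : List T} (h : Ch g D H A a b P) : D P := by
  induction h with
  | nil hA => exact hA
  | left _ _ _ _ _ ih => exact ih
  | right _ _ _ _ _ ih => exact ih

lemma Ch.dc {A P : N} {a b : List T} (h : Ch g D H A a b P) : g.DC A a b P := by
  induction h with
  | nil hA => exact BG.DC.refl _
  | left _ hb hw _ _ ih => exact BG.DC.left hb hw ih
  | right _ hb hw _ _ ih => exact BG.DC.right hb hw ih

end

/-- Adding a first value to a function of time. -/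
def cns {X : Type} (x : X) (f : ℕ → X) : ℕ → X
  | 0 => x
  | j + 1 => f j

lemma TPath.cons {T Lab Q : Type} [Group Q] {S : TrackSys T Lab Q} {H n : ℕ}
    {lab : ℕ → Lab} {u : ℕ → List T} {q : ℕ → Q} (h : TPath S H n lab u q) {A : Lab}
    {w : List T} {γ : Q} (ht : S.Tr A w (lab 0) γ) (hw : w.length ≤ H) :
    TPath S H (n + 1) (cns A lab) (cns [] (fun j => w ++ u j)) (cns 1 (fun j => γ * q j)) := by
  refine ⟨rfl, rfl, ?_⟩
  intro j hj
  cases j with
  | zero =>
    refine ⟨w, ?_, hw, ?_⟩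
    · show w ++ u 0 = [] ++ w
      rw [h.u0]; simp
    · show S.Tr A w (lab 0) (1⁻¹ * (γ * q 0))
      rw [h.q0]; simpa using ht
  | succ j =>
    obtain ⟨w', h1, h2, h3⟩ := h.step j (by omega)
    refine ⟨w', ?_, h2, ?_⟩
    · show w ++ u (j + 1) = (w ++ u j) ++ w'
      rw [h1, List.append_assoc]
    · show S.Tr (lab j) w' (lab (j + 1)) ((γ * q j)⁻¹ * (γ * q (j + 1)))
      have : (γ * q j)⁻¹ * (γ * q (j + 1)) = (q j)⁻¹ * q (j + 1) := by group
      rw [this]; exact h3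

section

variable {T N : Type} {g : BG T N} {S : N} {k : ℕ} {c : Cpt (g.M S) k} {H : ℕ}

/-- The two paths of a chain. -/
lemma Ch.path {A P : N} {a b : List T} (h : Ch g c.D H A a b P) :
    ∃ (n : ℕ) (lab : ℕ → c.Lab) (u v : ℕ → List T) (q : ℕ → c.Q),
      TPath c.trL H n lab u q ∧ TPath c.trR H n lab v q ∧
      lab 0 = ⟨A, h.mem_left⟩ ∧ lab n = ⟨P, h.mem_right⟩ ∧ u n = a ∧ v n = b.reverse ∧
      q n = gam (c.fr ⟨A, h.mem_left⟩) (c.fr ⟨P, h.mem_right⟩) h.dc.tt := by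
  induction h with
  | @nil A hA =>
    refine ⟨0, fun _ => ⟨A, hA⟩, fun _ => [], fun _ => [], fun _ => 1, ⟨rfl, rfl, by simp⟩,
      ⟨rfl, rfl, by simp⟩, rfl, rfl, rfl, rfl, (gam_refl _).symm⟩
  | @left A B C P w a b hA hb hw hl h ih =>
    obtain ⟨n, lab, u, v, q, h1, h2, h3, h4, h5, h6, h7⟩ := ih
    have ht : TT (g.M S A) (g.M S B) [] w := (BG.DC.left1 hb hw).tt
    have hL : c.trL.Tr ⟨A, hA⟩ [] (lab 0) (gam (c.fr ⟨A, hA⟩) (c.fr ⟨B, h.mem_left⟩) ht) := by
      rw [h3]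
      exact ⟨w, ht, rfl⟩
    have hR : c.trR.Tr ⟨A, hA⟩ w.reverse (lab 0)
        (gam (c.fr ⟨A, hA⟩) (c.fr ⟨B, h.mem_left⟩) ht) := by
      rw [h3]
      exact ⟨[], by rw [List.reverse_reverse]; exact ht, gam_left _ _ _ _⟩
    refine ⟨n + 1, cns ⟨A, hA⟩ lab, cns [] (fun j => [] ++ u j),
      cns [] (fun j => w.reverse ++ v j), _, h1.cons hL (by simp),
      h2.cons hR (by simpa using hl), rfl, h4, ?_, ?_, ?_⟩
    · show [] ++ u n = a
      rw [h5]; rfl
    · show w.reverse ++ v n = (b ++ w).reverse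
      rw [h6]; simp
    · show _ * q n = _
      rw [h7, gam_comp]
  | @right A B C P w a b hA hb hw hl h ih =>
    obtain ⟨n, lab, u, v, q, h1, h2, h3, h4, h5, h6, h7⟩ := ih
    have ht : TT (g.M S A) (g.M S B) w [] := (BG.DC.right1 hb hw).tt
    have hL : c.trL.Tr ⟨A, hA⟩ w (lab 0) (gam (c.fr ⟨A, hA⟩) (c.fr ⟨B, h.mem_left⟩) ht) := by
      rw [h3]
      exact ⟨[], ht, rfl⟩
    have hR : c.trR.Tr ⟨A, hA⟩ [] (lab 0)
        (gam (c.fr ⟨A, hA⟩) (c.fr ⟨B, h.mem_left⟩) ht) := by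
      rw [h3]
      exact ⟨w, ht, rfl⟩
    refine ⟨n + 1, cns ⟨A, hA⟩ lab, cns [] (fun j => w ++ u j),
      cns [] (fun j => [] ++ v j), _, h1.cons hL hl,
      h2.cons hR (by simp), rfl, h4, ?_, ?_, ?_⟩
    · show w ++ u n = w ++ a
      rw [h5]
    · show [] ++ v n = b.reverse
      rw [h6]; rfl
    · show _ * q n = _
      rw [h7, gam_comp]
      exact gam_left _ _ _ _

end

section lock

variable {T Lab Q : Type} [Group Q] {S : TrackSys T Lab Q} {H : ℕ} {ι κ : Type}
  {w : ι → List T} {φ : κ → List ι} {E : Function.End (Set (St T Lab H))}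

/-- Locking, in a form ready for use. -/
theorem lock_zone [Finite T] [Finite Lab] [Nonempty κ] (hp : S.Passed H w φ E) {l : ℕ}
    (hl : ∀ b, (cmp w φ b).length ≤ l) :
    ∃ F : Set Q, F.Finite ∧ ∀ (n : ℕ) (lab : ℕ → Lab) (u : ℕ → List T) (q : ℕ → Q),
      TPath S H n lab u q → ∀ (η θ : List T) (U : List κ),
      u n = η ++ U.flatMap (cmp w φ) ++ θ → η.length ≤ l → θ.length ≤ l →
      3 * l < (u n).length →
      ∃ t : {t : St T Lab H // erel E t t},
        (∃ (A : Q) (x : ℕ → ℕ), x 0 = 0 ∧ x n = U.length ∧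
          (∀ j < n, x j ≤ x (j + 1) ∧ x (j + 1) ≤ x j + H) ∧
          ∀ j ≤ n, ∃ f ∈ F, q j = A * ev (S.lam (cmp w φ) t.1) (U.take (x j)) * f) ∧
        ∃ (a : κ) (V : List κ), U = a :: V ∧ ∀ Z : List κ, ev (S.lam (cmp w φ) t.1) Z = 1 →
          S.Tr (lab 0) (η ++ cmp w φ a ++ Z.flatMap (cmp w φ) ++
            V.flatMap (cmp w φ) ++ θ) (lab n) (q n) := by
  obtain ⟨F, hF, hlock⟩ := locked hp hl
  refine ⟨F, hF, ?_⟩
  intro n lab u q h η θ U hu hη hθ hlen
  have hUl : (U.flatMap (cmp w φ)).length ≤ U.length * l := flatMap_length_le _ l hl U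
  have hml : (u n).length = η.length + (U.flatMap (cmp w φ)).length + θ.length := by
    rw [hu]; simp only [List.length_append]
  obtain ⟨a, V, rfl, hVne⟩ : ∃ a V, U = a :: V ∧ V ≠ [] := by
    cases U with
    | nil =>
      simp only [List.flatMap_nil, List.length_nil] at hml
      omega
    | cons a V =>
      refine ⟨a, V, rfl, ?_⟩
      rintro rfl
      simp only [List.length_cons, List.length_nil, Nat.zero_add, Nat.one_mul] at hUl
      omega
  obtain ⟨t, ht, ⟨A, x, hx0, hxn, hxc, hxq⟩, hins⟩ := hlock n lab u q h η θ a V hu hη hθ hVne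
  refine ⟨⟨t, ht⟩, ⟨A, x, hx0, hxn, ?_, hxq⟩, a, V, rfl, hins⟩
  intro j hj
  obtain ⟨h1, h2, -⟩ := hxc j (j + 1) (by omega) (by omega)
  obtain ⟨w', h3, h4, -⟩ := h.step j hj
  have h5 := congrArg List.length h3
  rw [List.length_append] at h5
  exact ⟨h1, by omega⟩

end lock

/-- A slowly increasing function meets every window. -/
lemma exists_cross {n R H : ℕ} {x : ℕ → ℕ} (h0 : x 0 = 0) (hstep : ∀ j < n, x (j + 1) ≤ x j + H)
    (hn : R < x n) : ∃ j ≤ n, R < x j ∧ x j ≤ R + H := by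
  induction n with
  | zero => omega
  | succ n ih =>
    by_cases h : R < x n
    · obtain ⟨j, h1, h2, h3⟩ := ih (fun j hj => hstep j (by omega)) h
      exact ⟨j, by omega, h2, h3⟩
    · have := hstep n (by omega)
      exact ⟨n + 1, le_rfl, hn, by omega⟩

end Pool.Agent.MP5ca50a
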