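import Pool.Agent.Lib.MP_5ca50a_lc.Paths

/-!
Finiteness of the number of path classes, given local finiteness of groups of exponent `k`.
-/

set_option autoImplicit false

namespace Pool.Agent.MP5ca50a

universe u v w

/-- Finitely generated groups of exponent dividing `k` are finite. -/
def BurnsideFinite (k : ℕ) : Prop :=
  ∀ (Q : Type w) [Group Q], Group.FG Q → (∀ g : Q, g ^ k = 1) → Finite Q

lemma BurnsideFinite.closure {k : ℕ} (hB : BurnsideFinite.{w} k) {Q : Type w} [Group Q]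
    (hk : ∀ g : Q, g ^ k = 1) {S : Set Q} (hS : S.Finite) :
    ((Subgroup.closure S : Subgroup Q) : Set Q).Finite := by
  have hfg : Group.FG (Subgroup.closure S) := by
    rw [Group.fg_iff_subgroup_fg]
    exact ⟨hS.toFinset, by simp⟩
  have : Finite (Subgroup.closure S) := hB _ hfg (fun g => by
    ext
    simp [hk])
  exact Set.toFinite _

namespace Spine

variable {α : Type u} {V : Type v} {E : Type w} (G : Spine α V E)

/-- Loops at a vertex. -/
def LoopT (v : V) : Type w := {π : List E // G.IsPath v π v}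

instance (v : V) : Monoid (G.LoopT v) where
  mul a b := ⟨a.1 ++ b.1, a.2.append b.2⟩
  one := ⟨[], rfl⟩
  mul_assoc a b c := Subtype.ext (List.append_assoc _ _ _)
  one_mul a := Subtype.ext (List.nil_append _)
  mul_one a := Subtype.ext (List.append_nil _)

variable {G}

lemma LoopT.mul_val {v : V} (a b : G.LoopT v) : (a * b).1 = a.1 ++ b.1 := rfl
lemma LoopT.one_val {v : V} : (1 : G.LoopT v).1 = [] := rfl
lemma LoopT.pow_val {v : V} (a : G.LoopT v) (n : ℕ) : (a ^ n).1 = wpow a.1 n := by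
  induction n with
  | zero => simp [LoopT.one_val]
  | succ n ih => rw [pow_succ, LoopT.mul_val, ih, wpow_succ]

variable (G)

/-- The congruence on loops. -/
def loopCon (k : ℕ) (v : V) : Con (G.LoopT v) where
  r a b := G.Eqv k v v a.1 b.1
  iseqv := ⟨fun _ => Eqv.refl _, fun h => h.symm, fun h h' => h.trans h'⟩
  mul' {_ b c _} h h' := Eqv.mul h h' b.2 c.2

/-- The loop group. -/
def LoopQ (k : ℕ) (v : V) : Type w := (G.loopCon k v).Quotient

instance (k : ℕ) (v : V) : Monoid (G.LoopQ k v) := inferInstanceAs (Monoid (G.loopCon k v).Quotient)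

variable {G}

/-- Class of a loop. -/
def LoopT.cls (k : ℕ) {v : V} (a : G.LoopT v) : G.LoopQ k v := ((a : (G.loopCon k v).Quotient))

lemma LoopT.cls_mul (k : ℕ) {v : V} (a b : G.LoopT v) : (a * b).cls k = a.cls k * b.cls k := rfl
lemma LoopT.cls_one (k : ℕ) {v : V} : (1 : G.LoopT v).cls k = 1 := rfl
lemma LoopT.cls_pow (k : ℕ) {v : V} (a : G.LoopT v) (n : ℕ) : (a ^ n).cls k = a.cls k ^ n := by
  induction n with
  | zero => simp [LoopT.cls_one]
  | succ n ih => rw [pow_succ, pow_succ, LoopT.cls_mul, ih]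

lemma LoopT.cls_eq {k : ℕ} {v : V} {a b : G.LoopT v} :
    a.cls k = b.cls k ↔ G.Eqv k v v a.1 b.1 := Con.eq (G.loopCon k v)

lemma LoopT.cls_surj {k : ℕ} {v : V} (q : G.LoopQ k v) : ∃ a : G.LoopT v, a.cls k = q :=
  Quotient.exists_rep q

lemma LoopQ.pow_eq_one {k : ℕ} {v : V} (q : G.LoopQ k v) : q ^ k = 1 := by
  obtain ⟨a, rfl⟩ := LoopT.cls_surj q
  rw [← LoopT.cls_pow, ← LoopT.cls_one, LoopT.cls_eq, LoopT.pow_val, LoopT.one_val]
  exact Eqv.wpow_nil a.2

/-- The loop group structure for `k + 1`. -/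
instance (k : ℕ) (v : V) : Group (G.LoopQ (k + 1) v) where
  inv x := x ^ k
  inv_mul_cancel x := by
    change x ^ k * x = 1
    rw [← pow_succ, LoopQ.pow_eq_one]

lemma split_first {v : V} {π : List E} {m v' : V} (h : G.IsPath m π v') :
    (∀ e ∈ π, G.src e ≠ v) ∨ ∃ n π', π = n ++ π' ∧ G.IsPath m n v ∧ G.IsPath v π' v' ∧
      ∀ e ∈ n, G.src e ≠ v := by
  induction π generalizing m with
  | nil => left; simp
  | cons e π ih =>
    by_cases hv : m = v
    · right
      exact ⟨[], e :: π, rfl, hv, hv ▸ h, by simp⟩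
    · obtain ⟨rfl, h⟩ := h
      rcases ih h with h' | ⟨n, π', rfl, h1, h2, h3⟩
      · left
        intro e' he'
        rcases List.mem_cons.mp he' with rfl | he'
        · exact hv
        · exact h' e' he'
      · right
        refine ⟨e :: n, π', rfl, ⟨rfl, h1⟩, h2, ?_⟩
        intro e' he'
        rcases List.mem_cons.mp he' with rfl | he'
        · exact hv
        · exact h3 e' he'

lemma split_last {v : V} (N : ℕ) {π : List E} {v' : V} (hN : π.length ≤ N)
    (h : G.IsPath v π v') :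
    ∃ ℓ ρ, π = ℓ ++ ρ ∧ G.IsPath v ℓ v ∧ G.IsPath v ρ v' ∧
      (ρ = [] ∨ ∃ e ρ', ρ = e :: ρ' ∧ ∀ e' ∈ ρ', G.src e' ≠ v) := by
  induction N generalizing π with
  | zero =>
    have : π = [] := List.length_eq_zero_iff.mp (by omega)
    subst this
    exact ⟨[], [], rfl, rfl, h, Or.inl rfl⟩
  | succ N ih =>
    cases π with
    | nil => exact ⟨[], [], rfl, rfl, h, Or.inl rfl⟩
    | cons e π =>
      obtain ⟨hv, h⟩ := h
      rcases split_first (v := v) h with h' | ⟨n, π', rfl, h1, h2, h3⟩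
      · exact ⟨[], e :: π, rfl, rfl, ⟨hv, h⟩, Or.inr ⟨e, π, rfl, h'⟩⟩
      · obtain ⟨ℓ, ρ, rfl, h4, h5, h6⟩ := ih (π := π') (by
          simp only [List.length_cons, List.length_append] at hN; omega) h2
        exact ⟨e :: (n ++ ℓ), ρ, by simp, ⟨hv, h1.append h4⟩, h5, h6⟩

/-- Finitely many classes of paths with all sources in `W`. -/
def FinCl (G : Spine α V E) (k : ℕ) (W : Set V) (v v' : V) : Prop :=
  ∃ T : Set (List E), T.Finite ∧ (∀ τ ∈ T, G.IsPath v τ v') ∧
    ∀ π, G.IsPath v π v' → (∀ e ∈ π, G.src e ∈ W) → ∃ τ ∈ T, G.Eqv k v v' π τ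

lemma loops_closure {k : ℕ} {v : V} {W : Set V} {P : Set (G.LoopQ (k + 1) v)}
    (hP : ∀ e (n : List E) (he : G.IsPath v (e :: n) v), (∀ e' ∈ e :: n, G.src e' ∈ W) →
      (∀ e' ∈ n, G.src e' ≠ v) → LoopT.cls (k + 1) (⟨e :: n, he⟩ : G.LoopT v) ∈ P)
    (N : ℕ) {ℓ : List E} (hℓ : G.IsPath v ℓ v) (hW : ∀ e ∈ ℓ, G.src e ∈ W) (hN : ℓ.length ≤ N) :
    LoopT.cls (k + 1) (⟨ℓ, hℓ⟩ : G.LoopT v) ∈ Subgroup.closure P := by
  induction N generalizing ℓ with
  | zero =>
    have : ℓ = [] := List.length_eq_zero_iff.mp (by omega)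
    subst this
    exact one_mem (Subgroup.closure P)
  | succ N ih =>
    cases ℓ with
    | nil => exact one_mem (Subgroup.closure P)
    | cons e π =>
      have hℓ' := hℓ
      obtain ⟨hv, h⟩ := hℓ'
      rcases split_first (v := v) h with h' | ⟨n, π', rfl, h1, h2, h3⟩
      · exact Subgroup.subset_closure (hP e π hℓ hW h')
      · have h4 := ih (ℓ := π') h2 (fun e' he' => hW e' (by simp [he'])) (by
          simp only [List.length_cons, List.length_append] at hN; omega)
        have h5 := hP e n ⟨hv, h1⟩ (fun e' he' => hW e' (by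
          rcases List.mem_cons.mp he' with rfl | he'
          · simp
          · simp [he'])) h3
        have h6 : LoopT.cls (k + 1) (⟨e :: (n ++ π'), hℓ⟩ : G.LoopT v) =
            LoopT.cls (k + 1) (⟨e :: n, ⟨hv, h1⟩⟩ : G.LoopT v) *
              LoopT.cls (k + 1) (⟨π', h2⟩ : G.LoopT v) := rfl
        rw [h6]
        exact mul_mem (Subgroup.subset_closure h5) h4

theorem finCl [Finite E] {k : ℕ} (hB : BurnsideFinite.{w} (k + 1)) (W : Finset V) :
    ∀ v v' : V, FinCl G (k + 1) W v v' := by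
  classical
  induction W using Finset.strongInduction with
  | H W ih =>
    intro v v'
    by_cases hv : v ∈ W
    · have IH := ih (W.erase v) (Finset.erase_ssubset hv)
      -- representatives for nontrivial remainders
      have hrep : ∀ v'' : V, ∃ T : Set (List E), T.Finite ∧
          (∀ τ ∈ T, G.IsPath v τ v'') ∧ ∀ e ρ, G.IsPath v (e :: ρ) v'' →
            (∀ e' ∈ e :: ρ, G.src e' ∈ W) → (∀ e' ∈ ρ, G.src e' ≠ v) →
            ∃ τ ∈ T, G.Eqv (k + 1) v v'' (e :: ρ) τ := by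
        intro v''
        choose Te hTe1 hTe2 hTe3 using fun e : E => IH (G.tgt e) v''
        refine ⟨⋃ e : E, {τ | G.src e = v ∧ τ ∈ (fun τ => e :: τ) '' Te e}, ?_, ?_, ?_⟩
        · exact Set.finite_iUnion (fun e => ((hTe1 e).image _).subset (fun τ hτ => hτ.2))
        · intro τ hτ
          obtain ⟨e, he, τ', hτ', rfl⟩ := Set.mem_iUnion.mp hτ
          exact ⟨he, hTe2 e τ' hτ'⟩
        · intro e ρ h1 h2 h3
          obtain ⟨τ, hτ, h4⟩ := hTe3 e ρ h1.2 (fun e' he' => by
            have := h2 e' (List.mem_cons_of_mem _ he')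
            have h5 := h3 e' he'
            simp only [Finset.coe_erase, Set.mem_sdiff, Set.mem_singleton_iff]
            exact ⟨this, h5⟩)
          refine ⟨e :: τ, Set.mem_iUnion.mpr ⟨e, h1.1, τ, hτ, rfl⟩, ?_⟩
          have h5 := Eqv.append (p := [e]) (q := []) (v := v) (m := G.tgt e) (v' := v'')
            (by simpa using h1.1) h4 (by simp)
          simpa using h5
      obtain ⟨Tl, hTl1, hTl2, hTl3⟩ := hrep v
      obtain ⟨Tr, hTr1, hTr2, hTr3⟩ := hrep v'
      -- generators of the loop classes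
      let P : Set (G.LoopQ (k + 1) v) :=
        {q | ∃ τ, ∃ hτ : G.IsPath v τ v, τ ∈ Tl ∧ LoopT.cls (k + 1) (⟨τ, hτ⟩ : G.LoopT v) = q}
      have hPfin : P.Finite := by
        have : Finite Tl := hTl1
        refine (Set.finite_range (fun τ : Tl =>
          LoopT.cls (k + 1) (⟨τ.1, hTl2 τ.1 τ.2⟩ : G.LoopT v))).subset ?_
        rintro q ⟨τ, hτ, hτ', rfl⟩
        exact ⟨⟨τ, hτ'⟩, rfl⟩
      have hcl := hB.closure (Q := G.LoopQ (k + 1) v) (fun g => LoopQ.pow_eq_one g) hPfin
      have hloop : ∀ ℓ (hℓ : G.IsPath v ℓ v), (∀ e ∈ ℓ, G.src e ∈ W) →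
          LoopT.cls (k + 1) (⟨ℓ, hℓ⟩ : G.LoopT v) ∈ Subgroup.closure P := by
        intro ℓ hℓ hW
        refine loops_closure (W := (W : Set V)) ?_ ℓ.length hℓ hW le_rfl
        intro e n he h1 h2
        obtain ⟨τ, hτ, h3⟩ := hTl3 e n he h1 h2
        exact ⟨τ, hTl2 τ hτ, hτ, LoopT.cls_eq.mpr h3.symm⟩
      -- representatives of loops
      choose rep hrep' using fun q : G.LoopQ (k + 1) v => LoopT.cls_surj q
      let Tloop : Set (List E) := (fun q => (rep q).1) '' (Subgroup.closure P : Set (G.LoopQ (k + 1) v))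
      have hTloopfin : Tloop.Finite := hcl.image _
      refine ⟨Set.image2 (· ++ ·) Tloop ({ρ | ρ = [] ∧ v = v'} ∪ Tr), ?_, ?_, ?_⟩
      · refine Set.Finite.image2 _ hTloopfin (Set.Finite.union ?_ hTr1)
        exact (Set.finite_singleton []).subset (fun ρ hρ => hρ.1)
      · rintro τ ⟨a, ⟨q, hq, rfl⟩, b, hb, rfl⟩
        rcases hb with ⟨rfl, rfl⟩ | hb
        · simpa using (rep q).2
        · exact (rep q).2.append (hTr2 b hb)
      · intro π hπ hW
        obtain ⟨ℓ, ρ, rfl, h1, h2, h3⟩ := split_last π.length le_rfl hπ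
        have h4 := hloop ℓ h1 (fun e he => hW e (by simp [he]))
        have h5 : G.Eqv (k + 1) v v ℓ (rep (LoopT.cls (k + 1) (⟨ℓ, h1⟩ : G.LoopT v))).1 :=
          (LoopT.cls_eq (a := ⟨ℓ, h1⟩)).mp (hrep' _).symm
        have h6 : ∃ τ ∈ ({ρ | ρ = [] ∧ v = v'} ∪ Tr : Set (List E)),
            G.Eqv (k + 1) v v' ρ τ := by
          rcases h3 with rfl | ⟨e, ρ', rfl, h3⟩
          · exact ⟨[], Or.inl ⟨rfl, h2⟩, Eqv.refl _⟩
          · obtain ⟨τ, hτ, h7⟩ := hTr3 e ρ' h2 (fun e' he' => hW e' (by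
              exact List.mem_append_right _ he')) h3
            exact ⟨τ, Or.inr hτ, h7⟩
        obtain ⟨τ, hτ, h7⟩ := h6
        exact ⟨_, ⟨_, ⟨_, h4, rfl⟩, τ, hτ, rfl⟩, Eqv.mul h5 h7 (rep _).2 h2⟩
    · refine ⟨{τ | τ = [] ∧ v = v'}, (Set.finite_singleton []).subset (fun τ hτ => hτ.1), ?_, ?_⟩
      · rintro τ ⟨rfl, rfl⟩
        rfl
      · intro π hπ hW
        cases π with
        | nil => exact ⟨[], ⟨rfl, hπ⟩, Eqv.refl _⟩
        | cons e π =>
          exact absurd (hπ.1 ▸ hW e (by simp)) hv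

/-- Finitely many path classes give finitely many left quotients. -/
theorem finite_quotients {K : Language α} {k : ℕ} (hP : CondP k K) {s t : V}
    (hK : G.Presents K s t) {T : Set (List E)} (hT : T.Finite)
    (hT' : ∀ π, G.IsPath s π t → ∃ τ ∈ T, G.Eqv k s t π τ) :
    (Set.range K.leftQuotient).Finite := by
  classical
  let c : List α → Set (List E) := fun w =>
    {τ | τ ∈ T ∧ ∃ π, G.IsPath s π t ∧ w ∈ G.L π ∧ G.Eqv k s t π τ}
  let F : Set (List E) → Language α := fun S =>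
    {β | ∃ τ ∈ S, ∃ π, G.IsPath s π t ∧ β ∈ G.R π ∧ G.Eqv k s t π τ}
  have key : ∀ w, K.leftQuotient w = F (c w) := by
    intro w
    ext β
    rw [Language.mem_leftQuotient]
    constructor
    · intro h
      obtain ⟨π, h1, h2, h3⟩ := (hK w β).mp h
      obtain ⟨τ, hτ, h4⟩ := hT' π h1
      exact ⟨τ, ⟨hτ, π, h1, h2, h4⟩, π, h1, h3, h4⟩
    · rintro ⟨τ, ⟨hτ, π, h1, h2, h4⟩, π', h1', h3, h4'⟩
      exact Eqv.comp hP hK h1 h1' (h4.trans h4'.symm) w h2 β h3
  refine (hT.powerset.image F).subset ?_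
  rintro _ ⟨w, rfl⟩
  rw [key w]
  exact ⟨c w, fun τ hτ => hτ.1, rfl⟩

/-- Main abstract theorem. -/
theorem finite_quotients_of_burnside [Finite E] {K : Language α} {k : ℕ}
    (hB : BurnsideFinite.{w} (k + 1)) (hP : CondP (k + 1) K) {s t : V}
    (hK : G.Presents K s t) : (Set.range K.leftQuotient).Finite := by
  classical
  have : Fintype E := Fintype.ofFinite E
  obtain ⟨T, hT, -, hT'⟩ := finCl (G := G) hB (Finset.univ.image G.src) s t
  exact finite_quotients hP hK hT (fun π hπ => hT' π hπ (fun e _ => by simp))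

end Spine

end Pool.Agent.MP5ca50a
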