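import Pool.Agent.Lib.MP_5ca50a_lc.Alph

/-!
Combinatorial preliminaries for `desync`: monotone counters and positions in item words
`Cs.flatMap (· ++ T)`.
-/

set_option autoImplicit false

namespace Pool.Agent.MP5ca50a

/-- Monotone counter with steps at most `c` on `[0,n]`. -/
def Ctr (n c : ℕ) (x : ℕ → ℕ) : Prop := ∀ t < n, x t ≤ x (t + 1) ∧ x (t + 1) ≤ x t + c

lemma Ctr.mono {n c : ℕ} {x : ℕ → ℕ} (h : Ctr n c x) {t t' : ℕ} (htt : t ≤ t') (hn : t' ≤ n) :
    x t ≤ x t' := by
  induction t', htt using Nat.le_induction with
  | base => exact le_rfl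
  | succ s hs ih => exact (ih (by omega)).trans (h s (by omega)).1

/-- Discrete intermediate values: a time with `x t ≤ v ≤ x t + c`. -/
lemma Ctr.ivt {n c : ℕ} {x : ℕ → ℕ} (h : Ctr n c x) {t t' v : ℕ} (htt : t ≤ t') (hn : t' ≤ n)
    (h1 : x t ≤ v) (h2 : v ≤ x t') : ∃ s, t ≤ s ∧ s ≤ t' ∧ x s ≤ v ∧ v ≤ x s + c := by
  induction t', htt using Nat.le_induction with
  | base => exact ⟨t, le_rfl, le_rfl, h1, by omega⟩
  | succ s hs ih =>
    by_cases hv : v ≤ x s
    · obtain ⟨r, hr1, hr2, hr3, hr4⟩ := ih (by omega) hv
      exact ⟨r, hr1, by omega, hr3, hr4⟩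
    · have := (h s (by omega)).2
      exact ⟨s, hs, by omega, by omega, by omega⟩

/-- If `x` grows by at most `R` while `y` is constant, then `x` is Lipschitz in terms of `y`. -/
lemma Ctr.lip {n c R : ℕ} {x y : ℕ → ℕ} (hx : Ctr n c x) (hy : Ctr n c y)
    (H : ∀ t t', t ≤ t' → t' ≤ n → y t = y t' → x t' ≤ x t + R) :
    ∀ t t', t ≤ t' → t' ≤ n → x t' ≤ x t + (R + c) * (y t' - y t + 1) := by
  intro t t' htt
  induction t' using Nat.strong_induction_on with
  | _ t' ih =>
    intro hn
    -- the first time with the value y t'
    have hex : ∃ s, t ≤ s ∧ y s = y t' := ⟨t', htt, rfl⟩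
    classical
    obtain ⟨s, ⟨hs1, hs2⟩, hmin⟩ : ∃ s, (t ≤ s ∧ y s = y t') ∧ ∀ r < s, ¬ (t ≤ r ∧ y r = y t') :=
      ⟨Nat.find hex, Nat.find_spec hex, fun r hr => Nat.find_min hex hr⟩
    have hst : s ≤ t' := by
      by_contra hlt
      exact hmin t' (by omega) ⟨htt, rfl⟩
    have h1 : x t' ≤ x s + R := H s t' hst hn hs2
    rcases Nat.eq_or_lt_of_le hs1 with heq | hlt
    · subst heq
      nlinarith [Nat.zero_le ((R + c) * (y t' - y t))]
    · have hs' : s - 1 < t' := by omega
      have h2 := ih (s - 1) hs' (by omega) (by omega)
      have h3 := (hx (s - 1) (by omega)).2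
      rw [show s - 1 + 1 = s by omega] at h3
      have h4 : y (s - 1) < y t' := by
        have h5 := hy.mono (show s - 1 ≤ t' by omega) hn
        have h6 := hmin (s - 1) (by omega)
        have h7 : y (s - 1) ≠ y t' := fun h => h6 ⟨by omega, h⟩
        omega
      have h8 := hy.mono (show t ≤ s - 1 by omega) (by omega)
      have h9 : y (s - 1) - y t + 1 ≤ y t' - y t := by omega
      have h10 := Nat.mul_le_mul_left (R + c) h9
      calc x t' ≤ x s + R := h1
        _ ≤ x (s - 1) + c + R := by omega
        _ ≤ x t + (R + c) * (y (s - 1) - y t + 1) + c + R := by omega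
        _ ≤ x t + (R + c) * (y t' - y t) + c + R := by omega
        _ = x t + (R + c) * (y t' - y t + 1) := by ring

section items

variable {ι : Type}

/-- The word with items `Cs` separated by the stretch `T`. -/
abbrev itemWord (T : List ι) (Cs : List (List ι)) : List ι := Cs.flatMap (fun C => C ++ T)

/-- Positions lying in a stretch. -/
inductive Good (T : List ι) : List (List ι) → ℕ → Prop
  | here (C : List ι) (Cs : List (List ι)) (s : ℕ) (hs : s ≤ T.length) :
      Good T (C :: Cs) (C.length + s)
  | there (C : List ι) (Cs : List (List ι)) (p : ℕ) (hp : Good T Cs p) :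
      Good T (C :: Cs) (C.length + T.length + p)

/-- Every position is good or shortly after a window of `c` good positions, or near the left end. -/
lemma exists_good_window (T : List ι) {c L0 : ℕ} (hc : c ≤ T.length) (Cs : List (List ι))
    (hCs : ∀ C ∈ Cs, C.length ≤ L0) :
    ∀ p ≤ (itemWord T Cs).length, Good T Cs p ∨ ∃ p' ≤ p, p ≤ p' + L0 ∧
      (p' = 0 ∨ ∀ r, p' ≤ r + c → r ≤ p' → Good T Cs r) := by
  induction Cs with
  | nil =>
    intro p hp
    right
    have : p = 0 := by simpa using hp
    exact ⟨0, by omega, by omega, Or.inl rfl⟩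
  | cons C Cs ih =>
    intro p hp
    have hlen : (itemWord T (C :: Cs)).length = C.length + T.length + (itemWord T Cs).length := by
      simp [itemWord]
      omega
    have hC : C.length ≤ L0 := hCs C (by simp)
    rcases lt_or_ge p C.length with h1 | h1
    · right
      exact ⟨0, by omega, by omega, Or.inl rfl⟩
    · rcases le_or_gt p (C.length + T.length) with h2 | h2
      · left
        have := Good.here C Cs (p - C.length) (T := T) (by omega)
        rwa [show C.length + (p - C.length) = p by omega] at this
      · have hhere : ∀ r, C.length ≤ r → r ≤ C.length + T.length → Good T (C :: Cs) r := by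
          intro r hr1 hr2
          have := Good.here C Cs (r - C.length) (T := T) (by omega)
          rwa [show C.length + (r - C.length) = r by omega] at this
        have hthere : ∀ r, C.length + T.length ≤ r → Good T Cs (r - (C.length + T.length)) →
            Good T (C :: Cs) r := by
          intro r hr1 hr2
          have := Good.there C Cs _ hr2
          rwa [show C.length + T.length + (r - (C.length + T.length)) = r by omega] at this
        rcases ih (fun C' hC' => hCs C' (by simp [hC'])) (p - (C.length + T.length)) (by omega)
          with h3 | ⟨p', hp1, hp2, hp3⟩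
        · left
          exact hthere p (by omega) h3
        · right
          refine ⟨p' + (C.length + T.length), by omega, by omega, Or.inr ?_⟩
          intro r hr1 hr2
          rcases le_or_gt r (C.length + T.length) with h4 | h4
          · exact hhere r (by omega) h4
          · rcases hp3 with h0 | h0
            · omega
            · exact hthere r (by omega) (h0 _ (by omega) (by omega))

/-- A long interval of positions contains two consecutive stretches. -/
lemma exists_two_stretches (T : List ι) {L0 : ℕ} (Cs : List (List ι))
    (hCs : ∀ C ∈ Cs, C.length ≤ L0) :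
    ∀ a a', a' ≤ (itemWord T Cs).length → a + 3 * T.length + 3 * L0 + 1 ≤ a' →
      ∃ X C Y, C ∈ Cs ∧ itemWord T Cs = X ++ T ++ C ++ T ++ Y ∧ a ≤ X.length ∧
        X.length + 2 * T.length + C.length ≤ a' := by
  induction Cs with
  | nil =>
    intro a a' h1 h2
    have : a' = 0 := by simpa using h1
    omega
  | cons C Cs ih =>
    intro a a' h1 h2
    have hlen : (itemWord T (C :: Cs)).length = C.length + T.length + (itemWord T Cs).length := by
      simp [itemWord]
      omega
    have hC : C.length ≤ L0 := hCs C (by simp)
    rcases le_or_gt a (C.length + T.length) with h3 | h3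
    · -- use items 2,3
      match Cs, hCs, ih, h1, hlen with
      | [], hCs, ih, h1, hlen => 
        simp only [itemWord, List.flatMap_nil, List.length_nil] at hlen
        simp only [itemWord] at h1
        omega
      | [C2], hCs, ih, h1, hlen =>
        have hC2 : C2.length ≤ L0 := hCs C2 (by simp)
        simp only [itemWord, List.flatMap_cons, List.flatMap_nil, List.length_append,
          List.length_nil] at hlen h1
        omega
      | C2 :: C3 :: Cs', hCs, ih, h1, hlen =>
        have hC2 : C2.length ≤ L0 := hCs C2 (by simp)
        have hC3 : C3.length ≤ L0 := hCs C3 (by simp)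
        refine ⟨C ++ T ++ C2, C3, itemWord T Cs', by simp, by simp [itemWord], ?_, ?_⟩
        · simp only [List.length_append]; omega
        · simp only [List.length_append]; omega
    · obtain ⟨X, C', Y, hC', h4, h5, h6⟩ := ih (fun C' hC' => hCs C' (by simp [hC']))
        (a - (C.length + T.length)) (a' - (C.length + T.length)) (by omega) (by omega)
      refine ⟨C ++ T ++ X, C', Y, by simp [hC'], ?_, ?_, ?_⟩
      · have : itemWord T (C :: Cs) = C ++ T ++ itemWord T Cs := by simp [itemWord]
        rw [this, h4]
        simp
      · simp only [List.length_append]; omega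
      · simp only [List.length_append]; omega

end items

end Pool.Agent.MP5ca50a
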