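import Pool.Agent.Lib.MP_5ca50a_lc.DesyncA

/-!
The core of `desync`: two counters running through item words with long stretches.
-/

set_option autoImplicit false

namespace Pool.Agent.MP5ca50a

/-- Discrete intermediate values: a time with `v ≤ x t ≤ v + c`. -/
lemma Ctr.ivt' {n c : ℕ} {x : ℕ → ℕ} (h : Ctr n c x) {t t' v : ℕ} (htt : t ≤ t') (hn : t' ≤ n)
    (h1 : x t ≤ v) (h2 : v ≤ x t') : ∃ s, t ≤ s ∧ s ≤ t' ∧ v ≤ x s ∧ x s ≤ v + c := by
  induction t', htt using Nat.le_induction with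
  | base => exact ⟨t, le_rfl, le_rfl, h2, by omega⟩
  | succ s hs ih =>
    by_cases hv : v ≤ x s
    · obtain ⟨r, hr1, hr2, hr3, hr4⟩ := ih (by omega) hv
      exact ⟨r, hr1, by omega, hr3, hr4⟩
    · have := (h s (by omega)).2
      exact ⟨s + 1, by omega, le_rfl, by omega, by omega⟩

section

variable {ι : Type} {G : Type} [Group G]

lemma itemWord_cons (T C : List ι) (Cs : List (List ι)) :
    itemWord T (C :: Cs) = C ++ (T ++ itemWord T Cs) := by simp [itemWord]

lemma take_here (T C : List ι) (Cs : List (List ι)) {s : ℕ} (hs : s ≤ T.length) :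
    (itemWord T (C :: Cs)).take (C.length + s) = C ++ T.take s := by
  rw [itemWord_cons, List.take_length_add_append, List.take_append_of_le_length hs]

lemma take_there (T C : List ι) (Cs : List (List ι)) (p : ℕ) :
    (itemWord T (C :: Cs)).take (C.length + T.length + p) =
      C ++ T ++ (itemWord T Cs).take p := by
  rw [itemWord_cons, Nat.add_assoc, List.take_length_add_append, List.take_length_add_append]
  simp

/-- Between two good positions at distance less than the length of a stretch there is at most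
one item. -/
lemma Good.ev_between {T : List ι} {β : ι → G} {D : Set G}
    (hD : ∀ z, z <:+: T → ev β z ∈ D) {Cs : List (List ι)} {p : ℕ} (hp : Good T Cs p) :
    ∀ p', Good T Cs p' → p ≤ p' → p' < p + T.length →
      (∃ d ∈ D, ev β ((itemWord T Cs).take p') = ev β ((itemWord T Cs).take p) * d) ∨
      ∃ d ∈ D, ∃ d' ∈ D, ∃ C ∈ Cs,
        ev β ((itemWord T Cs).take p') = ev β ((itemWord T Cs).take p) * (d * ev β C * d') := by
  induction hp with
  | here C Cs s hs =>
    intro p' hp' h1 h2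
    cases hp' with
    | here _ _ s' hs' =>
      left
      refine ⟨ev β ((T.take s').drop s), hD _ ?_, ?_⟩
      · exact ((List.drop_suffix _ _).isInfix).trans ((List.take_prefix _ _).isInfix)
      · have h3 : T.take s = (T.take s').take s := by
          rw [List.take_take, min_eq_left (by omega)]
        have h4 : T.take s' = T.take s ++ (T.take s').drop s := by
          conv_rhs => rw [h3]
          rw [List.take_append_drop]
        rw [take_here T C Cs hs, take_here T C Cs hs', ← ev_append, List.append_assoc, ← h4]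
    | there _ _ p'' hp'' =>
      cases hp'' with
      | here C' Cs' s' hs' =>
        right
        refine ⟨ev β (T.drop s), hD _ (List.drop_suffix _ _).isInfix, ev β (T.take s'),
          hD _ (List.take_prefix _ _).isInfix, C', by simp, ?_⟩
        rw [take_here T C _ hs, take_there, take_here T C' Cs' hs', ← ev_append, ← ev_append,
          ← ev_append]
        congr 1
        have h4 : ∀ W, T ++ W = T.take s ++ (T.drop s ++ W) := fun W => by
          rw [← List.append_assoc, List.take_append_drop]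
        simp only [List.append_assoc]
        rw [h4 (C' ++ T.take s')]
      | there C' Cs' p''' _ => omega
  | there C Cs p0 hp0 ih =>
    intro p' hp' h1 h2
    cases hp' with
    | here _ _ s' hs' =>
      left
      refine ⟨ev β [], hD _ (List.nil_infix), ?_⟩
      have : C.length + s' = C.length + T.length + p0 := by omega
      rw [this]; simp
    | there _ _ p0' hp0' =>
      rcases ih p0' hp0' (by omega) (by omega) with ⟨d, hd, h⟩ | ⟨d, hd, d', hd', C', hC', h⟩
      · left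
        refine ⟨d, hd, ?_⟩
        rw [take_there, take_there, ev_append, ev_append _ (C ++ T), h]
        simp only [mul_assoc]
      · right
        refine ⟨d, hd, d', hd', C', by simp [hC'], ?_⟩
        rw [take_there, take_there, ev_append, ev_append _ (C ++ T), h]
        simp only [mul_assoc]

/-- While the counter `y` moves by more than `L0 + c`, the position is good at some time. -/
lemma exists_good_time (T : List ι) {n c L0 : ℕ} (hc : c ≤ T.length) {Cs : List (List ι)}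
    (hCs : ∀ C ∈ Cs, C.length ≤ L0) {y : ℕ → ℕ} (hy : Ctr n c y) {v1 : ℕ} (hv : y n ≤ v1)
    (hv1 : v1 ≤ (itemWord T Cs).length) {s s' : ℕ} (hss : s ≤ s') (hn : s' ≤ n)
    (hgrow : y s + L0 + c + 1 ≤ y s') :
    ∃ t, s ≤ t ∧ t ≤ s' ∧ Good T Cs (v1 - y t) := by
  have hs'n := hy.mono hn le_rfl
  rcases exists_good_window T hc Cs hCs (v1 - y s) (by omega) with h | ⟨p', h1, h2, h3⟩
  · exact ⟨s, le_rfl, hss, h⟩
  · rcases h3 with h3 | h3
    · omega
    · obtain ⟨t, ht1, ht2, ht3, ht4⟩ := hy.ivt' hss hn (v := v1 - p') (by omega) (by omega)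
      exact ⟨t, ht1, ht2, h3 _ (by omega) (by omega)⟩

theorem core_bound {α β : ι → G} {T : List ι} {D F : Set G} {L0 c g1 g2 : ℕ}
    (hDα : ∀ z, z <:+: T → ev α z ∈ D) (hDβ : ∀ z, z <:+: T → ev β z ∈ D)
    {Cs Cs' : List (List ι)} (hCs : ∀ C ∈ Cs, C.length ≤ L0) (hne : ∀ C ∈ Cs, C ≠ [])
    (hCs' : ∀ C ∈ Cs', C.length ≤ L0)
    (m1 : ∀ C ∈ Cs, ∀ d1 ∈ D, ∀ d2 ∈ D, ∀ d3 ∈ D, ∀ f1 ∈ F, ∀ f2 ∈ F, ∀ f3 ∈ F, ∀ f4 ∈ F,
      f1⁻¹ * (d1 * ev α C * d2) * f2 ≠ f3⁻¹ * d3⁻¹ * f4)
    (m2 : ∀ C ∈ Cs, ∀ C' ∈ Cs', ∀ d1 ∈ D, ∀ d2 ∈ D, ∀ d3 ∈ D, ∀ d4 ∈ D,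
      ∀ f1 ∈ F, ∀ f2 ∈ F, ∀ f3 ∈ F, ∀ f4 ∈ F,
      f1⁻¹ * (d1 * ev α C * d2) * f2 ≠ f3⁻¹ * (d3 * ev β C' * d4)⁻¹ * f4)
    {δ : ℕ} (hδ : δ = c + g1 * (L0 + c + 1) + 1)
    (hT : δ + 2 * c + g2 * (2 * δ + 2 * c + L0 + 1) < T.length)
    {n : ℕ} {x y : ℕ → ℕ} (hx : Ctr n c x) (hy : Ctr n c y) (hx0 : x 0 = 0)
    (lipx : ∀ t t', t ≤ t' → t' ≤ n → x t' ≤ x t + g1 * (y t' - y t + 1))
    (lipy : ∀ t t', t ≤ t' → t' ≤ n → y t' ≤ y t + g2 * (x t' - x t + 1))
    {u0 v1 : ℕ} (hu : u0 + x n ≤ (itemWord T Cs).length) (hv : y n ≤ v1)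
    (hv1 : v1 ≤ (itemWord T Cs').length) {q : ℕ → G} {A A' : G}
    (hqa : ∀ t ≤ n, ∃ f ∈ F, q t = A * ev α ((itemWord T Cs).take (u0 + x t)) * f)
    (hqb : ∀ t ≤ n, ∃ f ∈ F, q t = A' * ev β ((itemWord T Cs').take (v1 - y t)) * f) :
    x n ≤ 3 * T.length + 3 * L0 := by
  by_contra hcon
  push Not at hcon
  have hcT : c ≤ T.length := by omega
  obtain ⟨X, C, Y, hC, hdec, hX1, hX2⟩ := exists_two_stretches T Cs hCs u0 (u0 + x n) hu (by omega)
  have hCpos : 0 < C.length := List.length_pos_iff.2 (hne C hC)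
  have hCL : C.length ≤ L0 := hCs C hC
  -- the first window
  obtain ⟨s1, _, hs1n, hs1a, hs1b⟩ := hx.ivt (t := 0) (t' := n) (v := X.length + T.length - δ - u0)
    (Nat.zero_le _) le_rfl (by omega) (by omega)
  obtain ⟨s1', hs11, hs1n', hs1a', hs1b'⟩ := hx.ivt (t := s1) (t' := n)
    (v := X.length + T.length - u0) hs1n le_rfl (by omega) (by omega)
  have hgrow : ∀ s s', s ≤ s' → s' ≤ n → x s + δ ≤ x s' + c → y s + L0 + c + 1 ≤ y s' := by
    intro s s' h1 h2 h3
    by_contra h4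
    have h5 := lipx s s' h1 h2
    have h6 : y s' - y s + 1 ≤ L0 + c + 1 := by omega
    have h7 := Nat.mul_le_mul_left g1 h6
    omega
  obtain ⟨t1, ht1a, ht1b, hgood1⟩ := exists_good_time T hcT hCs' hy hv hv1 hs11 hs1n'
    (hgrow s1 s1' hs11 hs1n' (by omega))
  -- the second window
  obtain ⟨s2, hs2a, hs2n, hs2b, hs2c⟩ := hx.ivt (t := s1') (t' := n)
    (v := X.length + T.length + C.length + c - u0) hs1n' le_rfl (by omega) (by omega)
  obtain ⟨s2', hs22, hs2n', hs2b', hs2c'⟩ := hx.ivt (t := s2) (t' := n)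
    (v := X.length + T.length + C.length + c + δ - u0) hs2n le_rfl (by omega) (by omega)
  obtain ⟨t2, ht2a, ht2b, hgood2⟩ := exists_good_time T hcT hCs' hy hv hv1 hs22 hs2n'
    (hgrow s2 s2' hs22 hs2n' (by omega))
  have ht12 : t1 ≤ t2 := by omega
  have ht2n : t2 ≤ n := by omega
  have ht1n : t1 ≤ n := by omega
  -- positions of x
  have hx1a : x s1 ≤ x t1 := hx.mono ht1a ht1n
  have hx1b : x t1 ≤ x s1' := hx.mono ht1b hs1n'
  have hx2a : x s2 ≤ x t2 := hx.mono ht2a ht2n
  have hx2b : x t2 ≤ x s2' := hx.mono ht2b hs2n'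
  -- the difference of the y
  have hy12 : y t1 ≤ y t2 := hy.mono ht12 ht2n
  have hyn : y t2 ≤ y n := hy.mono ht2n le_rfl
  have hdy : y t2 ≤ y t1 + g2 * (2 * δ + 2 * c + L0 + 1) := by
    refine (lipy t1 t2 ht12 ht2n).trans ?_
    have : x t2 - x t1 + 1 ≤ 2 * δ + 2 * c + L0 + 1 := by omega
    have := Nat.mul_le_mul_left g2 this
    omega
  have hb := hgood2.ev_between hDβ (v1 - y t1) hgood1 (by omega) (by omega)
  -- values of alpha
  have ha1 : (itemWord T Cs).take (u0 + x t1) = X ++ T.take (u0 + x t1 - X.length) := by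
    rw [hdec]
    have : X ++ T ++ C ++ T ++ Y = X ++ (T ++ (C ++ T ++ Y)) := by simp
    rw [this]
    conv_lhs => rw [show u0 + x t1 = X.length + (u0 + x t1 - X.length) by omega]
    rw [List.take_length_add_append, List.take_append_of_le_length (by omega)]
  have ha2 : (itemWord T Cs).take (u0 + x t2) =
      X ++ T ++ C ++ T.take (u0 + x t2 - X.length - T.length - C.length) := by
    rw [hdec]
    have : X ++ T ++ C ++ T ++ Y = X ++ (T ++ (C ++ (T ++ Y))) := by simp
    rw [this]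
    conv_lhs => rw [show u0 + x t2 = X.length + (T.length + (C.length +
      (u0 + x t2 - X.length - T.length - C.length))) by omega]
    rw [List.take_length_add_append, List.take_length_add_append, List.take_length_add_append,
      List.take_append_of_le_length (by omega)]
    simp
  have ha : ev α ((itemWord T Cs).take (u0 + x t2)) = ev α ((itemWord T Cs).take (u0 + x t1)) *
      (ev α (T.drop (u0 + x t1 - X.length)) * ev α C *
        ev α (T.take (u0 + x t2 - X.length - T.length - C.length))) := by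
    rw [ha1, ha2, ← ev_append, ← ev_append, ← ev_append]
    congr 1
    have h4 : ∀ W, T ++ W = T.take (u0 + x t1 - X.length) ++
        (T.drop (u0 + x t1 - X.length) ++ W) := fun W => by
      rw [← List.append_assoc, List.take_append_drop]
    simp only [List.append_assoc]
    rw [h4 (C ++ T.take (u0 + x t2 - X.length - T.length - C.length))]
  obtain ⟨f1, hf1, e1⟩ := hqa t1 ht1n
  obtain ⟨f2, hf2, e2⟩ := hqa t2 ht2n
  obtain ⟨f3, hf3, e3⟩ := hqb t1 ht1n
  obtain ⟨f4, hf4, e4⟩ := hqb t2 ht2n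
  set d1 := ev α (T.drop (u0 + x t1 - X.length)) with hd1
  set d2 := ev α (T.take (u0 + x t2 - X.length - T.length - C.length)) with hd2
  have hd1D : d1 ∈ D := hDα _ (List.drop_suffix _ _).isInfix
  have hd2D : d2 ∈ D := hDα _ (List.take_prefix _ _).isInfix
  have hqq1 : (q t1)⁻¹ * q t2 = f1⁻¹ * (d1 * ev α C * d2) * f2 := by
    rw [e1, e2, ha]; group
  rcases hb with ⟨d3, hd3, h⟩ | ⟨d3, hd3, d4, hd4, C', hC', h⟩
  · have hqq2 : (q t1)⁻¹ * q t2 = f3⁻¹ * d3⁻¹ * f4 := by
      rw [e3, e4, h]; group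
    exact m1 C hC d1 hd1D d2 hd2D d3 hd3 f1 hf1 f2 hf2 f3 hf3 f4 hf4 (hqq1 ▸ hqq2)
  · have hqq2 : (q t1)⁻¹ * q t2 = f3⁻¹ * (d3 * ev β C' * d4)⁻¹ * f4 := by
      rw [e3, e4, h]; group
    exact m2 C hC C' hC' d1 hd1D d2 hd2D d3 hd3 d4 hd4 f1 hf1 f2 hf2 f3 hf3 f4 hf4
      (hqq1 ▸ hqq2)

end

end Pool.Agent.MP5ca50a
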