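import Pool.Agent.Lib.MP_5ca50a_lc.DesyncB

/-!
More preliminaries for `desync`: values of factors of powers of a closed word, the decomposition of
zone words into items, Lipschitz bounds from fatness.
-/

set_option autoImplicit false

open scoped Pointwise

namespace Pool.Agent.MP5ca50a

lemma ev_comp {ι M N : Type} [Monoid M] [Monoid N] (f : M →* N) (μ : ι → M) (W : List ι) :
    ev (fun i => f (μ i)) W = f (ev μ W) := by
  simp [ev, map_list_prod, Function.comp_def]

section

variable {ι : Type} {G : Type} [Group G]

/-- Values of short words. -/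
def smallVals (β : ι → G) (N : ℕ) : Set G := {g | ∃ w : List ι, w.length ≤ N ∧ ev β w = g}

lemma smallVals_finite [Finite ι] (β : ι → G) (N : ℕ) : (smallVals β N).Finite := by
  have h := (List.finite_length_le ι N).image (ev β)
  refine h.subset ?_
  rintro g ⟨w, hw, rfl⟩
  exact ⟨w, hw, rfl⟩

lemma prefix_pow_val {β : ι → G} {P : List ι} (hP : ev β P = 1) (m : ℕ) :
    ∀ z, z <+: (List.replicate m P).flatten → ∃ w : List ι, w.length ≤ P.length ∧
      ev β w = ev β z := by
  induction m with
  | zero =>
    intro z hz
    have : z = [] := by simpa using hz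
    exact ⟨[], by simp, by rw [this]⟩
  | succ m ih =>
    intro z hz
    rw [List.replicate_succ, List.flatten_cons] at hz
    rcases List.prefix_or_prefix_of_prefix hz (List.prefix_append P _) with h | h
    · exact ⟨z, h.length_le, rfl⟩
    · obtain ⟨z', rfl⟩ := h
      obtain ⟨w, hw1, hw2⟩ := ih z' (by simpa using hz)
      exact ⟨w, hw1, by rw [hw2, ev_append, hP, one_mul]⟩

lemma factor_pow_val {β : ι → G} {P : List ι} (hP : ev β P = 1) (m : ℕ) :
    ∀ z, z <:+: (List.replicate m P).flatten → ev β z ∈ smallVals β (2 * P.length) := by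
  induction m with
  | zero =>
    intro z hz
    have : z = [] := by simpa using hz
    exact ⟨[], by simp, by rw [this]⟩
  | succ m ih =>
    intro z hz
    rw [List.replicate_succ, List.flatten_cons] at hz
    obtain ⟨t, hzt, ht⟩ := List.infix_iff_prefix_suffix.1 hz
    rcases List.suffix_or_suffix_of_suffix ht (List.suffix_append P _) with h | h
    · exact ih z (List.infix_iff_prefix_suffix.2 ⟨t, hzt, h⟩)
    · obtain ⟨s, rfl⟩ := h
      have hs : s.length ≤ P.length := by
        have := ht.length_le
        simp only [List.length_append] at this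
        omega
      rcases List.prefix_or_prefix_of_prefix hzt (List.prefix_append s _) with h' | h'
      · exact ⟨z, by have := h'.length_le; omega, rfl⟩
      · obtain ⟨z', rfl⟩ := h'
        obtain ⟨w, hw1, hw2⟩ := prefix_pow_val hP m z' (by simpa using hzt)
        exact ⟨s ++ w, by simp only [List.length_append]; omega, by
          rw [ev_append, ev_append, hw2]⟩

/-- Products of at most `n` elements of a set containing `1`. -/
lemma list_prod_mem_pow {K : Set G} (h1 : (1 : G) ∈ K) (n : ℕ) :
    ∀ l : List G, l.length ≤ n → (∀ g ∈ l, g ∈ K) → l.prod ∈ K ^ n := by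
  induction n with
  | zero =>
    intro l hl _
    have : l = [] := List.length_eq_zero_iff.1 (by omega)
    simp [this]
  | succ n ih =>
    intro l hl hK
    rw [pow_succ']
    cases l with
    | nil =>
      have := ih [] (by simp) (by simp)
      exact Set.mem_mul.2 ⟨1, h1, 1, by simpa using this, by simp⟩
    | cons a l =>
      rw [List.prod_cons]
      exact Set.mul_mem_mul (hK a (by simp)) (ih l (by simpa using hl) fun g hg =>
        hK g (by simp [hg]))

lemma pow_finite {K : Set G} (hK : K.Finite) (n : ℕ) : (K ^ n).Finite := by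
  induction n with
  | zero => simp
  | succ n ih => rw [pow_succ]; exact ih.mul hK

end

section zones

variable {ι κ : Type}

lemma flatMap_replicate_flatten (φ : κ → List ι) (w : List κ) (n : ℕ) :
    ((List.replicate n w).flatten).flatMap φ = (List.replicate n (w.flatMap φ)).flatten := by
  induction n with
  | zero => simp
  | succ n ih => simp [List.replicate_succ, ih]

/-- The items of a zone word. -/
def itemsOf (φ1 : κ → List ι) (H : List ι) (k : ℕ) (W : List κ) : List (List ι) :=
  W.flatMap (fun f => (φ1 f ++ H) :: List.replicate (k - 1) H)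

lemma itemWord_append (T : List ι) (A B : List (List ι)) :
    itemWord T (A ++ B) = itemWord T A ++ itemWord T B := by simp [itemWord]

lemma itemWord_replicate (T H : List ι) (n : ℕ) :
    itemWord T (List.replicate n H) = (List.replicate n (H ++ T)).flatten := by
  induction n with
  | zero => simp [itemWord]
  | succ n ih =>
    rw [List.replicate_succ, itemWord_cons, ih, List.replicate_succ, List.flatten_cons]
    simp

lemma zone_eq_itemWord (φ1 : κ → List ι) (H T : List ι) {k : ℕ} (hk : 0 < k) (W : List κ) :
    W.flatMap (fun f => φ1 f ++ (List.replicate k (H ++ T)).flatten) =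
      itemWord T (itemsOf φ1 H k W) := by
  induction W with
  | nil => simp [itemsOf]
  | cons f W ih =>
    have h1 : itemsOf φ1 H k (f :: W) =
        ((φ1 f ++ H) :: List.replicate (k - 1) H) ++ itemsOf φ1 H k W := by
      simp [itemsOf]
    rw [List.flatMap_cons, ih, h1, itemWord_append, itemWord_cons, itemWord_replicate]
    obtain ⟨k', rfl⟩ : ∃ k', k = k' + 1 := ⟨k - 1, by omega⟩
    simp [List.replicate_succ]

lemma mem_itemsOf {φ1 : κ → List ι} {H : List ι} {k : ℕ} {W : List κ} {C : List ι}
    (hC : C ∈ itemsOf φ1 H k W) : C = H ∨ ∃ f, C = φ1 f ++ H := by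
  simp only [itemsOf, List.mem_flatMap, List.mem_cons, List.mem_replicate] at hC
  obtain ⟨f, _, h | h⟩ := hC
  · exact Or.inr ⟨f, h⟩
  · exact Or.inl h.2

end zones

section lip

variable {ι : Type} {G : Type} [Group G]

/-- Fatness bounds the growth of `x` while `y` is constant (general form). -/
lemma growth_of_fat {n c R : ℕ} {x y : ℕ → ℕ} (hx : Ctr n c x) (hy : Ctr n c y)
    (hP : ∀ t t', t ≤ t' → t' ≤ n → y t = y t' → x t' ≤ x t + (R + c) → x t' ≤ x t + R) :
    ∀ t t', t ≤ t' → t' ≤ n → y t = y t' → x t' ≤ x t + R := by
  intro t t' htt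
  induction t', htt using Nat.le_induction with
  | base => intro _ _; omega
  | succ s hs ih =>
    intro hn hyy
    have h1 := hy.mono hs (by omega)
    have h2 := (hy s (by omega)).1
    have h3 := ih (by omega) (by omega)
    have h4 := (hx s (by omega)).2
    exact hP t (s + 1) (by omega) hn hyy (by omega)

end lip

end Pool.Agent.MP5ca50a
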