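import Pool.Agent.Lib.MP_5ca50a_lc.Stage

/-!
Derivations with short parts outside of a zone.
-/

set_option autoImplicit false

namespace Pool.Agent.MP5ca50a

open TrackSys

/-- Chain bound over an alphabet. -/
def ChB {T N : Type} (g : BG T N) (S : N) (D : N → Prop) {ι : Type} (w : ι → List T) (H B : ℕ) :
    Prop :=
  ∀ (A P : N) (a b : List T), Ch g D H A a b P →
    ∀ (W W' : List ι) (p s p' s' : List T),
    W.flatMap w = p ++ a ++ s → W'.flatMap w = p' ++ b ++ s' →
    a.length + b.length ≤ B ∨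
      Ins w W p a s (fun x => TT (g.M S A) (g.M S P) x b) ∨
      Ins w W' p' b s' (fun x => TT (g.M S A) (g.M S P) a x)

section

variable {T N : Type} {g : BG T N} {S : N}

lemma ChB.refine {D : N → Prop} {ι κ : Type} {w : ι → List T} {H B : ℕ} (h : ChB g S D w H B)
    (φ : κ → List ι) : ChB g S D (cmp w φ) H B := by
  intro A P a b hch W W' p s p' s' hW hW'
  rw [flatMap_cmp] at hW hW'
  rcases h A P a b hch _ _ p s p' s' hW hW' with h1 | h1 | h1
  · exact Or.inl h1
  · exact Or.inr (Or.inl h1.refine)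
  · exact Or.inr (Or.inr h1.refine)

lemma ChB.mono {D : N → Prop} {ι : Type} {w : ι → List T} {H B B' : ℕ} (h : ChB g S D w H B)
    (hB : B ≤ B') : ChB g S D w H B' := by
  intro A P a b hch W W' p s p' s' hW hW'
  rcases h A P a b hch _ _ p s p' s' hW hW' with h1 | h1
  · exact Or.inl (by omega)
  · exact Or.inr h1

end

section

variable {T N : Type} [Finite T] [Finite N] {g : BG T N} {S : N} {k : ℕ}

/-- An alphabet with the stage property and all chain bounds. -/
theorem good_alphabet (hP : CondP (k + 1) (g.Lg S)) {G' : Type} [Group G']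
    (hG' : ∀ g : G', g ^ (k + 1) = 1) {ι : Type} [Finite ι] (w : ι → List T)
    (hw : ∀ a, w a ≠ []) (Λ : ι → G') (hΛ : InfImg Λ) :
    ∃ (m : ℕ) (φ : Fin m → List ι), (∀ a, φ a ≠ []) ∧ InfImg (fun a => ev Λ (φ a)) ∧
      ∃ R B, SProp g S (cmp w φ) (fun _ => True) R ∧
        ∀ A : N, ChB g S (fun P => Rch g A P ∧ Rch g P A) (cmp w φ) R B := by
  obtain ⟨m, φ, h1, h2, R, h3⟩ := stages hP hG' w hw Λ hΛ
  have hw' : ∀ a, cmp w φ a ≠ [] := fun a => flatMap_ne_nil hw (h1 a)
  obtain ⟨m', ψ, h4, h5, h6⟩ := seq_refine (fun a => ev Λ (φ a)) h2 (J := N)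
    (fun A n ψ => ∃ B, ChB g S (fun P => Rch g A P ∧ Rch g P A) (cmp (cmp w φ) ψ) R B)
    (by
      rintro A n ψ n' χ ⟨B, hB⟩
      refine ⟨B, ?_⟩
      rw [← cmp_cmp]
      exact hB.refine χ)
    (by
      intro A n ψ hψ hΛψ
      have hw'' : ∀ a, cmp (cmp w φ) ψ a ≠ [] := fun a => flatMap_ne_nil hw' (hψ a)
      obtain ⟨n', χ, c1, c2, B, c3⟩ := chain_bound (cptOf hP A) (cmp (cmp w φ) ψ) hw'' hG' _
        hΛψ R
      refine ⟨n', χ, c1, ?_, B, ?_⟩
      · simpa only [ev_flatMap] using c2
      · rw [← cmp_cmp]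
        exact c3)
  choose Bf hBf using h6
  obtain ⟨B, hB⟩ := exists_nat_bound Bf
  refine ⟨m', fun b => (ψ b).flatMap φ, fun a => flatMap_ne_nil h1 (h4 a), ?_, R, B, ?_, ?_⟩
  · simpa only [ev_flatMap] using h5
  · rw [← cmp_cmp]
    exact h3.refine
  · intro A
    rw [← cmp_cmp]
    exact (hBf A).mono (hB A)

end

/-- Long zone factors with short outer parts admit insertions. -/
def OutB {T N : Type} (g : BG T N) (S : N) {ι : Type} (w : ι → List T) (C : N → Prop)
    (i K : ℕ) : Prop :=
  ∀ A, C A → ∀ (x ζ z : List T) (W : List ι) (p s : List T), g.Der A (x ++ ζ ++ z) →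
    x.length + z.length ≤ i → W.flatMap w = p ++ ζ ++ s → K < ζ.length →
    Ins w W p ζ s (fun y => x ++ y ++ z ∈ g.M S A)

section

variable {T N : Type} {g : BG T N} {S : N}

/-- Lifting insertions through one derivation step or more. -/
lemma ins_lift {ι : Type} {w : ι → List T} {W : List ι} {p s l r ζ x z x' z' : List T}
    {A B : N} {a b : List T} (ht : TT (g.M S A) (g.M S B) a b)
    (h : Ins w W (p ++ l) ζ (r ++ s) (fun y => x' ++ y ++ z' ∈ g.M S B))
    (he : ∀ y, a ++ (x' ++ y ++ z') ++ b = x ++ (l ++ y ++ r) ++ z) :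
    Ins w W p (l ++ ζ ++ r) s (fun y => x ++ y ++ z ∈ g.M S A) :=
  h.up (fun y hy => by
    have := ht _ hy
    rwa [he y] at this)

lemma ins_lift0 {ι : Type} {w : ι → List T} {W : List ι} {p s ζ x z x' z' : List T}
    {A B : N} {a b : List T} (ht : TT (g.M S A) (g.M S B) a b)
    (h : Ins w W p ζ s (fun y => x' ++ y ++ z' ∈ g.M S B))
    (he : ∀ y, a ++ (x' ++ y ++ z') ++ b = x ++ y ++ z) :
    Ins w W p ζ s (fun y => x ++ y ++ z ∈ g.M S A) :=
  h.mono (fun y hy => by
    have := ht _ hy
    rwa [he y] at this)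

lemma ins_liftl {ι : Type} {w : ι → List T} {W : List ι} {p s l ζ x z x' z' : List T}
    {A B : N} {a b : List T} (ht : TT (g.M S A) (g.M S B) a b)
    (h : Ins w W (p ++ l) ζ s (fun y => x' ++ y ++ z' ∈ g.M S B))
    (he : ∀ y, a ++ (x' ++ y ++ z') ++ b = x ++ (l ++ y) ++ z) :
    Ins w W p (l ++ ζ) s (fun y => x ++ y ++ z ∈ g.M S A) := by
  have := ins_lift (l := l) (r := []) (x := x) (z := z) ht h (fun y => by rw [he]; simp)
  simpa using this

lemma ins_liftr {ι : Type} {w : ι → List T} {W : List ι} {p s r ζ x z x' z' : List T}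
    {A B : N} {a b : List T} (ht : TT (g.M S A) (g.M S B) a b)
    (h : Ins w W p ζ (r ++ s) (fun y => x' ++ y ++ z' ∈ g.M S B))
    (he : ∀ y, a ++ (x' ++ y ++ z') ++ b = x ++ (y ++ r) ++ z) :
    Ins w W p (ζ ++ r) s (fun y => x ++ y ++ z ∈ g.M S A) := by
  have := ins_lift (p := p) (l := []) (r := r) (x := x) (z := z) ht (by simpa using h)
    (fun y => by rw [he]; simp)
  simpa using this

lemma append_cases3 {w1 w2 x ζ z : List T} (h : w1 ++ w2 = x ++ ζ ++ z) :
    (∃ x', x = w1 ++ x' ∧ w2 = x' ++ ζ ++ z) ∨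
    (∃ ζ₁ ζ₂, ζ = ζ₁ ++ ζ₂ ∧ w1 = x ++ ζ₁ ∧ w2 = ζ₂ ++ z) ∨
    (∃ z', z = z' ++ w2 ∧ w1 = x ++ ζ ++ z') := by
  rw [List.append_assoc] at h
  rcases List.append_eq_append_iff.1 h with ⟨x', h1, h2⟩ | ⟨c, h1, h2⟩
  · left
    exact ⟨x', h1, by rw [h2, List.append_assoc]⟩
  · rcases List.append_eq_append_iff.1 h2 with ⟨z', h3, h4⟩ | ⟨c', h3, h4⟩
    · right; right
      exact ⟨z', h4, by rw [h1, h3, List.append_assoc]⟩
    · right; left
      exact ⟨c, c', h3, h1, h4⟩

/-- The chain claim. -/
lemma out_chain {ι : Type} {w : ι → List T} {C D : N → Prop} {R i Ki KC : ℕ}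
    (hS : SProp g S w (fun _ => True) R) (hi : OutB g S w (fun _ => True) i Ki)
    (hC : OutB g S w C (i + 1) KC)
    (hcl : ∀ A B C', D A → g.b A B C' → Prd g B → Prd g C' → (C B ∨ D B) ∧ (C C' ∨ D C'))
    {A : N} {m : List T} (hder : g.Der A m) : D A → ∀ (x ζ z : List T) (W : List ι)
      (p s : List T), m = x ++ ζ ++ z → x.length + z.length ≤ i + 1 →
      0 < x.length + z.length → W.flatMap w = p ++ ζ ++ s →
      Ins w W p ζ s (fun y => x ++ y ++ z ∈ g.M S A) ∨
      ∃ (P : N) (a ζ' b : List T), Ch g D R A a b P ∧ ζ = a ++ ζ' ++ b ∧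
        ζ'.length ≤ 2 * Ki + KC + R + 1 ∧ g.Der P (x ++ ζ' ++ z) ∧ (x ≠ [] → a = []) ∧
        (z ≠ [] → b = []) := by
  induction hder with
  | eps h =>
    intro hA x ζ z W p s hm hlen hpos hW
    right
    have hm' : ζ = [] := by
      have := hm.symm
      simp only [List.append_eq_nil_iff] at this
      exact this.1.2
    subst hm'
    refine ⟨_, [], [], [], Ch.nil hA, rfl, by simp, ?_, fun _ => rfl, fun _ => rfl⟩
    rw [← hm]
    exact BG.Der.eps h
  | @ter A a0 h =>
    intro hA x ζ z W p s hm hlen hpos hW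
    right
    have hl := congrArg List.length hm
    simp only [List.length_append, List.length_cons, List.length_nil] at hl
    refine ⟨_, [], ζ, [], Ch.nil hA, by simp, by omega, ?_, fun _ => rfl, fun _ => rfl⟩
    rw [← hm]
    exact BG.Der.ter h
  | @bin A B C' w1 w2 hb hB hC' ih1 ih2 =>
    intro hA x ζ z W p s hm hlen hpos hW
    have hder : g.Der A (x ++ ζ ++ z) := by
      rw [← hm]; exact BG.Der.bin hb hB hC'
    obtain ⟨c1, c2⟩ := hcl A B C' hA hb ⟨_, hB⟩ ⟨_, hC'⟩
    have hnil : ζ.length ≤ 2 * Ki + KC + R + 1 → ∃ (P : N) (a ζ' b : List T),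
        Ch g D R A a b P ∧ ζ = a ++ ζ' ++ b ∧
        ζ'.length ≤ 2 * Ki + KC + R + 1 ∧ g.Der P (x ++ ζ' ++ z) ∧ (x ≠ [] → a = []) ∧
        (z ≠ [] → b = []) := fun hl =>
      ⟨A, [], ζ, [], Ch.nil hA, by simp, hl, hder, fun _ => rfl, fun _ => rfl⟩
    rcases append_cases3 hm with ⟨x', rfl, rfl⟩ | ⟨ζ₁, ζ₂, rfl, rfl, rfl⟩ | ⟨z', rfl, rfl⟩
    · -- cut in x
      have hlift : Ins w W p ζ s (fun y => x' ++ y ++ z ∈ g.M S C') →
          Ins w W p ζ s (fun y => w1 ++ x' ++ y ++ z ∈ g.M S A) := fun h =>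
        ins_lift0 (BG.DC.right1 hb hB).tt h (fun y => by simp)
      by_cases hw1 : w1 = []
      · subst hw1
        by_cases hD : D C'
        · rcases ih2 hD x' ζ z W p s rfl (by simpa using hlen) (by simpa using hpos) hW with
            h | ⟨P, a, ζ', b, h1, h2, h3, h4, h5, h6⟩
          · exact Or.inl (hlift h)
          · right
            exact ⟨P, [] ++ a, ζ', b, Ch.right hA hb hB (by simp) h1, by simpa using h2, h3,
              by simpa using h4, by simpa using h5, h6⟩
        · by_cases hl : ζ.length ≤ KC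
          · exact Or.inr (hnil (by omega))
          · exact Or.inl (hlift (hC C' (c2.resolve_right hD) x' ζ z W p s hC'
              (by simpa using hlen) hW (by omega)))
      · have : 0 < w1.length := List.length_pos_iff.mpr hw1
        simp only [List.length_append] at hlen
        by_cases hl : ζ.length ≤ Ki
        · exact Or.inr (hnil (by omega))
        · exact Or.inl (hlift (hi C' trivial x' ζ z W p s hC' (by omega) hW (by omega)))
    · -- cut in ζ
      have hW1 : W.flatMap w = p ++ ζ₁ ++ (ζ₂ ++ s) := by rw [hW]; simp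
      have hW2 : W.flatMap w = (p ++ ζ₁) ++ ζ₂ ++ s := by rw [hW]; simp
      have hlift1 : Ins w W p ζ₁ (ζ₂ ++ s) (fun y => x ++ y ++ [] ∈ g.M S B) →
          Ins w W p (ζ₁ ++ ζ₂) s (fun y => x ++ y ++ z ∈ g.M S A) := fun h =>
        ins_liftr (BG.DC.left1 hb hC').tt h (fun y => by simp)
      have hlift2 : Ins w W (p ++ ζ₁) ζ₂ s (fun y => [] ++ y ++ z ∈ g.M S C') →
          Ins w W p (ζ₁ ++ ζ₂) s (fun y => x ++ y ++ z ∈ g.M S A) := fun h =>
        ins_liftl (BG.DC.right1 hb hB).tt h (fun y => by simp)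
      by_cases hx : x = []
      · subst hx
        have hz : z ≠ [] := by
          rintro rfl
          simp at hpos
        -- the left child derives a zone factor
        by_cases hl1 : ζ₁.length ≤ R
        · by_cases hD : D C'
          · rcases ih2 hD [] ζ₂ z W (p ++ ζ₁) s rfl hlen hpos hW2 with
              h | ⟨P, a, ζ', b, h1, h2, h3, h4, h5, h6⟩
            · exact Or.inl (hlift2 h)
            · right
              refine ⟨P, ([] ++ ζ₁) ++ a, ζ', b, Ch.right hA hb hB (by simpa using hl1) h1, ?_,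
                h3, h4, fun h => absurd rfl h, h6⟩
              rw [h2]; simp
          · by_cases hl : ζ₂.length ≤ KC
            · exact Or.inr (hnil (by rw [List.length_append]; omega))
            · exact Or.inl (hlift2 (hC C' (c2.resolve_right hD) [] ζ₂ z W (p ++ ζ₁) s hC'
                hlen hW2 (by omega)))
        · left
          refine hlift1 ((hS B trivial W p ζ₁ (ζ₂ ++ s) hW1 hB (by omega)).mono ?_)
          intro y hy
          simpa using hy
      · by_cases hz : z = []
        · subst hz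
          by_cases hl2 : ζ₂.length ≤ R
          · by_cases hD : D B
            · rcases ih1 hD x ζ₁ [] W p (ζ₂ ++ s) (by simp) hlen hpos hW1 with
                h | ⟨P, a, ζ', b, h1, h2, h3, h4, h5, h6⟩
              · exact Or.inl (hlift1 h)
              · right
                refine ⟨P, a, ζ', b ++ (ζ₂ ++ []), Ch.left hA hb hC' (by simpa using hl2) h1,
                  ?_, h3, h4, h5, fun h => absurd rfl h⟩
                rw [h2]; simp
            · by_cases hl : ζ₁.length ≤ KC
              · exact Or.inr (hnil (by rw [List.length_append]; omega))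
              · exact Or.inl (hlift1 (hC B (c1.resolve_right hD) x ζ₁ [] W p (ζ₂ ++ s)
                  (by simpa using hB) hlen hW1 (by omega)))
          · left
            refine hlift2 ((hS C' trivial W (p ++ ζ₁) ζ₂ s hW2 (by simpa using hC')
              (by omega)).mono ?_)
            intro y hy
            simpa using hy
        · -- both outer parts nonempty
          have h1 : 0 < x.length := List.length_pos_iff.mpr hx
          have h2 : 0 < z.length := List.length_pos_iff.mpr hz
          by_cases hl1 : ζ₁.length ≤ Ki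
          · by_cases hl2 : ζ₂.length ≤ Ki
            · exact Or.inr (hnil (by rw [List.length_append]; omega))
            · exact Or.inl (hlift2 (hi C' trivial [] ζ₂ z W (p ++ ζ₁) s hC'
                (by simp only [List.length_nil]; omega) hW2 (by omega)))
          · exact Or.inl (hlift1 (hi B trivial x ζ₁ [] W p (ζ₂ ++ s) (by simpa using hB)
              (by simp only [List.length_nil]; omega) hW1 (by omega)))
    · -- cut in z
      have hlift : Ins w W p ζ s (fun y => x ++ y ++ z' ∈ g.M S B) →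
          Ins w W p ζ s (fun y => x ++ y ++ (z' ++ w2) ∈ g.M S A) := fun h =>
        ins_lift0 (BG.DC.left1 hb hC').tt h (fun y => by simp)
      by_cases hw2 : w2 = []
      · subst hw2
        by_cases hD : D B
        · rcases ih1 hD x ζ z' W p s rfl (by simpa using hlen) (by simpa using hpos) hW with
            h | ⟨P, a, ζ', b, h1, h2, h3, h4, h5, h6⟩
          · exact Or.inl (hlift h)
          · right
            exact ⟨P, a, ζ', b ++ [], Ch.left hA hb hC' (by simp) h1, by simpa using h2, h3,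
              by simpa using h4, h5, by simpa using h6⟩
        · by_cases hl : ζ.length ≤ KC
          · exact Or.inr (hnil (by omega))
          · exact Or.inl (hlift (hC B (c1.resolve_right hD) x ζ z' W p s hB
              (by simpa using hlen) hW (by omega)))
      · have : 0 < w2.length := List.length_pos_iff.mpr hw2
        simp only [List.length_append] at hlen
        by_cases hl : ζ.length ≤ Ki
        · exact Or.inr (hnil (by omega))
        · exact Or.inl (hlift (hi B trivial x ζ z' W p s hB (by omega) hW (by omega)))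

/-- One inner step. -/
lemma out_step {ι : Type} {w : ι → List T} {C : N → Prop} {R B i Ki KC : ℕ} {A : N}
    (hS : SProp g S w (fun _ => True) R) (hi : OutB g S w (fun _ => True) i Ki)
    (hC : OutB g S w C (i + 1) KC)
    (hB : ChB g S (fun P => Rch g A P ∧ Rch g P A) w R B)
    (hmin : ∀ E, Rch g A E → C E ∨ Rch g E A) :
    OutB g S w (fun E => C E ∨ (Rch g A E ∧ Rch g E A)) (i + 1)
      (2 * Ki + KC + 2 * R + 1 + B) := by
  have hcl : ∀ A' B C', (Rch g A A' ∧ Rch g A' A) → g.b A' B C' → Prd g B → Prd g C' →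
      (C B ∨ (Rch g A B ∧ Rch g B A)) ∧ (C C' ∨ (Rch g A C' ∧ Rch g C' A)) := by
    intro A' B C' hA' hb hB hC'
    obtain ⟨v, hv⟩ := hB
    obtain ⟨v', hv'⟩ := hC'
    have h1 : Rch g A B := hA'.1.trans ⟨_, _, BG.DC.left1 hb hv'⟩
    have h2 : Rch g A C' := hA'.1.trans ⟨_, _, BG.DC.right1 hb hv⟩
    exact ⟨(hmin B h1).imp_right fun h => ⟨h1, h⟩, (hmin C' h2).imp_right fun h => ⟨h2, h⟩⟩
  intro A' hA' x ζ z W p s hder hlen hW hl
  rcases hA' with hA' | hA'
  · exact hC A' hA' x ζ z W p s hder hlen hW (by omega)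
  rcases Nat.eq_zero_or_pos (x.length + z.length) with h0 | h0
  · have hx : x = [] := List.length_eq_zero_iff.mp (by omega)
    have hz : z = [] := List.length_eq_zero_iff.mp (by omega)
    subst hx hz
    refine (hS A' trivial W p ζ s hW (by simpa using hder) (by omega)).mono ?_
    intro y hy
    simpa using hy
  rcases out_chain (D := fun P => Rch g A P ∧ Rch g P A) hS hi hC hcl hder hA' x ζ z W p s rfl
    hlen h0 hW with h1 | ⟨P, a, ζ', b, hch, rfl, h3, h4, h5, h6⟩
  · exact h1
  -- the left zone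
  have hLz : ∃ (WL : List ι) (pL sL : List T), WL.flatMap w = pL ++ a ++ sL ∧
      ∀ X : List T → Prop, Ins w WL pL a sL X → x = [] ∧ Ins w W p a (ζ' ++ b ++ s) X := by
    by_cases hx : x = []
    · refine ⟨W, p, ζ' ++ b ++ s, by rw [hW]; simp, fun X h => ⟨hx, h⟩⟩
    · refine ⟨[], [], [], by rw [h5 hx]; rfl, ?_⟩
      rintro X ⟨W₁, a0, W₂, c, c', m₁, m₂, e1, -⟩
      simp at e1
  have hRz : ∃ (WR : List ι) (pR sR : List T), WR.flatMap w = pR ++ b ++ sR ∧
      ∀ X : List T → Prop, Ins w WR pR b sR X → z = [] ∧ Ins w W (p ++ (a ++ ζ')) b s X := by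
    by_cases hz : z = []
    · refine ⟨W, p ++ (a ++ ζ'), s, by rw [hW]; simp, fun X h => ⟨hz, h⟩⟩
    · refine ⟨[], [], [], by rw [h6 hz]; rfl, ?_⟩
      rintro X ⟨W₁, a0, W₂, c, c', m₁, m₂, e1, -⟩
      simp at e1
  obtain ⟨WL, pL, sL, e1, hLz⟩ := hLz
  obtain ⟨WR, pR, sR, e2, hRz⟩ := hRz
  have hMP := BG.der_mem_M (S := S) h4
  rcases hB A' P a b hch WL WR pL sL pR sR e1 e2 with h7 | h7 | h7
  · exfalso
    simp only [List.length_append] at hl
    omega
  · obtain ⟨rfl, h8⟩ := hLz _ h7
    have h9 : Ins w W (p ++ []) a ((ζ' ++ b) ++ s)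
        (fun x => TT (g.M S A') (g.M S P) x b) := by
      simpa using h8
    have := h9.up (X' := fun y => [] ++ y ++ z ∈ g.M S A') (fun y hy => by
      have h10 := hy _ hMP
      by_cases hz : z = []
      · subst hz
        simpa using h10
      · rw [h6 hz] at h10 ⊢
        simpa using h10)
    simpa using this
  · obtain ⟨rfl, h8⟩ := hRz _ h7
    have h9 : Ins w W (p ++ (a ++ ζ')) b ([] ++ s)
        (fun x => TT (g.M S A') (g.M S P) a x) := h8
    have := h9.up (X' := fun y => x ++ y ++ [] ∈ g.M S A') (fun y hy => by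
      have h10 := hy _ hMP
      by_cases hx : x = []
      · subst hx
        simpa using h10
      · rw [h5 hx] at h10 ⊢
        simpa using h10)
    simpa using this

end

section

variable {T N : Type} [Finite N] {g : BG T N} {S : N}

lemma out_bound_aux {ι : Type} {w : ι → List T} {R B i Ki : ℕ}
    (hS : SProp g S w (fun _ => True) R) (hi : OutB g S w (fun _ => True) i Ki)
    (hB : ∀ A, ChB g S (fun P => Rch g A P ∧ Rch g P A) w R B) (n : ℕ) :
    ∀ (C : N → Prop) (KC : ℕ), OutB g S w C (i + 1) KC → {E | ¬ C E}.ncard ≤ n →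
      ∃ K, OutB g S w (fun _ => True) (i + 1) K := by
  classical
  induction n with
  | zero =>
    intro C KC hC hn
    have h1 : {E | ¬ C E} = ∅ := by
      rw [← Set.ncard_eq_zero (Set.toFinite _)]
      omega
    have h2 : ∀ E, C E := by
      intro E
      by_contra hE
      have : E ∈ {E | ¬ C E} := hE
      rw [h1] at this
      exact this
    exact ⟨KC, fun A _ => hC A (h2 A)⟩
  | succ n ih =>
    intro C KC hC hn
    by_cases hall : ∀ E, C E
    · exact ⟨KC, fun A _ => hC A (hall A)⟩
    · push Not at hall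
      obtain ⟨A, hA, hmin⟩ := exists_min_label (g := g) C hall
      refine ih _ _ (out_step hS hi hC (hB A) hmin) ?_
      have hss : {E | ¬ (C E ∨ (Rch g A E ∧ Rch g E A))} ⊂ {E | ¬ C E} := by
        constructor
        · intro E hE h
          exact hE (Or.inl h)
        · intro h
          exact h hA (Or.inr ⟨Rch.refl A, Rch.refl A⟩)
      have := Set.ncard_lt_ncard hss (Set.toFinite _)
      omega

/-- The bound for short outer parts. -/
theorem out_bound {ι : Type} {w : ι → List T} {R B : ℕ}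
    (hS : SProp g S w (fun _ => True) R)
    (hB : ∀ A, ChB g S (fun P => Rch g A P ∧ Rch g P A) w R B) (i : ℕ) :
    ∃ K, OutB g S w (fun _ => True) i K := by
  induction i with
  | zero =>
    refine ⟨R, ?_⟩
    intro A _ x ζ z W p s hder hlen hW hl
    have hx : x = [] := List.length_eq_zero_iff.mp (by omega)
    have hz : z = [] := List.length_eq_zero_iff.mp (by omega)
    subst hx hz
    refine (hS A trivial W p ζ s hW (by simpa using hder) (by omega)).mono ?_
    intro y hy
    simpa using hy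
  | succ i ih =>
    obtain ⟨Ki, hi⟩ := ih
    refine out_bound_aux hS hi hB {E : N | ¬ False}.ncard (fun _ => False) 0 ?_ le_rfl
    intro A hA
    exact hA.elim

end

end Pool.Agent.MP5ca50a
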