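import Pool.Agent.Lib.MP_5ca50a_lc.BGram
import Pool.Agent.Lib.MP_5ca50a_lc.Alph

/-!
The automata step: if the loop groups of all labels are locally finite then the language is
regular.
-/

set_option autoImplicit false

namespace Pool.Agent.MP5ca50a

namespace BG

variable {T N : Type} {g : BG T N}

/-- Where a cut of a derived word falls. -/
lemma Der.cut {A : N} {W : List T} (h : g.Der A W) :
    ∀ w b : List T, W = w ++ b → ∃ P s t, g.DC A s t P ∧
      ((w = s ∧ ∃ b0, b = b0 ++ t ∧ g.Der P b0) ∨ (b = t ∧ ∃ w0, w = s ++ w0 ∧ g.Der P w0)) := by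
  induction h with
  | @eps A h =>
    intro w b hw
    obtain ⟨rfl, rfl⟩ := List.append_eq_nil_iff.mp hw.symm
    exact ⟨A, [], [], DC.refl A, Or.inl ⟨rfl, [], rfl, Der.eps h⟩⟩
  | @ter A a h =>
    intro w b hw
    rcases List.append_eq_singleton_iff.mp hw.symm with ⟨rfl, rfl⟩ | ⟨rfl, rfl⟩
    · exact ⟨A, [], [], DC.refl A, Or.inl ⟨rfl, [a], rfl, Der.ter h⟩⟩
    · exact ⟨A, [], [], DC.refl A, Or.inr ⟨rfl, [a], rfl, Der.ter h⟩⟩
  | @bin A B C W1 W2 h hB hC ih1 ih2 =>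
    intro w b hw
    rcases List.append_eq_append_iff.mp hw with ⟨x, rfl, rfl⟩ | ⟨x, rfl, rfl⟩
    · -- w = W1 ++ x, W2 = x ++ b
      obtain ⟨P, s, t, hD, h1 | h1⟩ := ih2 x b rfl
      · obtain ⟨rfl, b0, rfl, h2⟩ := h1
        exact ⟨P, _, _, DC.right h hB hD, Or.inl ⟨rfl, b0, rfl, h2⟩⟩
      · obtain ⟨rfl, w0, rfl, h2⟩ := h1
        exact ⟨P, _, _, DC.right h hB hD, Or.inr ⟨rfl, w0, by simp, h2⟩⟩
    · -- W1 = w ++ x, b = x ++ W2
      obtain ⟨P, s, t, hD, h1 | h1⟩ := ih1 w x rfl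
      · obtain ⟨rfl, b0, rfl, h2⟩ := h1
        exact ⟨P, _, _, DC.left h hC hD, Or.inl ⟨rfl, b0, by simp, h2⟩⟩
      · obtain ⟨rfl, w0, rfl, h2⟩ := h1
        exact ⟨P, _, _, DC.left h hC hD, Or.inr ⟨rfl, w0, rfl, h2⟩⟩

/-- Reachability of labels. -/
def Rch (g : BG T N) (A B : N) : Prop := ∃ s t, g.DC A s t B

lemma Rch.trans {A B C : N} (h : g.Rch A B) (h' : g.Rch B C) : g.Rch A C := by
  obtain ⟨s, t, h⟩ := h
  obtain ⟨s', t', h'⟩ := h'
  exact ⟨_, _, h.trans h'⟩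

lemma Rch.refl (A : N) : g.Rch A A := ⟨_, _, DC.refl A⟩

/-- Strong component. -/
def Comp (g : BG T N) (A B : N) : Prop := g.Rch A B ∧ g.Rch B A

/-- One-step contexts. -/
inductive Stp (g : BG T N) : N → N → Bool → List T → List T → Prop
  | l {A B C : N} {w : List T} (h : g.b A B C) (hC : g.Der C w) : Stp g A B true [] w
  | r {A B C : N} {w : List T} (h : g.b A B C) (hB : g.Der B w) : Stp g A C false w []

lemma Stp.dc {A B : N} {σ : Bool} {a b : List T} (h : g.Stp A B σ a b) : g.DC A a b B := by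
  cases h with
  | l h hC => exact DC.left1 h hC
  | r h hB => exact DC.right1 h hB

lemma Stp.mix {A B : N} {σ : Bool} {a b a' b' : List T} (h : g.Stp A B σ a b)
    (h' : g.Stp A B σ a' b') : g.DC A a b' B := by
  cases h with
  | l h hC =>
    cases h' with
    | l h' hC' => exact DC.left1 h' hC'
  | r h hB =>
    cases h' with
    | r h' hB' => exact DC.right1 h hB

/-- Finite mixing data for the contexts from `A` to `P`. -/
def Mix (g : BG T N) (S A P : N) : Prop :=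
  ∃ (Q : Type) (_ : Finite Q) (ρ : Q → List T → List T → Prop),
    (∀ s t, g.DC A s t P → ∃ q, ρ q s t) ∧
    ∀ q s t s' t', ρ q s t → ρ q s' t' → TT (g.M S A) (g.M S P) s t'

/-- Mixing inside a strong component. -/
lemma mix_comp [Finite N] {S : N} {k : ℕ} (hP : CondP (k + 1) (g.Lg S))
    {A : N} (hfin : ∀ (n : ℕ) (z : Fin n → Lp (g.M S A)),
      ¬ InfImg (fun i => cls (BG.condP_M hP A) (z i)))
    {P : N} (hAP : g.Comp A P) : g.Mix S A P := by
  classical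
  have hA := BG.condP_M hP A
  have hex : ∀ B, g.Comp A B → Nonempty (Fr (BG.condP_M hP A) (g.M S B)) := by
    rintro B ⟨⟨s, t, h⟩, ⟨s', t', h'⟩⟩
    exact exists_fr _ (BG.condP_M hP B) h.tt h'.tt
  let fr : ∀ B, g.Comp A B → Fr (BG.condP_M hP A) (g.M S B) := fun B h => (hex B h).some
  let E : Set (LQ (BG.condP_M hP A)) := {q | ∃ (B B' : N) (σ : Bool) (hB : g.Comp A B)
    (hB' : g.Comp A B') (a b : List T) (h : g.Stp B B' σ a b),
    q = gam (fr B hB) (fr B' hB') (h.dc.tt)}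
  have hE : E.Finite := by
    have h1 : E ⊆ ⋃ x : N × N × Bool, {q | ∃ (hB : g.Comp A x.1) (hB' : g.Comp A x.2.1)
        (a b : List T) (h : g.Stp x.1 x.2.1 x.2.2 a b),
        q = gam (fr x.1 hB) (fr x.2.1 hB') (h.dc.tt)} := by
      rintro q ⟨B, B', σ, hB, hB', a, b, h, rfl⟩
      exact Set.mem_iUnion.2 ⟨(B, B', σ), hB, hB', a, b, h, rfl⟩
    refine (Set.finite_iUnion ?_).subset h1
    rintro ⟨B, B', σ⟩
    apply Set.Subsingleton.finite
    rintro _ ⟨hB, hB', a, b, h, rfl⟩ _ ⟨_, _, a', b', h', rfl⟩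
    cases h with
    | l h hC =>
      cases h' with
      | l h' hC' => exact gam_left _ _ _ _
    | r h hB =>
      cases h' with
      | r h' hB' => exact gam_right _ _ _ _
  have : Finite E := hE
  obtain ⟨n, ⟨e⟩⟩ := Finite.exists_equiv_fin E
  choose z hz using fun i : Fin n => cls_surj (e.symm i).1
  set f : Fin n → LQ (BG.condP_M hP A) := fun i => cls (BG.condP_M hP A) (z i) with hf
  have hR : (Set.range (ev f)).Finite := Set.not_infinite.1 (hfin n z)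
  have hval : ∀ (B : N) (s t : List T) (P : N) (h : g.DC B s t P) (hB : g.Comp A B)
      (hPc : g.Comp A P), gam (fr B hB) (fr P hPc) (h.tt (S := S)) ∈ Set.range (ev f) := by
    intro B s t P h
    induction h with
    | refl B =>
      intro hB hPc
      exact ⟨[], (gam_refl _).symm⟩
    | @left B B' C D s t w hr hC hD ih =>
      intro hB hPc
      have hB' : g.Comp A B' := ⟨hB.1.trans ⟨_, _, DC.left1 hr hC⟩,
        Rch.trans ⟨_, _, hD⟩ hPc.2⟩
      obtain ⟨l, hl⟩ := ih hB' hPc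
      have hmem : gam (fr B hB) (fr B' hB') ((Stp.l hr hC).dc.tt (S := S)) ∈ E :=
        ⟨B, B', true, hB, hB', [], w, Stp.l hr hC, rfl⟩
      refine ⟨e ⟨_, hmem⟩ :: l, ?_⟩
      rw [ev_cons, hl, hf]
      simp only [hz, Equiv.symm_apply_apply]
      rw [gam_comp]
    | @right B C B' D s t w hr hC hD ih =>
      intro hB hPc
      have hB' : g.Comp A B' := ⟨hB.1.trans ⟨_, _, DC.right1 hr hC⟩,
        Rch.trans ⟨_, _, hD⟩ hPc.2⟩
      obtain ⟨l, hl⟩ := ih hB' hPc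
      have hmem : gam (fr B hB) (fr B' hB') ((Stp.r hr hC).dc.tt (S := S)) ∈ E :=
        ⟨B, B', false, hB, hB', w, [], Stp.r hr hC, rfl⟩
      refine ⟨e ⟨_, hmem⟩ :: l, ?_⟩
      rw [ev_cons, hl, hf]
      simp only [hz, Equiv.symm_apply_apply]
      rw [gam_comp]
      exact gam_left _ _ _ _
  have hAA : g.Comp A A := ⟨Rch.refl A, Rch.refl A⟩
  refine ⟨Set.range (ev f), hR, fun q s t => ∃ h : TT (g.M S A) (g.M S P) s t,
    gam (fr A hAA) (fr P hAP) h = q.1, ?_, ?_⟩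
  · intro s t h
    exact ⟨⟨_, hval A s t P h hAA hAP⟩, h.tt, rfl⟩
  · rintro q s t s' t' ⟨h, hq⟩ ⟨h', hq'⟩ m hm
    have h1 := (gam_eq_iff (fr A hAA) (fr P hAP) h h').1 (hq.trans hq'.symm) (m ++ t')
    have h2 := h' m hm
    rw [List.append_assoc] at h2 ⊢
    exact h1.2 h2

/-- The last exit from a component. -/
lemma DC.exit {A B P : N} {s t : List T} (h : g.DC B s t P) (hB : g.Comp A B)
    (hP : ¬ g.Comp A P) :
    ∃ A' E σ s1 t1 a b s2 t2, g.DC B s1 t1 A' ∧ g.Comp A A' ∧ g.Stp A' E σ a b ∧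
      ¬ g.Comp A E ∧ g.DC E s2 t2 P ∧ s = s1 ++ (a ++ s2) ∧ t = (t2 ++ b) ++ t1 := by
  induction h with
  | refl B => exact (hP hB).elim
  | @left B B' C D s t w hr hC hD ih =>
    by_cases hB' : g.Comp A B'
    · obtain ⟨A', E, σ, s1, t1, a, b, s2, t2, h1, h2, h3, h4, h5, rfl, rfl⟩ := ih hB' hP
      exact ⟨A', E, σ, s1, t1 ++ w, a, b, s2, t2, DC.left hr hC h1, h2, h3, h4, h5, rfl, by simp⟩
    · exact ⟨B, B', true, [], [], [], w, s, t, DC.refl B, hB, Stp.l hr hC, hB', hD, by simp,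
        by simp⟩
  | @right B C B' D s t w hr hC hD ih =>
    by_cases hB' : g.Comp A B'
    · obtain ⟨A', E, σ, s1, t1, a, b, s2, t2, h1, h2, h3, h4, h5, rfl, rfl⟩ := ih hB' hP
      exact ⟨A', E, σ, w ++ s1, t1, a, b, s2, t2, DC.right hr hC h1, h2, h3, h4, h5, by simp, rfl⟩
    · exact ⟨B, B', false, [], [], w, [], s, t, DC.refl B, hB, Stp.r hr hC, hB', hD, by simp,
        by simp⟩

lemma mix_all [Finite N] {S : N} {k : ℕ} (hP : CondP (k + 1) (g.Lg S))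
    (hfin : ∀ (A : N) (n : ℕ) (z : Fin n → Lp (g.M S A)),
      ¬ InfImg (fun i => cls (BG.condP_M hP A) (z i))) :
    ∀ (n : ℕ) (A : N), {B | g.Rch A B}.ncard = n → ∀ P, g.Mix S A P := by
  classical
  intro n
  induction n using Nat.strong_induction_on with
  | _ n ih =>
    intro A hA P
    by_cases hAP : g.Comp A P
    · exact mix_comp hP (hfin A) hAP
    have h1 : ∀ A', ∃ (Q : Type) (_ : Finite Q) (ρ : Q → List T → List T → Prop),
        (g.Comp A A' → ∀ s t, g.DC A s t A' → ∃ q, ρ q s t) ∧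
        ∀ q s t s' t', ρ q s t → ρ q s' t' → TT (g.M S A) (g.M S A') s t' := by
      intro A'
      by_cases h : g.Comp A A'
      · obtain ⟨Q, hQ, ρ, h1, h2⟩ := mix_comp hP (hfin A) h
        exact ⟨Q, hQ, ρ, fun _ => h1, h2⟩
      · exact ⟨Unit, inferInstance, fun _ _ _ => False, fun h' => (h h').elim,
          fun _ _ _ _ _ h => h.elim⟩
    have h2 : ∀ E, ∃ (Q : Type) (_ : Finite Q) (ρ : Q → List T → List T → Prop),
        (g.Rch A E → ¬ g.Comp A E → ∀ s t, g.DC E s t P → ∃ q, ρ q s t) ∧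
        ∀ q s t s' t', ρ q s t → ρ q s' t' → TT (g.M S E) (g.M S P) s t' := by
      intro E
      by_cases h : g.Rch A E ∧ ¬ g.Comp A E
      · have hlt : {B | g.Rch E B}.ncard < n := by
          rw [← hA]
          apply Set.ncard_lt_ncard _ (Set.toFinite _)
          rw [Set.ssubset_iff_of_subset]
          · refine ⟨A, Rch.refl A, fun hEA => h.2 ⟨h.1, hEA⟩⟩
          · intro B hB
            exact h.1.trans hB
        obtain ⟨Q, hQ, ρ, h1, h2⟩ := ih _ hlt E rfl P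
        exact ⟨Q, hQ, ρ, fun _ _ => h1, h2⟩
      · exact ⟨Unit, inferInstance, fun _ _ _ => False, fun h' h'' => (h ⟨h', h''⟩).elim,
          fun _ _ _ _ _ h => h.elim⟩
    choose Q1 hQ1 ρ1 hρ1 hm1 using h1
    choose Q2 hQ2 ρ2 hρ2 hm2 using h2
    refine ⟨Σ A' : N, Σ E : N, Bool × Q1 A' × Q2 E, inferInstance, fun q s t =>
      ∃ s1 t1 a b s2 t2, ρ1 q.1 q.2.2.2.1 s1 t1 ∧ g.Stp q.1 q.2.1 q.2.2.1 a b ∧
        ρ2 q.2.1 q.2.2.2.2 s2 t2 ∧ s = s1 ++ (a ++ s2) ∧ t = (t2 ++ b) ++ t1, ?_, ?_⟩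
    · intro s t h
      obtain ⟨A', E, σ, s1, t1, a, b, s2, t2, h3, h4, h5, h6, h7, h8, h9⟩ :=
        h.exit ⟨Rch.refl A, Rch.refl A⟩ hAP
      obtain ⟨q1, hq1⟩ := hρ1 A' h4 s1 t1 h3
      obtain ⟨q2, hq2⟩ := hρ2 E (h4.1.trans ⟨_, _, h5.dc⟩) h6 s2 t2 h7
      exact ⟨⟨A', E, σ, q1, q2⟩, s1, t1, a, b, s2, t2, hq1, h5, hq2, h8, h9⟩
    · rintro ⟨A', E, σ, q1, q2⟩ s t s' t' ⟨s1, t1, a, b, s2, t2, h3, h4, h5, rfl, rfl⟩
        ⟨s1', t1', a', b', s2', t2', h3', h4', h5', rfl, rfl⟩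
      exact (hm1 A' q1 _ _ _ _ h3 h3').comp (((h4.mix h4').tt).comp (hm2 E q2 _ _ _ _ h5 h5'))

end BG

theorem finish {T N : Type} [Finite T] [Finite N] (g : BG T N) (S : N) {k : ℕ}
    (hP : CondP (k + 1) (g.Lg S))
    (hfin : ∀ (A : N) (n : ℕ) (z : Fin n → Lp (g.M S A)),
      ¬ InfImg (fun i => cls (BG.condP_M hP A) (z i))) :
    (g.Lg S).IsRegular := by
  classical
  have hmix : ∀ P, g.Mix S S P := fun P => BG.mix_all hP hfin _ S rfl P
  choose Q hQ ρ hρ hm using hmix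
  apply Language.IsRegular.of_finite_range_leftQuotient
  let I : Type := Σ P : N, Q P × Bool
  let Left : I → Set (List T) := fun i => if i.2.2 then
      {w | ∃ t, g.DC S w t i.1 ∧ ρ i.1 i.2.1 w t}
    else {w | ∃ s w0 t, w = s ++ w0 ∧ g.DC S s t i.1 ∧ ρ i.1 i.2.1 s t ∧ g.Der i.1 w0}
  let Right : I → Set (List T) := fun i => if i.2.2 then
      {b | ∃ b0 t s, b = b0 ++ t ∧ g.DC S s t i.1 ∧ ρ i.1 i.2.1 s t ∧ g.Der i.1 b0}
    else {b | ∃ s, g.DC S s b i.1 ∧ ρ i.1 i.2.1 s b}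
  have hkey : ∀ w b : List T, g.Der S (w ++ b) ↔ ∃ i : I, w ∈ Left i ∧ b ∈ Right i := by
    intro w b
    constructor
    · intro h
      obtain ⟨P, s, t, hD, h1 | h1⟩ := h.cut w b rfl
      · obtain ⟨rfl, b0, rfl, h2⟩ := h1
        obtain ⟨q, hq⟩ := hρ P w t hD
        refine ⟨⟨P, q, true⟩, ?_, ?_⟩
        · exact ⟨t, hD, hq⟩
        · exact ⟨b0, t, w, rfl, hD, hq, h2⟩
      · obtain ⟨rfl, w0, rfl, h2⟩ := h1
        obtain ⟨q, hq⟩ := hρ P s b hD
        refine ⟨⟨P, q, false⟩, ?_, ?_⟩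
        · exact ⟨s, w0, b, rfl, hD, hq, h2⟩
        · exact ⟨s, hD, hq⟩
    · rintro ⟨⟨P, q, σ⟩, h1, h2⟩
      cases σ with
      | true =>
        obtain ⟨t, h3, h4⟩ := h1
        obtain ⟨b0, t', s', rfl, h5, h6, h7⟩ := h2
        have h8 := hm P q _ _ _ _ h4 h6 b0 (BG.der_mem_M h7)
        rw [BG.mem_M_self] at h8
        simpa using h8
      | false =>
        obtain ⟨s, w0, t, rfl, h3, h4, h5⟩ := h1
        obtain ⟨s', h6, h7⟩ := h2
        have h8 := hm P q _ _ _ _ h4 h7 w0 (BG.der_mem_M h5)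
        rwa [BG.mem_M_self] at h8
  have hfac : ∀ w, (g.Lg S).leftQuotient w =
      (fun X : Set I => ({b | ∃ i ∈ X, b ∈ Right i} : Language T)) {i | w ∈ Left i} := by
    intro w
    ext b
    change g.Der S (w ++ b) ↔ ∃ i, w ∈ Left i ∧ b ∈ Right i
    exact hkey w b
  refine (Set.finite_range (fun X : Set I => ({b | ∃ i ∈ X, b ∈ Right i} : Language T))).subset ?_
  rintro _ ⟨w, rfl⟩
  exact ⟨_, (hfac w).symm⟩

end Pool.Agent.MP5ca50a
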