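import Pool.Agent.Lib.MP_5ca50a_lc.Sem

/-!
The group of two-sided loops of a language, and group values of typed transitions.
-/

set_option autoImplicit false

namespace Pool.Agent.MP5ca50a

variable {T : Type}

/-- Two-sided loops. -/
structure Lp (M : Language T) where
  u : List T
  v : List T
  h : TT M M u v

namespace Lp

variable {M : Language T}

lemma ext' {a b : Lp M} (h : a.u = b.u) (h' : a.v = b.v) : a = b := by
  cases a; cases b; simp_all

instance : Monoid (Lp M) where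
  mul a b := ⟨a.u ++ b.u, b.v ++ a.v, a.h.comp b.h⟩
  one := ⟨[], [], TT.refl M⟩
  mul_assoc a b c := ext' (List.append_assoc _ _ _) (List.append_assoc _ _ _).symm
  one_mul a := ext' (List.nil_append _) (List.append_nil _)
  mul_one a := ext' (List.append_nil _) (List.nil_append _)

lemma mul_u (a b : Lp M) : (a * b).u = a.u ++ b.u := rfl
lemma mul_v (a b : Lp M) : (a * b).v = b.v ++ a.v := rfl
lemma one_u : (1 : Lp M).u = [] := rfl
lemma one_v : (1 : Lp M).v = [] := rfl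

lemma pow_u (a : Lp M) (n : ℕ) : (a ^ n).u = wpow a.u n := by
  induction n with
  | zero => simp [one_u]
  | succ n ih => rw [pow_succ, mul_u, ih, wpow_succ]

end Lp

variable {M : Language T} {k : ℕ}

/-- The congruence: same left residual. -/
def lpCon (hP : CondP (k + 1) M) : Con (Lp M) where
  r a b := ∀ x, a.u ++ x ∈ M ↔ b.u ++ x ∈ M
  iseqv := ⟨fun _ _ => Iff.rfl, fun h x => (h x).symm, fun h h' x => (h x).trans (h' x)⟩
  mul' {a b c d} h h' x := by
    rw [Lp.mul_u, Lp.mul_u, List.append_assoc, List.append_assoc, h (c.u ++ x), a1 hP b.h,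
      a1 hP b.h, List.append_assoc, List.append_assoc, h']

/-- The loop group of `M`. -/
def LQ (hP : CondP (k + 1) M) : Type := (lpCon hP).Quotient

instance (hP : CondP (k + 1) M) : Monoid (LQ hP) :=
  inferInstanceAs (Monoid (lpCon hP).Quotient)

/-- Class of a loop. -/
def cls (hP : CondP (k + 1) M) (a : Lp M) : LQ hP := ((a : (lpCon hP).Quotient))

lemma cls_mul (hP : CondP (k + 1) M) (a b : Lp M) : cls hP (a * b) = cls hP a * cls hP b := rfl
lemma cls_one (hP : CondP (k + 1) M) : cls hP (1 : Lp M) = 1 := rfl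
lemma cls_pow (hP : CondP (k + 1) M) (a : Lp M) (n : ℕ) : cls hP (a ^ n) = cls hP a ^ n := by
  induction n with
  | zero => simp [cls_one]
  | succ n ih => rw [pow_succ, pow_succ, cls_mul, ih]

lemma cls_eq {hP : CondP (k + 1) M} {a b : Lp M} :
    cls hP a = cls hP b ↔ ∀ x, a.u ++ x ∈ M ↔ b.u ++ x ∈ M := Con.eq (lpCon hP)

lemma cls_surj {hP : CondP (k + 1) M} (q : LQ hP) : ∃ a : Lp M, cls hP a = q :=
  Quotient.exists_rep q

lemma LQ.pow_eq_one {hP : CondP (k + 1) M} (q : LQ hP) : q ^ (k + 1) = 1 := by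
  obtain ⟨a, rfl⟩ := cls_surj q
  rw [← cls_pow, ← cls_one, cls_eq]
  intro x
  rw [Lp.pow_u, Lp.one_u, List.nil_append]
  exact f3l hP a.h x

instance (hP : CondP (k + 1) M) : Group (LQ hP) where
  inv x := x ^ k
  inv_mul_cancel x := by
    change x ^ k * x = 1
    rw [← pow_succ, LQ.pow_eq_one]

lemma cls_eq_of_left {hP : CondP (k + 1) M} {a b : Lp M} (h : a.u = b.u) :
    cls hP a = cls hP b := by
  rw [cls_eq]; intro x; rw [h]

lemma cls_eq_of_right {hP : CondP (k + 1) M} {a b : Lp M} (h : a.v = b.v) :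
    cls hP a = cls hP b := by
  rw [cls_eq]; intro x; rw [a1 hP a.h, a1 hP b.h, h]

lemma wpow_rotate (c s : List T) (n : ℕ) :
    wpow (c ++ s) (n + 1) = c ++ wpow (s ++ c) n ++ s := by
  induction n with
  | zero => simp
  | succ n ih =>
    rw [wpow_succ', ih, wpow_succ' (s ++ c) n]
    simp [List.append_assoc]

/-- A frame connects the base language `M` with a language `M'` in the same component. -/
structure Fr (hP : CondP (k + 1) M) (M' : Language T) where
  hP' : CondP (k + 1) M'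
  s : List T
  t : List T
  c : List T
  d : List T
  h1 : TT M M' s t
  h2 : TT M' M c d
  hn : cls hP (⟨s ++ c, d ++ t, h1.comp h2⟩ : Lp M) = 1

/-- The frame of the base. -/
def Fr.base (hP : CondP (k + 1) M) : Fr hP M where
  hP' := hP
  s := []
  t := []
  c := []
  d := []
  h1 := TT.refl M
  h2 := TT.refl M
  hn := rfl

lemma exists_fr (hP : CondP (k + 1) M) {M' : Language T} (hP' : CondP (k + 1) M')
    {s t c d : List T} (h1 : TT M M' s t) (h2 : TT M' M c d) : Nonempty (Fr hP M') := by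
  let z : Lp M := ⟨s ++ c, d ++ t, h1.comp h2⟩
  have h3 : TT M M (wpow (s ++ c) k) (wpow (d ++ t) k) := z.h.wpow k
  refine ⟨⟨hP', s, t, c ++ wpow (s ++ c) k, wpow (d ++ t) k ++ d, h1, h2.comp h3, ?_⟩⟩
  rw [← cls_one, cls_eq]
  intro x
  simp only [Lp.one_u, List.nil_append]
  have h4 : s ++ (c ++ wpow (s ++ c) k) = wpow (s ++ c) (k + 1) := by
    rw [wpow_succ', List.append_assoc]
  rw [h4]
  exact f3l hP z.h x

section frames

variable {hP : CondP (k + 1) M} {M₁ M₂ M₃ : Language T}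

/-- At a position of type `M₁` the frame loop can be inserted. -/
lemma frame_ins (f : Fr hP M₁) {s t : List T} (h : TT M M₁ s t) (x : List T) :
    s ++ (f.c ++ (f.s ++ x)) ∈ M ↔ s ++ x ∈ M := by
  rw [← f5l hP f.hP' h f.h2 (f.h2.comp f.h1) x, wpow_rotate]
  have h1 : cls hP ((⟨s ++ f.c, f.d ++ t, h.comp f.h2⟩ : Lp M) *
      (⟨f.s ++ f.c, f.d ++ f.t, f.h1.comp f.h2⟩ : Lp M) ^ k) =
      cls hP (⟨s ++ f.c, f.d ++ t, h.comp f.h2⟩ : Lp M) := by
    rw [cls_mul, cls_pow, f.hn]; simp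
  have h2 := (cls_eq.mp h1) (f.s ++ x)
  rw [Lp.mul_u, Lp.pow_u] at h2
  simp only [List.append_assoc] at h2 ⊢
  exact h2.symm

/-- Group value of a typed transition. -/
def gam (f : Fr hP M₁) (f' : Fr hP M₂) {a b : List T} (h : TT M₁ M₂ a b) : LQ hP :=
  cls hP ⟨f.s ++ a ++ f'.c, f'.d ++ (b ++ f.t), (f.h1.comp h).comp f'.h2⟩

lemma gam_refl (f : Fr hP M₁) : gam f f (TT.refl M₁) = 1 := by
  rw [← f.hn]
  apply cls_eq_of_left
  simp

lemma gam_comp (f : Fr hP M₁) (f' : Fr hP M₂) (f'' : Fr hP M₃) {a b a' b' : List T}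
    (h : TT M₁ M₂ a b) (h' : TT M₂ M₃ a' b') :
    gam f f' h * gam f' f'' h' = gam f f'' (h.comp h') := by
  unfold gam
  rw [← cls_mul, cls_eq]
  intro x
  have := frame_ins f' (f.h1.comp h) (a' ++ f''.c ++ x)
  simpa [Lp.mul_u, List.append_assoc] using this

lemma gam_left (f : Fr hP M₁) (f' : Fr hP M₂) {a b b' : List T} (h : TT M₁ M₂ a b)
    (h' : TT M₁ M₂ a b') : gam f f' h = gam f f' h' := cls_eq_of_left rfl

lemma gam_right (f : Fr hP M₁) (f' : Fr hP M₂) {a a' b : List T} (h : TT M₁ M₂ a b)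
    (h' : TT M₁ M₂ a' b) : gam f f' h = gam f f' h' := cls_eq_of_right rfl

lemma gam_eq_iff (f : Fr hP M₁) (f' : Fr hP M₂) {a b a' b' : List T} (h : TT M₁ M₂ a b)
    (h' : TT M₁ M₂ a' b') :
    gam f f' h = gam f f' h' ↔ ∀ x, a ++ x ∈ M₁ ↔ a' ++ x ∈ M₁ := by
  unfold gam
  rw [cls_eq]
  constructor
  · intro hc y
    rw [← f4 f.hP' f.h1 f.h2, ← f4 f.hP' f.h1 f.h2]
    have h1 := frame_ins f' (f.h1.comp h) (y ++ f.t)
    have h2 := frame_ins f' (f.h1.comp h') (y ++ f.t)
    have h3 := hc (f'.s ++ (y ++ f.t))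
    simp only [List.append_assoc] at h1 h2 h3 ⊢
    rw [← h1, h3, h2]
  · intro hc x
    have h1 := g1 hP f.hP' f.h1 f.h2 (a ++ (f'.c ++ x))
    have h2 := g1 hP f.hP' f.h1 f.h2 (a' ++ (f'.c ++ x))
    simp only [List.append_assoc] at h1 h2 ⊢
    rw [h1, h2]
    exact hc _

lemma gam_surj (f : Fr hP M₁) (q : LQ hP) :
    ∃ (a b : List T) (h : TT M M₁ a b), gam (Fr.base hP) f h = q := by
  obtain ⟨z, rfl⟩ := cls_surj q
  refine ⟨z.u ++ f.s, f.t ++ z.v, z.h.comp f.h1, ?_⟩
  have h1 : cls hP (z * (⟨f.s ++ f.c, f.d ++ f.t, f.h1.comp f.h2⟩ : Lp M)) = cls hP z := by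
    rw [cls_mul, f.hn, mul_one]
  rw [← h1]
  apply cls_eq_of_left
  simp [Fr.base, Lp.mul_u]

end frames

end Pool.Agent.MP5ca50a
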