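import Pool.Agent.Lib.MP_5ca50a_lc.Final
import Pool.Agent.Lib.MP_5ca50a_lc.Finish

/-!
The loop groups are locally finite, hence the language is regular.
-/

set_option autoImplicit false

namespace Pool.Agent.MP5ca50a

open TrackSys

section

variable {T : Type} {M : Language T} {k : ℕ}

lemma ev_lp_u {ι : Type} (z : ι → Lp M) (F : List ι) :
    (ev z F).u = F.flatMap (fun i => (z i).u) := by
  induction F with
  | nil => rfl
  | cons a F ih => rw [ev_cons, Lp.mul_u, ih, List.flatMap_cons]

lemma cls_ev (hP : CondP (k + 1) M) {ι : Type} (z : ι → Lp M) (F : List ι) :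
    cls hP (ev z F) = ev (fun i => cls hP (z i)) F := by
  induction F with
  | nil => rfl
  | cons a F ih => rw [ev_cons, cls_mul, ih, ev_cons]

/-- Trivial letters can be dropped. -/
lemma infImg_sub {ι G : Type} [Monoid G] (Λ : ι → G) (p : ι → Prop)
    (hp : ∀ i, ¬ p i → Λ i = 1) (h : InfImg Λ) : InfImg (fun i : {i // p i} => Λ i.1) := by
  classical
  refine Set.Infinite.mono ?_ h
  rintro _ ⟨W, rfl⟩
  induction W with
  | nil => exact ⟨[], rfl⟩
  | cons a W ih =>
    obtain ⟨V, hV⟩ := ih
    by_cases ha : p a
    · exact ⟨⟨a, ha⟩ :: V, by rw [ev_cons, hV, ev_cons]⟩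
    · exact ⟨V, by rw [hV, ev_cons, hp a ha, one_mul]⟩

lemma flatMap_replicate'' {ι : Type} (w : ι → List T) (a : ι) (n : ℕ) :
    (List.replicate n a).flatMap w = wpow (w a) n := by
  induction n with
  | zero => simp
  | succ n ih => rw [List.replicate_succ, List.flatMap_cons, ih, wpow_succ']

end

variable {T N : Type} [Finite T] [Finite N] {g : BG T N} {S : N} {k : ℕ}

theorem no_inf (hP : CondP (k + 1) (g.Lg S)) (A : N) (n : ℕ) (z : Fin n → Lp (g.M S A)) :
    ¬ InfImg (fun i => cls (BG.condP_M hP A) (z i)) := by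
  classical
  intro hinf
  set hPA := BG.condP_M hP A with hhPA
  -- letters with nonempty left words
  have h1 : InfImg (fun i : {i : Fin n // (z i).u ≠ []} => cls hPA (z i.1)) := by
    refine infImg_sub (fun i => cls hPA (z i)) _ ?_ hinf
    intro i hi
    have h2 : (z i).u = (1 : Lp (g.M S A)).u := by
      rw [Lp.one_u]
      by_contra h
      exact hi h
    rw [← cls_one]
    exact cls_eq_of_left h2
  set ι := {i : Fin n // (z i).u ≠ []} with hι
  set w : ι → List T := fun i => (z i.1).u with hw
  obtain ⟨m, φ, hφ, hΛ, R, B, hS, hB⟩ := good_alphabet hP (G' := LQ hPA)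
    (fun q => LQ.pow_eq_one q) w (fun a => a.2) _ h1
  have hne : Nonempty (Fin m) := nonempty_of_infImg hΛ
  obtain ⟨a⟩ := hne
  set w' : Fin m → List T := cmp w φ with hw'
  have hw'ne : w' a ≠ [] := flatMap_ne_nil (fun a => a.2) (hφ a)
  -- words over the refined alphabet are left words of loops
  have hloop : ∀ f : List (Fin m), ∃ v, TT (g.M S A) (g.M S A) (f.flatMap w') v := by
    intro f
    refine ⟨(ev (fun i : ι => z i.1) (f.flatMap φ)).v, ?_⟩
    have h2 := (ev (fun i : ι => z i.1) (f.flatMap φ)).h
    rw [ev_lp_u, ← flatMap_cmp w φ f] at h2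
    exact h2
  obtain ⟨va, hva⟩ := hloop [a]
  rw [List.flatMap_singleton] at hva
  -- the main claim
  have hmain : ∀ f : List (Fin m), ∀ y ∈ g.M S A, f.flatMap w' ++ y ∈ g.M S A := by
    intro f y hy s t hst
    -- iterating a letter
    have hit : ∀ M, wpow (w' a) ((k + 1) * M) ++ y ∈ g.M S A := by
      intro M
      induction M with
      | zero => simpa using hy
      | succ M ih =>
        have h2 := (f3l hPA hva (wpow (w' a) ((k + 1) * M) ++ y)).mpr ih
        rw [Nat.mul_succ, Nat.add_comm, wpow_add]
        simpa [List.append_assoc] using h2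
    obtain ⟨K, hK⟩ := out_bound hS hB (s.length + (y ++ t).length)
    have hlen : K < (wpow (w' a) ((k + 1) * (K + 1))).length := by
      have h2 : (List.replicate ((k + 1) * (K + 1)) a).length ≤
          ((List.replicate ((k + 1) * (K + 1)) a).flatMap w').length :=
        length_le_flatMap w' (fun b => flatMap_ne_nil (fun a => a.2) (hφ b)) _
      rw [flatMap_replicate'', List.length_replicate] at h2
      have h3 : K + 1 ≤ (k + 1) * (K + 1) := Nat.le_mul_of_pos_left _ (Nat.succ_pos k)
      omega
    have hder : g.Der S (s ++ wpow (w' a) ((k + 1) * (K + 1)) ++ (y ++ t)) := by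
      have := hit (K + 1) s t hst
      simpa [List.append_assoc] using this
    obtain ⟨W₁, a', W₂, c, c', m₁, m₂, e1, e2, e3, e4, e5, e6⟩ := hK S trivial s _ (y ++ t)
      (List.replicate ((k + 1) * (K + 1)) a) [] [] hder le_rfl
      (by rw [flatMap_replicate'']; simp) hlen
    have ha' : a' = a := by
      have : a' ∈ List.replicate ((k + 1) * (K + 1)) a := by rw [e1]; simp
      exact List.eq_of_mem_replicate this
    have hW1 : W₁ = List.replicate W₁.length a := by
      rw [List.eq_replicate_iff]
      refine ⟨rfl, fun b hb => ?_⟩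
      have : b ∈ List.replicate ((k + 1) * (K + 1)) a := by rw [e1]; simp [hb]
      exact List.eq_of_mem_replicate this
    have hW2 : W₂ = List.replicate W₂.length a := by
      rw [List.eq_replicate_iff]
      refine ⟨rfl, fun b hb => ?_⟩
      have : b ∈ List.replicate ((k + 1) * (K + 1)) a := by rw [e1]; simp [hb]
      exact List.eq_of_mem_replicate this
    subst ha'
    rw [List.nil_append, hW1, flatMap_replicate''] at e4
    rw [List.append_nil, hW2, flatMap_replicate''] at e5
    set n₁ := W₁.length
    set n₂ := W₂.length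
    have hall : ∀ f : List (Fin m), s ++ wpow (w' a') (n₁ + 1) ++ f.flatMap w' ++
        wpow (w' a') (n₂ + 1) ++ (y ++ t) ∈ g.Lg S := by
      intro f
      have h2 := BG.mem_M_self.mp (e6 f)
      rw [e4, e5] at h2
      have h3 : g.Der S (s ++ (wpow (w' a') n₁ ++ (c ++ c')) ++ f.flatMap w' ++
        ((c ++ c') ++ wpow (w' a') n₂) ++ (y ++ t)) := by
        simpa [List.append_assoc] using h2
      rw [← e2, ← wpow_succ, ← wpow_succ'] at h3
      exact h3
    -- delete the powers
    have h5 : ∀ f : List (Fin m), s ++ f.flatMap w' ++ wpow (w' a') (n₂ + 1) ++ (y ++ t) ∈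
        g.Lg S := by
      intro f
      have := hP.left s (wpow (w' a') (n₁ + 1)) (f.flatMap w' ++ wpow (w' a') (n₂ + 1) ++ (y ++ t))
        (fun n hn => by
          obtain ⟨n, rfl⟩ : ∃ n', n = n' + 1 := ⟨n - 1, by omega⟩
          have h6 := hall (List.replicate ((n₁ + 1) * n) a' ++ f)
          rw [List.flatMap_append, flatMap_replicate''] at h6
          rw [wpow_succ', wpow_mul]
          simpa [List.append_assoc] using h6) 0
      simpa [List.append_assoc] using this
    have h6 := hP.right (s ++ f.flatMap w') (wpow (w' a') (n₂ + 1)) (y ++ t)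
      (fun n hn => by
        obtain ⟨n, rfl⟩ : ∃ n', n = n' + 1 := ⟨n - 1, by omega⟩
        have h7 := h5 (f ++ List.replicate ((n₂ + 1) * n) a')
        rw [List.flatMap_append, flatMap_replicate''] at h7
        rw [wpow_succ, wpow_mul]
        simpa [List.append_assoc] using h7) 0
    have h8 : g.Der S (s ++ f.flatMap w' ++ wpow (wpow (w' a') (n₂ + 1)) ((k + 1) * 0) ++
      (y ++ t)) := h6
    simpa [List.append_assoc] using h8
  -- iterates
  have hmainn : ∀ f : List (Fin m), ∀ j, ∀ y ∈ g.M S A, wpow (f.flatMap w') j ++ y ∈ g.M S A := by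
    intro f j
    induction j with
    | zero => intro y hy; simpa using hy
    | succ j ih =>
      intro y hy
      rw [wpow_succ', List.append_assoc]
      exact hmain f _ (ih y hy)
  -- all classes are trivial
  apply hΛ
  refine (Set.finite_singleton (1 : LQ hPA)).subset ?_
  rintro _ ⟨f, rfl⟩
  rw [Set.mem_singleton_iff, ← ev_flatMap, ← cls_ev hPA (fun i : ι => z i.1), ← cls_one, cls_eq]
  intro y
  rw [ev_lp_u, ← flatMap_cmp w φ f, Lp.one_u, List.nil_append]
  constructor
  · intro h
    obtain ⟨v, hv⟩ := hloop f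
    rw [← f3l hPA hv y, wpow_succ, List.append_assoc]
    exact hmainn f k _ h
  · exact hmain f y

/-- Context-free languages satisfying the condition are regular. -/
theorem regular_of_condP {T : Type} [Finite T] {L : Language T} (hL : L.IsContextFree) {k : ℕ}
    (hP : CondP (k + 1) L) : L.IsRegular := by
  obtain ⟨N, hN, g, S, hg⟩ := exists_bg hL
  have hLg : L = g.Lg S := by
    ext w
    exact hg w
  subst hLg
  exact finish g S hP (fun A n z => no_inf hP A n z)

end Pool.Agent.MP5ca50a
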