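import Pool.Agent.Lib.MP_5ca50a_lc.Words

/-!
Two-sided labelled graphs (spine graphs) and the loop congruence on paths.
-/

set_option autoImplicit false

namespace Pool.Agent.MP5ca50a

universe u v w

/-- A graph whose edges carry a left and a right nonempty language. -/
structure Spine (α : Type u) (V : Type v) (E : Type w) where
  src : E → V
  tgt : E → V
  l : E → Language α
  r : E → Language α
  l_ne : ∀ e, ∃ c, c ∈ l e
  r_ne : ∀ e, ∃ c, c ∈ r e

namespace Spine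

variable {α : Type u} {V : Type v} {E : Type w} (G : Spine α V E)

/-- `π` is a path from `v` to `v'`. -/
def IsPath : V → List E → V → Prop
  | v, [], v' => v = v'
  | v, e :: π, v' => G.src e = v ∧ IsPath (G.tgt e) π v'

@[simp] lemma isPath_nil {v v' : V} : G.IsPath v [] v' ↔ v = v' := Iff.rfl

@[simp] lemma isPath_cons {v v' : V} {e : E} {π : List E} :
    G.IsPath v (e :: π) v' ↔ G.src e = v ∧ G.IsPath (G.tgt e) π v' := Iff.rfl

lemma isPath_append {v v' : V} {a b : List E} :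
    G.IsPath v (a ++ b) v' ↔ ∃ m, G.IsPath v a m ∧ G.IsPath m b v' := by
  induction a generalizing v with
  | nil => simp
  | cons e a ih => simp [ih, and_assoc]

variable {G} in
lemma IsPath.append {v m v' : V} {a b : List E} (ha : G.IsPath v a m) (hb : G.IsPath m b v') :
    G.IsPath v (a ++ b) v' := G.isPath_append.mpr ⟨m, ha, hb⟩

variable {G} in
lemma IsPath.wpow {v : V} {a : List E} (ha : G.IsPath v a v) (n : ℕ) :
    G.IsPath v (wpow a n) v := by
  induction n with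
  | zero => simp
  | succ n ih => rw [wpow_succ]; exact ih.append ha

variable {G} in
lemma IsPath.unique {v v' v'' : V} {a : List E} (h : G.IsPath v a v') (h' : G.IsPath v a v'') :
    v' = v'' := by
  induction a generalizing v with
  | nil => exact h.symm.trans h'
  | cons e a ih => exact ih h.2 h'.2

/-- Left language of a path. -/
def L (π : List E) : Language α := (π.map G.l).prod

/-- Right language of a path. -/
def R (π : List E) : Language α := (π.map G.r).reverse.prod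

@[simp] lemma L_nil : G.L [] = 1 := by simp [L]
@[simp] lemma R_nil : G.R [] = 1 := by simp [R]
@[simp] lemma L_cons (e : E) (π : List E) : G.L (e :: π) = G.l e * G.L π := by simp [L]
@[simp] lemma R_cons (e : E) (π : List E) : G.R (e :: π) = G.R π * G.r e := by simp [R]
lemma L_append (a b : List E) : G.L (a ++ b) = G.L a * G.L b := by simp [L]
lemma R_append (a b : List E) : G.R (a ++ b) = G.R b * G.R a := by simp [R]

lemma L_wpow (a : List E) (n : ℕ) : G.L (wpow a n) = G.L a ^ n := by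
  induction n with
  | zero => simp
  | succ n ih => rw [wpow_succ, L_append, ih, pow_succ]

lemma R_wpow (a : List E) (n : ℕ) : G.R (wpow a n) = G.R a ^ n := by
  induction n with
  | zero => simp
  | succ n ih => rw [wpow_succ, R_append, ih, pow_succ']

lemma L_ne (π : List E) : ∃ c, c ∈ G.L π := by
  induction π with
  | nil => exact ⟨[], by simp⟩
  | cons e π ih =>
    obtain ⟨c, hc⟩ := ih
    obtain ⟨d, hd⟩ := G.l_ne e
    exact ⟨d ++ c, by rw [L_cons]; exact Language.append_mem_mul hd hc⟩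

lemma R_ne (π : List E) : ∃ c, c ∈ G.R π := by
  induction π with
  | nil => exact ⟨[], by simp⟩
  | cons e π ih =>
    obtain ⟨c, hc⟩ := ih
    obtain ⟨d, hd⟩ := G.r_ne e
    exact ⟨c ++ d, by rw [R_cons]; exact Language.append_mem_mul hc hd⟩

/-- The graph presents the language `K` from `s` to `t`. -/
def Presents (K : Language α) (s t : V) : Prop :=
  ∀ w β : List α, w ++ β ∈ K ↔ ∃ π, G.IsPath s π t ∧ w ∈ G.L π ∧ β ∈ G.R π

/-- Left words of `π` are compatible with right words of `π'`. -/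
def Comp (K : Language α) (π π' : List E) : Prop :=
  ∀ w ∈ G.L π, ∀ w' ∈ G.R π', w ++ w' ∈ K

variable {G}

lemma Comp.refl {K : Language α} {s t : V} (h : G.Presents K s t) {π : List E}
    (hπ : G.IsPath s π t) : G.Comp K π π :=
  fun w hw w' hw' => (h w w').mpr ⟨π, hπ, hw, hw'⟩

lemma Comp.loop {K : Language α} {k : ℕ} (hP : CondP k K) {p ℓ q p' ℓ' q' : List E}
    (h : ∀ n : ℕ, 1 ≤ n → G.Comp K (p ++ wpow ℓ n ++ q) (p' ++ wpow ℓ' n ++ q')) (i j : ℕ) :
    G.Comp K (p ++ wpow ℓ (k * i) ++ q) (p' ++ wpow ℓ' (k * j) ++ q') := by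
  have := hP.lang (G.L p) (G.L ℓ) (G.L q) (G.R q') (G.R ℓ') (G.R p') (G.L_ne _) (G.R_ne _)
    (fun n hn w hw w' hw' => h n hn w (by rwa [L_append, L_append, L_wpow]) w'
      (by rwa [R_append, R_append, R_wpow, ← mul_assoc])) i j
  intro w hw w' hw'
  refine this w (by rwa [L_append, L_append, L_wpow] at hw) w' ?_
  rwa [R_append, R_append, R_wpow, ← mul_assoc] at hw'

lemma Comp.dropLeft {K : Language α} {k : ℕ} (hP : CondP k K) {p ℓ q τ : List E}
    (h : ∀ n : ℕ, 1 ≤ n → G.Comp K (p ++ wpow ℓ n ++ q) τ) :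
    G.Comp K (p ++ q) τ := by
  have := Comp.loop (p' := τ) (ℓ' := []) (q' := []) hP (p := p) (ℓ := ℓ) (q := q)
    (fun n hn => by simpa using h n hn) 0 0
  simpa using this

lemma Comp.dropRight {K : Language α} {k : ℕ} (hP : CondP k K) {p ℓ q τ : List E}
    (h : ∀ n : ℕ, 1 ≤ n → G.Comp K τ (p ++ wpow ℓ n ++ q)) :
    G.Comp K τ (p ++ q) := by
  have := Comp.loop (p := τ) (ℓ := []) (q := []) hP (p' := p) (ℓ' := ℓ) (q' := q)
    (fun n hn => by simpa using h n hn) 0 0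
  simpa using this

variable (G)

/-- Variations: insert `k`-fold multiples of loops at base positions. -/
inductive Var (k : ℕ) : V → List E → List E → V → Prop
  | nil (v : V) : Var k v [] [] v
  | edge (e : E) {σ τ : List E} {v' : V} (h : Var k (G.tgt e) σ τ v') :
      Var k (G.src e) (e :: σ) (e :: τ) v'
  | loop {v : V} (ℓ : List E) (hℓ : G.IsPath v ℓ v) (m : ℕ) {σ τ : List E} {v' : V}
      (h : Var k v σ τ v') : Var k v σ (wpow ℓ (k * m) ++ τ) v'

/-- Simultaneous variations. -/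
inductive Sim (k : ℕ) : V → List E → List E → V → Prop
  | nil (v : V) : Sim k v [] [] v
  | edge (e : E) {σ τ : List E} {v' : V} (h : Sim k (G.tgt e) σ τ v') :
      Sim k (G.src e) (e :: σ) (e :: τ) v'
  | loop {v : V} (ℓ : List E) (hℓ : G.IsPath v ℓ v) (i j : ℕ) {σ τ : List E} {v' : V}
      (h : Sim k v σ τ v') : Sim k v (wpow ℓ (k * i) ++ σ) (wpow ℓ (k * j) ++ τ) v'

variable {G}

lemma Sim.comp {K : Language α} {k : ℕ} (hP : CondP k K) {s t : V} (hK : G.Presents K s t)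
    {v : V} {σ τ : List E} (h : G.Sim k v σ τ t) :
    ∀ a : List E, G.IsPath s a v → G.Comp K (a ++ σ) (a ++ τ) := by
  generalize ht : t = t' at h
  induction h with
  | nil v =>
    subst ht
    intro a ha
    exact Comp.refl hK (by simpa using ha)
  | edge e h ih =>
    intro a ha
    have := ih ht (a ++ [e]) (ha.append (by simp))
    simpa using this
  | loop ℓ hℓ i j h ih =>
    intro a ha
    have := Comp.loop (K := K) (k := k) hP (p := a) (ℓ := ℓ) (p' := a) (ℓ' := ℓ)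
      (fun n _ => ih ht (a ++ wpow ℓ n) (ha.append (hℓ.wpow n))) i j
    simpa [List.append_assoc] using this

lemma Var.refl {k : ℕ} {v v' : V} {a : List E} (h : G.IsPath v a v') : G.Var k v a a v' := by
  induction a generalizing v with
  | nil => cases h; exact Var.nil _
  | cons e a ih =>
    obtain ⟨rfl, h⟩ := h
    exact Var.edge e (ih h)

lemma Var.append {k : ℕ} {v m v' : V} {a b a' b' : List E} (h : G.Var k v a a' m)
    (h' : G.Var k m b b' v') : G.Var k v (a ++ b) (a' ++ b') v' := by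
  induction h with
  | nil v => simpa using h'
  | edge e h ih => exact Var.edge e (ih h')
  | loop ℓ hℓ n h ih => rw [List.append_assoc]; exact Var.loop ℓ hℓ n (ih h')

lemma Var.split {k : ℕ} {v m v' : V} {a b ρ : List E} (ha : G.IsPath v a m)
    (h : G.Var k v (a ++ b) ρ v') :
    ∃ a' b', ρ = a' ++ b' ∧ G.Var k v a a' m ∧ G.Var k m b b' v' := by
  generalize hc : a ++ b = c at h
  induction h generalizing a with
  | nil v =>
    obtain ⟨rfl, rfl⟩ := List.append_eq_nil_iff.mp hc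
    cases ha
    exact ⟨[], [], rfl, Var.nil _, Var.nil _⟩
  | @edge e σ τ v' h ih =>
    cases a with
    | nil =>
      cases ha
      simp only [List.nil_append] at hc
      subst hc
      exact ⟨[], e :: τ, rfl, Var.nil _, Var.edge e h⟩
    | cons e' a =>
      simp only [List.cons_append, List.cons.injEq] at hc
      obtain ⟨rfl, hc⟩ := hc
      obtain ⟨a', b', rfl, h1, h2⟩ := ih ha.2 hc
      exact ⟨e' :: a', b', rfl, Var.edge e' h1, h2⟩
  | @loop v ℓ hℓ n σ τ v' h ih =>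
    obtain ⟨a', b', rfl, h1, h2⟩ := ih ha hc
    exact ⟨wpow ℓ (k * n) ++ a', b', by simp, Var.loop ℓ hℓ n h1, h2⟩

lemma Sim.loopRight {k : ℕ} {v v' : V} {ℓ σ τ : List E} (hℓ : G.IsPath v ℓ v) (m : ℕ)
    (h : G.Sim k v σ τ v') : G.Sim k v σ (wpow ℓ (k * m) ++ τ) v' := by
  simpa using Sim.loop ℓ hℓ 0 m h

lemma Sim.loopLeft {k : ℕ} {v v' : V} {ℓ σ τ : List E} (hℓ : G.IsPath v ℓ v) (m : ℕ)
    (h : G.Sim k v σ τ v') : G.Sim k v (wpow ℓ (k * m) ++ σ) τ v' := by
  simpa using Sim.loop ℓ hℓ m 0 h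

lemma Var.sim_nil {k : ℕ} {v v' : V} {s τ : List E} (h : G.Var k v s τ v') (hs : s = []) :
    G.Sim k v [] τ v' := by
  induction h with
  | nil v => exact Sim.nil _
  | edge e h ih => simp at hs
  | loop ℓ hℓ n h ih => exact Sim.loopRight hℓ n (ih hs)

lemma Var.sim {k : ℕ} {v v' : V} {σ τ₁ τ₂ : List E} (h₁ : G.Var k v σ τ₁ v')
    (h₂ : G.Var k v σ τ₂ v') : G.Sim k v τ₁ τ₂ v' := by
  induction h₁ generalizing τ₂ with
  | nil v => exact h₂.sim_nil rfl
  | @edge e σ τ v' h ih =>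
    generalize hs : e :: σ = s at h₂
    generalize hv : G.src e = v₂ at h₂
    induction h₂ with
    | nil v => simp at hs
    | @edge e' σ' τ' v'' h' ih' =>
      simp only [List.cons.injEq] at hs
      obtain ⟨rfl, rfl⟩ := hs
      exact Sim.edge e (ih h')
    | loop ℓ hℓ n h' ih' =>
      subst hv
      exact Sim.loopRight hℓ n (ih' h ih hs rfl)
  | loop ℓ hℓ n h ih => exact Sim.loopLeft hℓ n (ih h₂)

variable (G)

/-- One insertion of a `k`-th power of a loop. -/
def Step (k : ℕ) (v v' : V) (π π' : List E) : Prop :=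
  ∃ m a ℓ b, G.IsPath v a m ∧ G.IsPath m ℓ m ∧ G.IsPath m b v' ∧
    π = a ++ b ∧ π' = a ++ wpow ℓ k ++ b

variable {G}

lemma Step.isPath_left {k : ℕ} {v v' : V} {π π' : List E} (h : G.Step k v v' π π') :
    G.IsPath v π v' := by
  obtain ⟨m, a, ℓ, b, ha, hℓ, hb, rfl, rfl⟩ := h
  exact ha.append hb

lemma Step.isPath_right {k : ℕ} {v v' : V} {π π' : List E} (h : G.Step k v v' π π') :
    G.IsPath v π' v' := by
  obtain ⟨m, a, ℓ, b, ha, hℓ, hb, rfl, rfl⟩ := h
  exact (ha.append (hℓ.wpow k)).append hb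

lemma Step.diamond {k : ℕ} {v v' : V} {π π₁ π₂ : List E} (h₁ : G.Step k v v' π π₁)
    (h₂ : G.Step k v v' π π₂) : ∃ χ, G.Step k v v' π₁ χ ∧ G.Step k v v' π₂ χ := by
  obtain ⟨m₁, a, ℓ₁, b, ha, hℓ₁, hb, rfl, rfl⟩ := h₁
  obtain ⟨m₂, c, ℓ₂, d, hc, hℓ₂, hd, heq, rfl⟩ := h₂
  rcases List.append_eq_append_iff.mp heq with ⟨e, rfl, rfl⟩ | ⟨e, rfl, rfl⟩
  · -- c = a ++ e, b = e ++ d
    obtain ⟨m', ha', he⟩ := G.isPath_append.mp hc
    obtain rfl := ha.unique ha'
    refine ⟨a ++ wpow ℓ₁ k ++ e ++ wpow ℓ₂ k ++ d, ?_, ?_⟩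
    · exact ⟨m₂, a ++ wpow ℓ₁ k ++ e, ℓ₂, d, (ha.append (hℓ₁.wpow k)).append he, hℓ₂, hd,
        by simp, rfl⟩
    · exact ⟨m₁, a, ℓ₁, e ++ wpow ℓ₂ k ++ d, ha, hℓ₁, (he.append (hℓ₂.wpow k)).append hd,
        by simp, by simp⟩
  · -- a = c ++ e, d = e ++ b
    obtain ⟨m', hc', he⟩ := G.isPath_append.mp ha
    obtain rfl := hc.unique hc'
    refine ⟨c ++ wpow ℓ₂ k ++ e ++ wpow ℓ₁ k ++ b, ?_, ?_⟩
    · exact ⟨m₂, c, ℓ₂, e ++ wpow ℓ₁ k ++ b, hc, hℓ₂, (he.append (hℓ₁.wpow k)).append hb,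
        by simp, by simp⟩
    · exact ⟨m₁, c ++ wpow ℓ₂ k ++ e, ℓ₁, b, (hc.append (hℓ₂.wpow k)).append he, hℓ₁, hb,
        by simp, rfl⟩

variable (G)

/-- The loop congruence. -/
def Eqv (k : ℕ) (v v' : V) : List E → List E → Prop :=
  Relation.Join (Relation.ReflTransGen (G.Step k v v'))

lemma eqv_equivalence (k : ℕ) (v v' : V) : Equivalence (G.Eqv k v v') :=
  Relation.equivalence_join_reflTransGen (fun _ _ _ h₁ h₂ => by
    obtain ⟨χ, hx, hy⟩ := h₁.diamond h₂
    exact ⟨χ, Relation.ReflGen.single hx, Relation.ReflTransGen.single hy⟩)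

variable {G}

lemma Eqv.refl {k : ℕ} {v v' : V} (π : List E) : G.Eqv k v v' π π := (G.eqv_equivalence k v v').refl π
lemma Eqv.symm {k : ℕ} {v v' : V} {π π' : List E} (h : G.Eqv k v v' π π') : G.Eqv k v v' π' π :=
  (G.eqv_equivalence k v v').symm h
lemma Eqv.trans {k : ℕ} {v v' : V} {π π' π'' : List E} (h : G.Eqv k v v' π π')
    (h' : G.Eqv k v v' π' π'') : G.Eqv k v v' π π'' := (G.eqv_equivalence k v v').trans h h'

lemma Step.append {k : ℕ} {v m m' v' : V} {p π π' q : List E} (hp : G.IsPath v p m)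
    (h : G.Step k m m' π π') (hq : G.IsPath m' q v') :
    G.Step k v v' (p ++ π ++ q) (p ++ π' ++ q) := by
  obtain ⟨m₁, a, ℓ, b, ha, hℓ, hb, rfl, rfl⟩ := h
  exact ⟨m₁, p ++ a, ℓ, b ++ q, hp.append ha, hℓ, hb.append hq, by simp, by simp⟩

lemma Eqv.append {k : ℕ} {v m m' v' : V} {p π π' q : List E} (hp : G.IsPath v p m)
    (h : G.Eqv k m m' π π') (hq : G.IsPath m' q v') :
    G.Eqv k v v' (p ++ π ++ q) (p ++ π' ++ q) := by
  obtain ⟨χ, h1, h2⟩ := h
  have key : ∀ {x y : List E}, Relation.ReflTransGen (G.Step k m m') x y →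
      Relation.ReflTransGen (G.Step k v v') (p ++ x ++ q) (p ++ y ++ q) := by
    intro x y hxy
    exact Relation.ReflTransGen.lift (fun x => p ++ x ++ q)
      (fun _ _ h => Step.append hp h hq) x y hxy
  exact ⟨p ++ χ ++ q, key h1, key h2⟩

lemma Eqv.mul {k : ℕ} {v m v' : V} {π₁ π₁' π₂ π₂' : List E}
    (h₁ : G.Eqv k v m π₁ π₁') (h₂ : G.Eqv k m v' π₂ π₂')
    (hπ₁' : G.IsPath v π₁' m) (hπ₂ : G.IsPath m π₂ v') :
    G.Eqv k v v' (π₁ ++ π₂) (π₁' ++ π₂') := by
  have e1 := Eqv.append (p := []) (q := π₂) (v := v) (by simp) h₁ hπ₂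
  have e2 := Eqv.append (p := π₁') (q := []) (v' := v') hπ₁' h₂ (by simp)
  simp only [List.nil_append, List.append_nil] at e1 e2
  exact e1.trans e2

lemma Eqv.wpow_nil {k : ℕ} {v : V} {ℓ : List E} (hℓ : G.IsPath v ℓ v) :
    G.Eqv k v v (wpow ℓ k) [] :=
  ⟨wpow ℓ k, Relation.ReflTransGen.refl, Relation.ReflTransGen.single
    ⟨v, [], ℓ, [], by simp, hℓ, by simp, by simp, by simp⟩⟩

/-- Removing one inserted loop keeps all variations in `D`. -/
lemma varClosed_step {k : ℕ} {D : List E → Prop}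
    (hD : ∀ p ℓ q : List E, (∀ n : ℕ, 1 ≤ n → D (p ++ wpow ℓ n ++ q)) → D (p ++ q))
    {v v' : V} {π π' : List E} (h : G.Step k v v' π π')
    (hall : ∀ ρ, G.Var k v π' ρ v' → D ρ) : ∀ ρ, G.Var k v π ρ v' → D ρ := by
  obtain ⟨m, a, ℓ, b, ha, hℓ, hb, rfl, rfl⟩ := h
  intro ρ hρ
  obtain ⟨a', b', rfl, h1, h2⟩ := Var.split ha hρ
  refine hD a' (wpow ℓ k) b' (fun n hn => ?_)
  obtain ⟨n, rfl⟩ : ∃ n', n = n' + 1 := ⟨n - 1, by omega⟩
  have h3 : G.Var k m (wpow ℓ k) (wpow ℓ (k * n) ++ wpow ℓ k) m :=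
    Var.loop ℓ hℓ n (Var.refl (hℓ.wpow k))
  have h4 := hall _ ((h1.append h3).append h2)
  rwa [wpow_succ, wpow_mul]

lemma varClosed {k : ℕ} {D : List E → Prop}
    (hD : ∀ p ℓ q : List E, (∀ n : ℕ, 1 ≤ n → D (p ++ wpow ℓ n ++ q)) → D (p ++ q))
    {v v' : V} {π π' : List E} (h : Relation.ReflTransGen (G.Step k v v') π π')
    (hall : ∀ ρ, G.Var k v π' ρ v' → D ρ) : ∀ ρ, G.Var k v π ρ v' → D ρ := by
  induction h using Relation.ReflTransGen.head_induction_on with
  | refl => exact hall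
  | head h _ ih => exact varClosed_step hD h ih

/-- Claim 1: equivalent valid paths are compatible. -/
lemma Eqv.comp {K : Language α} {k : ℕ} (hP : CondP k K) {s t : V} (hK : G.Presents K s t)
    {π π' : List E} (hπ : G.IsPath s π t) (hπ' : G.IsPath s π' t) (h : G.Eqv k s t π π') :
    G.Comp K π π' := by
  obtain ⟨χ, h1, h2⟩ := h
  have hχ : ∀ ρ, G.Var k s χ ρ t → ∀ σ, G.Var k s χ σ t → G.Comp K ρ σ := fun ρ hρ σ hσ => by
    simpa using (Var.sim hρ hσ).comp hP hK [] (by simp)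
  have hl : ∀ σ, G.Var k s χ σ t → G.Comp K π σ := fun σ hσ =>
    varClosed (D := fun ρ => G.Comp K ρ σ) (fun p ℓ q h => Comp.dropLeft hP h) h1
      (fun ρ hρ => hχ ρ hρ σ hσ) π (Var.refl hπ)
  exact varClosed (D := fun σ => G.Comp K π σ) (fun p ℓ q h => Comp.dropRight hP h) h2
      hl π' (Var.refl hπ')

end Spine

end Pool.Agent.MP5ca50a
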