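import Pool.Agent.Lib.MP_5ca50a_lc.Trans

/-!
Concatenation of paths, fine derivations and their contour paths.
-/

set_option autoImplicit false

namespace Pool.Agent.MP5ca50a

section pth

variable {T Lab Q : Type} [Group Q] {S : TrackSys T Lab Q} {H : ℕ}

lemma TPath.single {a b : Lab} {w : List T} {γ : Q} (h : S.Tr a w b γ) (hw : w.length ≤ H) :
    ∃ (lab : ℕ → Lab) (u : ℕ → List T) (q : ℕ → Q), TPath S H 1 lab u q ∧
      lab 0 = a ∧ lab 1 = b ∧ u 1 = w ∧ q 1 = γ := by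
  refine ⟨fun j => if j = 0 then a else b, fun j => if j = 0 then [] else w,
    fun j => if j = 0 then 1 else γ, ⟨by simp, by simp, ?_⟩, by simp, by simp, by simp, by simp⟩
  intro j hj
  obtain rfl : j = 0 := by omega
  exact ⟨w, by simp, hw, by simpa using h⟩

lemma TPath.append {n₁ n₂ : ℕ} {lab₁ lab₂ : ℕ → Lab} {u₁ u₂ : ℕ → List T} {q₁ q₂ : ℕ → Q}
    (h₁ : TPath S H n₁ lab₁ u₁ q₁) (h₂ : TPath S H n₂ lab₂ u₂ q₂) (he : lab₁ n₁ = lab₂ 0) :
    ∃ (lab : ℕ → Lab) (u : ℕ → List T) (q : ℕ → Q), TPath S H (n₁ + n₂) lab u q ∧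
      (∀ j ≤ n₁, lab j = lab₁ j ∧ u j = u₁ j ∧ q j = q₁ j) ∧
      (∀ j, lab (n₁ + j) = lab₂ j ∧ u (n₁ + j) = u₁ n₁ ++ u₂ j ∧ q (n₁ + j) = q₁ n₁ * q₂ j) := by
  have e1 : ∀ j ≤ n₁, (if j ≤ n₁ then lab₁ j else lab₂ (j - n₁)) = lab₁ j ∧
      (if j ≤ n₁ then u₁ j else u₁ n₁ ++ u₂ (j - n₁)) = u₁ j ∧
      (if j ≤ n₁ then q₁ j else q₁ n₁ * q₂ (j - n₁)) = q₁ j := by
    intro j hj
    simp [hj]
  have e2 : ∀ j, (if n₁ + j ≤ n₁ then lab₁ (n₁ + j) else lab₂ (n₁ + j - n₁)) = lab₂ j ∧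
      (if n₁ + j ≤ n₁ then u₁ (n₁ + j) else u₁ n₁ ++ u₂ (n₁ + j - n₁)) = u₁ n₁ ++ u₂ j ∧
      (if n₁ + j ≤ n₁ then q₁ (n₁ + j) else q₁ n₁ * q₂ (n₁ + j - n₁)) = q₁ n₁ * q₂ j := by
    intro j
    rcases Nat.eq_zero_or_pos j with rfl | hj
    · simp [he, h₂.u0, h₂.q0]
    · have h3 : ¬ (n₁ + j ≤ n₁) := by omega
      have h4 : n₁ + j - n₁ = j := by omega
      simp only [if_neg h3, h4, and_self]
  refine ⟨fun j => if j ≤ n₁ then lab₁ j else lab₂ (j - n₁),
    fun j => if j ≤ n₁ then u₁ j else u₁ n₁ ++ u₂ (j - n₁),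
    fun j => if j ≤ n₁ then q₁ j else q₁ n₁ * q₂ (j - n₁), ⟨?_, ?_, ?_⟩, e1, e2⟩
  · simpa using h₁.u0
  · simpa using h₁.q0
  · intro j hj
    rcases Nat.lt_or_ge j n₁ with h | h
    · obtain ⟨w, h3, h4, h5⟩ := h₁.step j h
      have a1 := e1 j (by omega)
      have a2 := e1 (j + 1) (by omega)
      refine ⟨w, ?_, h4, ?_⟩
      · show (if j + 1 ≤ n₁ then _ else _) = (if j ≤ n₁ then _ else _) ++ w
        rw [a2.2.1, a1.2.1, h3]
      · show S.Tr (if j ≤ n₁ then _ else _) w (if j + 1 ≤ n₁ then _ else _)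
          ((if j ≤ n₁ then _ else _)⁻¹ * (if j + 1 ≤ n₁ then _ else _))
        rw [a1.1, a2.1, a1.2.2, a2.2.2]
        exact h5
    · obtain ⟨i, rfl⟩ : ∃ i, j = n₁ + i := ⟨j - n₁, by omega⟩
      obtain ⟨w, h3, h4, h5⟩ := h₂.step i (by omega)
      have a1 := e2 i
      have a2 := e2 (i + 1)
      rw [← Nat.add_assoc] at a2
      refine ⟨w, ?_, h4, ?_⟩
      · show (if n₁ + i + 1 ≤ n₁ then _ else _) = (if n₁ + i ≤ n₁ then _ else _) ++ w
        rw [a2.2.1, a1.2.1, h3, List.append_assoc]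
      · show S.Tr (if n₁ + i ≤ n₁ then _ else _) w (if n₁ + i + 1 ≤ n₁ then _ else _)
          ((if n₁ + i ≤ n₁ then _ else _)⁻¹ * (if n₁ + i + 1 ≤ n₁ then _ else _))
        rw [a1.1, a2.1, a1.2.2, a2.2.2]
        have : (q₁ n₁ * q₂ i)⁻¹ * (q₁ n₁ * q₂ (i + 1)) = (q₂ i)⁻¹ * q₂ (i + 1) := by group
        rw [this]
        exact h5

end pth

section fine

variable {T N : Type} (g : BG T N) (D : N → Prop) (H : ℕ)

/-- Fine derivations: hanging derivations are short. -/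
inductive Fine : N → List T → Prop
  | leaf {A : N} {m : List T} (hA : D A) (hm : g.Der A m) (hl : m.length ≤ 2 * H + 1) : Fine A m
  | bin {A B C : N} {w w' : List T} (hA : D A) (hb : g.b A B C) (h : Fine B w)
      (h' : Fine C w') : Fine A (w ++ w')
  | left {A B C : N} {w w' : List T} (hA : D A) (hb : g.b A B C) (h : Fine B w)
      (h' : g.Der C w') (hl : w'.length ≤ H) : Fine A (w ++ w')
  | right {A B C : N} {w w' : List T} (hA : D A) (hb : g.b A B C) (h : g.Der B w)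
      (hl : w.length ≤ H) (h' : Fine C w') : Fine A (w ++ w')

variable {g D H}

lemma Fine.mem {A : N} {m : List T} (h : Fine g D H A m) : D A := by
  cases h <;> assumption

lemma Fine.der {A : N} {m : List T} (h : Fine g D H A m) : g.Der A m := by
  induction h with
  | leaf _ hm _ => exact hm
  | bin _ hb _ _ ih ih' => exact BG.Der.bin hb ih ih'
  | left _ hb _ h' _ ih => exact BG.Der.bin hb ih h'
  | right _ hb h _ _ ih => exact BG.Der.bin hb h ih

end fine

section contour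

variable {T N : Type} {g : BG T N} {S : N} {k : ℕ} {c : Cpt (g.M S) k} (hE : Expans c) {H : ℕ}

/-- The contour path of a fine derivation, with closed parts at all scales. -/
lemma Fine.contour {A : N} {m : List T} (h : Fine g c.D H A m) :
    ∃ (n : ℕ) (lab : ℕ → Bool × c.Lab) (u : ℕ → List T) (q : ℕ → c.Q),
      TPath (mixS hE) (2 * H + 1) n lab u q ∧ lab 0 = (false, ⟨A, h.mem⟩) ∧
      lab n = (true, ⟨A, h.mem⟩) ∧ u n = m ∧ q n = 1 ∧
      ∀ R, 2 * H + 1 ≤ R → R < m.length → ∃ i j, i ≤ j ∧ j ≤ n ∧ q i = q j ∧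
        (u i).length + R < (u j).length ∧ (u j).length ≤ (u i).length + 2 * R := by
  induction h with
  | @leaf A m hA hm hl =>
    obtain ⟨lab, u, q, h1, h2, h3, h4, h5⟩ :=
      TPath.single (H := 2 * H + 1) (mix_e3 hE hA hm) hl
    exact ⟨1, lab, u, q, h1, h2, h3, h4, h5, fun R hR hm => by omega⟩
  | @bin A B C w w' hA hb h h' ih ih' =>
    obtain ⟨l1, u1, q1, p1, a1, a2, a3, a4⟩ :=
      TPath.single (H := 2 * H + 1) (mix_e2 hE hA h.mem hb h'.der) (by simp)
    obtain ⟨n2, l2, u2, q2, p2, b1, b2, b3, b4, b5⟩ := ih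
    obtain ⟨l3, u3, q3, p3, c1, c2, c3, c4⟩ :=
      TPath.single (H := 2 * H + 1) (mix_e6 hE hA h.mem h'.mem hb h.der h'.der) (by simp)
    obtain ⟨n4, l4, u4, q4, p4, d1, d2, d3, d4, d5⟩ := ih'
    obtain ⟨l5, u5, q5, p5, f1, f2, f3, f4⟩ :=
      TPath.single (H := 2 * H + 1) (mix_e5 hE hA h'.mem hb h.der) (by simp)
    obtain ⟨x1, y1, z1, r1, s1, t1⟩ := p1.append p2 (a2.trans b1.symm)
    obtain ⟨x2, y2, z2, r2, s2, t2⟩ := r1.append p3 (by rw [(t1 n2).1, b2, c1])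
    obtain ⟨x3, y3, z3, r3, s3, t3⟩ := r2.append p4 (by rw [(t2 1).1, c2, d1])
    obtain ⟨x4, y4, z4, r4, s4, t4⟩ := r3.append p5 (by rw [(t3 n4).1, d2, f1])
    refine ⟨_, x4, y4, z4, r4, ?_, ?_, ?_, ?_, ?_⟩
    · rw [(s4 0 (by omega)).1, (s3 0 (by omega)).1, (s2 0 (by omega)).1, (s1 0 (by omega)).1, a1]
    · rw [(t4 1).1, f2]
    · rw [(t4 1).2.1, f3, (t3 n4).2.1, d3, (t2 1).2.1, c3, (t1 n2).2.1, b3, a3]
      simp
    · rw [(t4 1).2.2, f4, (t3 n4).2.2, d4, (t2 1).2.2, c4, (t1 n2).2.2, b4, a4]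
      group
    · intro R hR hm
      by_cases h1 : R < w.length
      · obtain ⟨i, j, k1, k2, k3, k4, k5⟩ := b5 R hR h1
        have e : ∀ i ≤ n2, y4 (1 + i) = u1 1 ++ u2 i ∧ z4 (1 + i) = q1 1 * q2 i := by
          intro i hi
          constructor
          · rw [(s4 _ (by omega)).2.1, (s3 _ (by omega)).2.1, (s2 _ (by omega)).2.1, (t1 i).2.1]
          · rw [(s4 _ (by omega)).2.2, (s3 _ (by omega)).2.2, (s2 _ (by omega)).2.2, (t1 i).2.2]
        refine ⟨1 + i, 1 + j, by omega, by omega, ?_, ?_, ?_⟩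
        · rw [(e i (by omega)).2, (e j k2).2, k3]
        · rw [(e i (by omega)).1, (e j k2).1]
          simp only [List.length_append]; omega
        · rw [(e i (by omega)).1, (e j k2).1]
          simp only [List.length_append]; omega
      by_cases h1' : R < w'.length
      · obtain ⟨i, j, k1, k2, k3, k4, k5⟩ := d5 R hR h1'
        have e : ∀ i ≤ n4, y4 (1 + n2 + 1 + i) = y2 (1 + n2 + 1) ++ u4 i ∧
            z4 (1 + n2 + 1 + i) = z2 (1 + n2 + 1) * q4 i := by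
          intro i hi
          constructor
          · rw [(s4 _ (by omega)).2.1, (t3 i).2.1]
          · rw [(s4 _ (by omega)).2.2, (t3 i).2.2]
        refine ⟨1 + n2 + 1 + i, 1 + n2 + 1 + j, by omega, by omega, ?_, ?_, ?_⟩
        · rw [(e i (by omega)).2, (e j k2).2, k3]
        · rw [(e i (by omega)).1, (e j k2).1]
          simp only [List.length_append]; omega
        · rw [(e i (by omega)).1, (e j k2).1]
          simp only [List.length_append]; omega
      have hy : y4 (1 + n2 + 1 + n4 + 1) = w ++ w' := by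
        rw [(t4 1).2.1, f3, (t3 n4).2.1, d3, (t2 1).2.1, c3, (t1 n2).2.1, b3, a3]
        simp
      have hz : z4 (1 + n2 + 1 + n4 + 1) = 1 := by
        rw [(t4 1).2.2, f4, (t3 n4).2.2, d4, (t2 1).2.2, c4, (t1 n2).2.2, b4, a4]
        group
      refine ⟨0, 1 + n2 + 1 + n4 + 1, by omega, le_rfl, ?_, ?_, ?_⟩
      · rw [r4.q0, hz]
      · rw [r4.u0, hy]; simpa using hm
      · rw [r4.u0, hy]
        simp only [List.length_append, List.length_nil] at hm ⊢
        omega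
  | @left A B C w w' hA hb h h' hl ih =>
    obtain ⟨l1, u1, q1, p1, a1, a2, a3, a4⟩ :=
      TPath.single (H := 2 * H + 1) (mix_e2 hE hA h.mem hb h') (by simp)
    obtain ⟨n2, l2, u2, q2, p2, b1, b2, b3, b4, b5⟩ := ih
    obtain ⟨l3, u3, q3, p3, c1, c2, c3, c4⟩ :=
      TPath.single (H := 2 * H + 1) (mix_e4 hE hA h.mem hb h') (by omega)
    obtain ⟨x1, y1, z1, r1, s1, t1⟩ := p1.append p2 (a2.trans b1.symm)
    obtain ⟨x2, y2, z2, r2, s2, t2⟩ := r1.append p3 (by rw [(t1 n2).1, b2, c1])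
    have hy : y2 (1 + n2 + 1) = w ++ w' := by
      rw [(t2 1).2.1, c3, (t1 n2).2.1, b3, a3]
      simp
    have hz : z2 (1 + n2 + 1) = 1 := by
      rw [(t2 1).2.2, c4, (t1 n2).2.2, b4, a4]
      group
    refine ⟨_, x2, y2, z2, r2, ?_, ?_, hy, hz, ?_⟩
    · rw [(s2 0 (by omega)).1, (s1 0 (by omega)).1, a1]
    · rw [(t2 1).1, c2]
    · intro R hR hm
      by_cases h1 : R < w.length
      · obtain ⟨i, j, k1, k2, k3, k4, k5⟩ := b5 R hR h1
        have e : ∀ i ≤ n2, y2 (1 + i) = u1 1 ++ u2 i ∧ z2 (1 + i) = q1 1 * q2 i := by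
          intro i hi
          constructor
          · rw [(s2 _ (by omega)).2.1, (t1 i).2.1]
          · rw [(s2 _ (by omega)).2.2, (t1 i).2.2]
        refine ⟨1 + i, 1 + j, by omega, by omega, ?_, ?_, ?_⟩
        · rw [(e i (by omega)).2, (e j k2).2, k3]
        · rw [(e i (by omega)).1, (e j k2).1]
          simp only [List.length_append]; omega
        · rw [(e i (by omega)).1, (e j k2).1]
          simp only [List.length_append]; omega
      refine ⟨0, 1 + n2 + 1, by omega, le_rfl, ?_, ?_, ?_⟩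
      · rw [r2.q0, hz]
      · rw [r2.u0, hy]; simpa using hm
      · rw [r2.u0, hy]
        simp only [List.length_append, List.length_nil] at hm ⊢
        omega
  | @right A B C w w' hA hb h hl h' ih =>
    obtain ⟨l1, u1, q1, p1, a1, a2, a3, a4⟩ :=
      TPath.single (H := 2 * H + 1) (mix_e1 hE hA h'.mem hb h) (by omega)
    obtain ⟨n2, l2, u2, q2, p2, b1, b2, b3, b4, b5⟩ := ih
    obtain ⟨l3, u3, q3, p3, c1, c2, c3, c4⟩ :=
      TPath.single (H := 2 * H + 1) (mix_e5 hE hA h'.mem hb h) (by simp)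
    obtain ⟨x1, y1, z1, r1, s1, t1⟩ := p1.append p2 (a2.trans b1.symm)
    obtain ⟨x2, y2, z2, r2, s2, t2⟩ := r1.append p3 (by rw [(t1 n2).1, b2, c1])
    have hy : y2 (1 + n2 + 1) = w ++ w' := by
      rw [(t2 1).2.1, c3, (t1 n2).2.1, b3, a3]
      simp
    have hz : z2 (1 + n2 + 1) = 1 := by
      rw [(t2 1).2.2, c4, (t1 n2).2.2, b4, a4]
      group
    refine ⟨_, x2, y2, z2, r2, ?_, ?_, hy, hz, ?_⟩
    · rw [(s2 0 (by omega)).1, (s1 0 (by omega)).1, a1]
    · rw [(t2 1).1, c2]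
    · intro R hR hm
      by_cases h1 : R < w'.length
      · obtain ⟨i, j, k1, k2, k3, k4, k5⟩ := b5 R hR h1
        have e : ∀ i ≤ n2, y2 (1 + i) = u1 1 ++ u2 i ∧ z2 (1 + i) = q1 1 * q2 i := by
          intro i hi
          constructor
          · rw [(s2 _ (by omega)).2.1, (t1 i).2.1]
          · rw [(s2 _ (by omega)).2.2, (t1 i).2.2]
        refine ⟨1 + i, 1 + j, by omega, by omega, ?_, ?_, ?_⟩
        · rw [(e i (by omega)).2, (e j k2).2, k3]
        · rw [(e i (by omega)).1, (e j k2).1]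
          simp only [List.length_append]; omega
        · rw [(e i (by omega)).1, (e j k2).1]
          simp only [List.length_append]; omega
      refine ⟨0, 1 + n2 + 1, by omega, le_rfl, ?_, ?_, ?_⟩
      · rw [r2.q0, hz]
      · rw [r2.u0, hy]; simpa using hm
      · rw [r2.u0, hy]
        simp only [List.length_append, List.length_nil] at hm ⊢
        omega

end contour

end Pool.Agent.MP5ca50a
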