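import Pool.Agent.Lib.MP_5ca50a_lc.Words

/-!
Semantic facts on two-sided loops of languages satisfying the iterative pair condition.
-/

set_option autoImplicit false

namespace Pool.Agent.MP5ca50a

variable {T : Type}

/-- General form of the condition without the nonemptiness requirement. -/
lemma CondP.gen {k : ℕ} {M : Language T} (hP : CondP k M) (x u y v z : List T)
    (h : ∀ n : ℕ, 1 ≤ n → x ++ wpow u n ++ y ++ wpow v n ++ z ∈ M) (m m' : ℕ) :
    x ++ wpow u (k * m) ++ y ++ wpow v (k * m') ++ z ∈ M := by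
  by_cases huv : u ++ v = []
  · obtain ⟨rfl, rfl⟩ := List.append_eq_nil_iff.mp huv
    simpa using h 1 le_rfl
  · exact hP x u y v z huv h m m'

lemma CondP.right {k : ℕ} {M : Language T} (hP : CondP k M) (y v z : List T)
    (h : ∀ n : ℕ, 1 ≤ n → y ++ wpow v n ++ z ∈ M) (m : ℕ) : y ++ wpow v (k * m) ++ z ∈ M := by
  have := hP.gen [] [] y v z (fun n hn => by simpa using h n hn) 0 m
  simpa using this

/-- `(s, t)` carries `M₂` into `M₁`. -/
def TT (M₁ M₂ : Language T) (s t : List T) : Prop := ∀ m ∈ M₂, s ++ m ++ t ∈ M₁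

lemma TT.refl (M : Language T) : TT M M [] [] := fun m hm => by simpa using hm

lemma TT.comp {M₁ M₂ M₃ : Language T} {s t s' t' : List T} (h : TT M₁ M₂ s t)
    (h' : TT M₂ M₃ s' t') : TT M₁ M₃ (s ++ s') (t' ++ t) := fun m hm => by
  have := h _ (h' m hm)
  simpa [List.append_assoc] using this

lemma TT.wpow {M : Language T} {u v : List T} (h : TT M M u v) (n : ℕ) :
    TT M M (wpow u n) (wpow v n) := by
  induction n with
  | zero => simpa using TT.refl M
  | succ n ih =>
    rw [wpow_succ, wpow_succ']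
    exact ih.comp h

section loops

variable {k : ℕ} {M : Language T} (hP : CondP (k + 1) M)
include hP

/-- Left `k`-th powers of loops can be added and removed. -/
lemma f3l {u v : List T} (h : TT M M u v) (m : List T) :
    wpow u (k + 1) ++ m ∈ M ↔ m ∈ M := by
  have h1 : ∀ m ∈ M, ∀ n, wpow u ((k + 1) * n) ++ m ∈ M := by
    intro m hm n
    have := hP.gen [] u m v [] (fun n _ => by simpa using h.wpow n m hm) n 0
    simpa using this
  constructor
  · intro hm
    have h2 := hP.gen [] (wpow u (k + 1)) m [] [] (fun n hn => by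
      obtain ⟨n, rfl⟩ : ∃ n', n = n' + 1 := ⟨n - 1, by omega⟩
      have := h1 _ hm n
      rw [← wpow_mul, ← List.append_assoc, ← wpow_succ] at this
      simpa using this) 0 0
    simpa using h2
  · intro hm
    simpa using h1 m hm 1

lemma f3r {u v : List T} (h : TT M M u v) (m : List T) :
    m ++ wpow v (k + 1) ∈ M ↔ m ∈ M := by
  have h1 : ∀ m ∈ M, ∀ n, m ++ wpow v ((k + 1) * n) ∈ M := by
    intro m hm n
    have := hP.gen [] u m v [] (fun n _ => by simpa using h.wpow n m hm) 0 n
    simpa using this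
  constructor
  · intro hm
    have h2 := hP.gen [] [] m (wpow v (k + 1)) [] (fun n hn => by
      obtain ⟨n, rfl⟩ : ∃ n', n = n' + 1 := ⟨n - 1, by omega⟩
      have := h1 _ hm n
      rw [← wpow_mul, List.append_assoc, ← wpow_succ'] at this
      simpa using this) 0 0
    simpa using h2
  · intro hm
    simpa using h1 m hm 1

lemma f3 {u v : List T} (h : TT M M u v) (m : List T) : u ++ m ++ v ∈ M ↔ m ∈ M := by
  constructor
  · intro hm
    have h1 := h.wpow k _ hm
    have h2 : wpow u (k + 1) ++ (m ++ wpow v (k + 1)) ∈ M := by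
      rw [wpow_succ, wpow_succ']
      simpa [List.append_assoc] using h1
    exact (f3r hP h m).mp ((f3l hP h _).mp h2)
  · exact h m

lemma f3pow {u v : List T} (h : TT M M u v) (n : ℕ) (m : List T) :
    wpow u n ++ m ++ wpow v n ∈ M ↔ m ∈ M := f3 hP (h.wpow n) m

/-- The left word of a loop is exchanged for a power of the right word. -/
lemma a1 {u v : List T} (h : TT M M u v) (y : List T) :
    u ++ y ∈ M ↔ y ++ wpow v k ∈ M := by
  have h1 := f3pow hP h k (u ++ y)
  rw [← h1, ← List.append_assoc, ← wpow_succ]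
  rw [show wpow u (k + 1) ++ y ++ wpow v k = wpow u (k + 1) ++ (y ++ wpow v k) by simp]
  exact f3l hP h _

lemma a1' {u v : List T} (h : TT M M u v) (y : List T) :
    y ++ v ∈ M ↔ wpow u k ++ y ∈ M := by
  have h1 := f3pow hP h k (y ++ v)
  rw [← h1]
  rw [show wpow u k ++ (y ++ v) ++ wpow v k = (wpow u k ++ y) ++ (v ++ wpow v k) by simp,
    ← wpow_succ']
  exact f3r hP h _

end loops

section two

variable {k : ℕ} {M₁ M₂ : Language T} (hP₁ : CondP (k + 1) M₁) (hP₂ : CondP (k + 1) M₂)

include hP₂ in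
lemma f4 {s t s' t' : List T} (h : TT M₁ M₂ s t) (h' : TT M₂ M₁ s' t') (m : List T) :
    s ++ m ++ t ∈ M₁ ↔ m ∈ M₂ := by
  constructor
  · intro hm
    have h1 := h' _ hm
    have h2 := h'.comp h
    refine (f3 hP₂ h2 m).mp ?_
    simpa [List.append_assoc] using h1
  · exact h m

include hP₁ hP₂ in
/-- Left residuals in terms of the right side. -/
lemma g1 {s t s' t' : List T} (h : TT M₁ M₂ s t) (h' : TT M₂ M₁ s' t') (x : List T) :
    s ++ x ∈ M₁ ↔ x ++ (t' ++ wpow (t ++ t') k) ∈ M₂ := by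
  rw [← f4 hP₁ h' h (s ++ x)]
  have h2 : TT M₂ M₂ (s' ++ s) (t ++ t') := h'.comp h
  rw [show s' ++ (s ++ x) ++ t' = (s' ++ s) ++ (x ++ t') by simp, a1 hP₂ h2]
  simp [List.append_assoc]

include hP₁ hP₂ in
lemma f5l {s t s' t' u v : List T} (h : TT M₁ M₂ s t) (h' : TT M₂ M₁ s' t')
    (hu : TT M₂ M₂ u v) (x : List T) :
    s ++ (wpow u (k + 1) ++ x) ∈ M₁ ↔ s ++ x ∈ M₁ := by
  rw [g1 hP₁ hP₂ h h', g1 hP₁ hP₂ h h', List.append_assoc]
  exact f3l hP₂ hu _

end two

end Pool.Agent.MP5ca50a
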