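import Pool.Agent.Lib.MP_5ca50a_lc.ChainBound

/-!
The stage induction: after a refinement, long derived words inside zones admit insertions.
-/

set_option autoImplicit false

namespace Pool.Agent.MP5ca50a

open TrackSys

section

variable {T N : Type} (g : BG T N)

/-- Reachability by derivation contexts. -/
def Rch (A B : N) : Prop := ∃ x y, g.DC A x y B

/-- Productive labels. -/
def Prd (A : N) : Prop := ∃ m, g.Der A m

variable {g}

lemma Rch.refl (A : N) : Rch g A A := ⟨[], [], BG.DC.refl A⟩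

lemma Rch.trans {A B C : N} (h : Rch g A B) (h' : Rch g B C) : Rch g A C := by
  obtain ⟨x, y, h⟩ := h
  obtain ⟨x', y', h'⟩ := h'
  exact ⟨_, _, h.trans h'⟩

lemma Prd.of_rch {A B : N} (h : Rch g A B) (hB : Prd g B) : Prd g A := by
  obtain ⟨x, y, h⟩ := h
  obtain ⟨m, hm⟩ := hB
  exact ⟨_, h.der hm⟩

/-- The component of a label. -/
noncomputable def cptOf {S : N} {k : ℕ} (hP : CondP (k + 1) (g.Lg S)) (A : N) :
    Cpt (g.M S) k where
  B0 := A
  hP0 := BG.condP_M hP A
  D := fun P => Rch g A P ∧ Rch g P A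
  fr := fun P => (exists_fr _ (BG.condP_M hP P.1) (P.2.1.choose_spec.choose_spec).tt
    (P.2.2.choose_spec.choose_spec).tt).some

end

section

variable {T N : Type} {g : BG T N} {S : N}

/-- Long words from earlier labels admit insertions, hence insertion or fine derivation. -/
lemma ins_or_fine {ι : Type} {w : ι → List T} {C : N → Prop} {R : ℕ} (hS : SProp g S w C R)
    {D : N → Prop}
    (hcl : ∀ A B C', D A → g.b A B C' → Prd g B → Prd g C' → (C B ∨ D B) ∧ (C C' ∨ D C'))
    {A : N} {m : List T} (hder : g.Der A m) : D A → ∀ (W : List ι) (p s : List T),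
      W.flatMap w = p ++ m ++ s →
      Ins w W p m s (fun x => x ∈ g.M S A) ∨ Fine g D R A m := by
  induction hder with
  | eps h =>
    intro hA W p s hW
    exact Or.inr (Fine.leaf hA (BG.Der.eps h) (by simp))
  | ter h =>
    intro hA W p s hW
    exact Or.inr (Fine.leaf hA (BG.Der.ter h) (by simp))
  | @bin A B C' w1 w2 hb hB hC ih1 ih2 =>
    intro hA W p s hW
    obtain ⟨c1, c2⟩ := hcl A B C' hA hb ⟨_, hB⟩ ⟨_, hC⟩
    have hW1 : W.flatMap w = p ++ w1 ++ (w2 ++ s) := by rw [hW]; simp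
    have hW2 : W.flatMap w = (p ++ w1) ++ w2 ++ s := by rw [hW]; simp
    have t1 : Ins w W p w1 (w2 ++ s) (fun x => x ∈ g.M S B) ∨ Fine g D R B w1 ∨
        w1.length ≤ R := by
      by_cases hDB : D B
      · rcases ih1 hDB W p (w2 ++ s) hW1 with h | h
        · exact Or.inl h
        · exact Or.inr (Or.inl h)
      · by_cases hl : w1.length ≤ R
        · exact Or.inr (Or.inr hl)
        · exact Or.inl (hS B (c1.resolve_right hDB) W p w1 (w2 ++ s) hW1 hB (by omega))
    have t2 : Ins w W (p ++ w1) w2 s (fun x => x ∈ g.M S C') ∨ Fine g D R C' w2 ∨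
        w2.length ≤ R := by
      by_cases hDC : D C'
      · rcases ih2 hDC W (p ++ w1) s hW2 with h | h
        · exact Or.inl h
        · exact Or.inr (Or.inl h)
      · by_cases hl : w2.length ≤ R
        · exact Or.inr (Or.inr hl)
        · exact Or.inl (hS C' (c2.resolve_right hDC) W (p ++ w1) w2 s hW2 hC (by omega))
    rcases t1 with t1 | t1
    · left
      have h1 : Ins w W (p ++ []) w1 (w2 ++ s) (fun x => x ∈ g.M S B) := by
        rwa [List.append_nil]
      have := h1.up (X' := fun x => x ∈ g.M S A) (fun m' hm' => (BG.DC.left1 hb hC).tt m' hm')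
      simpa using this
    rcases t2 with t2 | t2
    · left
      have h1 : Ins w W (p ++ w1) w2 ([] ++ s) (fun x => x ∈ g.M S C') := t2
      have := h1.up (X' := fun x => x ∈ g.M S A) (fun m' hm' => (BG.DC.right1 hb hB).tt m' hm')
      simpa using this
    right
    rcases t1 with t1 | t1
    · rcases t2 with t2 | t2
      · exact Fine.bin hA hb t1 t2
      · exact Fine.left hA hb t1 hC t2
    · rcases t2 with t2 | t2
      · exact Fine.right hA hb hB t1 t2
      · refine Fine.leaf hA (BG.Der.bin hb hB hC) ?_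
        rw [List.length_append]; omega

/-- Fine derivations without branching are chains to a short leaf. -/
lemma Fine.chain {D : N → Prop} {H : ℕ}
    (hnb : ∀ A B C, D A → D B → D C → ¬ g.b A B C) {A : N} {m : List T}
    (h : Fine g D H A m) : ∃ (P : N) (a m₀ b : List T), Ch g D H A a b P ∧ m = a ++ m₀ ++ b ∧
      g.Der P m₀ ∧ m₀.length ≤ 2 * H + 1 := by
  induction h with
  | @leaf A m hA hm hl => exact ⟨A, [], m, [], Ch.nil hA, by simp, hm, hl⟩
  | bin hA hb h h' _ _ => exact absurd hb (hnb _ _ _ hA h.mem h'.mem)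
  | left hA hb h h' hl ih =>
    obtain ⟨P, a, m₀, b, h1, rfl, h3, h4⟩ := ih
    exact ⟨P, a, m₀, b ++ _, Ch.left hA hb h' hl h1, by simp, h3, h4⟩
  | right hA hb h hl h' ih =>
    obtain ⟨P, a, m₀, b, h1, rfl, h3, h4⟩ := ih
    exact ⟨P, _ ++ a, m₀, b, Ch.right hA hb h hl h1, by simp, h3, h4⟩

end

variable {T N : Type} [Finite T] [Finite N] {g : BG T N} {S : N} {k : ℕ}

/-- One stage. -/
theorem stage_step (hP : CondP (k + 1) (g.Lg S)) {ι : Type} [Finite ι] (w : ι → List T)
    (hw : ∀ a, w a ≠ []) {G' : Type} [Group G'] (hG' : ∀ g : G', g ^ (k + 1) = 1) (Λ : ι → G')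
    (hΛ : InfImg Λ) (C : N → Prop) (R : ℕ) (hS : SProp g S w C R) (A : N) (hA : Prd g A)
    (hmin : ∀ E, Rch g A E → C E ∨ Rch g E A) :
    ∃ (m : ℕ) (φ : Fin m → List ι), (∀ a, φ a ≠ []) ∧ InfImg (fun a => ev Λ (φ a)) ∧
      ∃ R', SProp g S (cmp w φ) (fun E => C E ∨ (Rch g A E ∧ Rch g E A)) R' := by
  classical
  set c : Cpt (g.M S) k := cptOf hP A with hc
  have hcD : ∀ P, c.D P ↔ (Rch g A P ∧ Rch g P A) := fun P => Iff.rfl
  have hcl : ∀ A B C', c.D A → g.b A B C' → Prd g B → Prd g C' →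
      (C B ∨ c.D B) ∧ (C C' ∨ c.D C') := by
    intro A' B C' hA' hb hB hC'
    obtain ⟨v, hv⟩ := hB
    obtain ⟨v', hv'⟩ := hC'
    have h1 : Rch g A B := hA'.1.trans ⟨_, _, BG.DC.left1 hb hv'⟩
    have h2 : Rch g A C' := hA'.1.trans ⟨_, _, BG.DC.right1 hb hv⟩
    exact ⟨(hmin B h1).imp_right fun h => ⟨h1, h⟩, (hmin C' h2).imp_right fun h => ⟨h2, h⟩⟩
  -- it suffices to bound fine derivations
  have hsuff : ∀ (m : ℕ) (φ : Fin m → List ι) (R' : ℕ),
      (∀ (A : N) (mw : List T) (W : List (Fin m)) (p s : List T),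
        W.flatMap (cmp w φ) = p ++ mw ++ s → Fine g c.D R A mw → R' < mw.length →
        Ins (cmp w φ) W p mw s (fun x => x ∈ g.M S A)) →
      SProp g S (cmp w φ) (fun E => C E ∨ (Rch g A E ∧ Rch g E A)) (R + R') := by
    intro m φ R' h B hB W p mw s hW hder hl
    rcases hB with hB | hB
    · exact hS.refine B hB W p mw s hW hder (by omega)
    · rcases ins_or_fine (hS.refine (φ := φ)) hcl hder hB W p s hW with h1 | h1
      · exact h1
      · exact h B mw W p s hW h1 (by omega)
  by_cases hex : ∃ P P' P'', c.D P ∧ c.D P' ∧ c.D P'' ∧ g.b P P' P''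
  · -- expansive
    have hE : Expans c := by
      refine ⟨?_, ?_, hex⟩
      · intro P hPD
        exact Prd.of_rch hPD.2 hA
      · intro P P' h h'
        exact h.2.trans h'.1
    obtain ⟨m, φ, h1, h2, R', h3⟩ := exp_bound c hE w hw hG' Λ hΛ R
    exact ⟨m, φ, h1, h2, _, hsuff m φ R' h3⟩
  · -- nonexpansive
    have hnb : ∀ A B C, c.D A → c.D B → c.D C → ¬ g.b A B C := fun A B C h1 h2 h3 h4 =>
      hex ⟨A, B, C, h1, h2, h3, h4⟩
    obtain ⟨m, φ, h1, h2, B, h3⟩ := chain_bound c w hw hG' Λ hΛ R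
    refine ⟨m, φ, h1, h2, _, hsuff m φ (B + 2 * R + 1) ?_⟩
    intro A' mw W p s hW hfine hl
    obtain ⟨P, a, m₀, b, hch, rfl, hm₀, hl₀⟩ := hfine.chain hnb
    rcases h3 A' P a b hch W W p (m₀ ++ b ++ s) (p ++ a ++ m₀) s (by rw [hW]; simp)
      (by rw [hW]; simp) with h4 | h4 | h4
    · simp only [List.length_append] at hl
      omega
    · have h5 : Ins (cmp w φ) W (p ++ []) a ((m₀ ++ b) ++ s)
          (fun x => TT (g.M S A') (g.M S P) x b) := by
        simpa using h4
      have := h5.up (X' := fun x => x ∈ g.M S A') (fun m' hm' => by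
        have := hm' m₀ (BG.der_mem_M hm₀)
        simpa using this)
      simpa using this
    · have h5 : Ins (cmp w φ) W (p ++ (a ++ m₀)) b ([] ++ s)
          (fun x => TT (g.M S A') (g.M S P) a x) := by
        simpa using h4
      have := h5.up (X' := fun x => x ∈ g.M S A') (fun m' hm' => by
        have := hm' m₀ (BG.der_mem_M hm₀)
        simpa using this)
      simpa using this

omit [Finite T] in
/-- A minimal label outside a set. -/
lemma exists_min_label (C : N → Prop) (hC : ∃ A, ¬ C A) :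
    ∃ A, ¬ C A ∧ ∀ E, Rch g A E → C E ∨ Rch g E A := by
  classical
  have := Fintype.ofFinite N
  obtain ⟨A0, hA0⟩ := hC
  obtain ⟨A, hA, hmin⟩ := Finset.exists_min_image (Finset.univ.filter fun A => ¬ C A)
    (fun A => {E | Rch g A E}.ncard) ⟨A0, by simpa using hA0⟩
  refine ⟨A, by simpa using hA, ?_⟩
  intro E hE
  by_cases hCE : C E
  · exact Or.inl hCE
  right
  have h1 : {F | Rch g E F} ⊆ {F | Rch g A F} := fun F hF => hE.trans hF
  have h2 := hmin E (by simpa using hCE)
  have h3 := Set.eq_of_subset_of_ncard_le h1 h2 (Set.toFinite _)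
  have h4 : A ∈ {F | Rch g A F} := Rch.refl A
  rw [← h3] at h4
  exact h4

lemma stages_aux (hP : CondP (k + 1) (g.Lg S)) {G' : Type} [Group G']
    (hG' : ∀ g : G', g ^ (k + 1) = 1) (n : ℕ) : ∀ {ι : Type} [Finite ι] (w : ι → List T),
    (∀ a, w a ≠ []) → ∀ (Λ : ι → G'), InfImg Λ → ∀ (C : N → Prop) (R : ℕ),
    SProp g S w C R → (∀ E, ¬ Prd g E → C E) → {E | ¬ C E}.ncard ≤ n →
    ∃ (m : ℕ) (φ : Fin m → List ι), (∀ a, φ a ≠ []) ∧ InfImg (fun a => ev Λ (φ a)) ∧
      ∃ R', SProp g S (cmp w φ) (fun _ => True) R' := by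
  classical
  induction n with
  | zero =>
    intro ι _ w hw Λ hΛ C R hS hC hn
    have h1 : {E | ¬ C E} = ∅ := by
      rw [← Set.ncard_eq_zero (Set.toFinite _)]
      omega
    have h2 : ∀ E, C E := by
      intro E
      by_contra hE
      have : E ∈ {E | ¬ C E} := hE
      rw [h1] at this
      exact this
    obtain ⟨m, ⟨e⟩⟩ := Finite.exists_equiv_fin ι
    refine ⟨m, fun a => [e.symm a], fun a => by simp, ?_, R, ?_⟩
    · refine Set.Infinite.mono ?_ hΛ
      rintro _ ⟨W, rfl⟩
      refine ⟨W.map e, ?_⟩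
      simp [ev, Function.comp_def]
    · exact fun B _ => hS.refine B (h2 B)
  | succ n ih =>
    intro ι _ w hw Λ hΛ C R hS hC hn
    by_cases hall : ∀ E, C E
    · exact ih w hw Λ hΛ C R hS hC (by
        have : {E | ¬ C E} = ∅ := by
          ext E; simpa using hall E
        rw [this]; simp)
    · push Not at hall
      obtain ⟨A, hA, hmin⟩ := exists_min_label (g := g) C hall
      have hAp : Prd g A := by
        by_contra h
        exact hA (hC A h)
      obtain ⟨m, φ, h1, h2, R', h3⟩ := stage_step hP w hw hG' Λ hΛ C R hS A hAp hmin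
      have hw' : ∀ a, cmp w φ a ≠ [] := fun a => flatMap_ne_nil hw (h1 a)
      obtain ⟨m', ψ, h4, h5, R'', h6⟩ := ih (cmp w φ) hw' _ h2 _ R' h3
        (fun E hE => Or.inl (hC E hE)) (by
          have hss : {E | ¬ (C E ∨ (Rch g A E ∧ Rch g E A))} ⊂ {E | ¬ C E} := by
            constructor
            · intro E hE h
              exact hE (Or.inl h)
            · intro h
              exact h hA (Or.inr ⟨Rch.refl A, Rch.refl A⟩)
          have := Set.ncard_lt_ncard hss (Set.toFinite _)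
          omega)
      refine ⟨m', fun b => (ψ b).flatMap φ, fun a => flatMap_ne_nil h1 (h4 a), ?_, R'', ?_⟩
      · simpa only [ev_flatMap] using h5
      · rw [← cmp_cmp]; exact h6

/-- All stages. -/
theorem stages (hP : CondP (k + 1) (g.Lg S)) {G' : Type} [Group G']
    (hG' : ∀ g : G', g ^ (k + 1) = 1) {ι : Type} [Finite ι] (w : ι → List T)
    (hw : ∀ a, w a ≠ []) (Λ : ι → G') (hΛ : InfImg Λ) :
    ∃ (m : ℕ) (φ : Fin m → List ι), (∀ a, φ a ≠ []) ∧ InfImg (fun a => ev Λ (φ a)) ∧
      ∃ R', SProp g S (cmp w φ) (fun _ => True) R' := by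
  refine stages_aux hP hG' {E | ¬ ¬ Prd g E}.ncard w hw Λ hΛ (fun E => ¬ Prd g E) 0 ?_
    (fun E hE => hE) le_rfl
  intro B hB W p m s hW hm _
  exact absurd ⟨m, hm⟩ hB

end Pool.Agent.MP5ca50a
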