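import Pool.Agent.Lib.MP_5ca50a_lc.Alph

/-!
Track systems: functional labelled transitions on words with outputs in a group.
-/

set_option autoImplicit false

namespace Pool.Agent.MP5ca50a

/-- A functional transition system with outputs in a group. -/
structure TrackSys (T : Type) (Lab : Type) (Q : Type) [Group Q] where
  Tr : Lab → List T → Lab → Q → Prop
  refl : ∀ s, Tr s [] s 1
  comp : ∀ {a b c : Lab} {w w' : List T} {g g' : Q}, Tr a w b g → Tr b w' c g' →
    Tr a (w ++ w') c (g * g')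
  func : ∀ {a b : Lab} {w : List T} {g g' : Q}, Tr a w b g → Tr a w b g' → g = g'

/-- In a finite type a transitive and dense relation has reflexive points in between. -/
lemma exists_recurrent {X : Type*} [Finite X] (r : X → X → Prop)
    (htr : ∀ {a b c}, r a b → r b c → r a c)
    (hd : ∀ {a c}, r a c → ∃ b, r a b ∧ r b c) {x z : X} (h : r x z) :
    ∃ t, r x t ∧ r t t ∧ r t z := by
  classical
  obtain ⟨y0, hy0, hy0'⟩ := hd h
  let A := {y : X // r x y ∧ r y z}
  have hstep : ∀ y : A, ∃ y' : A, r y.1 y'.1 := by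
    rintro ⟨y, h1, h2⟩
    obtain ⟨y', h3, h4⟩ := hd h2
    exact ⟨⟨y', htr h1 h3, h4⟩, h3⟩
  choose s hs using hstep
  let f : ℕ → A := fun n => Nat.rec ⟨y0, hy0, hy0'⟩ (fun _ y => s y) n
  have hf : ∀ n, r (f n).1 (f (n + 1)).1 := fun n => hs (f n)
  have hlt : ∀ m n, m < n → r (f m).1 (f n).1 := by
    intro m n hmn
    induction n with
    | zero => omega
    | succ n ih =>
      rcases Nat.lt_succ_iff_lt_or_eq.mp hmn with h | h
      · exact htr (ih h) (hf n)
      · subst h; exact hf m
  obtain ⟨m, n, hmn, he⟩ := Finite.exists_ne_map_eq_of_infinite f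
  rcases lt_or_gt_of_ne hmn with h' | h'
  · refine ⟨(f m).1, (f m).2.1, ?_, (f m).2.2⟩
    have := hlt m n h'
    rwa [← he] at this
  · refine ⟨(f n).1, (f n).2.1, ?_, (f n).2.2⟩
    have := hlt n m h'
    rwa [he] at this

namespace TrackSys

variable {T : Type} {Lab Q : Type} [Group Q] (S : TrackSys T Lab Q)

/-- Pending transitions. -/
def SR (x : List T × Lab) (w : List T) (y : List T × Lab) (g : Q) : Prop :=
  ∃ z, w ++ y.1 = x.1 ++ z ∧ S.Tr x.2 z y.2 g

variable {S}

lemma SR.refl (x : List T × Lab) : S.SR x [] x 1 := ⟨[], by simp, S.refl _⟩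

lemma SR.comp {x y z : List T × Lab} {w w' : List T} {g g' : Q} (h : S.SR x w y g)
    (h' : S.SR y w' z g') : S.SR x (w ++ w') z (g * g') := by
  obtain ⟨c, hc, h1⟩ := h
  obtain ⟨c', hc', h2⟩ := h'
  refine ⟨c ++ c', ?_, S.comp h1 h2⟩
  rw [List.append_assoc, hc', ← List.append_assoc, hc, List.append_assoc]

lemma SR.func {x y : List T × Lab} {w : List T} {g g' : Q} (h : S.SR x w y g)
    (h' : S.SR x w y g') : g = g' := by
  obtain ⟨c, hc, h1⟩ := h
  obtain ⟨c', hc', h2⟩ := h'
  have : c = c' := List.append_cancel_left (hc.symm.trans hc')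
  subst this
  exact S.func h1 h2

lemma SR.of_tr {a b : Lab} {w : List T} {g : Q} (h : S.Tr a w b g) :
    S.SR ([], a) w ([], b) g := ⟨w, by simp, h⟩

lemma SR.tr {a b : Lab} {w : List T} {g : Q} (h : S.SR ([], a) w ([], b) g) :
    S.Tr a w b g := by
  obtain ⟨z, hz, h⟩ := h
  simp only [List.append_nil, List.nil_append] at hz
  subst hz
  exact h

variable (S)

/-- Pending states with bounded pending word. -/
abbrev St (T : Type) (Lab : Type) (H : ℕ) : Type := {v : List T // v.length ≤ H} × Lab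

/-- Underlying pair of a pending state. -/
abbrev pr {H : ℕ} (x : St T Lab H) : List T × Lab := (x.1.1, x.2)

/-- Preimage operator of a letter. -/
def PM (H : ℕ) {ι : Type} (w : ι → List T) (a : ι) : Function.End (Set (St T Lab H)) :=
  fun Y => {x | ∃ y ∈ Y, ∃ g, S.SR (pr x) (w a) (pr y) g}

variable {S}

lemma mem_PM {H : ℕ} {ι : Type} {w : ι → List T} {a : ι} {Y : Set (St T Lab H)}
    {x : St T Lab H} : x ∈ S.PM H w a Y ↔ ∃ y ∈ Y, ∃ g, S.SR (pr x) (w a) (pr y) g := Iff.rfl

lemma ev_cons_apply {H : ℕ} {ι : Type} {w : ι → List T} {a : ι} {W : List ι}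
    (Y : Set (St T Lab H)) : (ev (S.PM H w) (a :: W)) Y = S.PM H w a ((ev (S.PM H w) W) Y) := by
  rw [ev_cons]; rfl

lemma mem_ev {H : ℕ} {ι : Type} {w : ι → List T} {W : List ι} {Y : Set (St T Lab H)}
    {x : St T Lab H} (h : x ∈ (ev (S.PM H w) W) Y) :
    ∃ y ∈ Y, x ∈ (ev (S.PM H w) W) {y} := by
  induction W generalizing x with
  | nil => exact ⟨x, h, rfl⟩
  | cons a W ih =>
    rw [ev_cons_apply] at h
    obtain ⟨y, hy, g, hg⟩ := h
    obtain ⟨z, hz, hz'⟩ := ih hy
    refine ⟨z, hz, ?_⟩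
    rw [ev_cons_apply]
    exact ⟨y, hz', g, hg⟩

lemma ev_mono {H : ℕ} {ι : Type} {w : ι → List T} {W : List ι} {Y Z : Set (St T Lab H)}
    (h : Y ⊆ Z) : (ev (S.PM H w) W) Y ⊆ (ev (S.PM H w) W) Z := by
  induction W with
  | nil => exact h
  | cons a W ih =>
    rw [ev_cons_apply, ev_cons_apply]
    rintro x ⟨y, hy, g, hg⟩
    exact ⟨y, ih hy, g, hg⟩

lemma sr_of_mem_ev {H : ℕ} {ι : Type} {w : ι → List T} {W : List ι}
    {x y : St T Lab H} (h : x ∈ (ev (S.PM H w) W) {y}) :
    ∃ g, S.SR (pr x) (W.flatMap w) (pr y) g := by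
  induction W generalizing x with
  | nil =>
    have hx : x = y := h
    subst hx
    exact ⟨1, SR.refl _⟩
  | cons a W ih =>
    rw [ev_cons_apply] at h
    obtain ⟨z, hz, g, hg⟩ := h
    obtain ⟨g', hg'⟩ := ih hz
    exact ⟨g * g', by rw [List.flatMap_cons]; exact hg.comp hg'⟩

end TrackSys

/-- A path in a track system given by functions of time. -/
structure TPath {T : Type} {Lab Q : Type} [Group Q] (S : TrackSys T Lab Q) (H n : ℕ)
    (lab : ℕ → Lab) (u : ℕ → List T) (q : ℕ → Q) : Prop where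
  u0 : u 0 = []
  q0 : q 0 = 1
  step : ∀ j < n, ∃ w, u (j + 1) = u j ++ w ∧ w.length ≤ H ∧
    S.Tr (lab j) w (lab (j + 1)) ((q j)⁻¹ * q (j + 1))

namespace TPath

open TrackSys

variable {T : Type} {Lab Q : Type} [Group Q] {S : TrackSys T Lab Q} {H n : ℕ}
  {lab : ℕ → Lab} {u : ℕ → List T} {q : ℕ → Q}

lemma seg (h : TPath S H n lab u q) {i j : ℕ} (hij : i ≤ j) (hj : j ≤ n) :
    ∃ w, u j = u i ++ w ∧ S.Tr (lab i) w (lab j) ((q i)⁻¹ * q j) := by
  induction j with
  | zero =>
    obtain rfl : i = 0 := by omega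
    exact ⟨[], by simp, by simpa using S.refl _⟩
  | succ j ih =>
    rcases Nat.lt_or_ge j i with hlt | hge
    · obtain rfl : i = j + 1 := by omega
      exact ⟨[], by simp, by simpa using S.refl _⟩
    · obtain ⟨w, hw, h1⟩ := ih hge (by omega)
      obtain ⟨w', hw', -, h2⟩ := h.step j (by omega)
      refine ⟨w ++ w', by rw [hw', hw, List.append_assoc], ?_⟩
      have := S.comp h1 h2
      simpa [mul_assoc] using this

lemma len_mono (h : TPath S H n lab u q) {i j : ℕ} (hij : i ≤ j) (hj : j ≤ n) :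
    (u i).length ≤ (u j).length := by
  obtain ⟨w, hw, -⟩ := h.seg hij hj
  rw [hw]; simp

lemma eq_take (h : TPath S H n lab u q) {i j : ℕ} (hij : i ≤ j) (hj : j ≤ n) :
    u i = (u j).take (u i).length := by
  obtain ⟨w, hw, -⟩ := h.seg hij hj
  rw [hw]; simp

lemma tr0 (h : TPath S H n lab u q) {j : ℕ} (hj : j ≤ n) : S.Tr (lab 0) (u j) (lab j) (q j) := by
  obtain ⟨w, hw, h1⟩ := h.seg (Nat.zero_le j) hj
  rw [h.u0, List.nil_append] at hw
  rw [h.q0] at h1
  rw [hw]
  simpa using h1

open Classical in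
/-- First time at which the path has covered position `p`. -/
noncomputable def jt (n : ℕ) (u : ℕ → List T) (p : ℕ) : ℕ :=
  if h : ∃ j, j ≤ n ∧ p ≤ (u j).length then Nat.find h else 0

lemma jt_spec {p : ℕ} (hp : p ≤ (u n).length) : jt n u p ≤ n ∧ p ≤ (u (jt n u p)).length := by
  classical
  have h : ∃ j, j ≤ n ∧ p ≤ (u j).length := ⟨n, le_rfl, hp⟩
  unfold jt
  rw [dif_pos h]
  exact Nat.find_spec h

lemma jt_le {p j : ℕ} (hj : j ≤ n) (hp : p ≤ (u j).length) : jt n u p ≤ j := by
  classical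
  have h : ∃ j, j ≤ n ∧ p ≤ (u j).length := ⟨j, hj, hp⟩
  unfold jt
  rw [dif_pos h]
  exact Nat.find_min' h ⟨hj, hp⟩

lemma jt_mono {p p' : ℕ} (hpp : p ≤ p') (hp : p' ≤ (u n).length) : jt n u p ≤ jt n u p' := by
  have h := jt_spec hp
  exact jt_le h.1 (hpp.trans h.2)

lemma len_le_add (h : TPath S H n lab u q) {p : ℕ} (hp : p ≤ (u n).length) :
    (u (jt n u p)).length ≤ p + H := by
  have hs := jt_spec (n := n) (u := u) hp
  rcases Nat.eq_zero_or_pos (jt n u p) with h0 | h0
  · rw [h0, h.u0]; simp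
  · obtain ⟨j, hj⟩ : ∃ j, jt n u p = j + 1 := ⟨jt n u p - 1, by omega⟩
    obtain ⟨w, hw, hwl, -⟩ := h.step j (by omega)
    have hlt : (u j).length < p := by
      by_contra hc
      have := jt_le (n := n) (u := u) (j := j) (p := p) (by omega) (by omega)
      omega
    rw [hj, hw, List.length_append]
    omega

/-- State at position `p`. -/
noncomputable def st (H n : ℕ) (lab : ℕ → Lab) (u : ℕ → List T) (p : ℕ) : St T Lab H :=
  (⟨((u (jt n u p)).drop p).take H, by simp⟩, lab (jt n u p))

lemma pr_st (h : TPath S H n lab u q) {p : ℕ} (hp : p ≤ (u n).length) :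
    pr (st H n lab u p) = ((u (jt n u p)).drop p, lab (jt n u p)) := by
  have := h.len_le_add hp
  simp only [pr, st, Prod.mk.injEq, and_true]
  apply List.take_of_length_le
  rw [List.length_drop]
  omega

lemma sr_st (h : TPath S H n lab u q) {p p' : ℕ} (hpp : p ≤ p') (hp : p' ≤ (u n).length) :
    S.SR (pr (st H n lab u p)) (((u n).take p').drop p) (pr (st H n lab u p'))
      ((q (jt n u p))⁻¹ * q (jt n u p')) := by
  rw [h.pr_st (hpp.trans hp), h.pr_st hp]
  have hs := jt_spec (n := n) (u := u) (hpp.trans hp)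
  have hs' := jt_spec (n := n) (u := u) hp
  obtain ⟨w, hw, h1⟩ := h.seg (jt_mono hpp hp) hs'.1
  refine ⟨w, ?_, h1⟩
  simp only
  have h2 : (u n).take p' = (u (jt n u p')).take p' := by
    have h3 := h.eq_take hs'.1 le_rfl
    conv_rhs => rw [h3]
    rw [List.take_take, min_eq_left hs'.2]
  have h4 : (u (jt n u p')).drop p = (u (jt n u p)).drop p ++ w := by
    rw [hw, List.drop_append_of_le_length hs.2]
  rw [← h4, h2]
  conv_rhs => rw [← List.take_append_drop p' (u (jt n u p'))]
  rw [List.drop_append_of_le_length]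
  rw [List.length_take, min_eq_left hs'.2]
  exact hpp

lemma mem_ev_st (h : TPath S H n lab u q) {ι : Type} {w : ι → List T} (W : List ι) {p : ℕ}
    (hp : p + (W.flatMap w).length ≤ (u n).length)
    (he : ((u n).drop p).take (W.flatMap w).length = W.flatMap w) :
    st H n lab u p ∈ (ev (S.PM H w) W) {st H n lab u (p + (W.flatMap w).length)} := by
  induction W generalizing p with
  | nil => simp; rfl
  | cons a W ih =>
    rw [ev_cons_apply]
    rw [List.flatMap_cons, List.length_append] at hp he ⊢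
    have h1 : ((u n).drop p).take (w a).length = w a := by
      have := congrArg (List.take (w a).length) he
      rw [List.take_take, List.take_left, min_eq_left (by omega)] at this
      exact this
    have h2 : ((u n).drop (p + (w a).length)).take (W.flatMap w).length = W.flatMap w := by
      have := congrArg (List.drop (w a).length) he
      rw [List.drop_take, List.drop_left, List.drop_drop] at this
      simpa using this
    have h3 := ih (p := p + (w a).length) (by omega) h2
    rw [← Nat.add_assoc]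
    refine ⟨_, h3, (q (jt n u p))⁻¹ * q (jt n u (p + (w a).length)), ?_⟩
    have h4 := h.sr_st (p := p) (p' := p + (w a).length) (by omega) (by omega)
    rw [List.drop_take] at h4
    simpa [h1] using h4

end TPath

end Pool.Agent.MP5ca50a
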