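import Pool.Agent.Lib.MP_5ca50a_lc.BGram
import Pool.Agent.Lib.MP_5ca50a_lc.Locked

/-!
The track systems of a component: left, right and mixed.
-/

set_option autoImplicit false

namespace Pool.Agent.MP5ca50a

variable {T N : Type}

/-- A component with frames. -/
structure Cpt (Mf : N → Language T) (k : ℕ) where
  B0 : N
  hP0 : CondP (k + 1) (Mf B0)
  D : N → Prop
  fr : ∀ P : {P // D P}, Fr hP0 (Mf P.1)

namespace Cpt

variable {Mf : N → Language T} {k : ℕ} (c : Cpt Mf k)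

/-- Labels of a component. -/
abbrev Lab : Type := {P // c.D P}

/-- The group of a component. -/
abbrev Q : Type := LQ c.hP0

/-- Left track system. -/
def trL : TrackSys T c.Lab c.Q where
  Tr P w P' γ := ∃ (b : List T) (h : TT (Mf P.1) (Mf P'.1) w b), gam (c.fr P) (c.fr P') h = γ
  refl P := ⟨[], TT.refl _, gam_refl _⟩
  comp := by
    rintro P P' P'' w w' γ γ' ⟨b, h, rfl⟩ ⟨b', h', rfl⟩
    exact ⟨b' ++ b, h.comp h', (gam_comp _ _ _ h h').symm⟩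
  func := by
    rintro P P' w γ γ' ⟨b, h, rfl⟩ ⟨b', h', rfl⟩
    exact gam_left _ _ _ _

/-- Right track system. -/
def trR : TrackSys T c.Lab c.Q where
  Tr P w P' γ := ∃ (a : List T) (h : TT (Mf P.1) (Mf P'.1) a w.reverse),
    gam (c.fr P) (c.fr P') h = γ
  refl P := ⟨[], TT.refl _, gam_refl _⟩
  comp := by
    rintro P P' P'' w w' γ γ' ⟨a, h, rfl⟩ ⟨a', h', rfl⟩
    refine ⟨a ++ a', by rw [List.reverse_append]; exact h.comp h', ?_⟩
    rw [gam_comp]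
    exact cls_eq_of_left rfl
  func := by
    rintro P P' w γ γ' ⟨a, h, rfl⟩ ⟨a', h', rfl⟩
    exact gam_right _ _ _ _

lemma trL_iff {P P' : c.Lab} {w : List T} {γ : c.Q} : c.trL.Tr P w P' γ ↔
    ∃ (b : List T) (h : TT (Mf P.1) (Mf P'.1) w b), gam (c.fr P) (c.fr P') h = γ := Iff.rfl

lemma trR_iff {P P' : c.Lab} {w : List T} {γ : c.Q} : c.trR.Tr P w P' γ ↔
    ∃ (a : List T) (h : TT (Mf P.1) (Mf P'.1) a w.reverse), gam (c.fr P) (c.fr P') h = γ :=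
  Iff.rfl

/-- Replacing the left word of a typed transition by one with the same value. -/
lemma tt_of_trL {P P' : c.Lab} {u v u' : List T} (h : TT (Mf P.1) (Mf P'.1) u v)
    (h' : c.trL.Tr P u' P' (gam (c.fr P) (c.fr P') h)) : TT (Mf P.1) (Mf P'.1) u' v := by
  obtain ⟨b, hb, he⟩ := h'
  intro m hm
  have h1 := (gam_eq_iff _ _ hb h).mp he (m ++ v)
  rw [List.append_assoc, h1, ← List.append_assoc]
  exact h m hm

lemma tt_of_trR {P P' : c.Lab} {u v v' : List T} (h : TT (Mf P.1) (Mf P'.1) u v)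
    (h' : c.trR.Tr P v'.reverse P' (gam (c.fr P) (c.fr P') h)) :
    TT (Mf P.1) (Mf P'.1) u v' := by
  obtain ⟨a, ha, he⟩ := h'
  intro m hm
  have h1 := (gam_eq_iff _ _ ha h).mp he (m ++ v')
  rw [List.append_assoc, ← h1, ← List.append_assoc]
  have := ha m hm
  rwa [List.reverse_reverse] at this

/-- Retyping: a prefix of type `P'` is equivalent to one passing through type `P`. -/
lemma retype {P P' : c.Lab} {a b x y : List T} (h : TT (Mf c.B0) (Mf P'.1) a b)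
    (h1 : TT (Mf P.1) (Mf P'.1) x y) :
    ∃ (a₁ b₁ : List T) (h₁ : TT (Mf c.B0) (Mf P.1) a₁ b₁),
      gam (Fr.base c.hP0) (c.fr P) h₁ =
        gam (Fr.base c.hP0) (c.fr P') h * (gam (c.fr P) (c.fr P') h1)⁻¹ ∧
      ∀ z, a₁ ++ (x ++ z) ∈ Mf c.B0 ↔ a ++ z ∈ Mf c.B0 := by
  obtain ⟨a₁, b₁, h₁, he⟩ := gam_surj (c.fr P)
    (gam (Fr.base c.hP0) (c.fr P') h * (gam (c.fr P) (c.fr P') h1)⁻¹)
  refine ⟨a₁, b₁, h₁, he, ?_⟩
  have h2 : gam (Fr.base c.hP0) (c.fr P') (h₁.comp h1) = gam (Fr.base c.hP0) (c.fr P') h := by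
    rw [← gam_comp _ (c.fr P) _ h₁ h1, he]
    group
  intro z
  have h3 := (gam_eq_iff _ _ _ _).mp h2 z
  rwa [List.append_assoc] at h3

end Cpt

section mixed

variable {g : BG T N} {S : N} {k : ℕ} (c : Cpt (g.M S) k)

/-- Middle words: empty at starts, derived at ends. -/
def midw (g : BG T N) (σ : Bool) (P : N) (m : List T) : Prop :=
  match σ with
  | false => m = []
  | true => g.Der P m

/-- Prefixes in a given mixed state. -/
def II (σ : Bool × c.Lab) (q : c.Q) : Set (List T) :=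
  {s | ∃ (a b : List T) (h : TT (g.M S c.B0) (g.M S σ.2.1) a b),
    gam (Fr.base c.hP0) (c.fr σ.2) h = q ∧
    ∃ m, midw g σ.1 σ.2.1 m ∧ ∀ x, s ++ x ∈ g.M S c.B0 ↔ a ++ (m ++ x) ∈ g.M S c.B0}

/-- Expansive components with productive labels. -/
structure Expans : Prop where
  prod : ∀ P, c.D P → ∃ m, g.Der P m
  reach : ∀ P P', c.D P → c.D P' → ∃ x y, g.DC P x y P'
  exp : ∃ R R' R'', c.D R ∧ c.D R' ∧ c.D R'' ∧ g.b R R' R''

variable {c}

lemma Expans.test (hE : Expans c) (P : c.Lab) : ∃ (R : c.Lab) (y : List T) (κ : c.Q),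
    ∀ (a b : List T) (h : TT (g.M S c.B0) (g.M S P.1) a b) (m : List T), g.Der P.1 m →
      ∃ (a' b' : List T) (h' : TT (g.M S c.B0) (g.M S R.1) a' b'),
        gam (Fr.base c.hP0) (c.fr R) h' = gam (Fr.base c.hP0) (c.fr P) h * κ ∧
        ∀ x, a ++ (m ++ (y ++ x)) ∈ g.M S c.B0 ↔ a' ++ x ∈ g.M S c.B0 := by
  obtain ⟨R, R', R'', hR, hR', hR'', hb⟩ := hE.exp
  obtain ⟨x0, y, hxy⟩ := hE.reach R' P.1 hR' P.2
  obtain ⟨w'', hw''⟩ := hE.prod R'' hR''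
  obtain ⟨m0, hm0⟩ := hE.prod P.1 P.2
  have h1 : TT (g.M S R) (g.M S P.1) x0 (y ++ w'') := (BG.DC.left hb hw'' hxy).tt
  have h2 : ∀ m, g.Der P.1 m → TT (g.M S R) (g.M S R'') (x0 ++ m ++ y) [] := fun m hm =>
    (BG.DC.right1 hb (hxy.der hm)).tt
  refine ⟨⟨R'', hR''⟩, y, (gam (c.fr ⟨R, hR⟩) (c.fr P) h1)⁻¹ *
    gam (c.fr ⟨R, hR⟩) (c.fr ⟨R'', hR''⟩) (h2 m0 hm0), ?_⟩
  intro a b h m hm
  obtain ⟨a₁, b₁, h₁, he, hz⟩ := c.retype (P := ⟨R, hR⟩) h h1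
  refine ⟨_, _, h₁.comp (h2 m hm), ?_, ?_⟩
  · rw [← gam_comp _ (c.fr ⟨R, hR⟩) _ h₁ (h2 m hm), he,
      gam_right _ _ (h2 m hm) (h2 m0 hm0)]
    group
  · intro x
    rw [← hz]
    simp [List.append_assoc]

lemma Expans.disj (hE : Expans c) {σ : Bool × c.Lab} {q q' : c.Q} {s : List T}
    (h : s ∈ II c σ q) (h' : s ∈ II c σ q') : q = q' := by
  obtain ⟨σ, P⟩ := σ
  obtain ⟨a, b, h1, rfl, m, hm, hx⟩ := h
  obtain ⟨a', b', h1', rfl, m', hm', hx'⟩ := h'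
  cases σ with
  | false =>
    have e1 : m = [] := hm
    have e2 : m' = [] := hm'
    subst e1 e2
    rw [gam_eq_iff]
    intro x
    have h2 := hx x
    have h3 := hx' x
    simp only [List.nil_append] at h2 h3
    rw [← h2, h3]
  | true =>
    obtain ⟨R, y, κ, ht⟩ := hE.test P
    obtain ⟨a₁, b₁, h₁, e₁, hz₁⟩ := ht a b h1 m hm
    obtain ⟨a₂, b₂, h₂, e₂, hz₂⟩ := ht a' b' h1' m' hm'
    have h3 : gam (Fr.base c.hP0) (c.fr R) h₁ = gam (Fr.base c.hP0) (c.fr R) h₂ := by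
      rw [gam_eq_iff]
      intro x
      rw [← hz₁, ← hz₂, ← hx, ← hx']
    rw [e₁, e₂] at h3
    exact mul_right_cancel h3

lemma Expans.nonempty (hE : Expans c) (σ : Bool × c.Lab) : ∃ s, s ∈ II c σ 1 := by
  obtain ⟨a, b, h, he⟩ := gam_surj (c.fr σ.2) (1 : c.Q)
  obtain ⟨m, hm⟩ := hE.prod σ.2.1 σ.2.2
  obtain ⟨σ, P⟩ := σ
  cases σ with
  | false => exact ⟨a, a, b, h, he, [], rfl, fun x => by simp⟩
  | true => exact ⟨a ++ m, a, b, h, he, m, hm, fun x => by simp⟩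

/-- The mixed track system of an expansive component. -/
def mixS (hE : Expans c) : TrackSys T (Bool × c.Lab) c.Q where
  Tr σ w σ' γ := ∀ q, ∀ s ∈ II c σ q, s ++ w ∈ II c σ' (q * γ)
  refl σ q s hs := by simpa using hs
  comp := by
    intro σ σ' σ'' w w' γ γ' h h' q s hs
    have := h' _ _ (h q s hs)
    rwa [List.append_assoc, mul_assoc] at this
  func := by
    intro σ σ' w γ γ' h h'
    obtain ⟨s, hs⟩ := hE.nonempty σ
    have := hE.disj (h 1 s hs) (h' 1 s hs)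
    simpa using this

variable (hE : Expans c)

lemma mix_e1 {P P' P'' : N} (hP : c.D P) (hP'' : c.D P'') (hb : g.b P P' P'') {w : List T}
    (hw : g.Der P' w) : (mixS hE).Tr (false, ⟨P, hP⟩) w (false, ⟨P'', hP''⟩)
      (gam (c.fr ⟨P, hP⟩) (c.fr ⟨P'', hP''⟩) (BG.DC.right1 hb hw).tt) := by
  rintro q s ⟨a, b, h, rfl, m, hm, hx⟩
  have e1 : m = [] := hm
  subst e1
  have h1 : TT (g.M S P) (g.M S P'') w [] := (BG.DC.right1 hb hw).tt
  refine ⟨_, _, h.comp h1, ?_, [], rfl, ?_⟩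
  · exact (gam_comp _ (c.fr ⟨P, hP⟩) _ h h1).symm
  · intro x
    have := hx (w ++ x)
    simpa [List.append_assoc] using this

lemma mix_e2 {P P' P'' : N} (hP : c.D P) (hP' : c.D P') (hb : g.b P P' P'') {w : List T}
    (hw : g.Der P'' w) : (mixS hE).Tr (false, ⟨P, hP⟩) [] (false, ⟨P', hP'⟩)
      (gam (c.fr ⟨P, hP⟩) (c.fr ⟨P', hP'⟩) (BG.DC.left1 hb hw).tt) := by
  rintro q s ⟨a, b, h, rfl, m, hm, hx⟩
  have e1 : m = [] := hm
  subst e1
  have h1 : TT (g.M S P) (g.M S P') [] w := (BG.DC.left1 hb hw).tt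
  refine ⟨_, _, h.comp h1, ?_, [], rfl, ?_⟩
  · exact (gam_comp _ (c.fr ⟨P, hP⟩) _ h h1).symm
  · intro x
    have := hx x
    simpa [List.append_assoc] using this

lemma mix_e3 {P : N} (hP : c.D P) {w : List T} (hw : g.Der P w) :
    (mixS hE).Tr (false, ⟨P, hP⟩) w (true, ⟨P, hP⟩) 1 := by
  rintro q s ⟨a, b, h, rfl, m, hm, hx⟩
  have e1 : m = [] := hm
  subst e1
  refine ⟨a, b, h, (mul_one _).symm, w, hw, ?_⟩
  intro x
  have := hx (w ++ x)
  simpa [List.append_assoc] using this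

lemma mix_e4 {P P' P'' : N} (hP : c.D P) (hP' : c.D P') (hb : g.b P P' P'') {w : List T}
    (hw : g.Der P'' w) : (mixS hE).Tr (true, ⟨P', hP'⟩) w (true, ⟨P, hP⟩)
      (gam (c.fr ⟨P, hP⟩) (c.fr ⟨P', hP'⟩) (BG.DC.left1 hb hw).tt)⁻¹ := by
  rintro q s ⟨a, b, h, rfl, m, hm, hx⟩
  have hm' : g.Der P' m := hm
  have h1 : TT (g.M S P) (g.M S P') [] w := (BG.DC.left1 hb hw).tt
  obtain ⟨a₁, b₁, h₁, he, hz⟩ := c.retype (P := ⟨P, hP⟩) (P' := ⟨P', hP'⟩) h h1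
  refine ⟨a₁, b₁, h₁, he, m ++ w, BG.Der.bin hb hm' hw, ?_⟩
  intro x
  have h2 := hx (w ++ x)
  have h3 := hz (m ++ (w ++ x))
  simp only [List.append_assoc, List.nil_append] at h2 h3 ⊢
  rw [h2, h3]

lemma mix_e5 {P P' P'' : N} (hP : c.D P) (hP'' : c.D P'') (hb : g.b P P' P'') {w : List T}
    (hw : g.Der P' w) : (mixS hE).Tr (true, ⟨P'', hP''⟩) [] (true, ⟨P, hP⟩)
      (gam (c.fr ⟨P, hP⟩) (c.fr ⟨P'', hP''⟩) (BG.DC.right1 hb hw).tt)⁻¹ := by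
  rintro q s ⟨a, b, h, rfl, m, hm, hx⟩
  have hm' : g.Der P'' m := hm
  have h1 : TT (g.M S P) (g.M S P'') w [] := (BG.DC.right1 hb hw).tt
  obtain ⟨a₁, b₁, h₁, he, hz⟩ := c.retype (P := ⟨P, hP⟩) (P' := ⟨P'', hP''⟩) h h1
  refine ⟨a₁, b₁, h₁, he, w ++ m, BG.Der.bin hb hw hm', ?_⟩
  intro x
  have h2 := hx x
  have h3 := hz (m ++ x)
  simp only [List.append_assoc, List.append_nil] at h2 h3 ⊢
  rw [h2, h3]

lemma mix_e6 {P P' P'' : N} (hP : c.D P) (hP' : c.D P') (hP'' : c.D P'') (hb : g.b P P' P'')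
    {w' w'' : List T} (hw' : g.Der P' w') (hw'' : g.Der P'' w'') :
    (mixS hE).Tr (true, ⟨P', hP'⟩) [] (false, ⟨P'', hP''⟩)
      ((gam (c.fr ⟨P, hP⟩) (c.fr ⟨P', hP'⟩) (BG.DC.left1 hb hw'').tt)⁻¹ *
        gam (c.fr ⟨P, hP⟩) (c.fr ⟨P'', hP''⟩) (BG.DC.right1 hb hw').tt) := by
  rintro q s ⟨a, b, h, rfl, m, hm, hx⟩
  have hm' : g.Der P' m := hm
  have h1 : TT (g.M S P) (g.M S P') [] w'' := (BG.DC.left1 hb hw'').tt
  have h2 : TT (g.M S P) (g.M S P'') m [] := (BG.DC.right1 hb hm').tt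
  have h2' : TT (g.M S P) (g.M S P'') w' [] := (BG.DC.right1 hb hw').tt
  obtain ⟨a₁, b₁, h₁, he, hz⟩ := c.retype (P := ⟨P, hP⟩) (P' := ⟨P', hP'⟩) h h1
  refine ⟨_, _, h₁.comp h2, ?_, [], rfl, ?_⟩
  · have h3 := gam_comp (Fr.base c.hP0) (c.fr ⟨P, hP⟩) (c.fr ⟨P'', hP''⟩) h₁ h2
    rw [← h3, he, gam_right _ _ h2 h2', mul_assoc]
  · intro x
    have h4 := hx x
    have h5 := hz (m ++ x)
    simp only [List.append_assoc, List.nil_append, List.append_nil] at h4 h5 ⊢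
    rw [h4, h5]

/-- From a mixed run with trivial output back to membership. -/
lemma mix_final {C : c.Lab} {m : List T}
    (h : (mixS hE).Tr (false, C) m (true, C) 1) : m ∈ g.M S C.1 := by
  have f := c.fr C
  have h0 : (c.fr C).s ∈ II c (false, C) (gam (Fr.base c.hP0) (c.fr C) (c.fr C).h1) :=
    ⟨_, _, (c.fr C).h1, rfl, [], rfl, fun x => by simp⟩
  obtain ⟨a, b, h1, he, m', hm', hx⟩ := h _ _ h0
  have hm'' : g.Der C.1 m' := hm'
  rw [mul_one, gam_eq_iff] at he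
  rw [← f4 (c.fr C).hP' (c.fr C).h1 (c.fr C).h2, List.append_assoc, ← List.append_assoc, hx,
    he, ← List.append_assoc]
  exact (c.fr C).h1 _ (BG.der_mem_M hm'')

end mixed

end Pool.Agent.MP5ca50a
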