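import Mathlib

/-!
Word level lemmas for condition `P_k` on iterative pairs.
-/

set_option autoImplicit false

namespace Pool.Agent.MP5ca50a

universe u

variable {α : Type u}

/-- Power of a word. -/
def wpow (w : List α) (n : ℕ) : List α := (List.replicate n w).flatten

@[simp] lemma wpow_zero (w : List α) : wpow w 0 = [] := by simp [wpow]

@[simp] lemma wpow_one (w : List α) : wpow w 1 = w := by simp [wpow]

@[simp] lemma wpow_nil (n : ℕ) : wpow ([] : List α) n = [] := by
  simp [wpow]

lemma wpow_add (w : List α) (m n : ℕ) : wpow w (m + n) = wpow w m ++ wpow w n := by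
  simp only [wpow]
  rw [List.replicate_add, List.flatten_append]

lemma wpow_succ (w : List α) (n : ℕ) : wpow w (n + 1) = wpow w n ++ w := by
  rw [wpow_add, wpow_one]

lemma wpow_succ' (w : List α) (n : ℕ) : wpow w (n + 1) = w ++ wpow w n := by
  rw [Nat.add_comm, wpow_add, wpow_one]

lemma wpow_mul (w : List α) (m n : ℕ) : wpow (wpow w m) n = wpow w (m * n) := by
  induction n with
  | zero => simp
  | succ n ih => rw [wpow_succ, ih, Nat.mul_succ, wpow_add]

lemma wpow_eq_nil {w : List α} {n : ℕ} (hn : n ≠ 0) (h : wpow w n = []) : w = [] := by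
  obtain ⟨m, rfl⟩ := Nat.exists_eq_succ_of_ne_zero hn
  rw [Nat.succ_eq_add_one, wpow_succ] at h
  exact (List.append_eq_nil_iff.mp h).2

/-- Condition `P_k` for the language `L`. -/
def CondP (k : ℕ) (L : Language α) : Prop :=
  ∀ x u y v z : List α, u ++ v ≠ [] →
    (∀ n : ℕ, 1 ≤ n → x ++ wpow u n ++ y ++ wpow v n ++ z ∈ L) →
    ∀ m m' : ℕ, x ++ wpow u (k * m) ++ y ++ wpow v (k * m') ++ z ∈ L

lemma CondP.left {k : ℕ} {L : Language α} (hP : CondP k L) (x u y : List α)
    (h : ∀ n : ℕ, 1 ≤ n → x ++ wpow u n ++ y ∈ L) (m : ℕ) : x ++ wpow u (k * m) ++ y ∈ L := by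
  by_cases hu : u = []
  · subst hu
    simpa using h 1 le_rfl
  · have := hP x u y [] [] (by simpa using hu) (fun n hn => by simpa using h n hn) m 0
    simpa using this

/-- One-word core of the loop rule. -/
lemma CondP.core {k : ℕ} {L : Language α} (hP : CondP k L)
    (x c y d z : List α) (a b : ℕ)
    (h : ∀ n : ℕ, 1 ≤ n → x ++ wpow c (k * a + n) ++ y ++ wpow d (k * b + n) ++ z ∈ L) :
    x ++ y ++ z ∈ L := by
  by_cases hcd : c ++ d = []
  · obtain ⟨rfl, rfl⟩ := List.append_eq_nil_iff.mp hcd
    simpa using h 1 le_rfl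
  -- independent exponents
  have h1 : ∀ m m' : ℕ, x ++ wpow c (k * a + k * m) ++ y ++ wpow d (k * b + k * m') ++ z ∈ L := by
    intro m m'
    have := hP (x ++ wpow c (k * a)) c y d (wpow d (k * b) ++ z) hcd (fun n hn => by
      have h2 := h n hn
      rw [wpow_add, Nat.add_comm (k * b) n, wpow_add] at h2
      simpa [List.append_assoc] using h2) m m'
    rw [wpow_add, Nat.add_comm (k * b) (k * m'), wpow_add]
    simpa [List.append_assoc] using this
  -- kill the left exponent
  have h2 : ∀ m' : ℕ, x ++ y ++ wpow d (k * b + k * m') ++ z ∈ L := by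
    intro m'
    have := hP.left x (wpow c (k * (a + 1))) (y ++ wpow d (k * b + k * m') ++ z) (fun n hn => by
      have h3 := h1 ((a + 1) * n - a) m'
      have h4 : k * a + k * ((a + 1) * n - a) = k * (a + 1) * n := by
        have : a ≤ (a + 1) * n := by nlinarith
        rw [← Nat.mul_add, Nat.add_sub_cancel' this, Nat.mul_assoc]
      rw [h4] at h3
      rw [wpow_mul]
      simpa [List.append_assoc] using h3) 0
    simpa [List.append_assoc] using this
  have h3 := hP.left (x ++ y) (wpow d (k * (b + 1))) z (fun n hn => by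
      have h3 := h2 ((b + 1) * n - b)
      have h4 : k * b + k * ((b + 1) * n - b) = k * (b + 1) * n := by
        have : b ≤ (b + 1) * n := by nlinarith
        rw [← Nat.mul_add, Nat.add_sub_cancel' this, Nat.mul_assoc]
      rw [h4] at h3
      rw [wpow_mul]
      simpa [List.append_assoc] using h3) 0
  simpa [List.append_assoc] using h3

lemma wpow_mem_pow {C : Language α} {c : List α} (hc : c ∈ C) (n : ℕ) : wpow c n ∈ C ^ n := by
  induction n with
  | zero => simp
  | succ n ih =>
    rw [wpow_succ, pow_succ]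
    exact Language.append_mem_mul ih hc

/-- Language-level loop rule. -/
lemma CondP.lang {k : ℕ} {L : Language α} (hP : CondP k L)
    (A C B B' D A' : Language α) (hC : ∃ c, c ∈ C) (hD : ∃ d, d ∈ D)
    (h : ∀ n : ℕ, 1 ≤ n → ∀ w ∈ A * C ^ n * B, ∀ w' ∈ B' * D ^ n * A', w ++ w' ∈ L)
    (i j : ℕ) : ∀ w ∈ A * C ^ (k * i) * B, ∀ w' ∈ B' * D ^ (k * j) * A', w ++ w' ∈ L := by
  obtain ⟨c, hc⟩ := hC
  obtain ⟨d, hd⟩ := hD
  intro w hw w' hw'
  obtain ⟨w₁, hw₁, b, hb, rfl⟩ := hw
  obtain ⟨a, ha, s, hs, rfl⟩ := hw₁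
  obtain ⟨w₂, hw₂, a', ha', rfl⟩ := hw'
  obtain ⟨b', hb', t, ht, rfl⟩ := hw₂
  have key := hP.core (a ++ s) c (b ++ b') d (t ++ a') j i (fun n hn => by
    have h1 := h (k * i + k * j + n) (by omega) (a ++ (s ++ wpow c (k * j + n)) ++ b)
      (Language.append_mem_mul (Language.append_mem_mul ha (by
        have : k * i + k * j + n = k * i + (k * j + n) := by ring
        rw [this, pow_add]
        exact Language.append_mem_mul hs (wpow_mem_pow hc _))) hb)
      (b' ++ (wpow d (k * i + n) ++ t) ++ a')
      (Language.append_mem_mul (Language.append_mem_mul hb' (by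
        have : k * i + k * j + n = (k * i + n) + k * j := by ring
        rw [this, pow_add]
        exact Language.append_mem_mul (wpow_mem_pow hd _) ht)) ha')
    simpa [List.append_assoc] using h1)
  simpa [List.append_assoc] using key

end Pool.Agent.MP5ca50a
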